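import Pool.Agent.H.MP_1611f1_gt.BR.Srf

/-!
The collapse function of a wall.
-/

namespace Pool.Agent.H.MP_1611f1_gt.BR

open Topology Set Filter

/-- the collapse function of the vertical wall, in the coordinates relative to the centre of the
disc: it is `0` to the right of the wall, `1` to the left of the wall; in the collar it depends on
the angle only, outside of the collar on `v` only -/
noncomputable def alf (v h : ℝ) : ℝ :=
  cl 1 (2 / Real.pi * Real.arccos (v / min (Real.sqrt (v ^ 2 + h ^ 2)) 2) - 1 / 2)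

theorem ArcA_lt {t θ : ℝ} (h0 : 0 < θ) (hp : θ ≤ Real.pi) : Real.arccos t < θ ↔ Real.cos θ < t := by
  have e : Real.arccos (Real.cos θ) = θ := Real.arccos_cos h0.le hp
  constructor
  · intro h
    by_contra hn
    have h1 := Real.arccos_le_arccos (not_lt.1 hn)
    rw [e] at h1
    exact absurd h (not_lt.2 h1)
  · intro h
    rcases le_total t 1 with h1 | h1
    · have h2 := Real.arccos_lt_arccos (Real.neg_one_le_cos θ) h h1
      rwa [e] at h2
    · rw [Real.arccos_of_one_le h1]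
      exact h0

theorem ArcA_gt {t θ : ℝ} (h0 : 0 ≤ θ) (hp : θ < Real.pi) : θ < Real.arccos t ↔ t < Real.cos θ := by
  have e : Real.arccos (Real.cos θ) = θ := Real.arccos_cos h0 hp.le
  constructor
  · intro h
    by_contra hn
    have h1 := Real.arccos_le_arccos (not_lt.1 hn)
    rw [e] at h1
    exact absurd h (not_lt.2 h1)
  · intro h
    rcases le_total (-1) t with h1 | h1
    · have h2 := Real.arccos_lt_arccos h1 h (Real.cos_le_one θ)
      rwa [e] at h2
    · rw [Real.arccos_of_le_neg_one h1]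
      exact hp

/-- the value if the angle is small -/
theorem ArcA_zero {v h : ℝ} (hv : Real.cos (Real.pi / 4) ≤ v / min (Real.sqrt (v ^ 2 + h ^ 2)) 2) :
    alf v h = 0 := by
  have hpi := Real.pi_pos
  have h1 := Real.arccos_le_arccos hv
  rw [Real.arccos_cos (by positivity) (by linarith)] at h1
  unfold alf
  apply cl_zero zero_le_one
  have h2 : 2 / Real.pi * Real.arccos (v / min (Real.sqrt (v ^ 2 + h ^ 2)) 2) ≤
      2 / Real.pi * (Real.pi / 4) := mul_le_mul_of_nonneg_left h1 (by positivity)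
  have h3 : 2 / Real.pi * (Real.pi / 4) = 1 / 2 := by field_simp; norm_num
  linarith

/-- the value if the angle is large -/
theorem ArcA_one {v h : ℝ} (hv : v / min (Real.sqrt (v ^ 2 + h ^ 2)) 2 ≤ -Real.cos (Real.pi / 4)) :
    alf v h = 1 := by
  have hpi := Real.pi_pos
  have e : Real.cos (3 * Real.pi / 4) = -Real.cos (Real.pi / 4) := by
    rw [← Real.cos_pi_sub]
    congr 1
    ring
  rw [← e] at hv
  have h1 := Real.arccos_le_arccos hv
  rw [Real.arccos_cos (by positivity) (by linarith)] at h1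
  unfold alf
  apply cl_top zero_le_one
  have h2 : 2 / Real.pi * (3 * Real.pi / 4) ≤
      2 / Real.pi * Real.arccos (v / min (Real.sqrt (v ^ 2 + h ^ 2)) 2) :=
    mul_le_mul_of_nonneg_left h1 (by positivity)
  have h3 : 2 / Real.pi * (3 * Real.pi / 4) = 3 / 2 := by field_simp; norm_num
  linarith

theorem ArcA_min {v h : ℝ} (hr : 4 ≤ v ^ 2 + h ^ 2) : min (Real.sqrt (v ^ 2 + h ^ 2)) 2 = 2 := by
  apply min_eq_right
  apply Real.le_sqrt_of_sq_le
  norm_num
  exact hr

theorem ArcA_pos {v h : ℝ} (hr : 0 < v ^ 2 + h ^ 2) : 0 < min (Real.sqrt (v ^ 2 + h ^ 2)) 2 :=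
  lt_min (Real.sqrt_pos.2 hr) two_pos

/-- the value at a middle angle -/
theorem ArcA_mid {v h θ : ℝ} (h0 : Real.pi / 4 ≤ θ) (h1 : θ ≤ 3 * Real.pi / 4)
    (hv : v / min (Real.sqrt (v ^ 2 + h ^ 2)) 2 = Real.cos θ) :
    alf v h = 2 / Real.pi * θ - 1 / 2 := by
  have hpi := Real.pi_pos
  unfold alf
  rw [hv, Real.arccos_cos (by linarith) (by linarith)]
  have h2 : 2 / Real.pi * (Real.pi / 4) ≤ 2 / Real.pi * θ :=
    mul_le_mul_of_nonneg_left h0 (by positivity)
  have h3 : 2 / Real.pi * (Real.pi / 4) = 1 / 2 := by field_simp; norm_num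
  have h4 : 2 / Real.pi * θ ≤ 2 / Real.pi * (3 * Real.pi / 4) :=
    mul_le_mul_of_nonneg_left h1 (by positivity)
  have h5 : 2 / Real.pi * (3 * Real.pi / 4) = 3 / 2 := by field_simp; norm_num
  exact cl_id (by linarith) (by linarith)

theorem alf_mem (v h : ℝ) : alf v h ∈ Icc (0 : ℝ) 1 := cl_mem zero_le_one _

theorem alf_cont : ContinuousOn (fun z : ℝ × ℝ => alf z.1 z.2) {z | 0 < z.1 ^ 2 + z.2 ^ 2} := by
  unfold alf
  apply (cl_cont 1).comp_continuousOn
  have h1 : ContinuousOn (fun z : ℝ × ℝ => z.1 / min (Real.sqrt (z.1 ^ 2 + z.2 ^ 2)) 2)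
      {z | 0 < z.1 ^ 2 + z.2 ^ 2} := by
    apply ContinuousOn.div
    · exact continuous_fst.continuousOn
    · apply Continuous.continuousOn
      fun_prop
    · intro z hz
      exact (ArcA_pos hz).ne'
  exact (continuousOn_const.mul (Real.continuous_arccos.comp_continuousOn h1)).sub
    continuousOn_const

/-- outside of the collar `alf` depends on `v` only -/
theorem alf_far {v h : ℝ} (hr : 4 ≤ v ^ 2 + h ^ 2) : alf v h = alf v 2 := by
  unfold alf
  rw [ArcA_min hr, ArcA_min (show 4 ≤ v ^ 2 + 2 ^ 2 by have := sq_nonneg v; linarith)]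

theorem alf_right {v h : ℝ} (hv : 2 ≤ v) : alf v h = 0 := by
  apply ArcA_zero
  have h1 : 0 < v ^ 2 + h ^ 2 := by positivity
  rw [le_div_iff₀ (ArcA_pos h1)]
  calc Real.cos (Real.pi / 4) * min (Real.sqrt (v ^ 2 + h ^ 2)) 2 ≤ 1 * 2 :=
        mul_le_mul (Real.cos_le_one _) (min_le_right _ _) (ArcA_pos h1).le zero_le_one
    _ ≤ v := by linarith

theorem alf_left {v h : ℝ} (hv : v ≤ -2) : alf v h = 1 := by
  apply ArcA_one
  have h1 : 0 < v ^ 2 + h ^ 2 := by nlinarith [sq_nonneg h]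
  rw [div_le_iff₀ (ArcA_pos h1)]
  have h2 : Real.cos (Real.pi / 4) * min (Real.sqrt (v ^ 2 + h ^ 2)) 2 ≤ 1 * 2 :=
    mul_le_mul (Real.cos_le_one _) (min_le_right _ _) (ArcA_pos h1).le zero_le_one
  linarith

/-- in the middle -/
theorem ArcA_sq {v h : ℝ} (hr : 0 < v ^ 2 + h ^ 2) (h0 : alf v h ≠ 0) (h1 : alf v h ≠ 1) :
    v ^ 2 < (min (Real.sqrt (v ^ 2 + h ^ 2)) 2) ^ 2 / 2 := by
  have hm := ArcA_pos hr
  obtain ⟨m, hm'⟩ : ∃ m, m = min (Real.sqrt (v ^ 2 + h ^ 2)) 2 := ⟨_, rfl⟩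
  have h2 : v / m < Real.cos (Real.pi / 4) := by
    by_contra hn
    exact h0 (ArcA_zero (by rw [← hm']; exact not_lt.1 hn))
  have h3 : -Real.cos (Real.pi / 4) < v / m := by
    by_contra hn
    exact h1 (ArcA_one (by rw [← hm']; exact not_lt.1 hn))
  rw [← hm'] at hm ⊢
  have h4 : (v / m) ^ 2 < Real.cos (Real.pi / 4) ^ 2 := sq_lt_sq' h3 h2
  have h5 : Real.cos (Real.pi / 4) ^ 2 = 1 / 2 := by
    rw [Real.cos_pi_div_four, div_pow, Real.sq_sqrt two_pos.le]
    norm_num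
  rw [h5, div_pow, div_lt_iff₀ (pow_pos hm 2)] at h4
  linarith

/-- the two walls are disjoint -/
theorem alf_disj {v h : ℝ} (hr : 1 < v ^ 2 + h ^ 2) :
    (alf v h = 0 ∨ alf v h = 1) ∨ (alf h v = 0 ∨ alf h v = 1) := by
  by_contra hn
  push Not at hn
  obtain ⟨⟨h1, h2⟩, h3, h4⟩ := hn
  have h5 := ArcA_sq (by linarith) h1 h2
  have h6 := ArcA_sq (by linarith) h3 h4
  rw [add_comm (h ^ 2) (v ^ 2)] at h6
  have h7 : (min (Real.sqrt (v ^ 2 + h ^ 2)) 2) ^ 2 ≤ Real.sqrt (v ^ 2 + h ^ 2) ^ 2 :=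
    pow_le_pow_left₀ (ArcA_pos (by linarith)).le (min_le_left _ _) 2
  rw [Real.sq_sqrt (by linarith)] at h7
  linarith

theorem ArcA_polar {r φ : ℝ} (hr : r ∈ Ioo (1 : ℝ) 2) :
    r * Real.cos φ / min (Real.sqrt ((r * Real.cos φ) ^ 2 + (r * Real.sin φ) ^ 2)) 2 =
      Real.cos φ := by
  have h0 : 0 < r := by linarith [hr.1]
  have h1 : (r * Real.cos φ) ^ 2 + (r * Real.sin φ) ^ 2 = r ^ 2 := by
    have := Real.cos_sq_add_sin_sq φ
    calc (r * Real.cos φ) ^ 2 + (r * Real.sin φ) ^ 2 =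
        r ^ 2 * (Real.cos φ ^ 2 + Real.sin φ ^ 2) := by ring
      _ = r ^ 2 := by rw [this, mul_one]
  rw [h1, Real.sqrt_sq h0.le, min_eq_left hr.2.le, mul_div_assoc, mul_comm, div_mul_cancel₀]
  exact h0.ne'

/-- the vertical wall in the collar -/
theorem alf_a (k : ℕ) {u r : ℝ} (hu : u ∈ Icc (0 : ℝ) 1) (hr : r ∈ Ioo (1 : ℝ) 2) :
    alf (r * Real.cos (2 * Real.pi * ((k + u) / 4 + 1 / 8)))
      (r * Real.sin (2 * Real.pi * ((k + u) / 4 + 1 / 8))) =
      if k % 4 = 0 then u else if k % 4 = 1 then 1 else if k % 4 = 2 then 1 - u else 0 := by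
  have hpi := Real.pi_pos
  obtain ⟨φ, hφ⟩ : ∃ φ, φ = 2 * Real.pi * ((k + u) / 4 + 1 / 8) := ⟨_, rfl⟩
  have hv := ArcA_polar (φ := φ) hr
  rw [← hφ]
  obtain ⟨q, k', hk', hk⟩ : ∃ q k' : ℕ, k' < 4 ∧ k = 4 * q + k' :=
    ⟨k / 4, k % 4, Nat.mod_lt _ (by norm_num), (Nat.div_add_mod k 4).symm⟩
  have hmod : k % 4 = k' := by omega
  have hper : ∀ ψ : ℝ, φ = q * (2 * Real.pi) + ψ → Real.cos φ = Real.cos ψ := by
    intro ψ h
    rw [h, add_comm, Real.cos_add_nat_mul_two_pi]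
  have hu1 : 0 ≤ Real.pi * u := mul_nonneg hpi.le hu.1
  have hu2 : Real.pi * u ≤ Real.pi := by
    calc Real.pi * u ≤ Real.pi * 1 := mul_le_mul_of_nonneg_left hu.2 hpi.le
      _ = Real.pi := mul_one _
  have hkr : (k : ℝ) = 4 * q + k' := by rw [hk]; push_cast; ring
  rw [hmod]
  obtain rfl | rfl | rfl | rfl : k' = 0 ∨ k' = 1 ∨ k' = 2 ∨ k' = 3 := by omega
  · rw [if_pos rfl]
    have h1 := hper (Real.pi * u / 2 + Real.pi / 4) (by rw [hφ, hkr]; push_cast; ring)
    rw [h1] at hv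
    have h2 : alf (r * Real.cos φ) (r * Real.sin φ) =
        2 / Real.pi * (Real.pi * u / 2 + Real.pi / 4) - 1 / 2 :=
      ArcA_mid (by linarith) (by linarith) (by rw [h1]; exact hv)
    rw [h2]
    field_simp
    ring
  · rw [if_neg (by norm_num), if_pos rfl]
    have h1 := hper (Real.pi * u / 2 + 3 * Real.pi / 4) (by rw [hφ, hkr]; push_cast; ring)
    apply ArcA_one
    rw [hv, h1]
    have h2 : Real.cos (Real.pi * u / 2 + 3 * Real.pi / 4) =
        -Real.cos (Real.pi * u / 2 - Real.pi / 4) := by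
      rw [← Real.cos_add_pi]
      congr 1
      ring
    rw [h2, neg_le_neg_iff, ← Real.cos_abs (Real.pi * u / 2 - Real.pi / 4)]
    apply Real.cos_le_cos_of_nonneg_of_le_pi (abs_nonneg _) (by linarith)
    rw [abs_le]
    constructor <;> linarith
  · rw [if_neg (by norm_num), if_neg (by norm_num), if_pos rfl]
    have h1 := hper (Real.pi * u / 2 + 5 * Real.pi / 4) (by rw [hφ, hkr]; push_cast; ring)
    have h3 : Real.cos (Real.pi * u / 2 + 5 * Real.pi / 4) =
        Real.cos (3 * Real.pi / 4 - Real.pi * u / 2) := by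
      rw [← Real.cos_neg, ← Real.cos_add_two_pi]
      congr 1
      ring
    have h2 : alf (r * Real.cos φ) (r * Real.sin φ) =
        2 / Real.pi * (3 * Real.pi / 4 - Real.pi * u / 2) - 1 / 2 :=
      ArcA_mid (by linarith) (by linarith) (by rw [hv, h1, h3])
    rw [h2]
    field_simp
    ring
  · rw [if_neg (by norm_num), if_neg (by norm_num), if_neg (by norm_num)]
    have h1 := hper (Real.pi * u / 2 + 7 * Real.pi / 4) (by rw [hφ, hkr]; push_cast; ring)
    apply ArcA_zero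
    rw [hv, h1]
    have h2 : Real.cos (Real.pi * u / 2 + 7 * Real.pi / 4) =
        Real.cos (Real.pi * u / 2 - Real.pi / 4) := by
      rw [← Real.cos_add_two_pi (Real.pi * u / 2 - Real.pi / 4)]
      congr 1
      ring
    rw [h2, ← Real.cos_abs (Real.pi * u / 2 - Real.pi / 4)]
    apply Real.cos_le_cos_of_nonneg_of_le_pi (abs_nonneg _) (by linarith)
    rw [abs_le]
    constructor <;> linarith

theorem ArcA_neg (v h : ℝ) : alf v (-h) = alf v h := by
  unfold alf
  rw [neg_sq]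

/-- the horizontal wall in the collar -/
theorem alf_b (k : ℕ) {u r : ℝ} (hu : u ∈ Icc (0 : ℝ) 1) (hr : r ∈ Ioo (1 : ℝ) 2) :
    alf (r * Real.sin (2 * Real.pi * ((k + u) / 4 + 1 / 8)))
      (r * Real.cos (2 * Real.pi * ((k + u) / 4 + 1 / 8))) =
      if k % 4 = 0 then 0 else if k % 4 = 1 then u else if k % 4 = 2 then 1 else 1 - u := by
  have h1 := alf_a (k + 3) hu hr
  have e : 2 * Real.pi * (((k + 3 : ℕ) + u) / 4 + 1 / 8) =
      2 * Real.pi * ((k + u) / 4 + 1 / 8) - Real.pi / 2 + 2 * Real.pi := by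
    push_cast
    ring
  rw [e, Real.cos_add_two_pi, Real.sin_add_two_pi, Real.cos_sub_pi_div_two,
    Real.sin_sub_pi_div_two, mul_neg, ArcA_neg] at h1
  rw [h1]
  obtain h | h | h | h : k % 4 = 0 ∨ k % 4 = 1 ∨ k % 4 = 2 ∨ k % 4 = 3 := by omega
  · have h2 : (k + 3) % 4 = 3 := by omega
    rw [h, h2]
    norm_num
  · have h2 : (k + 3) % 4 = 0 := by omega
    rw [h, h2]
    norm_num
  · have h2 : (k + 3) % 4 = 1 := by omega
    rw [h, h2]
    norm_num
  · have h2 : (k + 3) % 4 = 2 := by omega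
    rw [h, h2]
    norm_num

/-- `alf` near `0` or `1`, outside of the collar -/
theorem alf_small {v h : ℝ} (hr : 4 ≤ v ^ 2 + h ^ 2) :
    (alf v h < 1 / 4 ∨ 3 / 4 < alf v h) ↔ 2 * Real.cos (3 * Real.pi / 8) < |v| := by
  have hpi := Real.pi_pos
  unfold alf
  rw [ArcA_min hr]
  obtain ⟨y, hy⟩ : ∃ y, y = Real.arccos (v / 2) := ⟨_, rfl⟩
  have e1 : cl 1 (2 / Real.pi * y - 1 / 2) < 1 / 4 ↔ y < 3 * Real.pi / 8 := by
    unfold cl
    have e : 2 / Real.pi * y - 1 / 2 < 1 / 4 ↔ y < 3 * Real.pi / 8 := by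
      rw [sub_lt_iff_lt_add, div_mul_eq_mul_div, div_lt_iff₀ hpi]
      constructor <;> intro h <;> linarith
    rw [← e, max_lt_iff, min_lt_iff]
    constructor
    · rintro ⟨_, h | h⟩
      · norm_num at h
      · exact h
    · intro h
      exact ⟨by norm_num, Or.inr h⟩
  have e2 : 3 / 4 < cl 1 (2 / Real.pi * y - 1 / 2) ↔ 5 * Real.pi / 8 < y := by
    unfold cl
    have e : 3 / 4 < 2 / Real.pi * y - 1 / 2 ↔ 5 * Real.pi / 8 < y := by
      rw [lt_sub_iff_add_lt, div_mul_eq_mul_div, lt_div_iff₀ hpi]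
      constructor <;> intro h <;> linarith
    rw [← e, lt_max_iff, lt_min_iff]
    constructor
    · rintro (h | ⟨_, h⟩)
      · norm_num at h
      · exact h
    · intro h
      exact Or.inr ⟨by norm_num, h⟩
  rw [← hy, e1, e2, hy, ArcA_lt (by positivity) (by linarith), ArcA_gt (by positivity) (by linarith)]
  have e3 : Real.cos (5 * Real.pi / 8) = -Real.cos (3 * Real.pi / 8) := by
    rw [← Real.cos_pi_sub]
    congr 1
    ring
  rw [e3, lt_abs]
  constructor
  · rintro (h | h)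
    · left; linarith
    · right; linarith
  · rintro (h | h)
    · left; linarith
    · right; linarith

end Pool.Agent.H.MP_1611f1_gt.BR
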