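import Pool.Agent.H.MP_1611f1_gt.BR.SrfE
import Pool.Agent.H.MP_1611f1_gt.BR.ArcA

/-!
The two arcs in the torus minus a disc.
-/

namespace Pool.Agent.H.MP_1611f1_gt.BR

open Topology Set Filter

/-! ### Independence of the representative -/

theorem Arc_comp {v h v' h' : ℝ} : pt v h = pt v' h' ↔
    ((v / 32 : ℝ) : AddCircle (1 : ℝ)) = ((v' / 32 : ℝ) : AddCircle (1 : ℝ)) ∧
    ((h / 32 : ℝ) : AddCircle (1 : ℝ)) = ((h' / 32 : ℝ) : AddCircle (1 : ℝ)) := by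
  unfold pt
  rw [Prod.mk.injEq, AddCircle.coe_add, AddCircle.coe_add, add_right_inj]

theorem Arc_swap {v h v' h' : ℝ} (e : pt v h = pt v' h') : pt h v = pt h' v' := by
  rw [Arc_comp] at e ⊢
  exact ⟨e.2, e.1⟩

theorem Arc_coe01 {c : ℝ} (h : c = 0 ∨ c = 1) : (c : AddCircle (1 : ℝ)) = 0 := by
  rcases h with rfl | rfl
  · exact QuotientAddGroup.mk_zero _
  · rw [AddCircle.coe_eq_zero_iff]
    exact ⟨1, by simp⟩

theorem Arc_wall {v h : ℝ} (hv : |v| = 16) : ((alf v h : ℝ) : AddCircle (1 : ℝ)) = 0 := by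
  apply Arc_coe01
  rcases (abs_eq (by norm_num : (0 : ℝ) ≤ 16)).1 hv with h1 | h1
  · exact Or.inl (alf_right (by rw [h1]; norm_num))
  · exact Or.inr (alf_left (by rw [h1]; norm_num))

theorem Arc_16 {v v' : ℝ} (h1 : |v| ≤ 16) (h2 : |v'| ≤ 16) (h : ¬ |v - v'| < 32) :
    |v| = 16 ∧ |v'| = 16 := by
  have h3 : |v - v'| ≤ |v| + |v'| := by
    have := abs_add_le v (-v')
    rwa [abs_neg, ← sub_eq_add_neg] at this
  push Not at h
  constructor <;> linarith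

theorem Arc_indep {v h v' h' : ℝ} (h1 : |v| ≤ 16) (h2 : |h| ≤ 16) (h3 : |v'| ≤ 16)
    (h4 : |h'| ≤ 16) (e : pt v h = pt v' h') :
    ((alf v h : ℝ) : AddCircle (1 : ℝ)) = ((alf v' h' : ℝ) : AddCircle (1 : ℝ)) := by
  by_cases c1 : |v - v'| < 32
  · have e1 : v = v' := by
      have := coe_inj (a := v / 32) (b := v' / 32) (by
        rw [← sub_div, abs_div, abs_of_pos (by norm_num : (0 : ℝ) < 32)]
        rw [div_lt_one (by norm_num)]
        exact c1) (Arc_comp.1 e).1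
      linarith
    subst e1
    by_cases c2 : |h - h'| < 32
    · rw [(pt_inj c1 c2 e).2]
    · obtain ⟨g1, g2⟩ := Arc_16 h2 h4 c2
      have s1 : h ^ 2 = 256 := by
        rw [← sq_abs, g1]
        norm_num
      have s2 : h' ^ 2 = 256 := by
        rw [← sq_abs, g2]
        norm_num
      rw [alf_far (v := v) (h := h) (by nlinarith), alf_far (v := v) (h := h') (by nlinarith)]
  · obtain ⟨g1, g2⟩ := Arc_16 h1 h3 c1
    rw [Arc_wall g1, Arc_wall g2]

/-! ### The quotient map -/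

/-- the square -/
abbrev Arc_Q := {z : ℝ × ℝ // z ∈ Icc (-16 : ℝ) 16 ×ˢ Icc (-16 : ℝ) 16}

theorem Arc_Q1 (z : Arc_Q) : |z.1.1| ≤ 16 := abs_le.2 z.2.1

theorem Arc_Q2 (z : Arc_Q) : |z.1.2| ≤ 16 := abs_le.2 z.2.2

/-- the square as a cover of the torus -/
noncomputable def Arc_f (z : Arc_Q) : AddCircle (1 : ℝ) × AddCircle (1 : ℝ) := pt z.1.1 z.1.2

theorem Arc_f_quot : IsQuotientMap Arc_f := by
  have : CompactSpace Arc_Q := isCompact_iff_compactSpace.1 (isCompact_Icc.prod isCompact_Icc)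
  have hc : Continuous Arc_f := by
    unfold Arc_f pt
    refine Continuous.prodMk ?_ ?_
    · exact coe_cont.comp ((continuous_fst.comp continuous_subtype_val).div_const 32)
    · exact coe_cont.comp (continuous_const.add
        ((continuous_snd.comp continuous_subtype_val).div_const 32))
  refine hc.isClosedMap.isQuotientMap hc ?_
  intro x
  obtain ⟨v, h, hv, hh, rfl⟩ := pt_surj x
  exact ⟨⟨(v, h), abs_le.1 hv, abs_le.1 hh⟩, rfl⟩

/-- the torus minus the disc, as a set -/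
def Arc_U : Set (AddCircle (1 : ℝ) × AddCircle (1 : ℝ)) :=
  {x | (1 / 32 : ℝ) ^ 2 < ‖x.1‖ ^ 2 + ‖x.2 - ((1 / 2 : ℝ) : AddCircle (1 : ℝ))‖ ^ 2}

theorem Arc_U_open : IsOpen Arc_U := by
  refine isOpen_lt continuous_const ?_
  exact (continuous_fst.norm.pow 2).add ((continuous_snd.sub continuous_const).norm.pow 2)

theorem Arc_g_quot : IsQuotientMap (Arc_U.restrictPreimage Arc_f) :=
  Arc_f_quot.restrictPreimage_isOpen Arc_U_open

theorem Arc_g_pos (z : Arc_f ⁻¹' Arc_U) : 1 < z.1.1.1 ^ 2 + z.1.1.2 ^ 2 :=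
  (pt_mem (Arc_Q1 z.1) (Arc_Q2 z.1)).1 z.2

/-! ### The collapse maps -/

theorem Arc_rep (x : SS) : ∃ z : ℝ × ℝ, |z.1| ≤ 16 ∧ |z.2| ≤ 16 ∧ x.1 = pt z.1 z.2 := by
  obtain ⟨v, h, hv, hh, e⟩ := pt_surj x.1
  exact ⟨(v, h), hv, hh, e⟩

/-- a representative -/
noncomputable def Arc_z (x : SS) : ℝ × ℝ := (Arc_rep x).choose

theorem Arc_z1 (x : SS) : |(Arc_z x).1| ≤ 16 := (Arc_rep x).choose_spec.1

theorem Arc_z2 (x : SS) : |(Arc_z x).2| ≤ 16 := (Arc_rep x).choose_spec.2.1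

theorem Arc_z3 (x : SS) : x.1 = pt (Arc_z x).1 (Arc_z x).2 := (Arc_rep x).choose_spec.2.2

/-- the first collapse map -/
noncomputable def Arc_a (x : SS) : AddCircle (1 : ℝ) :=
  ((alf (Arc_z x).1 (Arc_z x).2 : ℝ) : AddCircle (1 : ℝ))

/-- the second collapse map -/
noncomputable def Arc_b (x : SS) : AddCircle (1 : ℝ) :=
  ((alf (Arc_z x).2 (Arc_z x).1 : ℝ) : AddCircle (1 : ℝ))

theorem Arc_a_eq {x : SS} {v h : ℝ} (h1 : |v| ≤ 16) (h2 : |h| ≤ 16) (h3 : x.1 = pt v h) :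
    Arc_a x = ((alf v h : ℝ) : AddCircle (1 : ℝ)) :=
  Arc_indep (Arc_z1 x) (Arc_z2 x) h1 h2 ((Arc_z3 x).symm.trans h3)

theorem Arc_b_eq {x : SS} {v h : ℝ} (h1 : |v| ≤ 16) (h2 : |h| ≤ 16) (h3 : x.1 = pt v h) :
    Arc_b x = ((alf h v : ℝ) : AddCircle (1 : ℝ)) :=
  Arc_indep (Arc_z2 x) (Arc_z1 x) h2 h1 (Arc_swap ((Arc_z3 x).symm.trans h3))

theorem Arc_a_cont : Continuous Arc_a := by
  have h : Continuous (Arc_a ∘ Arc_U.restrictPreimage Arc_f) := by
    have e : Arc_a ∘ Arc_U.restrictPreimage Arc_f = fun z : Arc_f ⁻¹' Arc_U =>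
        ((alf z.1.1.1 z.1.1.2 : ℝ) : AddCircle (1 : ℝ)) := by
      funext z
      exact Arc_a_eq (Arc_Q1 z.1) (Arc_Q2 z.1) rfl
    rw [e]
    refine coe_cont.comp ?_
    exact alf_cont.comp_continuous (f := fun z : Arc_f ⁻¹' Arc_U => z.1.1)
      (continuous_subtype_val.comp continuous_subtype_val)
      fun z => lt_trans one_pos (Arc_g_pos z)
  exact Arc_g_quot.continuous_iff.2 h

theorem Arc_b_cont : Continuous Arc_b := by
  have h : Continuous (Arc_b ∘ Arc_U.restrictPreimage Arc_f) := by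
    have e : Arc_b ∘ Arc_U.restrictPreimage Arc_f = fun z : Arc_f ⁻¹' Arc_U =>
        ((alf z.1.1.2 z.1.1.1 : ℝ) : AddCircle (1 : ℝ)) := by
      funext z
      exact Arc_b_eq (Arc_Q1 z.1) (Arc_Q2 z.1) rfl
    rw [e]
    refine coe_cont.comp ?_
    exact alf_cont.comp_continuous (f := fun z : Arc_f ⁻¹' Arc_U => (z.1.1.2, z.1.1.1))
      ((continuous_snd.comp (continuous_subtype_val.comp continuous_subtype_val)).prodMk
        (continuous_fst.comp (continuous_subtype_val.comp continuous_subtype_val)))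
      fun z => by
        have := Arc_g_pos z
        show 0 < z.1.1.2 ^ 2 + z.1.1.1 ^ 2
        linarith
  exact Arc_g_quot.continuous_iff.2 h

/-! ### The complement of the strips -/

theorem Arc_norm {c : ℝ} (hc : c ∈ Icc (0 : ℝ) 1) :
    ‖(c : AddCircle (1 : ℝ))‖ < 1 / 4 ↔ (c < 1 / 4 ∨ 3 / 4 < c) := by
  rcases le_or_gt c (1 / 2) with h | h
  · rw [norm_coe (by rw [abs_of_nonneg hc.1]; exact h), abs_of_nonneg hc.1]
    constructor
    · exact fun h => Or.inl h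
    · rintro (h1 | h1)
      · exact h1
      · linarith
  · have e : (c : AddCircle (1 : ℝ)) = ((c - 1 : ℝ) : AddCircle (1 : ℝ)) := by
      rw [AddCircle.coe_sub, Arc_coe01 (Or.inr rfl), sub_zero]
    have h2 : |c - 1| = 1 - c := by
      rw [abs_of_nonpos (by linarith [hc.2])]
      ring
    rw [e, norm_coe (by rw [h2]; linarith), h2]
    constructor
    · exact fun h => Or.inr (by linarith)
    · rintro (h1 | h1) <;> linarith

/-- the half width of the wall -/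
noncomputable def Arc_m : ℝ := 2 * Real.cos (3 * Real.pi / 8)

theorem Arc_cos_sq : Real.cos (3 * Real.pi / 8) ^ 2 = (1 - Real.sqrt 2 / 2) / 2 := by
  have h1 : Real.cos (2 * (3 * Real.pi / 8)) = -(Real.sqrt 2 / 2) := by
    have : 2 * (3 * Real.pi / 8) = Real.pi - Real.pi / 4 := by ring
    rw [this, Real.cos_pi_sub, Real.cos_pi_div_four]
  rw [Real.cos_two_mul] at h1
  linarith

theorem Arc_cos_pos : 0 < Real.cos (3 * Real.pi / 8) := by
  apply Real.cos_pos_of_mem_Ioo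
  have := Real.pi_pos
  constructor <;> linarith

theorem Arc_m_sq : 1 < 2 * Arc_m ^ 2 ∧ Arc_m ^ 2 < (6 / 5) ^ 2 := by
  have h1 := Arc_cos_sq
  have h2 : Real.sqrt 2 < 3 / 2 := by
    rw [Real.sqrt_lt' (by norm_num)]
    norm_num
  have h3 : 1 < Real.sqrt 2 := by
    rw [Real.lt_sqrt (by norm_num)]
    norm_num
  have h4 : Arc_m ^ 2 = 2 * (1 - Real.sqrt 2 / 2) := by
    unfold Arc_m
    rw [mul_pow, h1]
    ring
  rw [h4]
  constructor <;> linarith

theorem Arc_m_pos : 0 < Arc_m := mul_pos two_pos Arc_cos_pos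

theorem Arc_m_lt : Arc_m < 6 / 5 := lt_of_pow_lt_pow_left₀ 2 (by norm_num) Arc_m_sq.2

/-- `alf` away from the wall -/
theorem Arc_alf {v h : ℝ} (hv : Arc_m < |v|) : alf v h < 1 / 4 ∨ 3 / 4 < alf v h := by
  rcases le_or_gt 4 (v ^ 2 + h ^ 2) with h4 | h4
  · exact (alf_small h4).2 hv
  have hpi := Real.pi_pos
  have hm := Arc_m_pos
  have hv0 : 0 < |v| := hm.trans hv
  have hpos : 0 < v ^ 2 + h ^ 2 := by
    have : 0 < v ^ 2 := by
      rw [← sq_abs]
      positivity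
    positivity
  set ρ := Real.sqrt (v ^ 2 + h ^ 2) with hρ
  have hρ0 : 0 < ρ := Real.sqrt_pos.2 hpos
  have hρ2 : ρ < 2 := by
    rw [hρ, Real.sqrt_lt' two_pos]
    linarith
  have hvρ : |v| ≤ ρ := by
    rw [hρ]
    apply Real.le_sqrt_of_sq_le
    rw [sq_abs]
    nlinarith [sq_nonneg h]
  have hmin : min ρ 2 = ρ := min_eq_left hρ2.le
  have key : Real.cos (3 * Real.pi / 8) < |v| / ρ := by
    rw [lt_div_iff₀ hρ0]
    have h5 : Real.cos (3 * Real.pi / 8) * ρ < Real.cos (3 * Real.pi / 8) * 2 :=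
      mul_lt_mul_of_pos_left hρ2 Arc_cos_pos
    have h6 : Real.cos (3 * Real.pi / 8) * 2 = Arc_m := by
      unfold Arc_m
      ring
    linarith
  have hle : |v| / ρ ≤ 1 := by
    rw [div_le_one hρ0]
    exact hvρ
  have hac : Real.arccos (|v| / ρ) < 3 * Real.pi / 8 := by
    have h7 : Real.arccos (Real.cos (3 * Real.pi / 8)) = 3 * Real.pi / 8 :=
      Real.arccos_cos (by positivity) (by linarith)
    rw [← h7]
    exact Real.arccos_lt_arccos (by linarith [Arc_cos_pos]) key hle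
  have h8 : alf v h = cl 1 (2 / Real.pi * Real.arccos (v / ρ) - 1 / 2) := by
    unfold alf
    rw [← hρ, hmin]
  rw [h8]
  rcases le_or_gt 0 v with hs | hs
  · left
    rw [abs_of_nonneg hs] at hac
    have h9 : 2 / Real.pi * Real.arccos (v / ρ) - 1 / 2 < 1 / 4 := by
      have : 2 / Real.pi * Real.arccos (v / ρ) < 2 / Real.pi * (3 * Real.pi / 8) :=
        mul_lt_mul_of_pos_left hac (by positivity)
      have h10 : 2 / Real.pi * (3 * Real.pi / 8) = 3 / 4 := by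
        field_simp
        norm_num
      linarith
    unfold cl
    rw [max_lt_iff]
    exact ⟨by norm_num, lt_of_le_of_lt (min_le_right _ _) h9⟩
  · right
    rw [abs_of_neg hs, neg_div, Real.arccos_neg] at hac
    have h9 : 3 / 4 < 2 / Real.pi * Real.arccos (v / ρ) - 1 / 2 := by
      have : 2 / Real.pi * (5 * Real.pi / 8) < 2 / Real.pi * Real.arccos (v / ρ) :=
        mul_lt_mul_of_pos_left (by linarith) (by positivity)
      have h10 : 2 / Real.pi * (5 * Real.pi / 8) = 5 / 4 := by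
        field_simp
        norm_num
      linarith
    unfold cl
    rw [lt_max_iff]
    exact Or.inr (lt_min (by norm_num) h9)

theorem Arc_reach (x : SS) (ha : ‖Arc_a x‖ < 1 / 4) (hb : ‖Arc_b x‖ < 1 / 4) :
    ∃ z : AddCircle (1 : ℝ) × Ioo (1 : ℝ) 2,
      JoinedIn {x : SS | ‖Arc_a x‖ < 1 / 4 ∧ ‖Arc_b x‖ < 1 / 4} x (ES.collar () z) := by
  obtain ⟨v, h, hv, hh, hx⟩ := pt_surj x.1
  have hpos : 1 < v ^ 2 + h ^ 2 := by
    have := x.2
    rw [hx] at this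
    exact (pt_mem hv hh).1 this
  have ha' := ha
  have hb' := hb
  rw [Arc_a_eq hv hh hx, Arc_norm (alf_mem _ _)] at ha
  rw [Arc_b_eq hv hh hx, Arc_norm (alf_mem _ _)] at hb
  -- points of the collar
  have hcol : ∀ v' h' : ℝ, 1 < v' ^ 2 + h' ^ 2 → v' ^ 2 + h' ^ 2 < 4 →
      ∃ z : AddCircle (1 : ℝ) × Ioo (1 : ℝ) 2, (ES.collar () z).1 = pt v' h' := by
    intro v' h' h1 h2
    have h3 : 1 < Real.sqrt (v' ^ 2 + h' ^ 2) := by
      rw [Real.lt_sqrt (by norm_num)]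
      linarith
    have h4 : Real.sqrt (v' ^ 2 + h' ^ 2) < 2 := by
      rw [Real.sqrt_lt' two_pos]
      linarith
    obtain ⟨θ, e1, e2⟩ := polar_exists (v := v') (h := h') (one_pos.trans h3)
      (Real.sq_sqrt (by linarith)).symm
    refine ⟨(((θ - 1 / 8 : ℝ) : AddCircle (1 : ℝ)), ⟨_, h3, h4⟩), ?_⟩
    rw [ES_collar]
    show pt (Real.sqrt (v' ^ 2 + h' ^ 2) * Real.cos (2 * Real.pi * (θ - 1 / 8 + 1 / 8)))
      (Real.sqrt (v' ^ 2 + h' ^ 2) * Real.sin (2 * Real.pi * (θ - 1 / 8 + 1 / 8))) = _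
    rw [sub_add_cancel, ← e1, ← e2]
  rcases lt_or_ge (v ^ 2 + h ^ 2) 4 with h4 | h4
  · obtain ⟨z, hz⟩ := hcol v h hpos h4
    refine ⟨z, ?_⟩
    have e : ES.collar () z = x := Subtype.ext (hz.trans hx.symm)
    rw [e]
    exact JoinedIn.refl ⟨ha', hb'⟩
  · have hv1 : Arc_m < |v| := (alf_small h4).1 ha
    have hh1 : Arc_m < |h| := (alf_small (by linarith)).1 hb
    have hm := Arc_m_pos
    have hm1 := Arc_m_lt
    -- signs
    obtain ⟨σ, hσ, hσv⟩ : ∃ σ : ℝ, |σ| = 1 ∧ v = σ * |v| := by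
      rcases le_or_gt 0 v with hs | hs
      · exact ⟨1, abs_one, by rw [abs_of_nonneg hs, one_mul]⟩
      · exact ⟨-1, by rw [abs_neg, abs_one], by rw [abs_of_neg hs]; ring⟩
    obtain ⟨τ, hτ, hτh⟩ : ∃ τ : ℝ, |τ| = 1 ∧ h = τ * |h| := by
      rcases le_or_gt 0 h with hs | hs
      · exact ⟨1, abs_one, by rw [abs_of_nonneg hs, one_mul]⟩
      · exact ⟨-1, by rw [abs_neg, abs_one], by rw [abs_of_neg hs]; ring⟩
    have hseg : ∀ w : ℝ, Arc_m < w → w ≤ 16 → ∀ t ∈ Icc (0 : ℝ) 1,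
        Arc_m < w + t * (6 / 5 - w) ∧ w + t * (6 / 5 - w) ≤ 16 := by
      intro w h1 h2 t ht
      obtain ⟨ht0, ht1⟩ := ht
      constructor
      · rcases le_or_gt w (6 / 5) with h3 | h3
        · nlinarith
        · nlinarith
      · nlinarith
    have hgood : ∀ p q : ℝ, Arc_m < p → Arc_m < q → p ≤ 16 → q ≤ 16 →
        |σ * p| ≤ 16 ∧ |τ * q| ≤ 16 ∧ Arc_m < |σ * p| ∧ Arc_m < |τ * q| ∧
        1 < (σ * p) ^ 2 + (τ * q) ^ 2 := by
      intro p q h1 h2 h3 h5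
      have e1 : |σ * p| = p := by rw [abs_mul, hσ, one_mul, abs_of_pos (hm.trans h1)]
      have e2 : |τ * q| = q := by rw [abs_mul, hτ, one_mul, abs_of_pos (hm.trans h2)]
      refine ⟨by rw [e1]; exact h3, by rw [e2]; exact h5, by rw [e1]; exact h1,
        by rw [e2]; exact h2, ?_⟩
      rw [← sq_abs (σ * p), ← sq_abs (τ * q), e1, e2]
      have := Arc_m_sq.1
      nlinarith
    have hgS : ∀ p q : ℝ, Arc_m < p → Arc_m < q → p ≤ 16 → q ≤ 16 →
        (1 / 32 : ℝ) ^ 2 < ‖(pt (σ * p) (τ * q)).1‖ ^ 2 +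
          ‖(pt (σ * p) (τ * q)).2 - ((1 / 2 : ℝ) : AddCircle (1 : ℝ))‖ ^ 2 := by
      intro p q h1 h2 h3 h5
      obtain ⟨g1, g2, g3, g4, g5⟩ := hgood p q h1 h2 h3 h5
      exact (pt_mem g1 g2).2 g5
    have hin : ∀ (p q : ℝ) (y : SS), Arc_m < p → Arc_m < q → p ≤ 16 → q ≤ 16 →
        y.1 = pt (σ * p) (τ * q) → ‖Arc_a y‖ < 1 / 4 ∧ ‖Arc_b y‖ < 1 / 4 := by
      intro p q y h1 h2 h3 h5 hy
      obtain ⟨g1, g2, g3, g4, g5⟩ := hgood p q h1 h2 h3 h5
      rw [Arc_a_eq g1 g2 hy, Arc_b_eq g1 g2 hy, Arc_norm (alf_mem _ _),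
        Arc_norm (alf_mem _ _)]
      exact ⟨Arc_alf g3, Arc_alf g4⟩
    have hend1 : 1 < (σ * (6 / 5)) ^ 2 + (τ * (6 / 5)) ^ 2 := by
      rw [mul_pow, mul_pow, ← sq_abs σ, ← sq_abs τ, hσ, hτ]
      norm_num
    have hend2 : (σ * (6 / 5)) ^ 2 + (τ * (6 / 5)) ^ 2 < 4 := by
      rw [mul_pow, mul_pow, ← sq_abs σ, ← sq_abs τ, hσ, hτ]
      norm_num
    obtain ⟨z, hz⟩ := hcol _ _ hend1 hend2
    refine ⟨z, ?_⟩
    let γ : Path x (ES.collar () z) :=
      { toFun := fun t => ⟨pt (σ * (|v| + (t : ℝ) * (6 / 5 - |v|)))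
          (τ * (|h| + (t : ℝ) * (6 / 5 - |h|))),
          hgS _ _ (hseg _ hv1 hv _ t.2).1 (hseg _ hh1 hh _ t.2).1 (hseg _ hv1 hv _ t.2).2
            (hseg _ hh1 hh _ t.2).2⟩
        continuous_toFun := by
          refine Continuous.subtype_mk ?_ _
          unfold pt
          refine Continuous.prodMk (coe_cont.comp ?_) (coe_cont.comp ?_) <;> fun_prop
        source' := by
          apply Subtype.ext
          show pt (σ * (|v| + 0 * (6 / 5 - |v|))) (τ * (|h| + 0 * (6 / 5 - |h|))) = x.1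
          rw [zero_mul, zero_mul, add_zero, add_zero, ← hσv, ← hτh, hx]
        target' := by
          apply Subtype.ext
          show pt (σ * (|v| + 1 * (6 / 5 - |v|))) (τ * (|h| + 1 * (6 / 5 - |h|))) = _
          rw [one_mul, one_mul, add_sub_cancel, add_sub_cancel, hz] }
    exact ⟨γ, fun t => hin _ _ _ (hseg _ hv1 hv _ t.2).1 (hseg _ hh1 hh _ t.2).1
      (hseg _ hv1 hv _ t.2).2 (hseg _ hh1 hh _ t.2).2 rfl⟩

theorem Arc_bd {r : ℝ} (hr : r ∈ Ioo (1 : ℝ) 2) (ψ : ℝ) :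
    |r * Real.cos ψ| ≤ 16 ∧ |r * Real.sin ψ| ≤ 16 := by
  have h0 : |r| < 2 := by
    rw [abs_of_pos (one_pos.trans hr.1)]
    exact hr.2
  rw [abs_mul, abs_mul]
  have h1 := Real.abs_cos_le_one ψ
  have h2 := Real.abs_sin_le_one ψ
  have h3 := abs_nonneg (Real.cos ψ)
  have h4 := abs_nonneg (Real.sin ψ)
  have h5 := abs_nonneg r
  constructor <;> nlinarith

/-- the arcs: `a` is the vertical wall, `b` is the horizontal wall -/
theorem exists_arcs : ∃ A : Arcs ES (fun _ : Unit => ()) (fun _ : Unit => 1),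
    ∀ (x : SS) (v h : ℝ), |v| ≤ 16 → |h| ≤ 16 → x.1 = pt v h →
      A.a () x = ((alf v h : ℝ) : AddCircle (1 : ℝ)) ∧
      A.b () x = ((alf h v : ℝ) : AddCircle (1 : ℝ)) := by
  refine ⟨{ a := fun _ => ⟨Arc_a, Arc_a_cont⟩
            b := fun _ => ⟨Arc_b, Arc_b_cont⟩
            disj_ab := ?_
            disj_aa := fun i k x h => absurd rfl h
            disj_bb := fun i k x h => absurd rfl h
            other := fun k j z h => absurd rfl h
            end_a := ?_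
            end_b := ?_
            reach := ?_ }, fun x v h h1 h2 h3 => ⟨Arc_a_eq h1 h2 h3, Arc_b_eq h1 h2 h3⟩⟩
  · intro _ _ x
    show Arc_a x = 0 ∨ Arc_b x = 0
    obtain ⟨v, h, hv, hh, hx⟩ := pt_surj x.1
    have hpos : 1 < v ^ 2 + h ^ 2 := by
      have := x.2
      rw [hx] at this
      exact (pt_mem hv hh).1 this
    rw [Arc_a_eq hv hh hx, Arc_b_eq hv hh hx]
    rcases alf_disj hpos with h1 | h1
    · exact Or.inl (Arc_coe01 h1)
    · exact Or.inr (Arc_coe01 h1)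
  · intro _ k u r hu
    show Arc_a (ES.collar () ((((k + u) / (4 * (1 : ℕ)) : ℝ) : AddCircle (1 : ℝ)), r)) = _
    obtain ⟨g1, g2⟩ := Arc_bd r.2 (2 * Real.pi * ((k + u) / (4 * (1 : ℕ)) + 1 / 8))
    rw [Arc_a_eq g1 g2 (ES_collar _ r)]
    have e : ((k + u) / (4 * (1 : ℕ)) : ℝ) = (k + u) / 4 := by norm_num
    rw [e, alf_a k hu r.2]
    have h4 : k % 4 < 4 := Nat.mod_lt _ (by norm_num)
    have c1 : ((1 : ℝ) : AddCircle (1 : ℝ)) = 0 := Arc_coe01 (Or.inr rfl)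
    rcases (show k % 4 = 0 ∨ k % 4 = 1 ∨ k % 4 = 2 ∨ k % 4 = 3 by omega) with c | c | c | c
    · simp [c]
    · simp only [c]
      norm_num
    · simp only [c]
      norm_num
    · simp [c]
  · intro _ k u r hu
    show Arc_b (ES.collar () ((((k + u) / (4 * (1 : ℕ)) : ℝ) : AddCircle (1 : ℝ)), r)) = _
    obtain ⟨g1, g2⟩ := Arc_bd r.2 (2 * Real.pi * ((k + u) / (4 * (1 : ℕ)) + 1 / 8))
    rw [Arc_b_eq g1 g2 (ES_collar _ r)]
    have e : ((k + u) / (4 * (1 : ℕ)) : ℝ) = (k + u) / 4 := by norm_num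
    rw [e, alf_b k hu r.2]
    have h4 : k % 4 < 4 := Nat.mod_lt _ (by norm_num)
    have c1 : ((1 : ℝ) : AddCircle (1 : ℝ)) = 0 := Arc_coe01 (Or.inr rfl)
    rcases (show k % 4 = 0 ∨ k % 4 = 1 ∨ k % 4 = 2 ∨ k % 4 = 3 by omega) with c | c | c | c
    · simp [c]
    · simp [c]
    · simp only [c]
      norm_num
    · simp only [c]
      norm_num
  · intro x hx
    have h1 := hx ()
    obtain ⟨z, hz⟩ := Arc_reach x h1.1 h1.2
    refine ⟨(), z, ?_⟩
    have e : {x : SS | ∀ _ : Unit, ‖Arc_a x‖ < 1 / 4 ∧ ‖Arc_b x‖ < 1 / 4} =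
        {x : SS | ‖Arc_a x‖ < 1 / 4 ∧ ‖Arc_b x‖ < 1 / 4} := by
      ext y
      exact ⟨fun h => h (), fun h _ => h⟩
    show JoinedIn {x : SS | ∀ _ : Unit, ‖Arc_a x‖ < 1 / 4 ∧ ‖Arc_b x‖ < 1 / 4} x _
    rw [e]
    exact hz

/-- the arcs -/
noncomputable def AS : Arcs ES (fun _ : Unit => ()) (fun _ : Unit => 1) := exists_arcs.choose

theorem AS_a {x : SS} {v h : ℝ} (h1 : |v| ≤ 16) (h2 : |h| ≤ 16) (h3 : x.1 = pt v h) :
    AS.a () x = ((alf v h : ℝ) : AddCircle (1 : ℝ)) :=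
  (exists_arcs.choose_spec x v h h1 h2 h3).1

theorem AS_b {x : SS} {v h : ℝ} (h1 : |v| ≤ 16) (h2 : |h| ≤ 16) (h3 : x.1 = pt v h) :
    AS.b () x = ((alf h v : ℝ) : AddCircle (1 : ℝ)) :=
  (exists_arcs.choose_spec x v h h1 h2 h3).2

end Pool.Agent.H.MP_1611f1_gt.BR
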