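import Pool.Agent.H.MP_1611f1_gt.G.BCmp
import Pool.Agent.H.MP_1611f1_gt.LS.HDefs

/-!
Leaf curves which cross one strip.
-/

namespace Pool.Agent.H.MP_1611f1_gt.BR

open Topology Set Filter

/-- the transverse function along the curve -/
noncomputable def Crv_G (Aa : ℝ ≃o ℝ) (w : ℝ → ℝ) (c₀ θ t : ℝ) : ℝ :=
  (Aa ^ ⌊θ - c₀ + 1 / 2⌋) (Fe Aa (w (θ - c₀ - ⌊θ - c₀ + 1 / 2⌋)) t)

/-- the function is given by one formula near every point -/
theorem Crv_G_eq (Aa : ℝ ≃o ℝ) {w : ℝ → ℝ} (hwl : ∀ v ≤ -1 / 4, w v = 1)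
    (hwr : ∀ v, 1 / 4 ≤ v → w v = 0) (c₀ : ℝ) (k : ℤ) {θ : ℝ} (h : |θ - c₀ - k| ≤ 3 / 4) (t : ℝ) :
    Crv_G Aa w c₀ θ t = (Aa ^ k) (Fe Aa (w (θ - c₀ - k)) t) := by
  unfold Crv_G
  obtain ⟨j, hj⟩ : ∃ j : ℤ, j = ⌊θ - c₀ + 1 / 2⌋ := ⟨_, rfl⟩
  rw [← hj]
  have h1 : (j : ℝ) ≤ θ - c₀ + 1 / 2 := hj ▸ Int.floor_le _
  have h2 : θ - c₀ + 1 / 2 < j + 1 := hj ▸ Int.lt_floor_add_one _
  obtain ⟨h3, h4⟩ := abs_le.1 h
  have h5 : j < k + 2 := by
    have : (j : ℝ) < k + 2 := by linarith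
    exact_mod_cast this
  have h6 : k < j + 2 := by
    have : (k : ℝ) < j + 2 := by linarith
    exact_mod_cast this
  have h7 : j = k ∨ j = k + 1 ∨ k = j + 1 := by omega
  rcases h7 with h7 | h7 | h7
  · rw [h7]
  · have h8 : (j : ℝ) = k + 1 := by rw [h7]; push_cast; ring
    have e1 : w (θ - c₀ - k) = 0 := hwr _ (by linarith)
    have e2 : w (θ - c₀ - j) = 1 := hwl _ (by linarith)
    have e3 : Fe Aa 0 t = t := Fe_small Aa (by norm_num) t
    have e4 : Fe Aa 1 t = Aa.symm t := Fe_large Aa (by norm_num) t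
    rw [e1, e2, e3, e4, h7, zpow_add_one, RelIso.mul_apply, OrderIso.apply_symm_apply]
  · have h8 : (k : ℝ) = j + 1 := by rw [h7]; push_cast; ring
    have e1 : w (θ - c₀ - j) = 0 := hwr _ (by linarith)
    have e2 : w (θ - c₀ - k) = 1 := hwl _ (by linarith)
    have e3 : Fe Aa 0 t = t := Fe_small Aa (by norm_num) t
    have e4 : Fe Aa 1 t = Aa.symm t := Fe_large Aa (by norm_num) t
    rw [e1, e2, e3, e4, h7, zpow_add_one, RelIso.mul_apply, OrderIso.apply_symm_apply]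

theorem Crv_G_cont (Aa : ℝ ≃o ℝ) {w : ℝ → ℝ} (hw : Continuous w) (hwl : ∀ v ≤ -1 / 4, w v = 1)
    (hwr : ∀ v, 1 / 4 ≤ v → w v = 0) (c₀ : ℝ) :
    Continuous fun z : ℝ × ℝ => Crv_G Aa w c₀ z.1 z.2 := by
  rw [continuous_iff_continuousAt]
  intro z
  obtain ⟨k, hk⟩ : ∃ k : ℤ, k = ⌊z.1 - c₀ + 1 / 2⌋ := ⟨_, rfl⟩
  have h1 : (k : ℝ) ≤ z.1 - c₀ + 1 / 2 := hk ▸ Int.floor_le _
  have h2 : z.1 - c₀ + 1 / 2 < k + 1 := hk ▸ Int.lt_floor_add_one _
  have hc1 : Continuous fun z' : ℝ × ℝ => |z'.1 - c₀ - k| := by fun_prop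
  have h3 : |z.1 - c₀ - k| < 3 / 4 := by
    rw [abs_lt]
    constructor <;> linarith
  have hev : ∀ᶠ z' : ℝ × ℝ in 𝓝 z, |z'.1 - c₀ - k| < 3 / 4 :=
    hc1.continuousAt.eventually_lt_const h3
  have hc2 : Continuous fun z' : ℝ × ℝ => (Aa ^ k) (Fe Aa (w (z'.1 - c₀ - k)) z'.2) := by
    have h4 : Continuous fun z' : ℝ × ℝ => (w (z'.1 - c₀ - k), z'.2) :=
      (hw.comp (by fun_prop)).prodMk continuous_snd
    exact (Aa ^ k).continuous.comp ((Fe_cont Aa).comp h4)
  exact hc2.continuousAt.congr (hev.mono fun z' hz' => (Crv_G_eq Aa hwl hwr c₀ k hz'.le z'.2).symm)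

theorem Crv_G_mono (Aa : ℝ ≃o ℝ) (w : ℝ → ℝ) (c₀ θ : ℝ) : StrictMono (Crv_G Aa w c₀ θ) :=
  (Aa ^ ⌊θ - c₀ + 1 / 2⌋).strictMono.comp (Fe_mono Aa _)

theorem Crv_pow_fix (Aa : ℝ ≃o ℝ) {m : ℝ} (h : Aa m = m) (k : ℤ) : (Aa ^ k) m = m := by
  have h' : (Aa⁻¹) m = m := by
    show Aa.symm m = m
    rw [OrderIso.symm_apply_eq, h]
  induction k using Int.induction_on with
  | zero => simp
  | succ n ih => rw [zpow_add_one, RelIso.mul_apply, h, ih]
  | pred n ih => rw [zpow_sub_one, RelIso.mul_apply, h', ih]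

theorem Crv_G_fix (Aa : ℝ ≃o ℝ) {m : ℝ} (h : Aa m = m) (w : ℝ → ℝ) (c₀ θ : ℝ) :
    Crv_G Aa w c₀ θ m = m := by
  unfold Crv_G
  rw [Fe_fix Aa h, Crv_pow_fix Aa h]

theorem Crv_G_per (Aa : ℝ ≃o ℝ) (w : ℝ → ℝ) (c₀ θ t : ℝ) :
    Crv_G Aa w c₀ (θ + 1) t = Aa (Crv_G Aa w c₀ θ t) := by
  unfold Crv_G
  have h1 : ⌊θ + 1 - c₀ + 1 / 2⌋ = 1 + ⌊θ - c₀ + 1 / 2⌋ := by
    have : θ + 1 - c₀ + 1 / 2 = θ - c₀ + 1 / 2 + 1 := by ring
    rw [this, Int.floor_add_one, add_comm]
  have h2 : θ + 1 - c₀ - ((1 + ⌊θ - c₀ + 1 / 2⌋ : ℤ) : ℝ) = θ - c₀ - ⌊θ - c₀ + 1 / 2⌋ := by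
    push_cast
    ring
  rw [h1, h2, zpow_one_add, RelIso.mul_apply]

/-- a number of the unit interval which represents zero -/
theorem Crv_zero {v : ℝ} (hv : v ∈ Icc (0 : ℝ) 1) (h : ((v : ℝ) : AddCircle (1 : ℝ)) = 0) :
    v = 0 ∨ v = 1 := by
  rcases eq_or_lt_of_le hv.2 with h1 | h1
  · exact Or.inr h1
  · left
    have h2 := lft_coe ⟨hv.1, h1⟩
    have h3 : lft (((0 : ℝ) : ℝ) : AddCircle (1 : ℝ)) = 0 := lft_coe ⟨le_rfl, one_pos⟩
    have h4 : (((0 : ℝ) : ℝ) : AddCircle (1 : ℝ)) = 0 := rfl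
    rw [h, ← h4, h3] at h2
    exact h2.symm

/-- A curve which crosses the strip `e` once (from the side `1` to the side `0`), at a level `m`
where `e` is inactive, and no other strips: it is a curve in a leaf, with the holonomy germ of
`iso H e` at `m`. The monodromy is trivial. `X (θ, u)`: the points of the surface, `τ s`: the
height, `w`: the collapse function along the curve, `c₀`: the position of the strip. -/
theorem strip_curve {S : Type*} [TopologicalSpace S] {J K : Type*} [Finite J] [Finite K]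
    {E : Surf S J} {col : J → K} {L : J → ℕ} {Y : Type*} [TopologicalSpace Y]
    (Fl : G.B.MTB E (Homeomorph.refl S) Y) (A : Arcs E col L) {σ : K → ℝ} (H : ∀ k, Hol (σ k))
    (C : Chain A 1 (Homeomorph.refl S)) (hC : ∀ i x, C.ψ i x = x) (hL : ∀ j, 0 < L j)
    {F : Foliation Y} (hF : F.charts = G.B.AllCharts Fl A H C)
    (e : Bool × K) (m : ℤ) (hm : ina m e) {N : LS.Cyl → Y} (hN : IsOpenEmbedding N)
    {X : ℝ × ℝ → S} (hX : Continuous X) {τ : ℝ → ℝ} (hτ : Continuous τ) (hτm : StrictMono τ)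
    (hτ0 : τ 0 = m) (hNX : ∀ θ u s : ℝ, N ((θ : AddCircle (1 : ℝ)), (u, s)) =
      G.B.PP Fl 1 (X (θ, u), τ s))
    (hcol : ∀ θ u j z, X (θ, u) ≠ E.collar j z)
    {w : ℝ → ℝ} (hw : Continuous w) (hw1 : ∀ v, w v ∈ Icc (0 : ℝ) 1)
    (hwl : ∀ v ≤ -1 / 4, w v = 1) (hwr : ∀ v, 1 / 4 ≤ v → w v = 0) (c₀ : ℝ)
    (hk : ∀ (θ u : ℝ) (k : ℤ), |θ - c₀ - k| ≤ 1 / 2 →
      kap A e (X (θ, u)) = ((w (θ - c₀ - k) : ℝ) : AddCircle (1 : ℝ)))
    (hk' : ∀ e' ≠ e, ∀ θ u, kap A e' (X (θ, u)) = 0)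
    (hg : ∀ ε > (0 : ℝ), ∃ t : ℝ, |t - m| < ε ∧ iso H e t ≠ t) :
    LS.HolCurve F N := by
  have hfix : iso H e m = m := iso_fix H hm
  -- the interval
  have hτev : ∀ᶠ s in 𝓝 (0 : ℝ), τ s ∈ Ioo ((m : ℝ) - 1) (m + 1) := by
    refine hτ.continuousAt.eventually_mem (isOpen_Ioo.mem_nhds ?_)
    rw [hτ0]
    constructor <;> linarith
  obtain ⟨δ, hδ, hδ'⟩ := Metric.eventually_nhds_iff.1 hτev
  have hτδ : ∀ s ∈ Ioo (-δ) δ, τ s ∈ Ioo ((m : ℝ) - 1) (m + 1) := fun s hs =>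
    hδ' (by rw [Real.dist_eq, sub_zero, abs_lt]; exact hs)
  refine ⟨hN, δ, fun z => Crv_G (iso H e) w c₀ z.1 (τ z.2) - m,
    (OrderIso.addRight (m : ℝ)).trans ((iso H e).trans (OrderIso.addRight (-(m : ℝ)))), ?_, ?_⟩
  · refine ⟨hδ, ?_, ?_, ?_, ?_, ?_⟩
    · have h1 : Continuous fun z : ℝ × ℝ => (z.1, τ z.2) :=
        continuous_fst.prodMk (hτ.comp continuous_snd)
      exact (((Crv_G_cont (iso H e) hw hwl hwr c₀).comp h1).sub continuous_const).continuousOn
    · intro θ s _ s' _ hss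
      have := Crv_G_mono (iso H e) w c₀ θ (hτm hss)
      show Crv_G (iso H e) w c₀ θ (τ s) - m < Crv_G (iso H e) w c₀ θ (τ s') - m
      linarith
    · intro θ
      show Crv_G (iso H e) w c₀ θ (τ 0) - m = 0
      rw [hτ0, Crv_G_fix (iso H e) hfix, sub_self]
    · intro θ s _
      show Crv_G (iso H e) w c₀ (θ + 1) (τ s) - m =
        iso H e (Crv_G (iso H e) w c₀ θ (τ s) - m + m) + -(m : ℝ)
      rw [sub_add_cancel, Crv_G_per, sub_eq_add_neg]
    · intro z hz c hc hy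
      rw [hF] at hc
      have hrc : ∀ z' : LS.Cov, LS.rc N z' = G.B.PP Fl 1 (X (z'.1, z'.2.1), τ z'.2.2) :=
        fun z' => hNX z'.1 z'.2.1 z'.2.2
      rw [hrc] at hy
      have hI := G.B.CmpH_onlyI Fl A H C one_pos hc (hcol z.1 z.2.1) hy
      obtain ⟨-, i, a, b, hA, hx, ht, hord⟩ := G.B.typeI_outer Fl A H C one_pos hI hy
      have hR : Continuous fun z' : LS.Cov => (X (z'.1, z'.2.1), τ z'.2.2) := by
        refine Continuous.prodMk (hX.comp ?_) (hτ.comp ?_)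
        · fun_prop
        · fun_prop
      -- the comparison with an admissible pair at the level `m`
      have key : ∀ a' : Option (Bool × K), inaO m a' → X (z.1, z.2.1) ∈ VV A a' →
          OrdEq z (fun z' => (c (LS.rc N z')).2)
            (fun z' => Fa A H a' (X (z'.1, z'.2.1)) (τ z'.2.2)) := by
        intro a' ha' hxa'
        have hD : X (z.1, z.2.1) ∈ DD A C m a' a' := by
          refine ⟨?_, ?_⟩
          · rw [hC]; exact hxa'
          · rw [hC]; exact hxa'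
        have h1 := hord.trans (Fs_equiv A H C hA (Or.inl ⟨ha', ha'⟩) hx hD ht (hτδ _ hz))
        have h2 := OrdEq.comp_cont (R := fun z' : LS.Cov => (X (z'.1, z'.2.1), τ z'.2.2))
          (z₀ := z) hR.continuousAt h1
        refine h2.congr (Eventually.of_forall fun z' => ?_) (Eventually.of_forall fun z' => ?_)
        · show (c (LS.rc N z')).2 = (c (G.B.PP Fl 1 (X (z'.1, z'.2.1), τ z'.2.2))).2
          rw [hrc]
        · show Fa A H a' (X (z'.1, z'.2.1)) (τ z'.2.2) =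
            Fs A H C m a' a' (X (z'.1, z'.2.1)) (τ z'.2.2)
          unfold Fs
          rw [hC, hC, ite_self]
      -- the formula near the point
      obtain ⟨k, hk0⟩ : ∃ k : ℤ, k = ⌊z.1 - c₀ + 1 / 2⌋ := ⟨_, rfl⟩
      have h1 : (k : ℝ) ≤ z.1 - c₀ + 1 / 2 := hk0 ▸ Int.floor_le _
      have h2 : z.1 - c₀ + 1 / 2 < k + 1 := hk0 ▸ Int.lt_floor_add_one _
      have h3 : |z.1 - c₀ - k| ≤ 1 / 2 := by
        rw [abs_le]
        constructor <;> linarith
      have hc1 : Continuous fun z' : LS.Cov => |z'.1 - c₀ - k| := by fun_prop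
      have hc2 : Continuous fun z' : LS.Cov => w (z'.1 - c₀ - k) := hw.comp (by fun_prop)
      have hev : ∀ᶠ z' : LS.Cov in 𝓝 z, |z'.1 - c₀ - k| < 3 / 4 :=
        hc1.continuousAt.eventually_lt_const (by
          show |z.1 - c₀ - k| < 3 / 4
          linarith)
      have hkz := hk z.1 z.2.1 k h3
      by_cases hkap : kap A e (X (z.1, z.2.1)) = 0
      · have hxn : X (z.1, z.2.1) ∈ VV A none := by
          intro e'
          by_cases he : e' = e
          · rw [he, hkap, norm_zero]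
            norm_num
          · rw [hk' e' he, norm_zero]
            norm_num
        have h4 := key none trivial hxn
        refine h4.trans ?_
        rw [hkap] at hkz
        rcases Crv_zero (hw1 _) hkz.symm with h5 | h5
        · have hev2 : ∀ᶠ z' : LS.Cov in 𝓝 z, w (z'.1 - c₀ - k) < 1 / 4 :=
            hc2.continuousAt.eventually_lt_const (by
              show w (z.1 - c₀ - k) < 1 / 4
              rw [h5]
              norm_num)
          refine OrdEq.of_comp (fun v => ((iso H e) ^ k) v - m) ?_ ?_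
          · intro u v huv
            have := ((iso H e) ^ k).strictMono huv
            show ((iso H e) ^ k) u - m < ((iso H e) ^ k) v - m
            linarith
          · filter_upwards [hev, hev2] with z' hz1 hz2
            show Crv_G (iso H e) w c₀ z'.1 (τ z'.2.2) - m = ((iso H e) ^ k) (τ z'.2.2) - m
            rw [Crv_G_eq (iso H e) hwl hwr c₀ k hz1.le, Fe_small _ hz2.le]
        · have hev2 : ∀ᶠ z' : LS.Cov in 𝓝 z, 3 / 4 < w (z'.1 - c₀ - k) :=
            hc2.continuousAt.eventually_const_lt (by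
              show 3 / 4 < w (z.1 - c₀ - k)
              rw [h5]
              norm_num)
          refine OrdEq.of_comp (fun v => ((iso H e) ^ k) ((iso H e).symm v) - m) ?_ ?_
          · intro u v huv
            have := ((iso H e) ^ k).strictMono ((iso H e).symm.strictMono huv)
            show ((iso H e) ^ k) ((iso H e).symm u) - m < ((iso H e) ^ k) ((iso H e).symm v) - m
            linarith
          · filter_upwards [hev, hev2] with z' hz1 hz2
            show Crv_G (iso H e) w c₀ z'.1 (τ z'.2.2) - m =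
              ((iso H e) ^ k) ((iso H e).symm (τ z'.2.2)) - m
            rw [Crv_G_eq (iso H e) hwl hwr c₀ k hz1.le, Fe_large _ hz2.le]
      · have h4 := key (some e) hm hkap
        refine h4.trans ?_
        have hv0 : w (z.1 - c₀ - k) ≠ 0 := by
          intro h5
          rw [h5] at hkz
          exact hkap (hkz.trans rfl)
        have hv1 : w (z.1 - c₀ - k) ≠ 1 := by
          intro h5
          rw [h5] at hkz
          exact hkap (hkz.trans (AddCircle.coe_period 1))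
        have h6 : |z.1 - c₀ - k| < 1 / 2 := by
          rw [abs_lt]
          constructor
          · by_contra hcon
            exact hv1 (hwl _ (by linarith))
          · linarith
        have hev3 : ∀ᶠ z' : LS.Cov in 𝓝 z, |z'.1 - c₀ - k| < 1 / 2 :=
          hc1.continuousAt.eventually_lt_const h6
        have hev4 : ∀ᶠ z' : LS.Cov in 𝓝 z, w (z'.1 - c₀ - k) < 1 :=
          hc2.continuousAt.eventually_lt_const (lt_of_le_of_ne (hw1 _).2 hv1)
        refine OrdEq.of_comp (fun v => ((iso H e) ^ k) v - m) ?_ ?_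
        · intro u v huv
          have := ((iso H e) ^ k).strictMono huv
          show ((iso H e) ^ k) u - m < ((iso H e) ^ k) v - m
          linarith
        · filter_upwards [hev, hev3, hev4] with z' hz1 hz2 hz3
          show Crv_G (iso H e) w c₀ z'.1 (τ z'.2.2) - m =
            ((iso H e) ^ k) (Fe (iso H e) (lft (kap A e (X (z'.1, z'.2.1)))) (τ z'.2.2)) - m
          rw [Crv_G_eq (iso H e) hwl hwr c₀ k hz1.le, hk z'.1 z'.2.1 k hz2.le,
            lft_coe ⟨(hw1 _).1, hz3⟩]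
  · intro ε hε
    obtain ⟨t, ht1, ht2⟩ := hg ε hε
    refine ⟨t - m, ht1, ?_⟩
    show iso H e (t - m + m) + -(m : ℝ) ≠ t - m
    rw [sub_add_cancel]
    intro h
    exact ht2 (by linarith)

end Pool.Agent.H.MP_1611f1_gt.BR
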