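import Pool.Agent.H.MP_1611f1_gt.G.Ended

/-!
Dehn surgery on the Borromean rings: the model.

`0`-surgery on the three components of the Borromean rings gives the `3`-torus, and the exterior
of the Borromean rings is the exterior of three disjoint circles in the three coordinate
directions of the `3`-torus. On the boundary torus of the `i`-th component the meridian of the
link in `S ^ 3` is the direction of the circle, and the longitude of the link is the meridian
of the circle in the `3`-torus (up to sign, the same sign for the three components).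
-/

namespace Pool.Agent.H.MP_1611f1_gt.BR

open Topology Set Filter

/-- the `3`-torus -/
abbrev T3 := Fin 3 → AddCircle (1 : ℝ)

/-- the closed tube of radius `1 / 32` around the circle
`x (i + 1) = 0`, `x (i + 2) = 1 / 2` -/
def Tube (i : Fin 3) : Set T3 :=
  {x | ‖x (i + 1)‖ ^ 2 + ‖x (i + 2) - ((1 / 2 : ℝ) : AddCircle (1 : ℝ))‖ ^ 2 ≤ (1 / 32) ^ 2}

/-- the exterior of the three circles: the exterior of the Borromean rings -/
abbrev M0 := {x : T3 // ∀ i, x ∉ Tube i}

/-- cylindrical coordinates around the `i`-th circle: radius `r / 32`, angle `2 π θ`,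
height `t` -/
noncomputable def tub (i : Fin 3) (θ r : ℝ) (t : AddCircle (1 : ℝ)) : T3 := fun j =>
  if j = i then t
  else if j = i + 1 then ((r / 32 * Real.cos (2 * Real.pi * θ) : ℝ) : AddCircle (1 : ℝ))
  else ((1 / 2 + r / 32 * Real.sin (2 * Real.pi * θ) : ℝ) : AddCircle (1 : ℝ))

/-- `Y` is obtained from the exterior of the Borromean rings (`p`) by gluing in three solid tori
(`q i`): the point with the cylindrical coordinates `(θ, r, t)` (`1 < r < 2`) is glued to the point
with polar coordinates `(r, al θ + be t)` and height `ga θ + de t`; the meridian disc is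
`height = const`. So `Y` is the Dehn surgery on the Borromean rings with the slopes
`ga i / de i`. -/
structure Surgery3 (al be ga de : Fin 3 → ℤ) (Y : Type*) [TopologicalSpace Y] where
  p : M0 → Y
  q : Fin 3 → Metric.ball (0 : ℂ) 2 × AddCircle (1 : ℝ) → Y
  p_emb : IsOpenEmbedding p
  q_emb : ∀ i, IsOpenEmbedding (q i)
  q_disj : ∀ i j z w, q i z = q j w → i = j
  glue : ∀ (x : M0) (i : Fin 3) (θ : ℝ) (r : Ioo (1 : ℝ) 2) (t : AddCircle (1 : ℝ)),
    x.1 = tub i θ r t →
    p x = q i (polar r (((al i * θ : ℝ) : AddCircle (1 : ℝ)) + be i • t),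
      ((ga i * θ : ℝ) : AddCircle (1 : ℝ)) + de i • t)
  overlap : ∀ (x : M0) (i : Fin 3) (z), p x = q i z →
    ∃ (θ : ℝ) (r : Ioo (1 : ℝ) 2) (t : AddCircle (1 : ℝ)), x.1 = tub i θ r t
  cover : ∀ y, (∃ x, p x = y) ∨ ∃ i z, q i z = y

end Pool.Agent.H.MP_1611f1_gt.BR
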