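import Pool.Agent.H.MP_1611f1_gt.BR.Defs
import Pool.Agent.H.MP_1611f1_gt.LS.SurgA
import Pool.Agent.H.MP_1611f1_gt.LS.IsoC

/-!
Coordinates of the `3`-torus, standard neighbourhoods of the three circles, the toral ends of the
exterior.
-/

namespace Pool.Agent.H.MP_1611f1_gt.BR

open Topology Set Filter

theorem fin3 (i : Fin 3) : i + 1 ≠ i ∧ i + 2 ≠ i ∧ i + 2 ≠ i + 1 := by revert i; decide

theorem fin3_cases (i j : Fin 3) : j = i ∨ j = i + 1 ∨ j = i + 2 := by revert i j; decide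

/-- cyclic coordinates of the `3`-torus -/
def ax (i : Fin 3) : AddCircle (1 : ℝ) × (AddCircle (1 : ℝ) × AddCircle (1 : ℝ)) ≃ₜ T3 where
  toFun z j := if j = i then z.1 else if j = i + 1 then z.2.1 else z.2.2
  invFun x := (x i, (x (i + 1), x (i + 2)))
  left_inv := by
    rintro ⟨a, b, c⟩
    obtain ⟨h1, h2, h3⟩ := fin3 i
    simp only [if_true, if_neg h1, if_neg h2, if_neg h3]
  right_inv := by
    intro x
    funext j
    obtain ⟨h1, h2, h3⟩ := fin3 i
    rcases fin3_cases i j with rfl | rfl | rfl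
    · simp
    · simp only [if_neg h1, if_true]
    · simp only [if_neg h2, if_neg h3]
  continuous_toFun := by
    apply continuous_pi
    intro j
    by_cases h1 : j = i
    · simp only [if_pos h1]
      exact continuous_fst
    · by_cases h2 : j = i + 1
      · simp only [if_neg h1, if_pos h2]
        exact continuous_fst.comp continuous_snd
      · simp only [if_neg h1, if_neg h2]
        exact continuous_snd.comp continuous_snd
  continuous_invFun :=
    (continuous_apply i).prodMk ((continuous_apply (i + 1)).prodMk (continuous_apply (i + 2)))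

theorem ax_0 (i : Fin 3) (z) : ax i z i = z.1 := by
  show (if i = i then z.1 else _) = _
  rw [if_pos rfl]

theorem ax_1 (i : Fin 3) (z) : ax i z (i + 1) = z.2.1 := by
  show (if i + 1 = i then z.1 else if i + 1 = i + 1 then z.2.1 else z.2.2) = _
  rw [if_neg (fin3 i).1, if_pos rfl]

theorem ax_2 (i : Fin 3) (z) : ax i z (i + 2) = z.2.2 := by
  show (if i + 2 = i then z.1 else if i + 2 = i + 1 then z.2.1 else z.2.2) = _
  rw [if_neg (fin3 i).2.1, if_neg (fin3 i).2.2]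

theorem ax_surj (i : Fin 3) (x : T3) : x = ax i (x i, (x (i + 1), x (i + 2))) :=
  ((ax i).apply_symm_apply x).symm

/-! ### The circle -/

theorem coe_surj (p : AddCircle (1 : ℝ)) :
    ∃ a : ℝ, |a| ≤ 1 / 2 ∧ (a : AddCircle (1 : ℝ)) = p ∧ ‖p‖ = |a| := by
  obtain ⟨x, rfl⟩ := QuotientAddGroup.mk_surjective p
  refine ⟨x - round x, abs_sub_round x, ?_, ?_⟩
  · have : ((x - round x : ℝ) : AddCircle (1 : ℝ)) = ((x : ℝ) : AddCircle (1 : ℝ)) := by
      rw [AddCircle.coe_sub]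
      have h2 : (((round x : ℤ) : ℝ) : AddCircle (1 : ℝ)) = 0 := by
        rw [AddCircle.coe_eq_zero_iff]
        exact ⟨round x, by simp⟩
      rw [h2, sub_zero]
    exact this
  · have := AddCircle.norm_eq (p := (1 : ℝ)) (x := x)
    simpa using this

theorem norm_coe {a : ℝ} (h : |a| ≤ 1 / 2) : ‖(a : AddCircle (1 : ℝ))‖ = |a| := by
  rw [AddCircle.norm_coe_eq_abs_iff (1 : ℝ) one_ne_zero]
  simpa using h

theorem coe_inj {a b : ℝ} (h : |a - b| < 1) (e : (a : AddCircle (1 : ℝ)) = b) : a = b := by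
  have h1 : ((a - b : ℝ) : AddCircle (1 : ℝ)) = 0 := by
    rw [AddCircle.coe_sub, e, sub_self]
  rw [AddCircle.coe_eq_zero_iff] at h1
  obtain ⟨n, hn⟩ := h1
  have h2 : (n : ℝ) = a - b := by simpa using hn
  have h3 : |(n : ℝ)| < 1 := by rw [h2]; exact h
  have h4 : n = 0 := by
    have : |n| < 1 := by exact_mod_cast h3
    exact Int.abs_lt_one_iff.1 this
  rw [h4] at h2
  simp only [Int.cast_zero] at h2
  linarith

theorem coe_open : IsOpenMap (fun a : ℝ => (a : AddCircle (1 : ℝ))) :=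
  QuotientAddGroup.isOpenMap_coe

theorem coe_cont : Continuous (fun a : ℝ => (a : AddCircle (1 : ℝ))) :=
  AddCircle.continuous_mk' (1 : ℝ)

/-! ### Neighbourhoods of the circles -/

/-- the neighbourhood of the `i`-th circle given by an embedding `h` of the plane -/
noncomputable def cyl (i : Fin 3) (h : ℝ × ℝ → ℝ × ℝ) (z : LS.Cyl) : T3 :=
  ax i (z.1, ((((h z.2).1 : ℝ) : AddCircle (1 : ℝ)),
    ((1 / 2 + (h z.2).2 : ℝ) : AddCircle (1 : ℝ))))

theorem cyl_emb (i : Fin 3) {h : ℝ × ℝ → ℝ × ℝ} (hh : IsOpenEmbedding h)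
    (hb : ∀ z, |(h z).1| < 1 / 2 ∧ |(h z).2| < 1 / 2) : IsOpenEmbedding (cyl i h) := by
  have h1 : IsOpenEmbedding (fun z : ℝ × ℝ => ((((h z).1 : ℝ) : AddCircle (1 : ℝ)),
      ((1 / 2 + (h z).2 : ℝ) : AddCircle (1 : ℝ)))) := by
    refine IsOpenEmbedding.of_continuous_injective_isOpenMap ?_ ?_ ?_
    · exact (coe_cont.comp (continuous_fst.comp hh.continuous)).prodMk
        (coe_cont.comp (continuous_const.add (continuous_snd.comp hh.continuous)))
    · intro z w e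
      simp only [Prod.mk.injEq] at e
      obtain ⟨z1, z2⟩ := hb z
      obtain ⟨w1, w2⟩ := hb w
      rw [abs_lt] at z1 z2 w1 w2
      have e1 := coe_inj (abs_lt.2 ⟨by linarith, by linarith⟩) e.1
      have e2 := coe_inj (abs_lt.2 ⟨by linarith, by linarith⟩) e.2
      exact hh.injective (Prod.ext e1 (by linarith))
    · have h2 : IsOpenMap (fun z : ℝ × ℝ => ((z.1 : AddCircle (1 : ℝ)),
          ((1 / 2 + z.2 : ℝ) : AddCircle (1 : ℝ)))) :=
        coe_open.prodMap (coe_open.comp (Homeomorph.addLeft (1 / 2 : ℝ)).isOpenMap)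
      exact h2.comp hh.isOpenMap
  exact (ax i).isOpenEmbedding.comp (IsOpenEmbedding.id.prodMap h1)

/-! ### Increasing functions -/

theorem mono_emb {f : ℝ → ℝ} (hc : Continuous f) (hm : StrictMono f) : IsOpenEmbedding f := by
  refine IsOpenEmbedding.of_continuous_injective_isOpenMap hc hm.injective ?_
  have h1 := LS.fib_open (X := Unit) (ρ := fun z => f z.2) (by fun_prop) (fun _ => hm)
  have h2 : f = (fun z : Unit × ℝ => z.2) ∘ (fun z : Unit × ℝ => (z.1, f z.2)) ∘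
      (fun s : ℝ => ((), s)) := rfl
  rw [h2]
  exact isOpenMap_snd.comp (h1.comp (Homeomorph.punitProd ℝ).symm.isOpenMap)

/-- `y / (1 + y)` for `y ≥ 0` -/
noncomputable def gg (y : ℝ) : ℝ := max y 0 / (1 + max y 0)

theorem gg_cont : Continuous gg := by
  unfold gg
  refine Continuous.div (by fun_prop) (by fun_prop) fun y => ?_
  have := le_max_right y 0
  positivity

theorem gg_zero {y : ℝ} (h : y ≤ 0) : gg y = 0 := by
  unfold gg
  rw [max_eq_right h]
  simp

theorem gg_mem (y : ℝ) : 0 ≤ gg y ∧ gg y < 1 := by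
  have := le_max_right y 0
  unfold gg
  constructor
  · positivity
  · rw [div_lt_one (by positivity)]
    linarith

theorem gg_lt {y y' : ℝ} (h : y < y') (h' : 0 < y') : gg y < gg y' := by
  unfold gg
  rw [max_eq_left h'.le]
  rcases le_or_gt y 0 with h0 | h0
  · rw [max_eq_right h0]
    simp only [zero_div]
    positivity
  · rw [max_eq_left h0.le, div_lt_div_iff₀ (by positivity) (by positivity)]
    nlinarith

theorem gg_le {y y' : ℝ} (h : y ≤ y') : gg y ≤ gg y' := by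
  rcases h.eq_or_lt with rfl | h
  · exact le_rfl
  · rcases le_or_gt y' 0 with h0 | h0
    · rw [gg_zero (h.le.trans h0), gg_zero h0]
    · exact (gg_lt h h0).le

/-- clamping to `[0, b]` -/
noncomputable def cl (b y : ℝ) : ℝ := max 0 (min b y)

theorem cl_cont (b : ℝ) : Continuous (cl b) := by
  unfold cl
  fun_prop

theorem cl_le (b : ℝ) {y y' : ℝ} (h : y ≤ y') : cl b y ≤ cl b y' :=
  max_le_max le_rfl (min_le_min le_rfl h)

theorem cl_lt {b y y' : ℝ} (h : y < y') (h0 : 0 ≤ y) (hb : y < b) : cl b y < cl b y' := by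
  unfold cl
  rw [min_eq_right hb.le, max_eq_right h0]
  exact lt_of_lt_of_le (lt_min hb h) (le_max_right _ _)

theorem cl_mem {b : ℝ} (hb : 0 ≤ b) (y : ℝ) : 0 ≤ cl b y ∧ cl b y ≤ b :=
  ⟨le_max_left _ _, max_le hb (min_le_left _ _)⟩

theorem cl_id {b y : ℝ} (h0 : 0 ≤ y) (hb : y ≤ b) : cl b y = y := by
  unfold cl
  rw [min_eq_right hb, max_eq_right h0]

theorem cl_zero {b y : ℝ} (hb : 0 ≤ b) (h0 : y ≤ 0) : cl b y = 0 := by
  unfold cl
  rw [min_eq_right (h0.trans hb), max_eq_left h0]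

theorem cl_top {b y : ℝ} (hb : 0 ≤ b) (h0 : b ≤ y) : cl b y = b := by
  unfold cl
  rw [min_eq_left h0, max_eq_right hb]

/-- the identity on `[-2, 2]`, with values in `(-3, 3)` -/
noncomputable def sq (x : ℝ) : ℝ := -2 - gg (-2 - x) + cl 4 (x + 2) + gg (x - 2)

theorem sq_cont : Continuous sq := by
  have h1 := gg_cont
  have h2 := cl_cont 4
  unfold sq
  fun_prop

theorem sq_mono : StrictMono sq := by
  intro s t h
  unfold sq
  have h1 : gg (-2 - t) ≤ gg (-2 - s) := gg_le (by linarith)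
  have h2 : cl 4 (s + 2) ≤ cl 4 (t + 2) := cl_le 4 (by linarith)
  have h3 : gg (s - 2) ≤ gg (t - 2) := gg_le (by linarith)
  rcases lt_or_ge s (-2) with c1 | c1
  · have := gg_lt (show -2 - t < -2 - s by linarith) (by linarith)
    linarith
  · rcases lt_or_ge s 2 with c2 | c2
    · have := cl_lt (show s + 2 < t + 2 by linarith) (by linarith) (show s + 2 < 4 by linarith)
      linarith
    · have := gg_lt (show s - 2 < t - 2 by linarith) (by linarith)
      linarith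

theorem sq_id {x : ℝ} (h : |x| ≤ 2) : sq x = x := by
  rw [abs_le] at h
  unfold sq
  rw [gg_zero (by linarith), gg_zero (by linarith), cl_id (by linarith) (by linarith)]
  ring

theorem sq_lt (x : ℝ) : |sq x| < 3 := by
  unfold sq
  have h1 := gg_mem (-2 - x)
  have h2 := gg_mem (x - 2)
  have h3 := cl_mem (show (0 : ℝ) ≤ 4 by norm_num) (x + 2)
  rw [abs_lt]
  rcases le_or_gt x 2 with c | c
  · rw [gg_zero (show x - 2 ≤ 0 by linarith)] at *
    constructor <;> linarith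
  · rw [gg_zero (show -2 - x ≤ 0 by linarith)] at *
    constructor <;> linarith

/-- `s + 4` on `[-6, -2]`, linear on `[-2, 0]`, `a` at `0`, with values in `(-3, a + 1)` -/
noncomputable def psi (a s : ℝ) : ℝ :=
  -2 - gg (-6 - s) + cl 4 (s + 6) + (a - 2) / 2 * cl 2 (s + 2) + gg s

theorem psi_cont (a : ℝ) : Continuous (psi a) := by
  have h1 := gg_cont
  have h2 := cl_cont 4
  have h3 := cl_cont 2
  unfold psi
  fun_prop

theorem psi_mono {a : ℝ} (ha : 2 < a) : StrictMono (psi a) := by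
  intro s t h
  unfold psi
  have ha' : 0 < (a - 2) / 2 := by linarith
  have h1 : gg (-6 - t) ≤ gg (-6 - s) := gg_le (by linarith)
  have h2 : cl 4 (s + 6) ≤ cl 4 (t + 6) := cl_le 4 (by linarith)
  have h4 : (a - 2) / 2 * cl 2 (s + 2) ≤ (a - 2) / 2 * cl 2 (t + 2) :=
    mul_le_mul_of_nonneg_left (cl_le 2 (by linarith)) ha'.le
  have h3 : gg s ≤ gg t := gg_le (by linarith)
  rcases lt_or_ge s (-6) with c1 | c1
  · have := gg_lt (show -6 - t < -6 - s by linarith) (by linarith)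
    linarith
  · rcases lt_or_ge s (-2) with c2 | c2
    · have := cl_lt (show s + 6 < t + 6 by linarith) (by linarith) (show s + 6 < 4 by linarith)
      linarith
    · rcases lt_or_ge s 0 with c3 | c3
      · have := mul_lt_mul_of_pos_left (cl_lt (show s + 2 < t + 2 by linarith) (by linarith)
          (show s + 2 < 2 by linarith)) ha'
        linarith
      · have := gg_lt h (by linarith)
        linarith

theorem psi_id {a s : ℝ} (h : |s + 4| ≤ 2) : psi a s = s + 4 := by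
  rw [abs_le] at h
  unfold psi
  rw [gg_zero (show -6 - s ≤ 0 by linarith), gg_zero (show s ≤ 0 by linarith),
    cl_id (by linarith) (by linarith), cl_zero (by norm_num) (by linarith)]
  ring

theorem psi_zero (a : ℝ) : psi a 0 = a := by
  unfold psi
  rw [gg_zero (show (-6 : ℝ) - 0 ≤ 0 by norm_num), gg_zero (le_refl (0 : ℝ)),
    cl_top (by norm_num) (by norm_num), cl_id (by norm_num) (by norm_num)]
  ring

theorem psi_lt {a : ℝ} (ha : 2 < a) (s : ℝ) : -3 < psi a s ∧ psi a s < a + 1 := by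
  unfold psi
  have h1 := gg_mem (-6 - s)
  have h2 := gg_mem s
  have h3 := cl_mem (show (0 : ℝ) ≤ 4 by norm_num) (s + 6)
  have h4 := cl_mem (show (0 : ℝ) ≤ 2 by norm_num) (s + 2)
  have ha' : 0 < (a - 2) / 2 := by linarith
  have h5 : 0 ≤ (a - 2) / 2 * cl 2 (s + 2) := mul_nonneg ha'.le h4.1
  have h6 : (a - 2) / 2 * cl 2 (s + 2) ≤ (a - 2) / 2 * 2 := mul_le_mul_of_nonneg_left h4.2 ha'.le
  constructor <;> linarith

/-- the standard embedding of the plane: the leaf is at the height `a / 32` -/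
noncomputable def hh (a : ℝ) (z : ℝ × ℝ) : ℝ × ℝ := (sq z.1 / 32, psi a z.2 / 32)

/-- the standard embedding of the plane, rotated -/
noncomputable def hr (a : ℝ) (z : ℝ × ℝ) : ℝ × ℝ := (psi a z.2 / 32, -(sq z.1 / 32))

theorem hh_emb {a : ℝ} (ha : 2 < a) : IsOpenEmbedding (hh a) := by
  have h1 : IsOpenEmbedding (fun x => sq x / 32) :=
    mono_emb (sq_cont.div_const 32) (fun s t h => div_lt_div_of_pos_right (sq_mono h) (by norm_num))
  have h2 : IsOpenEmbedding (fun x => psi a x / 32) :=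
    mono_emb ((psi_cont a).div_const 32)
      (fun s t h => div_lt_div_of_pos_right (psi_mono ha h) (by norm_num))
  exact h1.prodMap h2

theorem hh_lt {a : ℝ} (ha : 2 < a) (ha' : a ≤ 15) (z : ℝ × ℝ) :
    |(hh a z).1| < 1 / 2 ∧ |(hh a z).2| < 1 / 2 := by
  have h1 := sq_lt z.1
  have h2 := psi_lt ha z.2
  rw [abs_lt] at h1
  unfold hh
  simp only [abs_lt]
  refine ⟨⟨?_, ?_⟩, ⟨?_, ?_⟩⟩ <;> linarith

theorem hr_emb {a : ℝ} (ha : 2 < a) : IsOpenEmbedding (hr a) := by
  have h : hr a = (fun z : ℝ × ℝ => (z.2, -z.1)) ∘ hh a := rfl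
  rw [h]
  have h1 : IsOpenEmbedding (fun z : ℝ × ℝ => (z.2, -z.1)) := by
    have h2 : (fun z : ℝ × ℝ => (z.2, -z.1)) =
      Prod.map id (Homeomorph.neg ℝ) ∘ (Homeomorph.prodComm ℝ ℝ) := rfl
    rw [h2]
    exact (IsOpenEmbedding.id.prodMap (Homeomorph.neg ℝ).isOpenEmbedding).comp
      (Homeomorph.prodComm ℝ ℝ).isOpenEmbedding
  exact h1.comp (hh_emb ha)

theorem hr_lt {a : ℝ} (ha : 2 < a) (ha' : a ≤ 15) (z : ℝ × ℝ) :
    |(hr a z).1| < 1 / 2 ∧ |(hr a z).2| < 1 / 2 := by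
  have h := hh_lt ha ha' z
  unfold hh at h
  unfold hr
  simp only [abs_neg] at *
  exact ⟨h.2, h.1⟩

theorem hh_id (a : ℝ) {z : ℝ × ℝ} (h1 : |z.1| ≤ 2) (h2 : |z.2 + 4| ≤ 2) :
    hh a z = (z.1 / 32, (z.2 + 4) / 32) := by
  unfold hh
  rw [sq_id h1, psi_id h2]

theorem hr_id (a : ℝ) {z : ℝ × ℝ} (h1 : |z.1| ≤ 2) (h2 : |z.2 + 4| ≤ 2) :
    hr a z = ((z.2 + 4) / 32, -(z.1 / 32)) := by
  unfold hr
  rw [sq_id h1, psi_id h2]

/-! ### The tubes -/

theorem rr_bd {z : ℝ × ℝ} (h : LS.rr z ≤ 1) : |z.1| ≤ 1 ∧ |z.2 + 4| ≤ 1 := by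
  unfold LS.rr at h
  constructor
  · exact abs_le_one_iff_mul_self_le_one.2 (by nlinarith)
  · exact abs_le_one_iff_mul_self_le_one.2 (by nlinarith)

theorem mem_Tube (i : Fin 3) {t : AddCircle (1 : ℝ)} {a b : ℝ} (ha : |a| ≤ 1 / 2)
    (hb : |b| ≤ 1 / 2) : ax i (t, ((a : AddCircle (1 : ℝ)), ((1 / 2 + b : ℝ) : AddCircle (1 : ℝ))))
      ∈ Tube i ↔ a ^ 2 + b ^ 2 ≤ (1 / 32) ^ 2 := by
  show ‖_‖ ^ 2 + ‖_‖ ^ 2 ≤ _ ↔ _
  rw [ax_1, ax_2]
  simp only
  rw [← AddCircle.coe_sub, add_sub_cancel_left, norm_coe ha, norm_coe hb, sq_abs, sq_abs]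

theorem cyl_KK (i : Fin 3) {h : ℝ × ℝ → ℝ × ℝ}
    (h1 : ∀ z, LS.rr z ≤ 1 → (h z).1 ^ 2 + (h z).2 ^ 2 ≤ (1 / 32) ^ 2)
    (h2 : ∀ a b : ℝ, a ^ 2 + b ^ 2 ≤ (1 / 32) ^ 2 → ∃ z, LS.rr z ≤ 1 ∧ h z = (a, b)) :
    cyl i h '' LS.KK = Tube i := by
  ext x
  constructor
  · rintro ⟨z, hz, rfl⟩
    have h3 := h1 z.2 hz
    have h4 : |(h z.2).1| ≤ 1 / 2 := abs_le.2 ⟨by nlinarith, by nlinarith⟩
    have h5 : |(h z.2).2| ≤ 1 / 2 := abs_le.2 ⟨by nlinarith, by nlinarith⟩
    exact (mem_Tube i h4 h5).2 h3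
  · intro hx
    obtain ⟨a, ha, ha1, -⟩ := coe_surj (x (i + 1))
    obtain ⟨b, hb, hb1, -⟩ := coe_surj (x (i + 2) - ((1 / 2 : ℝ) : AddCircle (1 : ℝ)))
    have hx1 : x = ax i (x i, ((a : AddCircle (1 : ℝ)),
        ((1 / 2 + b : ℝ) : AddCircle (1 : ℝ)))) := by
      rw [ax_surj i x, ax_0, ha1, AddCircle.coe_add, hb1, add_sub_cancel]
    rw [hx1] at hx
    obtain ⟨z, hz, he⟩ := h2 a b ((mem_Tube i ha hb).1 hx)
    refine ⟨(x i, z), hz, ?_⟩
    rw [hx1]
    unfold cyl
    simp only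
    rw [he]
    rw [ax_0]

theorem hh_KK (i : Fin 3) (a : ℝ) : cyl i (hh a) '' LS.KK = Tube i := by
  apply cyl_KK
  · intro z hz
    obtain ⟨h1, h2⟩ := rr_bd hz
    rw [hh_id a (by linarith) (by linarith)]
    unfold LS.rr at hz
    simp only
    nlinarith
  · intro x y h
    have hx : |32 * x| ≤ 2 := abs_le.2 ⟨by nlinarith, by nlinarith⟩
    have hy : |32 * y - 4 + 4| ≤ 2 := abs_le.2 ⟨by nlinarith, by nlinarith⟩
    refine ⟨(32 * x, 32 * y - 4), ?_, ?_⟩
    · unfold LS.rr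
      simp only
      nlinarith
    · rw [hh_id a hx hy]
      simp only
      ext <;> simp only <;> ring

theorem hr_KK (i : Fin 3) (a : ℝ) : cyl i (hr a) '' LS.KK = Tube i := by
  apply cyl_KK
  · intro z hz
    obtain ⟨h1, h2⟩ := rr_bd hz
    rw [hr_id a (by linarith) (by linarith)]
    unfold LS.rr at hz
    simp only
    nlinarith
  · intro x y h
    have hx : |-(32 * y)| ≤ 2 := abs_le.2 ⟨by nlinarith, by nlinarith⟩
    have hy : |32 * x - 4 + 4| ≤ 2 := abs_le.2 ⟨by nlinarith, by nlinarith⟩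
    refine ⟨(-(32 * y), 32 * x - 4), ?_, ?_⟩
    · unfold LS.rr
      simp only
      nlinarith
    · rw [hr_id a hx hy]
      simp only
      ext <;> simp only <;> ring

end Pool.Agent.H.MP_1611f1_gt.BR
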