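import Pool.Agent.H.MP_1611f1_gt.BR.NPsiA

/-!
The transverse scale along the leaf curve.
-/

namespace Pool.Agent.H.MP_1611f1_gt.BR.U

open Topology Set Filter

/-- the logarithm of the transverse scale along the leaf curve, up to a constant: a continuous
function with `bl (θ + 1) = bl θ + log lam` -/
noncomputable def bl (P : Par) (θ : ℝ) : ℝ :=
  ⌊θ⌋ * Real.log P.lam + Real.log (1 + (P.lam - 1) * rmp (Int.fract θ - 1 / 2))

theorem NBl_rmp_cont : Continuous rmp := by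
  unfold rmp
  fun_prop

theorem NBl_rmp_nonneg (x : ℝ) : 0 ≤ rmp x := le_max_left _ _

theorem NBl_rmp_low {x : ℝ} (h : x ≤ -1 / 32) : rmp x = 0 := by
  unfold rmp
  have h1 : min 1 (16 * x + 1 / 2) ≤ 0 := (min_le_right _ _).trans (by linarith)
  exact max_eq_left h1

theorem NBl_rmp_high {x : ℝ} (h : 1 / 32 ≤ x) : rmp x = 1 := by
  unfold rmp
  have h1 : min 1 (16 * x + 1 / 2) = 1 := min_eq_left (by linarith)
  rw [h1]
  exact max_eq_right zero_le_one

theorem NBl_pos (P : Par) (x : ℝ) : 0 < 1 + (P.lam - 1) * rmp x := by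
  have h1 : 0 ≤ (P.lam - 1) * rmp x := mul_nonneg (by linarith [P.h1]) (NBl_rmp_nonneg x)
  linarith

/-- `⌊θ⌋ L + q (fract θ) = θ L + (q (fract θ) - L * fract θ)`, and the second summand is continuous
(`ContinuousOn.comp_fract`) -/
theorem bl_cont (P : Par) : Continuous (bl P) := by
  have hq : Continuous (fun s : ℝ => Real.log (1 + (P.lam - 1) * rmp (s - 1 / 2)) -
      s * Real.log P.lam) := by
    refine Continuous.sub (Continuous.log ?_ fun s => (NBl_pos P _).ne') (by fun_prop)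
    exact continuous_const.add (continuous_const.mul
      (NBl_rmp_cont.comp (continuous_id.sub continuous_const)))
  have h01 : (fun s : ℝ => Real.log (1 + (P.lam - 1) * rmp (s - 1 / 2)) -
      s * Real.log P.lam) 0 = (fun s : ℝ => Real.log (1 + (P.lam - 1) * rmp (s - 1 / 2)) -
      s * Real.log P.lam) 1 := by
    show Real.log (1 + (P.lam - 1) * rmp (0 - 1 / 2)) - 0 * Real.log P.lam =
      Real.log (1 + (P.lam - 1) * rmp (1 - 1 / 2)) - 1 * Real.log P.lam
    rw [NBl_rmp_low (by norm_num), NBl_rmp_high (by norm_num)]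
    simp
  have h1 := ContinuousOn.comp_fract'' hq.continuousOn h01
  have h2 : bl P = fun θ => θ * Real.log P.lam +
      ((fun s : ℝ => Real.log (1 + (P.lam - 1) * rmp (s - 1 / 2)) -
      s * Real.log P.lam) ∘ Int.fract) θ := by
    funext θ
    show ⌊θ⌋ * Real.log P.lam + Real.log (1 + (P.lam - 1) * rmp (Int.fract θ - 1 / 2)) =
      θ * Real.log P.lam + (Real.log (1 + (P.lam - 1) * rmp (Int.fract θ - 1 / 2)) -
      Int.fract θ * Real.log P.lam)
    have h3 := Int.floor_add_fract θ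
    have h4 : (⌊θ⌋ : ℝ) = θ - Int.fract θ := by linarith
    rw [h4]
    ring
  rw [h2]
  exact (continuous_id.mul continuous_const).add h1

theorem bl_add (P : Par) (θ : ℝ) : bl P (θ + 1) = bl P θ + Real.log P.lam := by
  unfold bl
  rw [Int.floor_add_one, Int.fract_add_one]
  push_cast
  ring

theorem NBl_int (u : ℝ) : ∃ n : ℤ, u = n + cl (u : Ci) := by
  have h1 := coe_cl (u : Ci)
  have h2 : ((u - cl (u : Ci) : ℝ) : Ci) = 0 := by
    rw [AddCircle.coe_sub, h1, sub_self]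
  obtain ⟨n, hn⟩ := (AddCircle.coe_eq_zero_iff (1 : ℝ)).1 h2
  refine ⟨n, ?_⟩
  rw [zsmul_eq_mul, mul_one] at hn
  linarith

theorem NBl_val (P : Par) (n : ℤ) {θ : ℝ} (h : |θ - n| < 3 / 8) :
    bl P θ = n * Real.log P.lam := by
  obtain ⟨h1, h2⟩ := abs_lt.1 h
  unfold bl
  rcases le_or_gt 0 (θ - n) with h3 | h3
  · have h4 : ⌊θ⌋ = n := by
      rw [Int.floor_eq_iff]
      constructor <;> linarith
    have h5 : Int.fract θ = θ - n := by
      rw [← h4]
      rfl
    rw [h4, h5, NBl_rmp_low (by linarith)]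
    simp
  · have h4 : ⌊θ⌋ = n - 1 := by
      rw [Int.floor_eq_iff]
      push_cast
      constructor <;> linarith
    have h5 : Int.fract θ = θ - n + 1 := by
      have h6 := Int.floor_add_fract θ
      rw [h4] at h6
      push_cast at h6
      linarith
    rw [h4, h5, NBl_rmp_high (by linarith)]
    push_cast
    have h7 : 1 + (P.lam - 1) * 1 = P.lam := by ring
    rw [h7]
    ring

/-- `bl` is constant near `θ` if `|cl θ| < 3/8` -/
theorem bl_const (P : Par) {θ : ℝ} (h : |cl (θ : Ci)| < 3 / 8) : ∀ᶠ θ' in 𝓝 θ, bl P θ' = bl P θ := by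
  obtain ⟨n, hn⟩ := NBl_int θ
  have h1 : |θ - n| < 3 / 8 := by
    have h2 : θ - n = cl (θ : Ci) := by linarith
    rw [h2]
    exact h
  have h3 : ContinuousAt (fun θ' : ℝ => |θ' - n|) θ :=
    (continuous_abs.comp (continuous_id.sub continuous_const)).continuousAt
  have h4 : ∀ᶠ θ' : ℝ in 𝓝 θ, |θ' - n| < 3 / 8 := h3.eventually_lt continuousAt_const h1
  filter_upwards [h4] with θ' h5
  rw [NBl_val P n h5, NBl_val P n h1]

/-- for `|cl (θ - 1/2)| < 3/8` (so `θ` is not an integer): near `θ` -/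
theorem bl_three (P : Par) {θ : ℝ} (h : |cl ((θ : Ci) - hlf)| < 3 / 8) : ∀ᶠ θ' in 𝓝 θ,
    bl P θ' = ⌊θ⌋ * Real.log P.lam +
      Real.log (1 + (P.lam - 1) * rmp (cl ((θ' : Ci) - hlf))) := by
  have e : ∀ θ' : ℝ, (θ' : Ci) - hlf = ((θ' - 1 / 2 : ℝ) : Ci) := by
    intro θ'
    rw [AddCircle.coe_sub]
    rfl
  obtain ⟨n, hn⟩ := NBl_int (θ - 1 / 2)
  rw [e] at h
  have h1 : |θ - 1 / 2 - n| < 3 / 8 := by
    have h2 : θ - 1 / 2 - n = cl ((θ - 1 / 2 : ℝ) : Ci) := by linarith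
    rw [h2]
    exact h
  have h3 : ContinuousAt (fun θ' : ℝ => |θ' - 1 / 2 - n|) θ :=
    (continuous_abs.comp ((continuous_id.sub continuous_const).sub continuous_const)).continuousAt
  have h4 : ∀ᶠ θ' : ℝ in 𝓝 θ, |θ' - 1 / 2 - n| < 3 / 8 := h3.eventually_lt continuousAt_const h1
  have hf : ∀ θ' : ℝ, |θ' - 1 / 2 - n| < 3 / 8 → ⌊θ'⌋ = n := by
    intro θ' h5
    obtain ⟨h6, h7⟩ := abs_lt.1 h5
    rw [Int.floor_eq_iff]
    constructor <;> linarith
  filter_upwards [h4] with θ' h5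
  obtain ⟨h6, h7⟩ := abs_lt.1 h5
  have h8 : cl ((θ' : Ci) - hlf) = θ' - 1 / 2 - n := by
    rw [e]
    have h9 : ((θ' - 1 / 2 : ℝ) : Ci) = ((θ' - 1 / 2 - n : ℝ) : Ci) := by
      have h11 : ((θ' - 1 / 2 - n : ℝ) : Ci) = ((θ' - 1 / 2 : ℝ) : Ci) - ((n : ℝ) : Ci) := by
        rw [← AddCircle.coe_sub]
      rw [h11]
      have h10 : ((n : ℝ) : Ci) = 0 :=
        (AddCircle.coe_eq_zero_iff (1 : ℝ)).2 ⟨n, by rw [zsmul_eq_mul, mul_one]⟩
      rw [h10, sub_zero]
    rw [h9]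
    exact cl_coe ⟨by linarith, by linarith⟩
  unfold bl
  rw [h8, hf θ h1, hf θ' h5]
  have h9 : Int.fract θ' = θ' - n := by
    rw [← hf θ' h5]
    rfl
  have h12 : θ' - n - 1 / 2 = θ' - 1 / 2 - n := by ring
  rw [h9, h12]

end Pool.Agent.H.MP_1611f1_gt.BR.U
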