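import Pool.Agent.H.MP_1611f1_gt.BR.NNb
import Pool.Agent.H.MP_1611f1_gt.BR.NBl

/-!
The leaf curve.
-/

namespace Pool.Agent.H.MP_1611f1_gt.BR.U

open Topology Set Filter

variable {P : Par} {F : Foliation Mu}
  (hF : F.charts = LS.pullCharts (Subtype.val : Mu → To) (fol P))

include hF in
/-- The common form: near every point `z` of the cover with `-1/2 < s < 1` the order is given by a
function `B (θ) * hgt s`, where `B > 0` and `log B - bl` is constant. (One of the two conditions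
`|cl θ| < 3/8`, `|cl (θ - 1/2)| < 3/8` holds.) -/
theorem leaf_ord {z : LS.Cov} (hs : z.2.2 ∈ Ioo (-1 / 2 : ℝ) 1) {c} (hc : c ∈ F.charts)
    (hz : LS.rc NN z ∈ c.source) : ∃ (B : ℝ → ℝ) (k : ℝ), (∀ θ, 0 < B θ) ∧
      ∃ V ∈ 𝓝 z, (∀ w ∈ V, Real.log (B w.1) = bl P w.1 + k) ∧ ∀ w ∈ V, ∀ w' ∈ V,
        ((c (LS.rc NN w)).2 < (c (LS.rc NN w')).2 ↔
          B w.1 * hgt w.2.2 < B w'.1 * hgt w'.2.2) := by
  have hcont : ContinuousAt (LS.rc NN) z := (LS.rc_cont NN_emb).continuousAt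
  have hl := P.h1
  rcases nb_mem ((z.1 : Ci), z.2) with h | h
  · obtain ⟨V1, hV1, h1⟩ := F_one' hF hc hz h
    obtain ⟨V2, hV2, h2⟩ := D1_nb P (z := z) h.1 hs
    have h3 : {w : LS.Cov | bl P w.1 = bl P z.1} ∈ 𝓝 z :=
      continuous_fst.continuousAt.eventually (bl_const P (θ := z.1) h.1)
    refine ⟨fun _ => 1, -bl P z.1, fun _ => one_pos,
      (LS.rc NN ⁻¹' V1 ∩ V2) ∩ {w : LS.Cov | bl P w.1 = bl P z.1},
      inter_mem (inter_mem (hcont hV1) hV2) h3, ?_, ?_⟩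
    · intro w hw
      have h4 : bl P w.1 = bl P z.1 := hw.2
      simp only [Real.log_one]
      rw [h4]
      ring
    · intro w hw w' hw'
      rw [h1 _ hw.1.1 _ hw'.1.1]
      have h5 := h2 w hw.1.2 w' hw'.1.2
      have h6 : D1 P (LS.rc NN w).1 (LS.rc NN w').1 =
          (P.lam - 1) * (hgt w'.2.2 - hgt w.2.2) := h5
      rw [h6, mul_pos_iff_of_pos_left (by linarith), sub_pos, one_mul, one_mul]
  · obtain ⟨V1, hV1, h1⟩ := F_three' hF hc hz h
    obtain ⟨V2, hV2, h2⟩ := D3_nb P (z := z) h.1 hs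
    have h3 : {w : LS.Cov | bl P w.1 =
        ⌊z.1⌋ * Real.log P.lam + Real.log (1 + (P.lam - 1) * rmp (cl ((w.1 : Ci) - hlf)))} ∈ 𝓝 z :=
      continuous_fst.continuousAt.eventually (bl_three P (θ := z.1) h.1)
    refine ⟨fun θ => 1 + (P.lam - 1) * rmp (cl ((θ : Ci) - hlf)), -(⌊z.1⌋ * Real.log P.lam),
      fun θ => NBl_pos P _, (LS.rc NN ⁻¹' V1 ∩ V2) ∩ {w : LS.Cov | bl P w.1 =
        ⌊z.1⌋ * Real.log P.lam + Real.log (1 + (P.lam - 1) * rmp (cl ((w.1 : Ci) - hlf)))},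
      inter_mem (inter_mem (hcont hV1) hV2) h3, ?_, ?_⟩
    · intro w hw
      have h4 : bl P w.1 =
        ⌊z.1⌋ * Real.log P.lam + Real.log (1 + (P.lam - 1) * rmp (cl ((w.1 : Ci) - hlf))) := hw.2
      simp only
      linarith
    · intro w hw w' hw'
      rw [h1 _ hw.1.1 _ hw'.1.1]
      have h5 := h2 w hw.1.2 w' hw'.1.2
      have h6 : D3 P (LS.rc NN w).1 (LS.rc NN w').1 = (P.lam - 1) *
        ((1 + (P.lam - 1) * rmp (cl ((w'.1 : Ci) - hlf))) * hgt w'.2.2 -
        (1 + (P.lam - 1) * rmp (cl ((w.1 : Ci) - hlf))) * hgt w.2.2) := h5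
      rw [h6, mul_pos_iff_of_pos_left (by linarith), sub_pos]

theorem NLeaf_neg {s : ℝ} (h : s < 0) : 0 < -hgt s := by
  have h1 := hgt_mono h
  rw [hgt_zero] at h1
  linarith

include hF in
/-- The holonomy along the curve is the multiplication by `1 / lam`:
`Γ (θ, s) = - bl θ - log (- hgt s)`, `δ = 1/2`. (For `s < 0`, `hgt s < 0`, and
`B θ hgt s < B θ' hgt s' ↔ - log (B θ) - log (-hgt s) < - log (B θ') - log (-hgt s')`; on the level
`s = 0` neither `<` nor `>`; `incr`: for equal `θ` the function `B θ * hgt s` is increasing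
in `s`.) -/
theorem leaf_curve : LS.LeafCurve F NN (-Real.log P.lam) := by
  refine ⟨NN_emb, ⟨1 / 2, fun y => -bl P y.1 - Real.log (-hgt y.2), by norm_num, ?_, ?_, ?_, ?_,
    ?_⟩, ?_, ?_⟩
  · refine ContinuousOn.sub ((bl_cont P).comp continuous_fst).neg.continuousOn ?_
    refine ContinuousOn.log ((hgt_cont.comp continuous_snd).neg.continuousOn) ?_
    rintro ⟨θ, s⟩ ⟨-, hs⟩
    exact (NLeaf_neg hs.2).ne'
  · intro θ s hs s' hs' h
    have h1 := NLeaf_neg hs'.2
    have h2 := hgt_mono h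
    have h3 : Real.log (-hgt s') < Real.log (-hgt s) := Real.log_lt_log h1 (by linarith)
    simp only
    linarith
  · intro θ
    have h1 : Tendsto (fun s => -hgt s) (𝓝[<] (0 : ℝ)) (𝓝[>] 0) := by
      rw [tendsto_nhdsWithin_iff]
      constructor
      · have h2 : Tendsto (fun s => -hgt s) (𝓝 (0 : ℝ)) (𝓝 (-hgt 0)) :=
          (hgt_cont.neg).tendsto 0
        rw [hgt_zero, neg_zero] at h2
        exact h2.mono_left nhdsWithin_le_nhds
      · filter_upwards [self_mem_nhdsWithin] with s hs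
        exact NLeaf_neg hs
    have h2 := Real.tendsto_log_nhdsGT_zero.comp h1
    have h3 := tendsto_neg_atBot_atTop.comp h2
    have h4 := tendsto_atTop_add_const_left (𝓝[<] (0 : ℝ)) (-bl P θ) h3
    refine h4.congr fun s => ?_
    simp only [Function.comp_apply]
    ring
  · intro θ s _
    simp only
    rw [bl_add]
    ring
  · intro z hs c hc hz
    obtain ⟨B, k, hB, V, hV, h1, h2⟩ := leaf_ord hF (z := z)
      ⟨by linarith [hs.1], by linarith [hs.2]⟩ hc hz
    have hopen : {w : LS.Cov | w.2.2 < 0} ∈ 𝓝 z :=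
      (isOpen_Iio.preimage (continuous_snd.comp continuous_snd)).mem_nhds hs.2
    refine ⟨V ∩ {w : LS.Cov | w.2.2 < 0}, inter_mem hV hopen, fun w hw w' hw' => ?_⟩
    have e : ∀ v ∈ V ∩ {w : LS.Cov | w.2.2 < 0},
        Real.log (B v.1 * -hgt v.2.2) = bl P v.1 + k + Real.log (-hgt v.2.2) := by
      intro v hv
      rw [Real.log_mul (hB _).ne' (NLeaf_neg hv.2).ne', h1 v hv.1]
    have p1 : 0 < B w.1 * -hgt w.2.2 := mul_pos (hB _) (NLeaf_neg hw.2)
    have p2 : 0 < B w'.1 * -hgt w'.2.2 := mul_pos (hB _) (NLeaf_neg hw'.2)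
    have h3 : B w.1 * hgt w.2.2 < B w'.1 * hgt w'.2.2 ↔
        B w'.1 * -hgt w'.2.2 < B w.1 * -hgt w.2.2 := by
      constructor <;> intro h <;> linarith
    rw [h2 w hw.1 w' hw'.1, h3, ← Real.log_lt_log_iff p2 p1, e w hw, e w' hw']
    simp only
    constructor <;> intro h <;> linarith
  · intro z hs c hc hz
    obtain ⟨B, k, hB, V, hV, h1, h2⟩ := leaf_ord hF (z := z)
      (by rw [hs]; constructor <;> norm_num) hc hz
    have hzV : z ∈ V := mem_of_mem_nhds hV
    filter_upwards [hV] with w hw h0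
    have h3 := h2 w hw z hzV
    have h4 := h2 z hzV w hw
    rw [hs, h0, hgt_zero, mul_zero, mul_zero] at h3 h4
    have h5 := (h3.not.2 (lt_irrefl _))
    have h6 := (h4.not.2 (lt_irrefl _))
    exact le_antisymm (not_lt.1 h6) (not_lt.1 h5)
  · intro z hs c hc hz
    obtain ⟨B, k, hB, V, hV, h1, h2⟩ := leaf_ord hF (z := z)
      (by rw [hs]; constructor <;> norm_num) hc hz
    refine ⟨V, hV, fun w hw w' hw' h3 _ h5 => ?_⟩
    rw [h2 w hw w' hw', h3]
    exact mul_lt_mul_of_pos_left (hgt_mono h5) (hB _)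

end Pool.Agent.H.MP_1611f1_gt.BR.U
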