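import Pool.Agent.H.MP_1611f1_gt.BR.NFol

/-!
The foliation is linear near the two ends.
-/

namespace Pool.Agent.H.MP_1611f1_gt.BR.U

open Topology Set Filter

/-- the collar around `{a = 0, b = 1/2}` -/
noncomputable def colA (z : ℝ × Ioo (1 : ℝ) 2 × ℝ) : To :=
  (((z.2.1 / 32 * Real.cos (2 * Real.pi * z.1) : ℝ) : Ci),
    (((1 / 2 + z.2.1 / 32 * Real.sin (2 * Real.pi * z.1) : ℝ) : Ci), (z.2.2 : Ci)))

/-- the collar around `{a = 1/2, t = 0}` -/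
noncomputable def colB (z : ℝ × Ioo (1 : ℝ) 2 × ℝ) : To :=
  (((1 / 2 + z.2.1 / 32 * Real.sin (2 * Real.pi * z.1) : ℝ) : Ci),
    ((z.2.2 : Ci), ((z.2.1 / 32 * Real.cos (2 * Real.pi * z.1) : ℝ) : Ci)))

theorem colA_cont : Continuous colA := by
  unfold colA
  have h1 : Continuous fun z : ℝ × Ioo (1 : ℝ) 2 × ℝ => (z.2.1 : ℝ) :=
    continuous_subtype_val.comp (continuous_fst.comp continuous_snd)
  have h2 : Continuous fun z : ℝ × Ioo (1 : ℝ) 2 × ℝ =>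
      (z.2.1 / 32 * Real.cos (2 * Real.pi * z.1) : ℝ) :=
    (h1.div_const 32).mul (Real.continuous_cos.comp (continuous_const.mul continuous_fst))
  have h3 : Continuous fun z : ℝ × Ioo (1 : ℝ) 2 × ℝ =>
      (1 / 2 + z.2.1 / 32 * Real.sin (2 * Real.pi * z.1) : ℝ) :=
    continuous_const.add ((h1.div_const 32).mul
      (Real.continuous_sin.comp (continuous_const.mul continuous_fst)))
  exact ((AddCircle.continuous_mk' (1 : ℝ)).comp h2).prodMk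
    (((AddCircle.continuous_mk' (1 : ℝ)).comp h3).prodMk
      ((AddCircle.continuous_mk' (1 : ℝ)).comp (continuous_snd.comp continuous_snd)))

theorem colB_cont : Continuous colB := by
  unfold colB
  have h1 : Continuous fun z : ℝ × Ioo (1 : ℝ) 2 × ℝ => (z.2.1 : ℝ) :=
    continuous_subtype_val.comp (continuous_fst.comp continuous_snd)
  have h2 : Continuous fun z : ℝ × Ioo (1 : ℝ) 2 × ℝ =>
      (z.2.1 / 32 * Real.cos (2 * Real.pi * z.1) : ℝ) :=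
    (h1.div_const 32).mul (Real.continuous_cos.comp (continuous_const.mul continuous_fst))
  have h3 : Continuous fun z : ℝ × Ioo (1 : ℝ) 2 × ℝ =>
      (1 / 2 + z.2.1 / 32 * Real.sin (2 * Real.pi * z.1) : ℝ) :=
    continuous_const.add ((h1.div_const 32).mul
      (Real.continuous_sin.comp (continuous_const.mul continuous_fst)))
  exact ((AddCircle.continuous_mk' (1 : ℝ)).comp h3).prodMk
    (((AddCircle.continuous_mk' (1 : ℝ)).comp (continuous_snd.comp continuous_snd)).prodMk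
      ((AddCircle.continuous_mk' (1 : ℝ)).comp h2))

/-- the cosine part of the collar -/
noncomputable def NLin_x (z : ℝ × Ioo (1 : ℝ) 2 × ℝ) : ℝ :=
  z.2.1 / 32 * Real.cos (2 * Real.pi * z.1)

/-- the sine part of the collar -/
noncomputable def NLin_y (z : ℝ × Ioo (1 : ℝ) 2 × ℝ) : ℝ :=
  z.2.1 / 32 * Real.sin (2 * Real.pi * z.1)

theorem NLin_abs {r : ℝ} (hr : r ∈ Ioo (1 : ℝ) 2) {c : ℝ} (hc : |c| ≤ 1) :
    |r / 32 * c| < 1 / 16 := by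
  rw [abs_mul, abs_of_pos (by linarith [hr.1] : 0 < r / 32)]
  calc r / 32 * |c| ≤ r / 32 * 1 :=
        mul_le_mul_of_nonneg_left hc (by linarith [hr.1])
    _ < 1 / 16 := by linarith [hr.2]

theorem NLin_xa (z : ℝ × Ioo (1 : ℝ) 2 × ℝ) : |NLin_x z| < 1 / 16 :=
  NLin_abs z.2.1.2 (Real.abs_cos_le_one _)

theorem NLin_ya (z : ℝ × Ioo (1 : ℝ) 2 × ℝ) : |NLin_y z| < 1 / 16 :=
  NLin_abs z.2.1.2 (Real.abs_sin_le_one _)

theorem NLin_sq (z : ℝ × Ioo (1 : ℝ) 2 × ℝ) :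
    NLin_x z ^ 2 + NLin_y z ^ 2 = ((z.2.1 : ℝ) / 32) ^ 2 := by
  unfold NLin_x NLin_y
  rw [mul_pow, mul_pow, ← mul_add, Real.cos_sq_add_sin_sq, mul_one]

theorem NLin_cl {x : ℝ} (h : |x| < 1 / 2) : cl (x : Ci) = x :=
  cl_coe ⟨by linarith [(abs_lt.1 h).1], (abs_lt.1 h).2⟩

theorem NLin_big (z : ℝ × Ioo (1 : ℝ) 2 × ℝ) : 1 / 1024 < NLin_x z ^ 2 + NLin_y z ^ 2 := by
  rw [NLin_sq]
  have h := z.2.1.2.1
  nlinarith

theorem NLin_small {z : ℝ × Ioo (1 : ℝ) 2 × ℝ} (hz : (z.2.1 : ℝ) < 4 / 3) :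
    NLin_x z ^ 2 + NLin_y z ^ 2 ≤ 1 / 576 := by
  rw [NLin_sq]
  have h := z.2.1.2.1
  nlinarith

theorem NLin_clx (z : ℝ × Ioo (1 : ℝ) 2 × ℝ) : cl ((NLin_x z : ℝ) : Ci) = NLin_x z :=
  NLin_cl (by linarith [NLin_xa z])

theorem NLin_cly (z : ℝ × Ioo (1 : ℝ) 2 × ℝ) : cl ((NLin_y z : ℝ) : Ci) = NLin_y z :=
  NLin_cl (by linarith [NLin_ya z])

theorem NLin_half (y : ℝ) : ((1 / 2 + y : ℝ) : Ci) - hlf = (y : Ci) := by
  unfold hlf
  rw [← AddCircle.coe_sub]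
  congr 1
  ring

theorem NLin_colA (z : ℝ × Ioo (1 : ℝ) 2 × ℝ) :
    colA z = ((NLin_x z : Ci), (((1 / 2 + NLin_y z : ℝ) : Ci), (z.2.2 : Ci))) := rfl

theorem NLin_colB (z : ℝ × Ioo (1 : ℝ) 2 × ℝ) :
    colB z = (((1 / 2 + NLin_y z : ℝ) : Ci), ((z.2.2 : Ci), (NLin_x z : Ci))) := rfl

theorem NLin_ci (x y : ℝ) : (y : Ci) - (x : Ci) = ((y - x : ℝ) : Ci) :=
  (AddCircle.coe_sub (1 : ℝ) y x).symm

theorem NLin_dif {x y : ℝ} (h : |y - x| < 1 / 2) : cl ((y : Ci) - (x : Ci)) = y - x := by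
  rw [NLin_ci, NLin_cl h]

theorem NLin_kap (z : ℝ × Ioo (1 : ℝ) 2 × ℝ) : kap ((1 / 2 + NLin_y z : ℝ) : Ci) = 0 := by
  have h := abs_lt.1 (NLin_ya z)
  apply kap_zero
  rcases lt_or_ge (NLin_y z) 0 with h1 | h1
  · rw [cl_coe ⟨by linarith [h.1], by linarith⟩, abs_of_pos (by linarith [h.1])]
    linarith [h.1]
  · have e : ((1 / 2 + NLin_y z : ℝ) : Ci) = ((NLin_y z - 1 / 2 : ℝ) : Ci) := by
      have h3 : (1 / 2 + NLin_y z : ℝ) = (NLin_y z - 1 / 2) + 1 := by ring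
      have h4 : ((1 : ℝ) : Ci) = 0 := AddCircle.coe_period (1 : ℝ)
      rw [h3, AddCircle.coe_add, h4, add_zero]
    rw [e, cl_coe ⟨by linarith, by linarith [h.2]⟩, abs_of_neg (by linarith [h.2])]
    linarith [h.2]

theorem colA_mem (z : ℝ × Ioo (1 : ℝ) 2 × ℝ) : colA z ∈ X1 := by
  rw [NLin_colA]
  show |cl ((NLin_x z : ℝ) : Ci)| < 3 / 8 ∧
    1 / 1024 < cl ((NLin_x z : ℝ) : Ci) ^ 2 + cl (((1 / 2 + NLin_y z : ℝ) : Ci) - hlf) ^ 2
  rw [NLin_half, NLin_clx, NLin_cly]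
  exact ⟨by linarith [NLin_xa z], NLin_big z⟩

theorem colB_mem (z : ℝ × Ioo (1 : ℝ) 2 × ℝ) : colB z ∈ X3 := by
  rw [NLin_colB]
  show |cl (((1 / 2 + NLin_y z : ℝ) : Ci) - hlf)| < 3 / 8 ∧
    1 / 1024 < cl (((1 / 2 + NLin_y z : ℝ) : Ci) - hlf) ^ 2 + cl ((NLin_x z : ℝ) : Ci) ^ 2
  rw [NLin_half, NLin_clx, NLin_cly]
  exact ⟨by linarith [NLin_ya z], by linarith [NLin_big z]⟩

theorem NLin_ps1 {z : ℝ × Ioo (1 : ℝ) 2 × ℝ} (hz : (z.2.1 : ℝ) < 4 / 3) :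
    ps1 (colA z) = ((z.1 + 1 / 2 : ℝ) : Ci) := by
  rw [NLin_colA]
  show psi (1 / 2) (cl ((NLin_x z : ℝ) : Ci)) (((1 / 2 + NLin_y z : ℝ) : Ci) - hlf) = _
  rw [NLin_half, NLin_clx, psi_collar (by rw [NLin_cly]; exact NLin_small hz), NLin_cly]
  exact ang_polar (by linarith [z.2.1.2.1] : 0 < (z.2.1 : ℝ) / 32) z.1

theorem NLin_ps3 {z : ℝ × Ioo (1 : ℝ) 2 × ℝ} (hz : (z.2.1 : ℝ) < 4 / 3) :
    ps3 (colB z) = ((3 / 4 - z.1 : ℝ) : Ci) := by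
  rw [NLin_colB]
  show psi (1 / 4) (cl (((1 / 2 + NLin_y z : ℝ) : Ci) - hlf)) ((NLin_x z : ℝ) : Ci) = _
  rw [NLin_half, NLin_cly, psi_collar (by rw [NLin_clx]; linarith [NLin_small hz]), NLin_clx]
  exact ang_polar' (by linarith [z.2.1.2.1] : 0 < (z.2.1 : ℝ) / 32) z.1

theorem NLin_g1 (P : Par) {z : ℝ × Ioo (1 : ℝ) 2 × ℝ} (hz : (z.2.1 : ℝ) < 4 / 3) :
    g1 P (colA z) = -(P.sig * NLin_y z) := by
  rw [NLin_colA]
  show -(1 - cu (cl ((NLin_x z : ℝ) : Ci)) (cl (((1 / 2 + NLin_y z : ℝ) : Ci) - hlf))) *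
      (P.sig * cl (((1 / 2 + NLin_y z : ℝ) : Ci) - hlf)) -
    (P.sig + (P.lam - 1) * P.sig * rmp (cl ((NLin_x z : ℝ) : Ci))) *
      (mm P (z.2.2 : Ci) * kap ((1 / 2 + NLin_y z : ℝ) : Ci)) = _
  rw [NLin_half, NLin_clx, NLin_cly, cu_near (NLin_small hz), NLin_kap]
  ring

theorem NLin_g3 (P : Par) {z : ℝ × Ioo (1 : ℝ) 2 × ℝ} (hz : (z.2.1 : ℝ) < 4 / 3) :
    g3 P (colB z) = -((P.lam - 1) * NLin_x z) := by
  rw [NLin_colB]
  show -(1 - cu (cl (((1 / 2 + NLin_y z : ℝ) : Ci) - hlf)) (cl ((NLin_x z : ℝ) : Ci))) *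
      ((P.lam - 1) * cl ((NLin_x z : ℝ) : Ci)) -
    P.lam * P.sig * (cu (cl (((1 / 2 + NLin_y z : ℝ) : Ci) - hlf))
      (cl ((NLin_x z : ℝ) : Ci)) * mm P ((NLin_x z : ℝ) : Ci) * kap (z.2.2 : Ci)) = _
  rw [NLin_half, NLin_clx, NLin_cly, cu_near (by linarith [NLin_small hz])]
  ring

/-- the neighbourhood of a point of the collar -/
theorem NLin_nhds {z : ℝ × Ioo (1 : ℝ) 2 × ℝ} (hz : (z.2.1 : ℝ) < 4 / 3) :
    {w : ℝ × Ioo (1 : ℝ) 2 × ℝ | (w.2.1 : ℝ) < 4 / 3 ∧ |w.1 - z.1| < 1 / 16 ∧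
      |w.2.2 - z.2.2| < 1 / 16} ∈ 𝓝 z := by
  have h1 : Continuous fun w : ℝ × Ioo (1 : ℝ) 2 × ℝ => (w.2.1 : ℝ) :=
    continuous_subtype_val.comp (continuous_fst.comp continuous_snd)
  have h2 : Continuous fun w : ℝ × Ioo (1 : ℝ) 2 × ℝ => |w.1 - z.1| :=
    (continuous_fst.sub continuous_const).abs
  have h3 : Continuous fun w : ℝ × Ioo (1 : ℝ) 2 × ℝ => |w.2.2 - z.2.2| :=
    ((continuous_snd.comp continuous_snd).sub continuous_const).abs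
  refine ((isOpen_lt h1 continuous_const).inter ((isOpen_lt h2 continuous_const).inter
    (isOpen_lt h3 continuous_const))).mem_nhds ⟨hz, ?_, ?_⟩
  · show |z.1 - z.1| < 1 / 16
    rw [sub_self, abs_zero]
    norm_num
  · show |z.2.2 - z.2.2| < 1 / 16
    rw [sub_self, abs_zero]
    norm_num

theorem NLin_tri {x y z : ℝ} (h : |x - z| < 1 / 16) (h' : |y - z| < 1 / 16) :
    |y - x| < 1 / 2 := by
  have h1 := abs_lt.1 h
  have h2 := abs_lt.1 h'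
  exact abs_lt.2 ⟨by linarith [h1.1, h1.2, h2.1, h2.2], by linarith [h1.1, h1.2, h2.1, h2.2]⟩

/-- for `r < 4/3` (at both points) and close points: `cu = 0`, `kap = 0` (`|cl b| ≥ 3/8`),
`ps1 = ang = θ + 1/2` (`psi_collar`, `ang_polar`), and `g1 = - sig * cl (b - 1/2)`, which cancels
`sig * cl (b' - b)` -/
theorem D1_colA (P : Par) {z : ℝ × Ioo (1 : ℝ) 2 × ℝ} (hz : (z.2.1 : ℝ) < 4 / 3) :
    ∃ V ∈ 𝓝 z, ∀ w ∈ V, ∀ w' ∈ V, D1 P (colA w) (colA w') =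
      (P.lam - 1) * P.sig * (w'.1 - w.1) + (P.lam - 1) * (w'.2.2 - w.2.2) := by
  refine ⟨_, NLin_nhds hz, ?_⟩
  rintro w ⟨hw1, hw2, hw3⟩ w' ⟨hw1', hw2', hw3'⟩
  have e : D1 P (colA w) (colA w') =
      P.sig * cl (((1 / 2 + NLin_y w' : ℝ) : Ci) - ((1 / 2 + NLin_y w : ℝ) : Ci)) +
      (P.lam - 1) * cl ((w'.2.2 : Ci) - (w.2.2 : Ci)) +
      (P.lam - 1) * P.sig * cl (ps1 (colA w') - ps1 (colA w)) +
      (g1 P (colA w') - g1 P (colA w)) := rfl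
  have hy1 := abs_lt.1 (NLin_ya w)
  have hy2 := abs_lt.1 (NLin_ya w')
  have hth := abs_lt.1 (NLin_tri hw2 hw2')
  rw [e, NLin_ps1 hw1, NLin_ps1 hw1', NLin_g1 P hw1, NLin_g1 P hw1',
    NLin_dif (abs_lt.2 ⟨by linarith [hy1.1, hy1.2, hy2.1, hy2.2],
      by linarith [hy1.1, hy1.2, hy2.1, hy2.2]⟩),
    NLin_dif (NLin_tri hw3 hw3'),
    NLin_dif (abs_lt.2 ⟨by linarith [hth.1, hth.2], by linarith [hth.1, hth.2]⟩)]
  ring

/-- `ps3 = ang = 3/4 - θ` (`ang_polar'`) -/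
theorem D3_colB (P : Par) {z : ℝ × Ioo (1 : ℝ) 2 × ℝ} (hz : (z.2.1 : ℝ) < 4 / 3) :
    ∃ V ∈ 𝓝 z, ∀ w ∈ V, ∀ w' ∈ V, D3 P (colB w) (colB w') =
      -(P.lam - 1) ^ 2 * (w'.1 - w.1) + P.lam * P.sig * (w'.2.2 - w.2.2) := by
  refine ⟨_, NLin_nhds hz, ?_⟩
  rintro w ⟨hw1, hw2, hw3⟩ w' ⟨hw1', hw2', hw3'⟩
  have e : D3 P (colB w) (colB w') =
      P.lam * P.sig * cl ((w'.2.2 : Ci) - (w.2.2 : Ci)) +
      (P.lam - 1) * cl (((NLin_x w' : ℝ) : Ci) - ((NLin_x w : ℝ) : Ci)) +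
      (P.lam - 1) ^ 2 * cl (ps3 (colB w') - ps3 (colB w)) +
      (g3 P (colB w') - g3 P (colB w)) := rfl
  have hy1 := abs_lt.1 (NLin_xa w)
  have hy2 := abs_lt.1 (NLin_xa w')
  have hth := abs_lt.1 (NLin_tri hw2 hw2')
  rw [e, NLin_ps3 hw1, NLin_ps3 hw1', NLin_g3 P hw1, NLin_g3 P hw1',
    NLin_dif (NLin_tri hw3 hw3'),
    NLin_dif (abs_lt.2 ⟨by linarith [hy1.1, hy1.2, hy2.1, hy2.2],
      by linarith [hy1.1, hy1.2, hy2.1, hy2.2]⟩),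
    NLin_dif (abs_lt.2 ⟨by linarith [hth.1, hth.2], by linarith [hth.1, hth.2]⟩)]
  ring

theorem NLin_cov_cont {M : Type*} [TopologicalSpace M] {J : Type*} (T : G.Ended M J) (j : J) :
    Continuous (T.cov j) := by
  refine (T.emb j).continuous.comp ?_
  exact ((AddCircle.continuous_mk' (1 : ℝ)).comp continuous_fst).prodMk
    ((continuous_fst.comp continuous_snd).prodMk
      ((AddCircle.continuous_mk' (1 : ℝ)).comp (continuous_snd.comp continuous_snd)))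

variable {P : Par} {F : Foliation Mu}
  (hF : F.charts = LS.pullCharts (Subtype.val : Mu → To) (fol P))

include hF in
/-- linearity (from `F_one'`, `F_three'`, `D1_colA`, `D3_colB`) -/
theorem F_lin (T : G.Ended Mu Bool) (hT0 : ∀ z, (T.cov false z).1 = colA z)
    (hT1 : ∀ z, (T.cov true z).1 = colB z) :
    G.Linear T F (fun j => if j then -(P.lam - 1) ^ 2 else (P.lam - 1) * P.sig)
      (fun j => if j then P.lam * P.sig else P.lam - 1) := by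
  intro j z hz c hc hzc
  cases j with
  | false =>
    obtain ⟨V, hV, hVV⟩ := F_one' hF hc hzc (by rw [hT0]; exact colA_mem z)
    obtain ⟨V', hV', hVV'⟩ := D1_colA P hz
    refine ⟨(T.cov false) ⁻¹' V ∩ V',
      inter_mem ((NLin_cov_cont T false).continuousAt hV) hV', ?_⟩
    intro w hw w' hw'
    have h1 := hVV _ hw.1 _ hw'.1
    rw [hT0, hT0, hVV' w hw.2 w' hw'.2] at h1
    refine h1.trans ?_
    simp only [Bool.false_eq_true, if_false]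
    constructor <;> intro h <;> linarith
  | true =>
    obtain ⟨V, hV, hVV⟩ := F_three' hF hc hzc (by rw [hT1]; exact colB_mem z)
    obtain ⟨V', hV', hVV'⟩ := D3_colB P hz
    refine ⟨(T.cov true) ⁻¹' V ∩ V',
      inter_mem ((NLin_cov_cont T true).continuousAt hV) hV', ?_⟩
    intro w hw w' hw'
    have h1 := hVV _ hw.1 _ hw'.1
    rw [hT1, hT1, hVV' w hw.2 w' hw'.2] at h1
    refine h1.trans ?_
    simp only [if_true]
    constructor <;> intro h <;> linarith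

end Pool.Agent.H.MP_1611f1_gt.BR.U
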