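import Pool.Agent.H.MP_1611f1_gt.BR.NTaut
import Pool.Agent.H.MP_1611f1_gt.BR.NLin
import Pool.Agent.H.MP_1611f1_gt.BR.NLeaf
import Pool.Agent.H.MP_1611f1_gt.BR.Emb
import Pool.Agent.H.MP_1611f1_gt.LS.Leaf

/-!
The region of slopes where two of the slopes have opposite signs.
-/

namespace Pool.Agent.H.MP_1611f1_gt.BR.U

open Topology Set Filter

/-- for `s₁ s₂ < 0` there is `lam > 1` with `(lam - 1) ^ 2 = - s₁ s₂ lam`; `sig = s₂` -/
theorem exists_par {s₁ s₂ : ℝ} (h : s₁ * s₂ < 0) :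
    ∃ P : Par, P.sig = s₂ ∧ -(P.lam - 1) ^ 2 = s₁ * (P.lam * P.sig) := by
  obtain ⟨p, hp⟩ : ∃ p : ℝ, p = -(s₁ * s₂) := ⟨_, rfl⟩
  have hp0 : 0 < p := by rw [hp]; linarith
  have hD : 0 ≤ (2 + p) ^ 2 - 4 := by nlinarith
  have hs := Real.sq_sqrt hD
  have hs0 := Real.sqrt_nonneg ((2 + p) ^ 2 - 4)
  have hs2 : s₂ ≠ 0 := by
    intro h0
    rw [h0, mul_zero] at h
    exact lt_irrefl _ h
  refine ⟨⟨((2 + p) + Real.sqrt ((2 + p) ^ 2 - 4)) / 2, s₂, by linarith, hs2⟩, rfl, ?_⟩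
  show -(((2 + p) + Real.sqrt ((2 + p) ^ 2 - 4)) / 2 - 1) ^ 2 =
    s₁ * ((((2 + p) + Real.sqrt ((2 + p) ^ 2 - 4)) / 2) * s₂)
  have h3 : s₁ * ((((2 + p) + Real.sqrt ((2 + p) ^ 2 - 4)) / 2) * s₂) =
    -(p * (((2 + p) + Real.sqrt ((2 + p) ^ 2 - 4)) / 2)) := by
    rw [hp]
    ring
  rw [h3]
  linear_combination (-1 / 4 : ℝ) * hs

theorem Neg_idx (i : Fin 3) :
    i + 1 + 1 = i + 2 ∧ i + 1 + 2 = i ∧ i + 2 + 1 = i ∧ i + 2 + 2 = i + 1 := by
  revert i; decide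

theorem Neg_tube0 (i : Fin 3) (x : BR.T3) : x ∈ BR.Tube (i + 1) ↔
    cl (x i - hlf) ^ 2 + cl (x (i + 2)) ^ 2 ≤ 1 / 1024 := by
  obtain ⟨h1, h2, h3, h4⟩ := Neg_idx i
  show ‖x (i + 1 + 1)‖ ^ 2 + ‖x (i + 1 + 2) - ((1 / 2 : ℝ) : AddCircle (1 : ℝ))‖ ^ 2 ≤
    (1 / 32) ^ 2 ↔ _
  rw [h1, h2]
  have h5 : ‖x i - ((1 / 2 : ℝ) : AddCircle (1 : ℝ))‖ ^ 2 = cl (x i - hlf) ^ 2 := by
    have h6 := norm_cl (x i - hlf)
    have h7 : ‖x i - ((1 / 2 : ℝ) : AddCircle (1 : ℝ))‖ = |cl (x i - hlf)| := h6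
    rw [h7, sq_abs]
  have h6 : ‖x (i + 2)‖ ^ 2 = cl (x (i + 2)) ^ 2 := by
    rw [norm_cl, sq_abs]
  rw [h5, h6]
  constructor <;> intro h <;> linarith

theorem Neg_tube1 (i : Fin 3) (x : BR.T3) : x ∈ BR.Tube (i + 2) ↔
    cl (x i) ^ 2 + cl (x (i + 1) - hlf) ^ 2 ≤ 1 / 1024 := by
  obtain ⟨h1, h2, h3, h4⟩ := Neg_idx i
  show ‖x (i + 2 + 1)‖ ^ 2 + ‖x (i + 2 + 2) - ((1 / 2 : ℝ) : AddCircle (1 : ℝ))‖ ^ 2 ≤
    (1 / 32) ^ 2 ↔ _
  rw [h3, h4]
  have h5 : ‖x (i + 1) - ((1 / 2 : ℝ) : AddCircle (1 : ℝ))‖ ^ 2 = cl (x (i + 1) - hlf) ^ 2 := by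
    have h6 := norm_cl (x (i + 1) - hlf)
    have h7 : ‖x (i + 1) - ((1 / 2 : ℝ) : AddCircle (1 : ℝ))‖ = |cl (x (i + 1) - hlf)| := h6
    rw [h7, sq_abs]
  have h6 : ‖x i‖ ^ 2 = cl (x i) ^ 2 := by
    rw [norm_cl, sq_abs]
  rw [h5, h6]
  constructor <;> intro h <;> linarith

/-- a point of the two regions is not in the two tubes, and conversely -/
theorem Neg_iff (i : Fin 3) (x : BR.T3) : ((x i, (x (i + 1), x (i + 2))) : To) ∈ X1 ∪ X3 ↔
    x ∉ BR.Tube (i + 1) ∧ x ∉ BR.Tube (i + 2) := by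
  rw [Neg_tube0, Neg_tube1, not_le, not_le]
  have ha := NTaut_half (x i)
  have m := cl_mem (x i)
  constructor
  · rintro (h | h)
    · have h1 : |cl (x i)| < 3 / 8 := h.1
      have h2 : 1 / 1024 < cl (x i) ^ 2 + cl (x (i + 1) - hlf) ^ 2 := h.2
      refine ⟨?_, h2⟩
      have h3 : 1 / 8 < |cl (x i - hlf)| := by linarith
      have h4 : cl (x i - hlf) ^ 2 = |cl (x i - hlf)| ^ 2 := (sq_abs _).symm
      have h5 := sq_nonneg (cl (x (i + 2)))
      nlinarith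
    · have h1 : |cl (x i - hlf)| < 3 / 8 := h.1
      have h2 : 1 / 1024 < cl (x i - hlf) ^ 2 + cl (x (i + 2)) ^ 2 := h.2
      refine ⟨h2, ?_⟩
      have h3 : 1 / 8 < |cl (x i)| := by linarith
      have h4 : cl (x i) ^ 2 = |cl (x i)| ^ 2 := (sq_abs _).symm
      have h5 := sq_nonneg (cl (x (i + 1) - hlf))
      nlinarith
  · rintro ⟨h1, h2⟩
    rcases lt_or_ge |cl (x i)| (3 / 8) with h | h
    · exact Or.inl ⟨h, h2⟩
    · refine Or.inr ⟨?_, h1⟩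
      show |cl (x i - hlf)| < 3 / 8
      rw [ha]
      linarith

/-- the inclusion of the exterior of the three circles -/
def inc (i : Fin 3) (x : BR.M0) : Mu :=
  ⟨(x.1 i, (x.1 (i + 1), x.1 (i + 2))), (Neg_iff i x.1).2 ⟨x.2 (i + 1), x.2 (i + 2)⟩⟩

theorem Neg_val : IsOpenEmbedding (Subtype.val : BR.M0 → BR.T3) := by
  have hc : ∀ i, IsClosed (BR.Tube i) := fun i => by
    have h1 : Continuous fun x : BR.T3 => ‖x (i + 1)‖ ^ 2 +
        ‖x (i + 2) - ((1 / 2 : ℝ) : AddCircle (1 : ℝ))‖ ^ 2 :=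
      ((continuous_apply (i + 1)).norm.pow 2).add
        (((continuous_apply (i + 2)).sub continuous_const).norm.pow 2)
    exact isClosed_le h1 continuous_const
  have h : IsOpen {x : BR.T3 | ∀ i, x ∉ BR.Tube i} := by
    have h1 : {x : BR.T3 | ∀ i, x ∉ BR.Tube i} = ⋂ i, (BR.Tube i)ᶜ := by
      ext x
      simp
    rw [h1]
    exact isOpen_iInter_of_finite fun i => (hc i).isOpen_compl
  exact h.isOpenEmbedding_subtypeVal

theorem inc_emb (i : Fin 3) : IsOpenEmbedding (inc i) := by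
  refine IsOpenEmbedding.of_comp _ Mu_emb ?_
  have h : (Subtype.val : Mu → To) ∘ inc i = (BR.ax i).symm ∘ Subtype.val := rfl
  rw [h]
  exact (BR.ax i).symm.isOpenEmbedding.comp Neg_val

/-- the complement of the removed solid torus (`BR.hh_KK`) -/
theorem inc_range (i : Fin 3) (x : Mu) : x ∈ range (inc i) ↔ x ∉ NN '' LS.KK := by
  constructor
  · rintro ⟨y, rfl⟩ ⟨z, hz, he⟩
    refine y.2 i ?_
    rw [← BR.hh_KK i 8]
    refine ⟨z, hz, ?_⟩
    rw [nb_cyl]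
    have h1 : nb z = (y.1 i, (y.1 (i + 1), y.1 (i + 2))) := congrArg Subtype.val he
    rw [h1]
    exact (BR.ax_surj i y.1).symm
  · intro hx
    have e0 : BR.ax i x.1 i = x.1.1 := BR.ax_0 i x.1
    have e1 : BR.ax i x.1 (i + 1) = x.1.2.1 := BR.ax_1 i x.1
    have e2 : BR.ax i x.1 (i + 2) = x.1.2.2 := BR.ax_2 i x.1
    have e : ((BR.ax i x.1 i, (BR.ax i x.1 (i + 1), BR.ax i x.1 (i + 2))) : To) = x.1 := by
      rw [e0, e1, e2]
    have h1 := (Neg_iff i (BR.ax i x.1)).1 (by rw [e]; exact x.2)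
    refine ⟨⟨BR.ax i x.1, fun j => ?_⟩, Subtype.ext e⟩
    rcases BR.fin3_cases i j with rfl | rfl | rfl
    · intro h
      rw [← BR.hh_KK j 8] at h
      obtain ⟨z, hz, he⟩ := h
      rw [nb_cyl] at he
      exact hx ⟨z, hz, Subtype.ext ((BR.ax j).injective he)⟩
    · exact h1.1
    · exact h1.2

/-! ### The ends -/

/-- the number of the end -/
def Neg_num (i : Fin 3) (b : Bool) : Fin 3 := if b then i + 1 else i + 2

theorem Neg_num_inj (i : Fin 3) {b b' : Bool} (h : Neg_num i b = Neg_num i b') : b = b' := by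
  revert i b b'; decide

theorem Neg_num_ne (i : Fin 3) (b : Bool) : Neg_num i b ≠ i := by
  revert i b; decide

/-- the two ends of the torus minus two tubes -/
def Neg_T0 (T : G.Ended BR.M0 (Fin 3)) (i : Fin 3) : G.Ended Mu Bool where
  tor b w := inc i (T.tor (Neg_num i b) w)
  emb b := (inc_emb i).comp (T.emb _)
  disj b b' z w h := Neg_num_inj i (T.disj _ _ _ _ ((inc_emb i).injective h))

/-- exchange of the two circle coordinates -/
def Neg_sw : AddCircle (1 : ℝ) × Ioo (1 : ℝ) 2 × AddCircle (1 : ℝ) ≃ₜ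
    AddCircle (1 : ℝ) × Ioo (1 : ℝ) 2 × AddCircle (1 : ℝ) where
  toFun w := (w.2.2, w.2.1, w.1)
  invFun w := (w.2.2, w.2.1, w.1)
  left_inv _ := rfl
  right_inv _ := rfl
  continuous_toFun := by fun_prop
  continuous_invFun := by fun_prop

/-- the three ends, with the last one in the coordinates of the drilled curve -/
def Neg_T1 (T : G.Ended BR.M0 (Fin 3)) (i : Fin 3) : G.Ended BR.M0 (Bool ⊕ Unit) where
  tor j w := match j with
    | Sum.inl b => T.tor (Neg_num i b) w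
    | Sum.inr _ => T.tor i (Neg_sw w)
  emb j := match j with
    | Sum.inl b => T.emb _
    | Sum.inr _ => (T.emb i).comp Neg_sw.isOpenEmbedding
  disj j j' z w h := by
    rcases j with b | ⟨⟩ <;> rcases j' with b' | ⟨⟩
    · exact congrArg _ (Neg_num_inj i (T.disj _ _ _ _ h))
    · exact absurd (T.disj _ _ _ _ h) (Neg_num_ne i b)
    · exact absurd (T.disj _ _ _ _ h).symm (Neg_num_ne i b')
    · rfl

theorem Neg_cov0 {T : G.Ended BR.M0 (Fin 3)}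
    (hT : ∀ (j : Fin 3) (θ : ℝ) (r : Ioo (1 : ℝ) 2) (t : Ci),
      (T.tor j ((θ : Ci), r, t)).1 = BR.tub j θ r t) (i : Fin 3)
    (z : ℝ × Ioo (1 : ℝ) 2 × ℝ) : ((Neg_T0 T i).cov false z).1 = colA z := by
  obtain ⟨h1, h2, h3, h4⟩ := Neg_idx i
  obtain ⟨n1, n2, n3⟩ := BR.fin3 i
  have e : ((Neg_T0 T i).cov false z).1 =
      ((T.tor (i + 2) ((z.1 : Ci), z.2.1, (z.2.2 : Ci))).1 i,
        ((T.tor (i + 2) ((z.1 : Ci), z.2.1, (z.2.2 : Ci))).1 (i + 1),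
          (T.tor (i + 2) ((z.1 : Ci), z.2.1, (z.2.2 : Ci))).1 (i + 2))) := rfl
  rw [e, hT]
  unfold BR.tub colA
  rw [if_neg n2.symm, if_pos h3.symm, if_neg n3.symm, if_neg (by rw [h3]; exact n1), if_pos rfl]

theorem Neg_cov1 {T : G.Ended BR.M0 (Fin 3)}
    (hT : ∀ (j : Fin 3) (θ : ℝ) (r : Ioo (1 : ℝ) 2) (t : Ci),
      (T.tor j ((θ : Ci), r, t)).1 = BR.tub j θ r t) (i : Fin 3)
    (z : ℝ × Ioo (1 : ℝ) 2 × ℝ) : ((Neg_T0 T i).cov true z).1 = colB z := by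
  obtain ⟨h1, h2, h3, h4⟩ := Neg_idx i
  obtain ⟨n1, n2, n3⟩ := BR.fin3 i
  have e : ((Neg_T0 T i).cov true z).1 =
      ((T.tor (i + 1) ((z.1 : Ci), z.2.1, (z.2.2 : Ci))).1 i,
        ((T.tor (i + 1) ((z.1 : Ci), z.2.1, (z.2.2 : Ci))).1 (i + 1),
          (T.tor (i + 1) ((z.1 : Ci), z.2.1, (z.2.2 : Ci))).1 (i + 2))) := rfl
  rw [e, hT]
  unfold BR.tub colB
  rw [if_neg n1.symm, if_neg (by rw [h1]; exact n2.symm), if_pos rfl, if_neg n3, if_pos h1.symm]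

theorem Neg_bd (r : Ioo (1 : ℝ) 2) {a : ℝ} (ha : |a| ≤ 1) : |(r : ℝ) * a| ≤ 2 := by
  rw [abs_mul, abs_of_pos (by linarith [r.2.1])]
  nlinarith [r.2.1, r.2.2, abs_nonneg a]

/-- the new end -/
theorem Neg_new {T : G.Ended BR.M0 (Fin 3)}
    (hT : ∀ (j : Fin 3) (θ : ℝ) (r : Ioo (1 : ℝ) 2) (t : Ci),
      (T.tor j ((θ : Ci), r, t)).1 = BR.tub j θ r t) (i : Fin 3)
    (θ : Ci) (r : Ioo (1 : ℝ) 2) (t : ℝ) :
    inc i (T.tor i ((t : Ci), r, θ)) =
      NN (θ, ((r : ℝ) * Real.cos (2 * Real.pi * t), -4 + (r : ℝ) * Real.sin (2 * Real.pi * t))) := by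
  obtain ⟨n1, n2, n3⟩ := BR.fin3 i
  apply Subtype.ext
  have e : (inc i (T.tor i ((t : Ci), r, θ))).1 = ((T.tor i ((t : Ci), r, θ)).1 i,
      ((T.tor i ((t : Ci), r, θ)).1 (i + 1), (T.tor i ((t : Ci), r, θ)).1 (i + 2))) := rfl
  have h3 := Neg_bd r (Real.abs_cos_le_one (2 * Real.pi * t))
  have h4 := Neg_bd r (Real.abs_sin_le_one (2 * Real.pi * t))
  have h5 : hgt (-4 + (r : ℝ) * Real.sin (2 * Real.pi * t)) =
      ((r : ℝ) * Real.sin (2 * Real.pi * t) - 8) / 32 := by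
    unfold hgt
    rw [BR.psi_id (by rw [show -4 + (r : ℝ) * Real.sin (2 * Real.pi * t) + 4 =
      (r : ℝ) * Real.sin (2 * Real.pi * t) by ring]; exact h4)]
    ring
  rw [e, hT]
  show _ = (θ, (((BR.sq ((r : ℝ) * Real.cos (2 * Real.pi * t)) / 32 : ℝ) : Ci),
    ((3 / 4 + hgt (-4 + (r : ℝ) * Real.sin (2 * Real.pi * t)) : ℝ) : Ci)))
  rw [h5, BR.sq_id h3]
  unfold BR.tub
  rw [if_pos rfl, if_neg n1, if_pos rfl, if_neg n2, if_neg n3,
    show (r : ℝ) * Real.cos (2 * Real.pi * t) / 32 = (r : ℝ) / 32 * Real.cos (2 * Real.pi * t)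
      by ring,
    show 3 / 4 + ((r : ℝ) * Real.sin (2 * Real.pi * t) - 8) / 32 =
      1 / 2 + (r : ℝ) / 32 * Real.sin (2 * Real.pi * t) by ring]

/-- the drilling -/
def Neg_D {T : G.Ended BR.M0 (Fin 3)}
    (hT : ∀ (j : Fin 3) (θ : ℝ) (r : Ioo (1 : ℝ) 2) (t : Ci),
      (T.tor j ((θ : Ci), r, t)).1 = BR.tub j θ r t) (i : Fin 3) :
    LS.Drill (Neg_T0 T i) (fun _ : Unit => NN) (Neg_T1 T i) where
  p := inc i
  emb := inc_emb i
  range_iff x := by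
    rw [inc_range]
    exact ⟨fun h _ => h, fun h => h ()⟩
  old _ _ := rfl
  new _ θ r t := Neg_new hT i θ r t

/-- **The region `s (i + 1) * s (i + 2) < 0`.** `T` is the structure of toral ends given by the
cylindrical coordinates. -/
theorem br_neg (T : G.Ended BR.M0 (Fin 3))
    (hT : ∀ (j : Fin 3) (θ : ℝ) (r : Ioo (1 : ℝ) 2) (t : Ci),
      (T.tor j ((θ : Ci), r, t)).1 = BR.tub j θ r t)
    (i : Fin 3) (s : Fin 3 → ℝ) (h : s (i + 1) * s (i + 2) < 0) :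
    ∃ x y : Fin 3 → ℝ, G.Detected T x y ∧ ∀ j, y j ≠ 0 ∧ x j = s j * y j := by
  obtain ⟨P, hP1, hP2⟩ := exists_par h
  obtain ⟨F, hF⟩ := exists_F P
  have hl := P.h1
  have hsg := P.h2
  have hlin := F_lin hF (Neg_T0 T i) (Neg_cov0 hT i) (Neg_cov1 hT i)
  have hlog : 0 < Real.log P.lam := Real.log_pos hl
  obtain ⟨F', hF', hlin', -⟩ := LS.leaf_drill (F_taut hF) hlin
    (N := fun _ : Unit => NN) (P := fun _ => -Real.log P.lam)
    (fun _ => leaf_curve hF) (fun _ _ _ _ _ => rfl) (by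
      rintro - z j ⟨a, r, b⟩ he
      obtain ⟨a, rfl⟩ := QuotientAddGroup.mk_surjective a
      obtain ⟨b, rfl⟩ := QuotientAddGroup.mk_surjective b
      have he' : nb z = ((Neg_T0 T i).cov j (a, r, b)).1 := congrArg Subtype.val he
      cases j with
      | false =>
        rw [Neg_cov0 hT i] at he'
        exact nb_colA _ _ he'
      | true =>
        rw [Neg_cov1 hT i] at he'
        exact nb_colB _ _ he')
    (Neg_D hT i) (fun _ => -1) (fun _ => -(s i)) (fun _ => by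
      show 0 < -Real.log P.lam * -1
      linarith)
  obtain ⟨n1, n2, n3⟩ := BR.fin3 i
  refine ⟨fun j => if j = i then -(s i) else if j = i + 1 then -(P.lam - 1) ^ 2
    else (P.lam - 1) * P.sig, fun j => if j = i then -1 else if j = i + 1 then P.lam * P.sig
    else P.lam - 1, ⟨F', hF', ?_⟩, ?_⟩
  · intro j z hz c hc hzc
    rcases BR.fin3_cases i j with rfl | rfl | rfl
    · have hR : Continuous fun w : ℝ × Ioo (1 : ℝ) 2 × ℝ =>
          ((w.2.2, w.2.1, w.1) : ℝ × Ioo (1 : ℝ) 2 × ℝ) := by fun_prop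
      have h1 := hlin' (Sum.inr ()) (z.2.2, z.2.1, z.1) hz c hc hzc
      have h2 := OrdEq.comp_cont (R := fun w : ℝ × Ioo (1 : ℝ) 2 × ℝ =>
          ((w.2.2, w.2.1, w.1) : ℝ × Ioo (1 : ℝ) 2 × ℝ)) (z₀ := z) hR.continuousAt h1
      refine h2.congr (Eventually.of_forall fun w => rfl) (Eventually.of_forall fun w => ?_)
      show (if j = j then -(s j) else _) * w.1 + (if j = j then (-1 : ℝ) else _) * w.2.2 =
        -1 * w.2.2 + -(s j) * w.1
      rw [if_pos rfl, if_pos rfl]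
      ring
    · have h1 := hlin' (Sum.inl true) z hz c hc hzc
      refine h1.congr (Eventually.of_forall fun w => rfl) (Eventually.of_forall fun w => ?_)
      simp only [if_neg n1, if_true, Sum.elim_inl]
    · have h1 := hlin' (Sum.inl false) z hz c hc hzc
      refine h1.congr (Eventually.of_forall fun w => rfl) (Eventually.of_forall fun w => ?_)
      simp only [if_neg n2, if_neg n3, Sum.elim_inl, Bool.false_eq_true, if_false]
  · intro j
    rcases BR.fin3_cases i j with rfl | rfl | rfl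
    · simp only [if_true]
      exact ⟨by norm_num, by ring⟩
    · simp only [if_neg n1, if_true]
      exact ⟨mul_ne_zero (by linarith) hsg, hP2⟩
    · simp only [if_neg n2, if_neg n3]
      exact ⟨by linarith, by rw [← hP1]; ring⟩

end Pool.Agent.H.MP_1611f1_gt.BR.U
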