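import Pool.Agent.H.MP_1611f1_gt.BR.Emb

/-!
The toral ends of the exterior, reparametrization of ends.
-/

namespace Pool.Agent.H.MP_1611f1_gt.BR

open Topology Set Filter

theorem Ends_hN (i : Fin 3) : IsOpenEmbedding (cyl i (hh 4)) :=
  cyl_emb i (hh_emb (by norm_num)) (hh_lt (by norm_num) (by norm_num))

theorem Ends_bd (r : Ioo (1 : ℝ) 2) {a : ℝ} (ha : |a| ≤ 1) : |(r : ℝ) * a| ≤ 2 := by
  rw [abs_mul, abs_of_pos (by linarith [r.2.1])]
  nlinarith [r.2.1, r.2.2, abs_nonneg a]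

theorem Ends_val (i : Fin 3) (θ : ℝ) (r : Ioo (1 : ℝ) 2) (t : AddCircle (1 : ℝ)) :
    LS.SurgA_end (cyl i (hh 4)) (t, r, (θ : AddCircle (1 : ℝ))) = tub i θ r t := by
  obtain ⟨h1, h2⟩ := LS.SurgA_circle θ
  unfold LS.SurgA_end cyl
  simp only
  rw [h1, h2]
  have h3 := Ends_bd r (Real.abs_cos_le_one (2 * Real.pi * θ))
  have h4 := Ends_bd r (Real.abs_sin_le_one (2 * Real.pi * θ))
  rw [hh_id 4 (z := ((r : ℝ) * Real.cos (2 * Real.pi * θ),
    -4 + (r : ℝ) * Real.sin (2 * Real.pi * θ))) h3 (by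
      simp only
      rw [show -4 + (r : ℝ) * Real.sin (2 * Real.pi * θ) + 4 =
        (r : ℝ) * Real.sin (2 * Real.pi * θ) by ring]
      exact h4)]
  simp only
  rw [show (r : ℝ) * Real.cos (2 * Real.pi * θ) / 32 = (r : ℝ) / 32 * Real.cos (2 * Real.pi * θ)
    by ring, show 1 / 2 + (-4 + (r : ℝ) * Real.sin (2 * Real.pi * θ) + 4) / 32 =
      1 / 2 + (r : ℝ) / 32 * Real.sin (2 * Real.pi * θ) by ring]
  rfl

theorem Ends_tub (i : Fin 3) (θ : ℝ) (r : Ioo (1 : ℝ) 2) (t : AddCircle (1 : ℝ)) :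
    ‖tub i θ r t (i + 1)‖ ≤ 1 / 16 ∧
      ‖tub i θ r t (i + 2) - ((1 / 2 : ℝ) : AddCircle (1 : ℝ))‖ ≤ 1 / 16 := by
  have h3 := Ends_bd r (Real.abs_cos_le_one (2 * Real.pi * θ))
  have h4 := Ends_bd r (Real.abs_sin_le_one (2 * Real.pi * θ))
  have h5 : |(r : ℝ) / 32 * Real.cos (2 * Real.pi * θ)| ≤ 1 / 16 := by
    rw [show (r : ℝ) / 32 * Real.cos (2 * Real.pi * θ) =
      ((r : ℝ) * Real.cos (2 * Real.pi * θ)) / 32 by ring, abs_div, abs_of_pos
      (show (0 : ℝ) < 32 by norm_num)]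
    linarith
  have h6 : |(r : ℝ) / 32 * Real.sin (2 * Real.pi * θ)| ≤ 1 / 16 := by
    rw [show (r : ℝ) / 32 * Real.sin (2 * Real.pi * θ) =
      ((r : ℝ) * Real.sin (2 * Real.pi * θ)) / 32 by ring, abs_div, abs_of_pos
      (show (0 : ℝ) < 32 by norm_num)]
    linarith
  have e1 : tub i θ r t (i + 1) =
      (((r : ℝ) / 32 * Real.cos (2 * Real.pi * θ) : ℝ) : AddCircle (1 : ℝ)) := by
    unfold tub
    rw [if_neg (fin3 i).1, if_pos rfl]
  have e2 : tub i θ r t (i + 2) =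
      ((1 / 2 + (r : ℝ) / 32 * Real.sin (2 * Real.pi * θ) : ℝ) : AddCircle (1 : ℝ)) := by
    unfold tub
    rw [if_neg (fin3 i).2.1, if_neg (fin3 i).2.2]
  constructor
  · rw [e1, norm_coe (by linarith)]
    exact h5
  · rw [e2, ← AddCircle.coe_sub, add_sub_cancel_left, norm_coe (by linarith)]
    exact h6

theorem Ends_col (i : Fin 3) (w : AddCircle (1 : ℝ) × Ioo (1 : ℝ) 2 × AddCircle (1 : ℝ)) :
    ‖LS.SurgA_end (cyl i (hh 4)) w (i + 1)‖ ≤ 1 / 16 ∧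
      ‖LS.SurgA_end (cyl i (hh 4)) w (i + 2) - ((1 / 2 : ℝ) : AddCircle (1 : ℝ))‖ ≤ 1 / 16 := by
  obtain ⟨t, r, a⟩ := w
  obtain ⟨θ, rfl⟩ := QuotientAddGroup.mk_surjective a
  have := Ends_val i θ r t
  have h := Ends_tub i θ r t
  rw [← this] at h
  exact h

theorem Ends_half {p : AddCircle (1 : ℝ)} (h1 : ‖p‖ ≤ 1 / 16)
    (h2 : ‖p - ((1 / 2 : ℝ) : AddCircle (1 : ℝ))‖ ≤ 1 / 16) : False := by
  have h3 : ‖((1 / 2 : ℝ) : AddCircle (1 : ℝ))‖ = 1 / 2 := by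
    rw [norm_coe (by rw [abs_of_pos (by norm_num)]), abs_of_pos (by norm_num)]
  have h4 : ‖p - (p - ((1 / 2 : ℝ) : AddCircle (1 : ℝ)))‖ ≤ ‖p‖ +
    ‖p - ((1 / 2 : ℝ) : AddCircle (1 : ℝ))‖ := norm_sub_le _ _
  rw [sub_sub_cancel, h3] at h4
  linarith

theorem Ends_fin (i : Fin 3) : i + 1 + 1 = i + 2 ∧ i + 1 + 2 = i ∧ i + 2 + 1 = i ∧
    i + 2 + 2 = i + 1 := by revert i; decide

theorem Ends_not (i j : Fin 3) (w : AddCircle (1 : ℝ) × Ioo (1 : ℝ) 2 × AddCircle (1 : ℝ)) :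
    LS.SurgA_end (cyl i (hh 4)) w ∉ Tube j := by
  obtain ⟨f1, f2, f3, f4⟩ := Ends_fin i
  obtain ⟨h1, h2⟩ := Ends_col i w
  rcases fin3_cases i j with rfl | rfl | rfl
  · rw [← hh_KK j 4]
    exact LS.SurgA_end_KK (Ends_hN j) w
  · intro h
    have h3 : ‖LS.SurgA_end (cyl i (hh 4)) w (i + 1 + 1)‖ ^ 2 +
      ‖LS.SurgA_end (cyl i (hh 4)) w (i + 1 + 2) - ((1 / 2 : ℝ) : AddCircle (1 : ℝ))‖ ^ 2
        ≤ (1 / 32) ^ 2 := h
    rw [f1] at h3
    have h4 : ‖LS.SurgA_end (cyl i (hh 4)) w (i + 2)‖ ≤ 1 / 32 := by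
      apply le_of_sq_le_sq _ (by norm_num)
      nlinarith [sq_nonneg ‖LS.SurgA_end (cyl i (hh 4)) w (i + 1 + 2) -
        ((1 / 2 : ℝ) : AddCircle (1 : ℝ))‖]
    exact Ends_half (by linarith) h2
  · intro h
    have h3 : ‖LS.SurgA_end (cyl i (hh 4)) w (i + 2 + 1)‖ ^ 2 +
      ‖LS.SurgA_end (cyl i (hh 4)) w (i + 2 + 2) - ((1 / 2 : ℝ) : AddCircle (1 : ℝ))‖ ^ 2
        ≤ (1 / 32) ^ 2 := h
    rw [f4] at h3
    have h4 : ‖LS.SurgA_end (cyl i (hh 4)) w (i + 1) - ((1 / 2 : ℝ) : AddCircle (1 : ℝ))‖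
        ≤ 1 / 32 := by
      apply le_of_sq_le_sq _ (by norm_num)
      nlinarith [sq_nonneg ‖LS.SurgA_end (cyl i (hh 4)) w (i + 2 + 1)‖]
    exact Ends_half h1 (by linarith)

theorem Ends_disj (i j : Fin 3) (w w' : AddCircle (1 : ℝ) × Ioo (1 : ℝ) 2 × AddCircle (1 : ℝ))
    (h : LS.SurgA_end (cyl i (hh 4)) w = LS.SurgA_end (cyl j (hh 4)) w') : i = j := by
  obtain ⟨f1, f2, f3, f4⟩ := Ends_fin i
  obtain ⟨h1, h2⟩ := Ends_col i w
  rcases fin3_cases i j with rfl | rfl | rfl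
  · rfl
  · exfalso
    obtain ⟨h3, h4⟩ := Ends_col (i + 1) w'
    rw [← h, f1] at h3
    exact Ends_half h3 h2
  · exfalso
    obtain ⟨h3, h4⟩ := Ends_col (i + 2) w'
    rw [← h, f4] at h4
    exact Ends_half h1 h4

theorem Ends_open : IsOpen {x : T3 | ∀ i, x ∉ Tube i} := by
  have h1 : {x : T3 | ∀ i, x ∉ Tube i} = ⋂ i, (Tube i)ᶜ := by
    ext y
    simp
  rw [h1]
  refine isOpen_iInter_of_finite fun i => ?_
  rw [← hh_KK i 4]
  exact ((LS.SurgA_compact.image (Ends_hN i).continuous).isClosed).isOpen_compl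

/-- exchange of the two circles -/
def Ends_swap : AddCircle (1 : ℝ) × Ioo (1 : ℝ) 2 × AddCircle (1 : ℝ) ≃ₜ
    AddCircle (1 : ℝ) × Ioo (1 : ℝ) 2 × AddCircle (1 : ℝ) where
  toFun w := (w.2.2, w.2.1, w.1)
  invFun w := (w.2.2, w.2.1, w.1)
  left_inv := fun _ => rfl
  right_inv := fun _ => rfl
  continuous_toFun := by fun_prop
  continuous_invFun := by fun_prop

/-- the toral ends -/
noncomputable def Ends_T : G.Ended M0 (Fin 3) where
  tor i w := ⟨LS.SurgA_end (cyl i (hh 4)) (w.2.2, w.2.1, w.1), fun j => Ends_not i j _⟩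
  emb i := by
    refine IsOpenEmbedding.of_comp _ Ends_open.isOpenEmbedding_subtypeVal ?_
    exact (LS.SurgA_end_emb (Ends_hN i)).comp Ends_swap.isOpenEmbedding
  disj i j z w h := Ends_disj i j _ _ (congrArg Subtype.val h)

/-- the toral ends of the exterior (angle `θ`, radius `r`, height `t`) -/
theorem exists_T0 : ∃ T : G.Ended M0 (Fin 3), ∀ (i : Fin 3) (θ : ℝ) (r : Ioo (1 : ℝ) 2)
    (t : AddCircle (1 : ℝ)), (T.tor i ((θ : AddCircle (1 : ℝ)), r, t)).1 = tub i θ r t :=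
  ⟨Ends_T, fun i θ r t => Ends_val i θ r t⟩

/-- the toral ends of the exterior -/
noncomputable def T0 : G.Ended M0 (Fin 3) := exists_T0.choose

theorem T0_tor (i : Fin 3) (θ : ℝ) (r : Ioo (1 : ℝ) 2) (t : AddCircle (1 : ℝ)) :
    (T0.tor i ((θ : AddCircle (1 : ℝ)), r, t)).1 = tub i θ r t :=
  exists_T0.choose_spec i θ r t

/-- reparametrization of the ends: reindexing, rotations, exchange of the two circles -/
theorem detected_reparam {M : Type*} [TopologicalSpace M] {J J' : Type*} {T : G.Ended M J}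
    {T' : G.Ended M J'} {x y : J → ℝ} {x' y' : J' → ℝ} (F : Foliation M)
    (hlin : G.Linear T' F x' y')
    (h : ∀ j, ∃ (j' : J') (a b : ℝ),
      (x j = x' j' ∧ y j = y' j' ∧ ∀ (u : ℝ) (r : Ioo (1 : ℝ) 2) (t : ℝ),
        T.cov j (u, r, t) = T'.cov j' (u + a, r, t + b)) ∨
      (x j = y' j' ∧ y j = x' j' ∧ ∀ (u : ℝ) (r : Ioo (1 : ℝ) 2) (t : ℝ),
        T.cov j (u, r, t) = T'.cov j' (t + b, r, u + a))) :
    G.Linear T F x y := by
  intro j z hz c hc hcs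
  obtain ⟨j', a, b, ⟨hx, hy, hT⟩ | ⟨hx, hy, hT⟩⟩ := h j
  · let R : ℝ × Ioo (1 : ℝ) 2 × ℝ → ℝ × Ioo (1 : ℝ) 2 × ℝ := fun w =>
      (w.1 + a, w.2.1, w.2.2 + b)
    have hR : Continuous R := by fun_prop
    have hTR : ∀ w, T.cov j w = T'.cov j' (R w) := fun w => hT w.1 w.2.1 w.2.2
    have h1 := hlin j' (R z) hz c hc (by rw [← hTR]; exact hcs)
    have h2 := h1.comp_cont hR.continuousAt
    refine (h2.congr (f' := fun w => (c (T.cov j w)).2)
      (g' := fun w => x' j' * (w.1 + a) + y' j' * (w.2.2 + b))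
      (Eventually.of_forall fun w => ?_) (Eventually.of_forall fun w => rfl)).trans ?_
    · simp only [Function.comp]
      rw [hTR]
    · refine OrdEq.of_comp (fun s => s - (x' j' * a + y' j' * b)) (fun s t hst => ?_)
        (Eventually.of_forall fun w => ?_)
      · simp only
        linarith
      · show x j * w.1 + y j * w.2.2 = _
        rw [hx, hy]
        ring
  · let R : ℝ × Ioo (1 : ℝ) 2 × ℝ → ℝ × Ioo (1 : ℝ) 2 × ℝ := fun w =>
      (w.2.2 + b, w.2.1, w.1 + a)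
    have hR : Continuous R := by fun_prop
    have hTR : ∀ w, T.cov j w = T'.cov j' (R w) := fun w => hT w.1 w.2.1 w.2.2
    have h1 := hlin j' (R z) hz c hc (by rw [← hTR]; exact hcs)
    have h2 := h1.comp_cont hR.continuousAt
    refine (h2.congr (f' := fun w => (c (T.cov j w)).2)
      (g' := fun w => x' j' * (w.2.2 + b) + y' j' * (w.1 + a))
      (Eventually.of_forall fun w => ?_) (Eventually.of_forall fun w => rfl)).trans ?_
    · simp only [Function.comp]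
      rw [hTR]
    · refine OrdEq.of_comp (fun s => s - (x' j' * b + y' j' * a)) (fun s t hst => ?_)
        (Eventually.of_forall fun w => ?_)
      · simp only
        linarith
      · show x j * w.1 + y j * w.2.2 = _
        rw [hx, hy]
        ring

end Pool.Agent.H.MP_1611f1_gt.BR
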