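import Pool.Agent.H.MP_1611f1_gt.OneD

/-!
The one-dimensional data with non-trivial germs.
-/

namespace Pool.Agent.H.MP_1611f1_gt.BR

open Topology Set Filter

/-- the case `0 < σ < 1` -/
theorem Ger_pos (σ : ℝ) (h0 : 0 < σ) (h1 : σ < 1) : ∃ H : Hol σ,
    (∀ ε > 0, ∃ t, |t - 2| < ε ∧ H.A t ≠ t) ∧ (∀ ε > 0, ∃ t, |t - 1| < ε ∧ H.B t ≠ t) := by
  obtain ⟨s, hs0, hs1, hs2⟩ : ∃ s : ℝ, 0 < s ∧ s < 1 ∧ s * s = σ := by
    refine ⟨Real.sqrt σ, Real.sqrt_pos.2 h0, ?_, Real.mul_self_sqrt h0.le⟩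
    rw [Real.sqrt_lt' one_pos]
    simpa using h1
  obtain ⟨r, hr⟩ : ∃ r : ℝ, r = (1 - s) / (1 + s) := ⟨_, rfl⟩
  have hr0 : 0 < r := by
    rw [hr]
    apply div_pos <;> linarith
  have hr1 : r < 1 := by
    rw [hr, div_lt_one (by linarith)]
    linarith
  have hrs : 1 - r = s * (1 + r) := by
    rw [hr]
    field_simp
    ring
  obtain ⟨e, A, he, hA4, hAf, hA1, hA2⟩ := exists_A r hr0 hr1
  obtain ⟨th0, hm, hc, ht4, ht⟩ := exists_th r hr0 hr1
  obtain ⟨R1, R2⟩ := crossing r hr0 hr1 e A th0 he hA4 hA1 hA2 ht4 ht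
  let B : ℝ ≃o ℝ := ((OrderIso.addRight (-1 : ℝ)).trans A).trans (OrderIso.addRight (1 : ℝ))
  have hB : ∀ t, B t = A (t - 1) + 1 := by
    intro t
    change A (t + -1) + 1 = A (t - 1) + 1
    rw [← sub_eq_add_neg]
  have hr2 : 0 < (1 + r) ^ 2 := by positivity
  refine ⟨⟨A, B, fun t => 4 / (1 + r) ^ 2 * th0 t, ?_, ?_, hA4, ?_, ?_, hAf, ?_, ?_⟩, ?_, ?_⟩
  · exact hm.const_mul (by positivity)
  · exact continuous_const.mul hc
  · intro t
    rw [hB, hB]
    have : t + 4 - 1 = (t - 1) + 4 := by ring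
    rw [this, hA4]
    ring
  · intro t
    rw [ht4]
    field_simp
  · intro m
    rw [hB]
    have : (2 * m + 1 - 1 : ℝ) = 2 * m := by ring
    rw [this, hAf]
  · intro t
    obtain ⟨x1, hx1⟩ : ∃ x, x = A t := ⟨_, rfl⟩
    obtain ⟨x2, hx2⟩ : ∃ x, x = B x1 := ⟨_, rfl⟩
    obtain ⟨x3, hx3⟩ : ∃ x, x = A.symm x2 := ⟨_, rfl⟩
    obtain ⟨x4, hx4⟩ : ∃ x, x = B.symm x3 := ⟨_, rfl⟩
    rw [← hx1, ← hx2, ← hx3, ← hx4]
    have e1 := R1 t
    rw [← hx1] at e1
    have e2 := R1 (x1 - 1)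
    have g2 : A (x1 - 1) - 1 = x2 - 2 := by
      rw [hx2, hB]
      ring
    rw [g2] at e2
    have e3 := R2 x3
    have g3 : A x3 = x2 := by rw [hx3, OrderIso.apply_symm_apply]
    rw [g3] at e3
    have e4 := R2 (x4 - 1)
    have g4 : B x4 = x3 := by rw [hx4, OrderIso.apply_symm_apply]
    rw [hB] at g4
    have g5 : A (x4 - 1) - 2 = x3 - 3 := by rw [← g4]; ring
    have g6 : x4 - 1 - 3 = x4 - 4 := by ring
    rw [g5, g6] at e4
    have e5 := ht4 (x4 - 4)
    rw [sub_add_cancel] at e5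
    have e6 : th0 x4 = th0 t + (1 - r) ^ 2 := by
      rw [e5]
      have : th0 (x4 - 4) = th0 t - 4 * r := by linarith
      rw [this]
      ring
    rw [e6, hrs, ← hs2]
    field_simp
  · intro ε hε
    have m0 : 0 < min ε 1 := lt_min hε one_pos
    have m1 : min ε 1 ≤ ε := min_le_left _ _
    have m2 : min ε 1 ≤ 1 := min_le_right _ _
    refine ⟨2 - min ε 1 / 2, ?_, ?_⟩
    · rw [abs_lt]
      constructor <;> linarith
    · show A (2 - min ε 1 / 2) ≠ 2 - min ε 1 / 2
      rw [hA1 _ ⟨by linarith, by linarith⟩, he.2.2.2.2 _ (by linarith)]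
      intro h
      have h2 : (1 - r) * (min ε 1 / 2) = 0 := by linarith
      have h3 : 0 < (1 - r) * (min ε 1 / 2) := mul_pos (by linarith) (by linarith)
      linarith
  · intro ε hε
    have m0 : 0 < min ε r := lt_min hε hr0
    have m1 : min ε r ≤ ε := min_le_left _ _
    have m2 : min ε r ≤ r := min_le_right _ _
    refine ⟨1 + min ε r / 2, ?_, ?_⟩
    · rw [abs_lt]
      constructor <;> linarith
    · show B (1 + min ε r / 2) ≠ 1 + min ε r / 2
      rw [hB]
      have h4 : 1 + min ε r / 2 - 1 = min ε r / 2 := by ring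
      rw [h4, hA1 _ ⟨by linarith, by linarith⟩, he.2.2.1 _ (by linarith)]
      intro h
      have h5 : min ε r / 2 / r = min ε r / 2 := by linarith
      rw [div_eq_iff hr0.ne'] at h5
      have h6 : (1 - r) * (min ε r / 2) = 0 := by linarith
      have h7 : 0 < (1 - r) * (min ε r / 2) := mul_pos (by linarith) (by linarith)
      linarith

/-- the base map for `σ = 0` -/
theorem Ger_e : ∃ e : ℝ ≃o ℝ, (∀ x ≤ 0, e x = x) ∧ (∀ x, 0 ≤ x → x ≤ 1 / 4 → e x = x / 2) ∧
    (∀ x, 1 / 2 ≤ x → e x = x) := by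
  let g : ℝ → ℝ := fun x => x - max 0 (min (x / 2) (1 / 4 - x / 2))
  have hg : ∀ x, g x = x - max 0 (min (x / 2) (1 / 4 - x / 2)) := fun x => rfl
  have g1 : ∀ x ≤ 0, g x = x := by
    intro x hx
    rw [hg, min_eq_left (by linarith), max_eq_left (by linarith), sub_zero]
  have g2 : ∀ x, 0 ≤ x → x ≤ 1 / 4 → g x = x / 2 := by
    intro x hx hx1
    rw [hg, min_eq_left (by linarith), max_eq_right (by linarith)]
    ring
  have g3 : ∀ x, 1 / 4 ≤ x → x ≤ 1 / 2 → g x = 3 / 2 * x - 1 / 4 := by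
    intro x hx hx1
    rw [hg, min_eq_right (by linarith), max_eq_right (by linarith)]
    ring
  have g4 : ∀ x, 1 / 2 ≤ x → g x = x := by
    intro x hx
    rw [hg, min_eq_right (by linarith), max_eq_left (by linarith), sub_zero]
  have hsm : StrictMono g := by
    intro s t hst
    rw [hg, hg]
    simp only [max_def, min_def]
    split_ifs <;> linarith
  have hsurj : Function.Surjective g := by
    intro y
    rcases le_or_gt y 0 with h | h
    · exact ⟨y, g1 y h⟩
    · rcases le_or_gt y (1 / 8) with h' | h'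
      · exact ⟨2 * y, by rw [g2 _ (by linarith) (by linarith)]; ring⟩
      · rcases le_or_gt y (1 / 2) with h'' | h''
        · exact ⟨2 / 3 * y + 1 / 6, by rw [g3 _ (by linarith) (by linarith)]; ring⟩
        · exact ⟨y, g4 y h''.le⟩
  exact ⟨StrictMono.orderIsoOfSurjective g hsm hsurj, g1, g2, g4⟩

/-- the map `A` for `σ = 0` -/
theorem Ger_A : ∃ A : ℝ ≃o ℝ, (∀ t, A (t + 4) = A t + 4) ∧ (∀ m : ℤ, A (2 * m) = 2 * m) ∧
    (∀ k : ℤ, ∀ t, 5 / 2 + 4 * (k : ℝ) ≤ t → t ≤ 6 + 4 * k → A t = t) ∧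
    (∀ t, 2 ≤ t → t ≤ 9 / 4 → A t = 2 + (t - 2) / 2) := by
  obtain ⟨e, e1, e2, e3⟩ := Ger_e
  have e0 : e 0 = 0 := e1 0 le_rfl
  have e02 : e 2 = 2 := e3 2 (by norm_num)
  let f : ℤ → (ℝ ≃o ℝ) := fun m => OneA_conj (if Even m then OrderIso.refl ℝ else e) (2 * m)
  have hf0 : ∀ m : ℤ, f m (2 * m) = 2 * m := by
    intro m
    simp only [f]
    rw [OneA_conj_apply, sub_self]
    split_ifs
    · rw [OrderIso.refl_apply, zero_add]
    · rw [e0, zero_add]
  have hf2 : ∀ m : ℤ, f m (2 * m + 2) = 2 * m + 2 := by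
    intro m
    simp only [f]
    rw [OneA_conj_apply, add_sub_cancel_left]
    split_ifs
    · rw [OrderIso.refl_apply, add_comm]
    · rw [e02, add_comm]
  obtain ⟨A, hA⟩ := exists_blockIso f hf0 hf2
  refine ⟨A, ?_, ?_, ?_, ?_⟩
  · intro t
    have ht := OneA_floor' t
    set m : ℤ := ⌊t / 2⌋ with hm
    rw [hA m t ⟨ht.1, ht.2.le⟩, hA (m + 2) (t + 4) (by
      push_cast
      constructor <;> linarith [ht.1, ht.2])]
    simp only [f]
    rw [OneA_conj_apply, OneA_conj_apply]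
    have hev : Even (m + 2) ↔ Even m := by
      rw [Int.even_add]
      simp
    have hsub : t + 4 - 2 * ((m + 2 : ℤ) : ℝ) = t - 2 * (m : ℝ) := by
      push_cast
      ring
    rw [hsub]
    have hcast : (2 * ((m + 2 : ℤ) : ℝ)) = 2 * (m : ℝ) + 4 := by
      push_cast
      ring
    rw [hcast]
    simp only [hev]
    ring
  · intro m
    rw [hA m (2 * m) ⟨le_rfl, by linarith⟩, hf0]
  · intro k t h1 h2
    rcases le_or_gt t (4 + 4 * k) with h | h
    · rw [hA (2 * k + 1) t (by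
        push_cast
        constructor <;> linarith)]
      simp only [f]
      rw [OneA_conj_apply, if_neg (by
        rw [Int.not_even_iff_odd]
        exact ⟨k, rfl⟩)]
      rw [e3 _ (by
        push_cast
        linarith)]
      ring
    · rw [hA (2 * k + 2) t (by
        push_cast
        constructor <;> linarith)]
      simp only [f]
      rw [OneA_conj_apply, if_pos ⟨k + 1, by ring⟩, OrderIso.refl_apply]
      ring
  · intro t h1 h2
    rw [hA 1 t (by
      push_cast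
      constructor <;> linarith)]
    simp only [f]
    rw [OneA_conj_apply, if_neg (by simp), e2 _ (by
      push_cast
      linarith) (by
      push_cast
      linarith)]
    push_cast
    ring

/-- the case `σ = 0` -/
theorem Ger_zero : ∃ H : Hol 0,
    (∀ ε > 0, ∃ t, |t - 2| < ε ∧ H.A t ≠ t) ∧ (∀ ε > 0, ∃ t, |t - 1| < ε ∧ H.B t ≠ t) := by
  obtain ⟨A, hA4, hAf, hA1, hA2⟩ := Ger_A
  let B : ℝ ≃o ℝ := ((OrderIso.addRight (1 : ℝ)).trans A).trans (OrderIso.addRight (-1 : ℝ))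
  have hB : ∀ t, B t = A (t + 1) - 1 := by
    intro t
    change A (t + 1) + -1 = A (t + 1) - 1
    rw [← sub_eq_add_neg]
  have hfix : ∀ k : ℤ, A (2 + 4 * (k : ℝ)) = 2 + 4 * k := by
    intro k
    have := hAf (2 * k + 1)
    push_cast at this
    rw [show (2 + 4 * (k : ℝ)) = 2 * (2 * k + 1) by ring]
    exact this
  have hmem : ∀ k : ℤ, ∀ t, 2 + 4 * (k : ℝ) ≤ t → t ≤ 5 / 2 + 4 * k →
      2 + 4 * (k : ℝ) ≤ A t ∧ A t ≤ 5 / 2 + 4 * k := by
    intro k t h1 h2
    constructor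
    · have := A.monotone h1
      rwa [hfix] at this
    · have := A.monotone h2
      rwa [hA1 k _ le_rfl (by linarith)] at this
  have hcomm : ∀ t, B (A t) = A (B t) := by
    intro t
    obtain ⟨k, hk⟩ : ∃ k : ℤ, k = ⌊(t - 2) / 4⌋ := ⟨_, rfl⟩
    have k1 : (k : ℝ) ≤ (t - 2) / 4 := by rw [hk]; exact Int.floor_le _
    have k2 : (t - 2) / 4 < (k : ℝ) + 1 := by rw [hk]; exact Int.lt_floor_add_one _
    rw [hB, hB]
    rcases le_or_gt t (5 / 2 + 4 * k) with h | h
    · obtain ⟨m1, m2⟩ := hmem k t (by linarith) h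
      rw [hA1 k (A t + 1) (by linarith) (by linarith), hA1 k (t + 1) (by linarith) (by linarith)]
      rw [add_sub_cancel_right, add_sub_cancel_right]
    · have ht : A t = t := hA1 k t h.le (by linarith)
      rw [ht]
      rcases le_or_gt (t + 1) (6 + 4 * k) with h' | h'
      · rw [hA1 k (t + 1) (by linarith) h', add_sub_cancel_right, ht]
      · rcases le_or_gt (t + 1) (5 / 2 + 4 * ((k + 1 : ℤ) : ℝ)) with h'' | h''
        · have h3 : 2 + 4 * ((k + 1 : ℤ) : ℝ) ≤ t + 1 := by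
            push_cast
            linarith
          obtain ⟨m1, m2⟩ := hmem (k + 1) (t + 1) h3 h''
          push_cast at m1 m2
          rw [hA1 k (A (t + 1) - 1) (by linarith) (by linarith)]
        · have h3 : t + 1 ≤ 6 + 4 * ((k + 1 : ℤ) : ℝ) := by
            push_cast
            linarith
          rw [hA1 (k + 1) (t + 1) h''.le h3, add_sub_cancel_right, ht]
  have gA : ∀ ε > 0, ∃ t, |t - 2| < ε ∧ A t ≠ t := by
    intro ε hε
    have m0 : 0 < min ε (1 / 4) := lt_min hε (by norm_num)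
    have m1 : min ε (1 / 4) ≤ ε := min_le_left _ _
    have m2 : min ε (1 / 4) ≤ 1 / 4 := min_le_right _ _
    refine ⟨2 + min ε (1 / 4) / 2, ?_, ?_⟩
    · rw [abs_lt]
      constructor <;> linarith
    · rw [hA2 _ (by linarith) (by linarith)]
      intro h
      linarith
  refine ⟨⟨A, B, id, strictMono_id, continuous_id, hA4, ?_, ?_, hAf, ?_, ?_⟩, gA, ?_⟩
  · intro t
    rw [hB, hB]
    have : t + 4 + 1 = (t + 1) + 4 := by ring
    rw [this, hA4]
    ring
  · intro t
    rfl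
  · intro m
    rw [hB]
    have h := hAf (m + 1)
    push_cast at h
    have h2 : (2 * m + 1 + 1 : ℝ) = 2 * (m + 1) := by ring
    rw [h2, h]
    ring
  · intro t
    rw [hcomm, OrderIso.symm_apply_apply, OrderIso.symm_apply_apply]
    simp
  · intro ε hε
    obtain ⟨t, h1, h2⟩ := gA ε hε
    refine ⟨t - 1, ?_, ?_⟩
    · have : t - 1 - 1 = t - 2 := by ring
      rwa [this]
    · show B (t - 1) ≠ t - 1
      rw [hB, sub_add_cancel]
      intro h
      exact h2 (by linarith)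

/-- the one-dimensional data, with non-trivial germs of `A` at `2` and of `B` at `1` -/
theorem exists_hol_germ (σ : ℝ) (hσ : |σ| < 1) : ∃ H : Hol σ,
    (∀ ε > 0, ∃ t, |t - 2| < ε ∧ H.A t ≠ t) ∧ (∀ ε > 0, ∃ t, |t - 1| < ε ∧ H.B t ≠ t) := by
  rcases lt_trichotomy σ 0 with h | h | h
  · rw [abs_of_neg h] at hσ
    obtain ⟨D, hDA, hDB⟩ := Ger_pos (-σ) (by linarith) hσ
    have hA4 : ∀ t, D.A.symm (t + 4) = D.A.symm t + 4 := by
      intro t
      apply D.A.injective
      rw [D.A4, OrderIso.apply_symm_apply, OrderIso.apply_symm_apply]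
    refine ⟨⟨D.A.symm, D.B, fun t => D.th (D.A.symm t), ?_, ?_, hA4, D.B4, ?_, ?_, D.Bfix, ?_⟩,
      ?_, hDB⟩
    · exact D.mono.comp D.A.symm.strictMono
    · exact D.cont.comp D.A.symm.continuous
    · intro t
      rw [hA4, D.th4]
    · intro m
      apply D.A.injective
      rw [D.Afix, OrderIso.apply_symm_apply]
    · intro t
      simp only [OrderIso.symm_symm]
      have h1 := D.rot (D.A.symm (D.B.symm (D.A (D.B (D.A.symm t)))))
      rw [OrderIso.apply_symm_apply, OrderIso.apply_symm_apply, OrderIso.symm_apply_apply,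
        OrderIso.symm_apply_apply] at h1
      linarith
    · intro ε hε
      obtain ⟨t, h1, h2⟩ := hDA ε hε
      refine ⟨t, h1, ?_⟩
      show D.A.symm t ≠ t
      intro h3
      apply h2
      have h4 := congrArg D.A h3
      rw [OrderIso.apply_symm_apply] at h4
      exact h4.symm
  · subst h
    exact Ger_zero
  · rw [abs_of_pos h] at hσ
    exact Ger_pos σ h hσ

end Pool.Agent.H.MP_1611f1_gt.BR
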