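import Pool.Agent.H.MP_1611f1_gt.BR.Fol
import Pool.Agent.H.MP_1611f1_gt.BR.Crv
import Pool.Agent.H.MP_1611f1_gt.BR.Ger
import Pool.Agent.H.MP_1611f1_gt.BR.Ends
import Pool.Agent.H.MP_1611f1_gt.LS.HK

/-!
The region `|s i| < 1`.
-/

namespace Pool.Agent.H.MP_1611f1_gt.BR

open Topology Set Filter

theorem idx (i : Fin 3) : i + 1 + 1 = i + 2 ∧ i + 1 + 2 = i ∧ i + 2 + 1 = i ∧ i + 2 + 2 = i + 1 := by
  revert i; decide

theorem ax_rot1 (i : Fin 3) (a b c : AddCircle (1 : ℝ)) :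
    ax (i + 1) (a, (b, c)) = ax i (c, (a, b)) := by
  obtain ⟨h1, h2, h3, h4⟩ := idx i
  funext j
  rcases fin3_cases i j with rfl | rfl | rfl
  · rw [ax_0]
    have := ax_2 (j + 1) (a, (b, c))
    rwa [h2] at this
  · rw [ax_1, ax_0]
  · rw [ax_2]
    have := ax_1 (i + 1) (a, (b, c))
    rwa [h1] at this

theorem ax_rot2 (i : Fin 3) (a b c : AddCircle (1 : ℝ)) :
    ax (i + 2) (a, (b, c)) = ax i (b, (c, a)) := by
  obtain ⟨h1, h2, h3, h4⟩ := idx i
  funext j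
  rcases fin3_cases i j with rfl | rfl | rfl
  · rw [ax_0]
    have := ax_1 (j + 2) (a, (b, c))
    rwa [h3] at this
  · rw [ax_1]
    have := ax_2 (i + 2) (a, (b, c))
    rwa [h4] at this
  · rw [ax_2, ax_0]

theorem Tube_closed (i : Fin 3) : IsClosed (Tube i) := by
  have h1 : Continuous fun x : T3 => ‖x (i + 1)‖ ^ 2 +
      ‖x (i + 2) - ((1 / 2 : ℝ) : AddCircle (1 : ℝ))‖ ^ 2 :=
    ((continuous_apply (i + 1)).norm.pow 2).add
      (((continuous_apply (i + 2)).sub continuous_const).norm.pow 2)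
  exact isClosed_le h1 continuous_const

theorem Mi_val (i : Fin 3) : IsOpenEmbedding (Subtype.val : Mi i → T3) :=
  (Tube_closed i).isOpen_compl.isOpenEmbedding_subtypeVal

theorem M0_val : IsOpenEmbedding (Subtype.val : M0 → T3) := by
  have h : IsOpen {x : T3 | ∀ i, x ∉ Tube i} := by
    have h1 : {x : T3 | ∀ i, x ∉ Tube i} = ⋂ i, (Tube i)ᶜ := by
      ext x
      simp
    rw [h1]
    exact isOpen_iInter_of_finite fun i => (Tube_closed i).isOpen_compl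
  exact h.isOpenEmbedding_subtypeVal

/-- points near `0` are far from `1 / 2` -/
theorem far_half {a : ℝ} (ha : |a| ≤ 3 / 32) :
    13 / 32 ≤ ‖(a : AddCircle (1 : ℝ)) - ((1 / 2 : ℝ) : AddCircle (1 : ℝ))‖ := by
  have h1 : ‖((1 / 2 : ℝ) : AddCircle (1 : ℝ))‖ = 1 / 2 := by
    rw [norm_coe (by rw [abs_of_pos] <;> norm_num), abs_of_pos (by norm_num)]
  have h2 : ‖(a : AddCircle (1 : ℝ))‖ = |a| := norm_coe (by linarith)
  have h3 := norm_sub_norm_le ((1 / 2 : ℝ) : AddCircle (1 : ℝ)) (a : AddCircle (1 : ℝ))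
  rw [norm_sub_rev, h1, h2] at h3
  linarith

theorem far_zero {a : ℝ} (ha : |a| ≤ 3 / 32) :
    13 / 32 ≤ ‖((1 / 2 + a : ℝ) : AddCircle (1 : ℝ))‖ := by
  have h1 : ‖((1 / 2 : ℝ) : AddCircle (1 : ℝ))‖ = 1 / 2 := by
    rw [norm_coe (by rw [abs_of_pos] <;> norm_num), abs_of_pos (by norm_num)]
  have h2 : ‖((-a : ℝ) : AddCircle (1 : ℝ))‖ = |a| := by
    rw [norm_coe (by rw [abs_neg]; linarith), abs_neg]
  have h3 := norm_sub_norm_le ((1 / 2 : ℝ) : AddCircle (1 : ℝ)) ((-a : ℝ) : AddCircle (1 : ℝ))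
  rw [h1, h2, ← AddCircle.coe_sub, sub_neg_eq_add] at h3
  linarith

theorem sq32 (u : ℝ) : |sq u / 32| ≤ 3 / 32 := by
  have := sq_lt u
  rw [abs_div, abs_of_pos (by norm_num : (0 : ℝ) < 32)]
  linarith

/-- the surface points of the first curve -/
noncomputable def Xa (z : ℝ × ℝ) : SS :=
  ⟨((z.1 : AddCircle (1 : ℝ)), ((sq z.2 / 32 : ℝ) : AddCircle (1 : ℝ))), by
    have h1 := far_half (sq32 z.2)
    have h2 := norm_nonneg ((z.1 : ℝ) : AddCircle (1 : ℝ))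
    show (1 / 32 : ℝ) ^ 2 < ‖((z.1 : ℝ) : AddCircle (1 : ℝ))‖ ^ 2 +
      ‖((sq z.2 / 32 : ℝ) : AddCircle (1 : ℝ)) - ((1 / 2 : ℝ) : AddCircle (1 : ℝ))‖ ^ 2
    nlinarith⟩

/-- the surface points of the second curve -/
noncomputable def Xb (z : ℝ × ℝ) : SS :=
  ⟨(((1 / 2 + -(sq z.2 / 32) : ℝ) : AddCircle (1 : ℝ)), (z.1 : AddCircle (1 : ℝ))), by
    have h1 := far_zero (a := -(sq z.2 / 32)) (by rw [abs_neg]; exact sq32 z.2)
    have h2 := norm_nonneg (((z.1 : ℝ) : AddCircle (1 : ℝ)) -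
      ((1 / 2 : ℝ) : AddCircle (1 : ℝ)))
    show (1 / 32 : ℝ) ^ 2 < ‖((1 / 2 + -(sq z.2 / 32) : ℝ) : AddCircle (1 : ℝ))‖ ^ 2 +
      ‖((z.1 : ℝ) : AddCircle (1 : ℝ)) - ((1 / 2 : ℝ) : AddCircle (1 : ℝ))‖ ^ 2
    nlinarith⟩

theorem Xa_cont : Continuous Xa :=
  ((coe_cont.comp continuous_fst).prodMk
    (coe_cont.comp ((sq_cont.comp continuous_snd).div_const 32))).subtype_mk _

theorem Xb_cont : Continuous Xb :=
  ((coe_cont.comp (continuous_const.add ((sq_cont.comp continuous_snd).div_const 32).neg)).prodMk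
    (coe_cont.comp continuous_fst)).subtype_mk _

/-- representatives of points near the circle opposite to the centre -/
theorem rep (u : ℝ) : ∃ h : ℝ, |h| ≤ 16 ∧ 13 ≤ |h| ∧ (h = sq u - 16 ∨ h = sq u + 16) := by
  have h1 := sq_lt u
  rw [abs_lt] at h1
  rcases le_or_gt 0 (sq u) with h | h
  · refine ⟨sq u - 16, ?_, ?_, Or.inl rfl⟩
    · rw [abs_le]
      constructor <;> linarith
    · rw [abs_of_neg (by linarith)]
      linarith
  · refine ⟨sq u + 16, ?_, ?_, Or.inr rfl⟩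
    · rw [abs_le]
      constructor <;> linarith
    · rw [abs_of_pos (by linarith)]
      linarith

theorem coe_add_int (a : ℝ) (k : ℤ) : ((a + k : ℝ) : AddCircle (1 : ℝ)) = (a : AddCircle (1 : ℝ)) := by
  rw [AddCircle.coe_add]
  have : (((k : ℤ) : ℝ) : AddCircle (1 : ℝ)) = 0 := by
    rw [AddCircle.coe_eq_zero_iff]
    exact ⟨k, by simp⟩
  rw [this, add_zero]

theorem Xa_pt (θ u : ℝ) (k : ℤ) : ∃ h : ℝ, |h| ≤ 16 ∧ 13 ≤ |h| ∧
    (Xa (θ, u)).1 = pt (32 * (θ - k)) h := by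
  obtain ⟨h, h1, h2, h3⟩ := rep u
  refine ⟨h, h1, h2, ?_⟩
  have e1 : ((θ : ℝ) : AddCircle (1 : ℝ)) = ((32 * (θ - k) / 32 : ℝ) : AddCircle (1 : ℝ)) := by
    have := coe_add_int (32 * (θ - k) / 32) k
    rw [← this]
    congr 1
    ring
  have e2 : ((sq u / 32 : ℝ) : AddCircle (1 : ℝ)) = ((1 / 2 + h / 32 : ℝ) : AddCircle (1 : ℝ)) := by
    rcases h3 with rfl | rfl
    · congr 1
      ring
    · have := coe_add_int (sq u / 32) 1
      rw [← this]
      congr 1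
      push_cast
      ring
  exact Prod.ext e1 e2

theorem Xb_pt (θ u : ℝ) (k : ℤ) : ∃ v : ℝ, |v| ≤ 16 ∧ 13 ≤ |v| ∧
    (Xb (θ, u)).1 = pt v (32 * (θ - 1 / 2 - k)) := by
  obtain ⟨h, h1, h2, h3⟩ := rep u
  refine ⟨-h, by rwa [abs_neg], by rwa [abs_neg], ?_⟩
  have e1 : ((θ : ℝ) : AddCircle (1 : ℝ)) =
      ((1 / 2 + 32 * (θ - 1 / 2 - k) / 32 : ℝ) : AddCircle (1 : ℝ)) := by
    have := coe_add_int (1 / 2 + 32 * (θ - 1 / 2 - k) / 32) k
    rw [← this]
    congr 1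
    ring
  have e2 : ((1 / 2 + -(sq u / 32) : ℝ) : AddCircle (1 : ℝ)) =
      ((-h / 32 : ℝ) : AddCircle (1 : ℝ)) := by
    rcases h3 with rfl | rfl
    · congr 1
      ring
    · have := coe_add_int (-(sq u + 16) / 32) 1
      rw [← this]
      congr 1
      push_cast
      ring
  exact Prod.ext e2 e1

/-- the collapse function along the curves -/
noncomputable def ww (v : ℝ) : ℝ := alf (32 * v) 2

theorem ww_aux1 : Continuous fun v : ℝ => ((32 * v, 2) : ℝ × ℝ) := by fun_prop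

theorem ww_aux2 : ∀ v : ℝ, ((32 * v, 2) : ℝ × ℝ) ∈ {z : ℝ × ℝ | 0 < z.1 ^ 2 + z.2 ^ 2} := by
  intro v
  show (0 : ℝ) < (32 * v) ^ 2 + 2 ^ 2
  positivity

theorem ww_cont : Continuous ww := by
  have h2 : Continuous ((fun z : ℝ × ℝ => alf z.1 z.2) ∘ fun v : ℝ => ((32 * v, 2) : ℝ × ℝ)) :=
    alf_cont.comp_continuous ww_aux1 ww_aux2
  exact h2

theorem coe01 {c : ℝ} (h : c = 0 ∨ c = 1) : ((c : ℝ) : AddCircle (1 : ℝ)) = 0 := by
  rcases h with rfl | rfl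
  · rfl
  · have := coe_add_int 0 1
    simpa using this

theorem alf_end {v h : ℝ} (hv : 13 ≤ |v|) : alf v h = 0 ∨ alf v h = 1 := by
  rcases le_abs.1 hv with h1 | h1
  · exact Or.inl (alf_right (by linarith))
  · exact Or.inr (alf_left (by linarith))

/-- the two curves -/
noncomputable def NN (i : Fin 3) (k : Bool) (z : LS.Cyl) : T3 :=
  if k = true then cyl (i + 2) (hr 12) z else cyl (i + 1) (hh 4) z

theorem NN_a (i : Fin 3) (z : LS.Cyl) : NN i false z = ax i (((1 / 2 + psi 4 z.2.2 / 32 : ℝ) :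
    AddCircle (1 : ℝ)), (z.1, ((sq z.2.1 / 32 : ℝ) : AddCircle (1 : ℝ)))) :=
  ax_rot1 i _ _ _

theorem NN_b (i : Fin 3) (z : LS.Cyl) : NN i true z = ax i (((psi 12 z.2.2 / 32 : ℝ) :
    AddCircle (1 : ℝ)), (((1 / 2 + -(sq z.2.1 / 32) : ℝ) : AddCircle (1 : ℝ)), z.1)) :=
  ax_rot2 i _ _ _

theorem NN_emb (i : Fin 3) (k : Bool) : IsOpenEmbedding (NN i k) := by
  cases k
  · exact cyl_emb (i + 1) (hh_emb (by norm_num)) (hh_lt (by norm_num) (by norm_num))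
  · exact cyl_emb (i + 2) (hr_emb (by norm_num)) (hr_lt (by norm_num) (by norm_num))

theorem NN_far (i : Fin 3) (k : Bool) (z : LS.Cyl) : 13 / 32 ≤ ‖NN i k z (i + 1)‖ ∨
    13 / 32 ≤ ‖NN i k z (i + 2) - ((1 / 2 : ℝ) : AddCircle (1 : ℝ))‖ := by
  cases k
  · right
    rw [NN_a, ax_2]
    exact far_half (sq32 _)
  · left
    rw [NN_b, ax_1]
    exact far_zero (by rw [abs_neg]; exact sq32 _)

theorem NN_Tube (i : Fin 3) (k : Bool) (z : LS.Cyl) : NN i k z ∉ Tube i := by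
  intro h
  have h0 : ‖NN i k z (i + 1)‖ ^ 2 +
    ‖NN i k z (i + 2) - ((1 / 2 : ℝ) : AddCircle (1 : ℝ))‖ ^ 2 ≤ (1 / 32) ^ 2 := h
  have h1 := norm_nonneg (NN i k z (i + 1))
  have h2 := norm_nonneg (NN i k z (i + 2) - ((1 / 2 : ℝ) : AddCircle (1 : ℝ)))
  rcases NN_far i k z with h3 | h3 <;> nlinarith

/-- the two curves in the `3`-torus minus one tube -/
noncomputable def Nc (i : Fin 3) (k : Bool) (z : LS.Cyl) : Mi i := ⟨NN i k z, NN_Tube i k z⟩

theorem Nc_emb (i : Fin 3) (k : Bool) : IsOpenEmbedding (Nc i k) :=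
  IsOpenEmbedding.of_comp _ (Mi_val i) (NN_emb i k)

theorem Nc_disj (i : Fin 3) (k l : Bool) (z w : LS.Cyl) (h : Nc i k z = Nc i l w) : k = l := by
  have h0 : NN i k z = NN i l w := congrArg Subtype.val h
  have key : ∀ z w : LS.Cyl, NN i false z ≠ NN i true w := by
    intro z w e
    have e1 := congrFun e i
    rw [NN_a, NN_b, ax_0, ax_0] at e1
    have h1 := psi_lt (show (2 : ℝ) < 4 by norm_num) z.2.2
    have h2 := psi_lt (show (2 : ℝ) < 12 by norm_num) w.2.2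
    have h3 := coe_inj (abs_lt.2 ⟨by linarith, by linarith⟩) e1
    linarith
  cases k <;> cases l
  · rfl
  · exact absurd h0 (key _ _)
  · exact absurd h0.symm (key _ _)
  · rfl

theorem Nc_KK (i : Fin 3) (x : Mi i) : (∀ k, x ∉ Nc i k '' LS.KK) ↔ ∀ j, x.1 ∉ Tube j := by
  have ha : x ∈ Nc i false '' LS.KK ↔ x.1 ∈ Tube (i + 1) := by
    rw [← hh_KK (i + 1) 4]
    constructor
    · rintro ⟨z, hz, rfl⟩
      exact ⟨z, hz, rfl⟩
    · rintro ⟨z, hz, h⟩
      exact ⟨z, hz, Subtype.ext h⟩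
  have hb : x ∈ Nc i true '' LS.KK ↔ x.1 ∈ Tube (i + 2) := by
    rw [← hr_KK (i + 2) 12]
    constructor
    · rintro ⟨z, hz, rfl⟩
      exact ⟨z, hz, rfl⟩
    · rintro ⟨z, hz, h⟩
      exact ⟨z, hz, Subtype.ext h⟩
  constructor
  · intro h j
    rcases fin3_cases i j with rfl | rfl | rfl
    · exact x.2
    · exact fun h' => h false (ha.2 h')
    · exact fun h' => h true (hb.2 h')
  · intro h k
    cases k
    · exact fun h' => h _ (ha.1 h')
    · exact fun h' => h _ (hb.1 h')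

section

variable (i : Fin 3) {σ : ℝ} (H : Hol (-σ)) (C : Chain AS 1 (Homeomorph.refl SS))
  (hC : ∀ i x, C.ψ i x = x) {F : Foliation (Mi i)}
  (hF : F.charts = G.B.AllCharts (FS i) AS (fun _ => H) C)

include hC hF

theorem hol_a (hg : ∀ ε > (0 : ℝ), ∃ t : ℝ, |t - 2| < ε ∧ H.A t ≠ t) : LS.HolCurve F (Nc i false) := by
  refine strip_curve (FS i) AS (fun _ => H) C hC (fun _ => Nat.one_pos) hF (false, ()) 2
    (Or.inl ⟨⟨1, rfl⟩, rfl⟩) (Nc_emb i false) (X := Xa) Xa_cont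
    (τ := fun s => 3 / 2 + psi 4 s / 8) (continuous_const.add ((psi_cont 4).div_const 8))
    (fun s t h => ?_) ?_ (fun θ u s => ?_) (fun θ u j z h => ?_) (w := ww) ww_cont
    (fun v => alf_mem _ _) (fun v hv => alf_left (by linarith)) (fun v hv => alf_right (by linarith))
    0 (fun θ u k hk => ?_) (fun e' he' θ u => ?_) (fun ε hε => ?_)
  · have := psi_mono (show (2 : ℝ) < 4 by norm_num) h
    show 3 / 2 + psi 4 s / 8 < 3 / 2 + psi 4 t / 8
    linarith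
  · show 3 / 2 + psi 4 0 / 8 = ((2 : ℤ) : ℝ)
    rw [psi_zero]
    norm_num
  · apply Subtype.ext
    show NN i false _ = ((FS i).p (Xa (θ, u), (3 / 2 + psi 4 s / 8) / (4 * ((1 : ℕ) : ℝ)))).1
    rw [FS_p, NN_a]
    have h1 : (3 / 2 + psi 4 s / 8) / (4 * ((1 : ℕ) : ℝ)) + 1 / 8 = 1 / 2 + psi 4 s / 32 := by
      push_cast
      ring
    rw [h1]
    rfl
  · obtain ⟨θ', r⟩ := z
    obtain ⟨v, rfl⟩ := QuotientAddGroup.mk_surjective θ'
    have h1 : (Xa (θ, u)).1 = (ES.collar () ((v : AddCircle (1 : ℝ)), r)).1 := congrArg Subtype.val h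
    rw [ES_collar] at h1
    have h2 := congrArg Prod.snd h1
    have h3 : ‖((sq u / 32 : ℝ) : AddCircle (1 : ℝ)) - ((1 / 2 : ℝ) : AddCircle (1 : ℝ))‖ =
        ‖((1 / 2 + (r * Real.sin (2 * Real.pi * (v + 1 / 8))) / 32 : ℝ) : AddCircle (1 : ℝ)) -
          ((1 / 2 : ℝ) : AddCircle (1 : ℝ))‖ :=
      congrArg (fun y => ‖y - ((1 / 2 : ℝ) : AddCircle (1 : ℝ))‖) h2
    have h4 := far_half (sq32 u)
    have h5 : |(r : ℝ) * Real.sin (2 * Real.pi * (v + 1 / 8)) / 32| ≤ 1 / 16 := by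
      rw [abs_div, abs_mul, abs_of_pos (by norm_num : (0 : ℝ) < 32),
        abs_of_pos (by linarith [r.2.1] : (0 : ℝ) < r)]
      have := Real.abs_sin_le_one (2 * Real.pi * (v + 1 / 8))
      have := r.2.2
      have := r.2.1
      have := abs_nonneg (Real.sin (2 * Real.pi * (v + 1 / 8)))
      rw [div_le_iff₀ (by norm_num)]
      nlinarith
    rw [h3, ← AddCircle.coe_sub, add_sub_cancel_left, norm_coe (by linarith)] at h4
    linarith
  · rw [sub_zero] at hk ⊢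
    obtain ⟨h, h1, h2, h3⟩ := Xa_pt θ u k
    have hv : |32 * (θ - k)| ≤ 16 := by
      rw [abs_mul, abs_of_pos (by norm_num : (0 : ℝ) < 32)]
      linarith
    have h4 := AS_a hv h1 h3
    have h5 : 4 ≤ (32 * (θ - k)) ^ 2 + h ^ 2 := by
      rw [← sq_abs h]
      nlinarith
    rw [alf_far h5] at h4
    exact h4
  · have he : e' = (true, ()) := by
      obtain ⟨b, ⟨⟩⟩ := e'
      cases b
      · exact absurd rfl he'
      · rfl
    subst he
    obtain ⟨h, h1, h2, h3⟩ := Xa_pt θ u (round θ)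
    have hv : |32 * (θ - round θ)| ≤ 16 := by
      rw [abs_mul, abs_of_pos (by norm_num : (0 : ℝ) < 32)]
      linarith [abs_sub_round θ]
    have h4 := AS_b hv h1 h3
    rw [coe01 (alf_end h2)] at h4
    exact h4
  · obtain ⟨t, h1, h2⟩ := hg ε hε
    exact ⟨t, by exact_mod_cast h1, h2⟩

theorem hol_b (hg : ∀ ε > (0 : ℝ), ∃ t : ℝ, |t - 1| < ε ∧ H.B t ≠ t) : LS.HolCurve F (Nc i true) := by
  refine strip_curve (FS i) AS (fun _ => H) C hC (fun _ => Nat.one_pos) hF (true, ()) 1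
    (Or.inr ⟨⟨0, rfl⟩, rfl⟩) (Nc_emb i true) (X := Xb) Xb_cont
    (τ := fun s => psi 12 s / 8 - 1 / 2) (((psi_cont 12).div_const 8).sub continuous_const)
    (fun s t h => ?_) ?_ (fun θ u s => ?_) (fun θ u j z h => ?_) (w := ww) ww_cont
    (fun v => alf_mem _ _) (fun v hv => alf_left (by linarith)) (fun v hv => alf_right (by linarith))
    (1 / 2) (fun θ u k hk => ?_) (fun e' he' θ u => ?_) (fun ε hε => ?_)
  · have := psi_mono (show (2 : ℝ) < 12 by norm_num) h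
    show psi 12 s / 8 - 1 / 2 < psi 12 t / 8 - 1 / 2
    linarith
  · show psi 12 0 / 8 - 1 / 2 = ((1 : ℤ) : ℝ)
    rw [psi_zero]
    norm_num
  · apply Subtype.ext
    show NN i true _ = ((FS i).p (Xb (θ, u), (psi 12 s / 8 - 1 / 2) / (4 * ((1 : ℕ) : ℝ)))).1
    rw [FS_p, NN_b]
    have h1 : (psi 12 s / 8 - 1 / 2) / (4 * ((1 : ℕ) : ℝ)) + 1 / 8 = psi 12 s / 32 := by
      push_cast
      ring
    rw [h1]
    rfl
  · obtain ⟨θ', r⟩ := z
    obtain ⟨v, rfl⟩ := QuotientAddGroup.mk_surjective θ'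
    have h1 : (Xb (θ, u)).1 = (ES.collar () ((v : AddCircle (1 : ℝ)), r)).1 := congrArg Subtype.val h
    rw [ES_collar] at h1
    have h2 := congrArg Prod.fst h1
    have h3 : ‖((1 / 2 + -(sq u / 32) : ℝ) : AddCircle (1 : ℝ))‖ =
        ‖(((r * Real.cos (2 * Real.pi * (v + 1 / 8))) / 32 : ℝ) : AddCircle (1 : ℝ))‖ :=
      congrArg (fun y => ‖y‖) h2
    have h4 := far_zero (a := -(sq u / 32)) (by rw [abs_neg]; exact sq32 u)
    have h5 : |(r : ℝ) * Real.cos (2 * Real.pi * (v + 1 / 8)) / 32| ≤ 1 / 16 := by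
      rw [abs_div, abs_mul, abs_of_pos (by norm_num : (0 : ℝ) < 32),
        abs_of_pos (by linarith [r.2.1] : (0 : ℝ) < r)]
      have := Real.abs_cos_le_one (2 * Real.pi * (v + 1 / 8))
      have := r.2.2
      have := r.2.1
      have := abs_nonneg (Real.cos (2 * Real.pi * (v + 1 / 8)))
      rw [div_le_iff₀ (by norm_num)]
      nlinarith
    rw [h3, norm_coe (by linarith)] at h4
    linarith
  · obtain ⟨v, h1, h2, h3⟩ := Xb_pt θ u k
    have hv : |32 * (θ - 1 / 2 - k)| ≤ 16 := by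
      rw [abs_mul, abs_of_pos (by norm_num : (0 : ℝ) < 32)]
      linarith
    have h4 := AS_b h1 hv h3
    have h5 : 4 ≤ (32 * (θ - 1 / 2 - k)) ^ 2 + v ^ 2 := by
      rw [← sq_abs v]
      nlinarith
    rw [alf_far h5] at h4
    exact h4
  · have he : e' = (false, ()) := by
      obtain ⟨b, ⟨⟩⟩ := e'
      cases b
      · rfl
      · exact absurd rfl he'
    subst he
    obtain ⟨v, h1, h2, h3⟩ := Xb_pt θ u (round (θ - 1 / 2))
    have hv : |32 * (θ - 1 / 2 - round (θ - 1 / 2))| ≤ 16 := by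
      rw [abs_mul, abs_of_pos (by norm_num : (0 : ℝ) < 32)]
      linarith [abs_sub_round (θ - 1 / 2)]
    have h4 := AS_a h1 hv h3
    rw [coe01 (alf_end h2)] at h4
    exact h4
  · obtain ⟨t, h1, h2⟩ := hg ε hε
    exact ⟨t, by exact_mod_cast h1, h2⟩

end

/-! ### The ends after drilling -/

/-- reparametrization of the ends -/
noncomputable def Er {M : Type*} [TopologicalSpace M] {J J' : Type*} (T : G.Ended M J)
    (f : J' → J) (hf : Function.Injective f)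
    (R : J' → (AddCircle (1 : ℝ) × Ioo (1 : ℝ) 2 × AddCircle (1 : ℝ)) ≃ₜ
      (AddCircle (1 : ℝ) × Ioo (1 : ℝ) 2 × AddCircle (1 : ℝ))) : G.Ended M J' where
  tor e w := T.tor (f e) (R e w)
  emb e := (T.emb (f e)).comp (R e).isOpenEmbedding
  disj _ _ _ _ h := hf (T.disj _ _ _ _ h)

/-- the indices -/
def Tf (i : Fin 3) : Unit ⊕ Bool → Fin 3
  | Sum.inl _ => i
  | Sum.inr false => i + 1
  | Sum.inr true => i + 2

theorem Tf_inj (i : Fin 3) : Function.Injective (Tf i) := by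
  obtain ⟨h1, h2, h3⟩ := fin3 i
  rintro (⟨⟩ | ⟨_ | _⟩) (⟨⟩ | ⟨_ | _⟩) h
  · rfl
  · exact absurd h.symm h1
  · exact absurd h.symm h2
  · exact absurd h h1
  · rfl
  · exact absurd h.symm h3
  · exact absurd h h2
  · exact absurd h h3
  · rfl

/-- rotations of the two circles -/
noncomputable def rot (a b : ℝ) : (AddCircle (1 : ℝ) × Ioo (1 : ℝ) 2 × AddCircle (1 : ℝ)) ≃ₜ
    (AddCircle (1 : ℝ) × Ioo (1 : ℝ) 2 × AddCircle (1 : ℝ)) :=
  (Homeomorph.addRight (a : AddCircle (1 : ℝ))).prodCongr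
    ((Homeomorph.refl _).prodCongr (Homeomorph.addRight (b : AddCircle (1 : ℝ))))

theorem rot_coe (a b u t : ℝ) (r : Ioo (1 : ℝ) 2) :
    rot a b ((u : AddCircle (1 : ℝ)), r, (t : AddCircle (1 : ℝ))) =
      (((u + a : ℝ) : AddCircle (1 : ℝ)), r, ((t + b : ℝ) : AddCircle (1 : ℝ))) := by
  rw [AddCircle.coe_add, AddCircle.coe_add]
  rfl

/-- the coordinate changes -/
noncomputable def Rf : Unit ⊕ Bool → (AddCircle (1 : ℝ) × Ioo (1 : ℝ) 2 × AddCircle (1 : ℝ)) ≃ₜ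
    (AddCircle (1 : ℝ) × Ioo (1 : ℝ) 2 × AddCircle (1 : ℝ))
  | Sum.inl _ => rot (1 / 8) (1 / 8)
  | Sum.inr false => Ends_swap.trans (rot 0 0)
  | Sum.inr true => Ends_swap.trans (rot (-(1 / 4)) 0)

/-- the ends of the exterior as the ends after drilling -/
noncomputable def Td (i : Fin 3) : G.Ended M0 (Unit ⊕ Bool) := Er T0 (Tf i) (Tf_inj i) Rf

theorem Td_0 (i : Fin 3) (u t : ℝ) (r : Ioo (1 : ℝ) 2) :
    (Td i).tor (Sum.inl ()) ((u : AddCircle (1 : ℝ)), r, (t : AddCircle (1 : ℝ))) =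
      T0.tor i (((u + 1 / 8 : ℝ) : AddCircle (1 : ℝ)), r,
        ((t + 1 / 8 : ℝ) : AddCircle (1 : ℝ))) := by
  show T0.tor i (rot (1 / 8) (1 / 8) ((u : AddCircle (1 : ℝ)), r, (t : AddCircle (1 : ℝ)))) = _
  rw [rot_coe]

theorem Td_1 (i : Fin 3) (u t : ℝ) (r : Ioo (1 : ℝ) 2) :
    (Td i).tor (Sum.inr false) ((u : AddCircle (1 : ℝ)), r, (t : AddCircle (1 : ℝ))) =
      T0.tor (i + 1) ((t : AddCircle (1 : ℝ)), r, (u : AddCircle (1 : ℝ))) := by
  show T0.tor (i + 1) (rot 0 0 ((t : AddCircle (1 : ℝ)), r, (u : AddCircle (1 : ℝ)))) = _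
  rw [rot_coe, add_zero, add_zero]

theorem Td_2 (i : Fin 3) (u t : ℝ) (r : Ioo (1 : ℝ) 2) :
    (Td i).tor (Sum.inr true) ((u : AddCircle (1 : ℝ)), r, (t : AddCircle (1 : ℝ))) =
      T0.tor (i + 2) (((t + -(1 / 4) : ℝ) : AddCircle (1 : ℝ)), r, (u : AddCircle (1 : ℝ))) := by
  show T0.tor (i + 2) (rot (-(1 / 4)) 0
    ((t : AddCircle (1 : ℝ)), r, (u : AddCircle (1 : ℝ)))) = _
  rw [rot_coe, add_zero]

theorem tub_ax (i : Fin 3) (θ r : ℝ) (t : AddCircle (1 : ℝ)) : tub i θ r t =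
    ax i (t, (((r / 32 * Real.cos (2 * Real.pi * θ) : ℝ) : AddCircle (1 : ℝ)),
      ((1 / 2 + r / 32 * Real.sin (2 * Real.pi * θ) : ℝ) : AddCircle (1 : ℝ)))) := rfl

theorem TS_tor {i : Fin 3} {T : G.Ended (Mi i) Unit} (hT : ∀ w : ℝ × Ioo (1 : ℝ) 2 × ℝ,
    T.cov () w = (FS i).p (ES.collar () ((w.1 : AddCircle (1 : ℝ)), w.2.1), w.2.2))
    (u t : ℝ) (r : Ioo (1 : ℝ) 2) :
    (T.tor () ((u : AddCircle (1 : ℝ)), r, (t : AddCircle (1 : ℝ)))).1 =
      tub i (u + 1 / 8) r ((t + 1 / 8 : ℝ) : AddCircle (1 : ℝ)) := by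
  have h1 := hT (u, r, t)
  have h2 : (T.tor () ((u : AddCircle (1 : ℝ)), r, (t : AddCircle (1 : ℝ)))).1 =
    ((FS i).p (ES.collar () ((u : AddCircle (1 : ℝ)), r), t)).1 := congrArg Subtype.val h1
  rw [h2, FS_p, ES_collar, tub_ax]
  have e1 : (r : ℝ) / 32 * Real.cos (2 * Real.pi * (u + 1 / 8)) =
    r * Real.cos (2 * Real.pi * (u + 1 / 8)) / 32 := by ring
  have e2 : (r : ℝ) / 32 * Real.sin (2 * Real.pi * (u + 1 / 8)) =
    r * Real.sin (2 * Real.pi * (u + 1 / 8)) / 32 := by ring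
  rw [e1, e2]
  rfl

theorem r_bd (r : Ioo (1 : ℝ) 2) {a : ℝ} (ha : |a| ≤ 1) : |(r : ℝ) * a| ≤ 2 := by
  rw [abs_mul, abs_of_pos (by linarith [r.2.1] : (0 : ℝ) < r)]
  have := r.2.2
  have := r.2.1
  have := abs_nonneg a
  nlinarith

/-- the drilling of the two curves -/
theorem exists_D (i : Fin 3) {T : G.Ended (Mi i) Unit} (hT : ∀ w : ℝ × Ioo (1 : ℝ) 2 × ℝ,
    T.cov () w = (FS i).p (ES.collar () ((w.1 : AddCircle (1 : ℝ)), w.2.1), w.2.2)) :
    Nonempty (LS.Drill T (Nc i) (Td i)) := by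
  refine ⟨⟨fun x => ⟨x.1, x.2 i⟩, IsOpenEmbedding.of_comp _ (Mi_val i) M0_val, ?_, ?_, ?_⟩⟩
  · intro x
    rw [Nc_KK]
    constructor
    · rintro ⟨y, rfl⟩ j
      exact y.2 j
    · intro h
      exact ⟨⟨x.1, h⟩, rfl⟩
  · rintro ⟨⟩ ⟨u, r, t⟩
    obtain ⟨u, rfl⟩ := QuotientAddGroup.mk_surjective u
    obtain ⟨t, rfl⟩ := QuotientAddGroup.mk_surjective t
    apply Subtype.ext
    refine Eq.trans ?_ (TS_tor hT u t r).symm
    show ((Td i).tor (Sum.inl ()) ((u : AddCircle (1 : ℝ)), r, (t : AddCircle (1 : ℝ)))).1 = _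
    rw [Td_0, T0_tor]
  · intro k θ r t
    obtain ⟨u, rfl⟩ := QuotientAddGroup.mk_surjective θ
    apply Subtype.ext
    show ((Td i).tor (Sum.inr k) ((u : AddCircle (1 : ℝ)), r, (t : AddCircle (1 : ℝ)))).1 =
      NN i k ((u : AddCircle (1 : ℝ)), ((r : ℝ) * Real.cos (2 * Real.pi * t),
        -4 + (r : ℝ) * Real.sin (2 * Real.pi * t)))
    have hc := r_bd r (Real.abs_cos_le_one (2 * Real.pi * t))
    have hs := r_bd r (Real.abs_sin_le_one (2 * Real.pi * t))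
    have hs' : |-4 + (r : ℝ) * Real.sin (2 * Real.pi * t) + 4| ≤ 2 := by
      have : -4 + (r : ℝ) * Real.sin (2 * Real.pi * t) + 4 = r * Real.sin (2 * Real.pi * t) := by
        ring
      rwa [this]
    cases k
    · rw [Td_1, T0_tor, tub_ax]
      show _ = ax (i + 1) ((u : AddCircle (1 : ℝ)),
        ((((hh 4 ((r : ℝ) * Real.cos (2 * Real.pi * t),
          -4 + (r : ℝ) * Real.sin (2 * Real.pi * t))).1 : ℝ) : AddCircle (1 : ℝ)),
        ((1 / 2 + (hh 4 ((r : ℝ) * Real.cos (2 * Real.pi * t),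
          -4 + (r : ℝ) * Real.sin (2 * Real.pi * t))).2 : ℝ) : AddCircle (1 : ℝ))))
      rw [hh_id 4 hc hs']
      have e1 : (r : ℝ) / 32 * Real.cos (2 * Real.pi * t) =
        r * Real.cos (2 * Real.pi * t) / 32 := by ring
      have e2 : (r : ℝ) / 32 * Real.sin (2 * Real.pi * t) =
        (-4 + r * Real.sin (2 * Real.pi * t) + 4) / 32 := by ring
      rw [e1, e2]
    · rw [Td_2, T0_tor, tub_ax]
      show _ = ax (i + 2) ((u : AddCircle (1 : ℝ)),
        ((((hr 12 ((r : ℝ) * Real.cos (2 * Real.pi * t),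
          -4 + (r : ℝ) * Real.sin (2 * Real.pi * t))).1 : ℝ) : AddCircle (1 : ℝ)),
        ((1 / 2 + (hr 12 ((r : ℝ) * Real.cos (2 * Real.pi * t),
          -4 + (r : ℝ) * Real.sin (2 * Real.pi * t))).2 : ℝ) : AddCircle (1 : ℝ))))
      rw [hr_id 12 hc hs']
      have e0 : 2 * Real.pi * (t + -(1 / 4)) = 2 * Real.pi * t - Real.pi / 2 := by ring
      have e1 : (r : ℝ) / 32 * Real.cos (2 * Real.pi * (t + -(1 / 4))) =
          (-4 + r * Real.sin (2 * Real.pi * t) + 4) / 32 := by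
        rw [e0, Real.cos_sub_pi_div_two]
        ring
      have e2 : (r : ℝ) / 32 * Real.sin (2 * Real.pi * (t + -(1 / 4))) =
          -(r * Real.cos (2 * Real.pi * t) / 32) := by
        rw [e0, Real.sin_sub_pi_div_two]
        ring
      rw [e1, e2]

/-- the two curves are far from the end -/
theorem Nc_end (i : Fin 3) {T : G.Ended (Mi i) Unit} (hT : ∀ w : ℝ × Ioo (1 : ℝ) 2 × ℝ,
    T.cov () w = (FS i).p (ES.collar () ((w.1 : AddCircle (1 : ℝ)), w.2.1), w.2.2))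
    (k : Bool) (z : LS.Cyl) (j : Unit) (w : AddCircle (1 : ℝ) × Ioo (1 : ℝ) 2 × AddCircle (1 : ℝ)) :
    Nc i k z ≠ T.tor j w := by
  intro h
  obtain ⟨u, r, t⟩ := w
  obtain ⟨u, rfl⟩ := QuotientAddGroup.mk_surjective u
  obtain ⟨t, rfl⟩ := QuotientAddGroup.mk_surjective t
  have h1 : NN i k z = tub i (u + 1 / 8) r ((t + 1 / 8 : ℝ) : AddCircle (1 : ℝ)) :=
    (congrArg Subtype.val h).trans (TS_tor hT u t r)
  have hc := r_bd r (Real.abs_cos_le_one (2 * Real.pi * (u + 1 / 8)))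
  have hs := r_bd r (Real.abs_sin_le_one (2 * Real.pi * (u + 1 / 8)))
  have e1 : |(r : ℝ) / 32 * Real.cos (2 * Real.pi * (u + 1 / 8))| ≤ 1 / 16 := by
    have : (r : ℝ) / 32 * Real.cos (2 * Real.pi * (u + 1 / 8)) =
      r * Real.cos (2 * Real.pi * (u + 1 / 8)) / 32 := by ring
    rw [this, abs_div, abs_of_pos (by norm_num : (0 : ℝ) < 32)]
    linarith
  have e2 : |(r : ℝ) / 32 * Real.sin (2 * Real.pi * (u + 1 / 8))| ≤ 1 / 16 := by
    have : (r : ℝ) / 32 * Real.sin (2 * Real.pi * (u + 1 / 8)) =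
      r * Real.sin (2 * Real.pi * (u + 1 / 8)) / 32 := by ring
    rw [this, abs_div, abs_of_pos (by norm_num : (0 : ℝ) < 32)]
    linarith
  rcases NN_far i k z with h2 | h2
  · rw [h1, tub_ax, ax_1, norm_coe (by linarith)] at h2
    linarith
  · rw [h1, tub_ax, ax_2, ← AddCircle.coe_sub, add_sub_cancel_left, norm_coe (by linarith)] at h2
    linarith

/-- **The region `|s i| < 1`.** -/
theorem br_small (i : Fin 3) {s : Fin 3 → ℝ} (h : |s i| < 1) :
    ∃ x y : Fin 3 → ℝ, G.Detected T0 x y ∧ ∀ j, y j ≠ 0 ∧ x j = s j * y j := by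
  obtain ⟨H, hA, hB⟩ := exists_hol_germ (-s i) (by rwa [abs_neg])
  obtain ⟨C, hC⟩ := exists_chainS
  obtain ⟨T, hT⟩ := exists_TS i
  obtain ⟨F, hF, hlin, hch⟩ := exists_folS i H hT C
  obtain ⟨D⟩ := exists_D i hT
  obtain ⟨κ, hκ, hdr⟩ := LS.drill_hol hF hlin (N := Nc i)
    (fun k => by
      cases k
      · exact hol_a i H C hC hch hA
      · exact hol_b i H C hC hch hB)
    (Nc_disj i) (Nc_end i hT) D
  obtain ⟨F', hF', hlin', -⟩ := hdr κ (fun k => s (if k = true then i + 2 else i + 1) * κ k)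
    (fun k => mul_self_pos.2 (hκ k))
  obtain ⟨h1, h2, h3⟩ := fin3 i
  let y : Fin 3 → ℝ := fun j => if j = i then 4 else if j = i + 1 then κ false else κ true
  have y0 : y i = 4 := if_pos rfl
  have y1 : y (i + 1) = κ false := (if_neg h1).trans (if_pos rfl)
  have y2 : y (i + 2) = κ true := (if_neg h2).trans (if_neg h3)
  refine ⟨fun j => s j * y j, y, ⟨F', hF', detected_reparam F' hlin' fun j => ?_⟩,
    fun j => ⟨?_, rfl⟩⟩
  · rcases fin3_cases i j with rfl | rfl | rfl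
    · refine ⟨Sum.inl (), -(1 / 8), -(1 / 8), Or.inl ⟨?_, y0, fun u r t => ?_⟩⟩
      · show s j * y j = 4 * s j
        rw [y0, mul_comm]
      · show T0.tor j ((u : AddCircle (1 : ℝ)), r, (t : AddCircle (1 : ℝ))) =
          (Td j).tor (Sum.inl ()) (((u + -(1 / 8) : ℝ) : AddCircle (1 : ℝ)), r,
            ((t + -(1 / 8) : ℝ) : AddCircle (1 : ℝ)))
        rw [Td_0, neg_add_cancel_right, neg_add_cancel_right]
    · refine ⟨Sum.inr false, 0, 0, Or.inr ⟨?_, y1, fun u r t => ?_⟩⟩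
      · show s (i + 1) * y (i + 1) = s (i + 1) * κ false
        rw [y1]
      · show T0.tor (i + 1) ((u : AddCircle (1 : ℝ)), r, (t : AddCircle (1 : ℝ))) =
          (Td i).tor (Sum.inr false) (((t + 0 : ℝ) : AddCircle (1 : ℝ)), r,
            ((u + 0 : ℝ) : AddCircle (1 : ℝ)))
        rw [Td_1, add_zero, add_zero]
    · refine ⟨Sum.inr true, 1 / 4, 0, Or.inr ⟨?_, y2, fun u r t => ?_⟩⟩
      · show s (i + 2) * y (i + 2) = s (i + 2) * κ true
        rw [y2]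
      · show T0.tor (i + 2) ((u : AddCircle (1 : ℝ)), r, (t : AddCircle (1 : ℝ))) =
          (Td i).tor (Sum.inr true) (((t + 0 : ℝ) : AddCircle (1 : ℝ)), r,
            ((u + 1 / 4 : ℝ) : AddCircle (1 : ℝ)))
        rw [Td_2, add_zero, add_neg_cancel_right]
  · rcases fin3_cases i j with rfl | rfl | rfl
    · rw [y0]
      norm_num
    · rw [y1]
      exact hκ _
    · rw [y2]
      exact hκ _

end Pool.Agent.H.MP_1611f1_gt.BR
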