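import Pool.Agent.H.MP_1611f1_gt.G.Glue
import Pool.Agent.H.MP_1611f1_gt.G.Neg

/-!
BORROMEAN RINGS: the regions of the slopes, and the filling of all ends of one piece.
-/

namespace Pool.Agent.H.MP_1611f1_gt.BR

open Topology Set Filter

theorem other : ∀ a b : Fin 3, a ≠ b →
    ∃ i : Fin 3, (a = i + 1 ∧ b = i + 2) ∨ (a = i + 2 ∧ b = i + 1) := by decide

/-- **The regions.** Three real numbers which are not all `≥ 1` and not all `≤ -1`: one of them lies
in `(-1, 1)`, or two of them have opposite signs. -/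
theorem regions (s : Fin 3 → ℝ) (h1 : ¬ ∀ i, 1 ≤ s i) (h2 : ¬ ∀ i, s i ≤ -1) :
    (∃ i, |s i| < 1) ∨ ∃ i : Fin 3, s (i + 1) * s (i + 2) < 0 := by
  by_cases h : ∃ i, |s i| < 1
  · exact Or.inl h
  · right
    push Not at h h1 h2
    obtain ⟨a, ha⟩ := h1
    obtain ⟨b, hb⟩ := h2
    have ha' : s a < 0 := by
      rcases le_abs.1 (h a) with h3 | h3 <;> linarith
    have hb' : 0 < s b := by
      rcases le_abs.1 (h b) with h3 | h3 <;> linarith
    have key : ∀ i : Fin 3, (a = i + 1 ∧ b = i + 2) ∨ (a = i + 2 ∧ b = i + 1) →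
        s (i + 1) * s (i + 2) < 0 := by
      rintro i (⟨h3, h4⟩ | ⟨h3, h4⟩)
      · rw [← h3, ← h4]
        exact mul_neg_of_neg_of_pos ha' hb'
      · rw [← h3, ← h4]
        exact mul_neg_of_pos_of_neg hb' ha'
    have hab : a ≠ b := by
      rintro rfl
      linarith
    obtain ⟨i, hi⟩ := other a b hab
    exact ⟨i, key i hi⟩

/-- **Filling all ends of one piece.** -/
theorem fill_taut {M : Type*} [TopologicalSpace M] {J : Type*} (T : G.Ended M J)
    (P : G.Pattern (Σ _ : Unit, J)) {Y : Type*} [TopologicalSpace Y]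
    (U : G.Union (fun _ : Unit => T) P Y) (hτ : ∀ e, P.τ e = e) (hde : ∀ e, P.de e ≠ 0)
    (s x y : J → ℝ) (hd : G.Detected T x y)
    (hs : ∀ j, s j * P.de ⟨(), j⟩ = P.ga ⟨(), j⟩)
    (hy : ∀ j, y j ≠ 0 ∧ x j = s j * y j) : ∃ F : Foliation Y, F.Taut := by
  refine G.glue_taut (fun _ : Unit => T) P U (fun e => x e.2) (fun e => y e.2) (fun _ => hd)
    (fun e he => absurd (hτ e) he) ?_
  rintro ⟨⟨⟩, j⟩ -
  obtain ⟨h1, h2⟩ := hy j
  have h3 : ((P.de ⟨(), j⟩ : ℤ) : ℝ) ≠ 0 := Int.cast_ne_zero.2 (hde _)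
  refine ⟨y j / P.de ⟨(), j⟩, div_ne_zero h1 h3, ?_, ?_⟩
  · show x j = y j / P.de ⟨(), j⟩ * P.ga ⟨(), j⟩
    rw [h2, ← hs j]
    field_simp
  · show y j = y j / P.de ⟨(), j⟩ * P.de ⟨(), j⟩
    field_simp

/-- **Assembly.** `hneg`, `hsmall`: the two regions. The filling of the end `j` is
`(al, be; ga, de)`, `s j = ga / de`. -/
theorem assemble {M : Type*} [TopologicalSpace M] (T : G.Ended M (Fin 3))
    (hneg : ∀ (i : Fin 3) (s : Fin 3 → ℝ), s (i + 1) * s (i + 2) < 0 →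
      ∃ x y : Fin 3 → ℝ, G.Detected T x y ∧ ∀ j, y j ≠ 0 ∧ x j = s j * y j)
    (hsmall : ∀ (i : Fin 3) (s : Fin 3 → ℝ), |s i| < 1 →
      ∃ x y : Fin 3 → ℝ, G.Detected T x y ∧ ∀ j, y j ≠ 0 ∧ x j = s j * y j)
    (P : G.Pattern (Σ _ : Unit, Fin 3)) {Y : Type*} [TopologicalSpace Y]
    (U : G.Union (fun _ : Unit => T) P Y) (hτ : ∀ e, P.τ e = e) (hde : ∀ e, P.de e ≠ 0)
    (s : Fin 3 → ℝ) (hs : ∀ j, s j * P.de ⟨(), j⟩ = P.ga ⟨(), j⟩)
    (h1 : ¬ ∀ i, 1 ≤ s i) (h2 : ¬ ∀ i, s i ≤ -1) : ∃ F : Foliation Y, F.Taut := by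
  rcases regions s h1 h2 with ⟨i, hi⟩ | ⟨i, hi⟩
  · obtain ⟨x, y, hd, hy⟩ := hsmall i s hi
    exact fill_taut T P U hτ hde s x y hd hs hy
  · obtain ⟨x, y, hd, hy⟩ := hneg i s hi
    exact fill_taut T P U hτ hde s x y hd hs hy

/-- **Signs.** If covectors with the same slopes are detected then the given covectors are detected
up to signs. -/
theorem detected_signs {M : Type*} [TopologicalSpace M] {J : Type*} (T : G.Ended M J)
    (x y x' y' : J → ℝ) (hy : ∀ i, y i ≠ 0) (hd : G.Detected T x' y')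
    (h : ∀ i, y' i ≠ 0 ∧ x' i = x i / y i * y' i) :
    ∃ k : J → ℝ, (∀ i, k i = 1 ∨ k i = -1) ∧
      G.Detected T (fun i => k i * x i) (fun i => k i * y i) := by
  refine ⟨fun i => |y i| / |y' i| * y' i / y i, fun i => ?_, ?_⟩
  · have h1 := hy i
    have h2 := (h i).1
    show |y i| / |y' i| * y' i / y i = 1 ∨ |y i| / |y' i| * y' i / y i = -1
    rcases lt_or_gt_of_ne h1 with h3 | h3 <;> rcases lt_or_gt_of_ne h2 with h4 | h4
    · left
      rw [abs_of_neg h3, abs_of_neg h4]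
      field_simp
    · right
      rw [abs_of_neg h3, abs_of_pos h4]
      field_simp
    · right
      rw [abs_of_pos h3, abs_of_neg h4]
      field_simp
    · left
      rw [abs_of_pos h3, abs_of_pos h4]
      field_simp
  · have h5 := hd.scale (k := fun i => |y i| / |y' i|)
      (fun i => div_pos (abs_pos.2 (hy i)) (abs_pos.2 (h i).1))
    have e1 : (fun i => |y i| / |y' i| * y' i / y i * x i) = fun i => |y i| / |y' i| * x' i := by
      funext i
      rw [(h i).2]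
      ring
    have e2 : (fun i => |y i| / |y' i| * y' i / y i * y i) = fun i => |y i| / |y' i| * y' i := by
      funext i
      have h1 := hy i
      field_simp
    rw [e1, e2]
    exact h5

/-- **All detected covectors** (up to signs), from the two regions. -/
theorem detected_of {M : Type*} [TopologicalSpace M] (T : G.Ended M (Fin 3))
    (hneg : ∀ (i : Fin 3) (s : Fin 3 → ℝ), s (i + 1) * s (i + 2) < 0 →
      ∃ x y : Fin 3 → ℝ, G.Detected T x y ∧ ∀ j, y j ≠ 0 ∧ x j = s j * y j)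
    (hsmall : ∀ (i : Fin 3) (s : Fin 3 → ℝ), |s i| < 1 →
      ∃ x y : Fin 3 → ℝ, G.Detected T x y ∧ ∀ j, y j ≠ 0 ∧ x j = s j * y j)
    (x y : Fin 3 → ℝ) (hy : ∀ i, y i ≠ 0) (h1 : ¬ ∀ i, 1 ≤ x i / y i)
    (h2 : ¬ ∀ i, x i / y i ≤ -1) :
    ∃ k : Fin 3 → ℝ, (∀ i, k i = 1 ∨ k i = -1) ∧
      G.Detected T (fun i => k i * x i) (fun i => k i * y i) := by
  rcases regions (fun i => x i / y i) h1 h2 with ⟨i, hi⟩ | ⟨i, hi⟩
  · obtain ⟨x', y', hd, h⟩ := hsmall i (fun i => x i / y i) hi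
    exact detected_signs T x y x' y' hy hd h
  · obtain ⟨x', y', hd, h⟩ := hneg i (fun i => x i / y i) hi
    exact detected_signs T x y x' y' hy hd h

end Pool.Agent.H.MP_1611f1_gt.BR
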