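import Pool.Agent.H.MP_1611f1_gt.BR.Ends
import Pool.Agent.H.MP_1611f1_gt.BR.Sym
import Pool.Agent.H.MP_1611f1_gt.BR.Sml
import Pool.Agent.H.MP_1611f1_gt.BR.Neg

/-!
The detected slopes of the exterior of the Borromean rings.
-/

namespace Pool.Agent.H.MP_1611f1_gt.BR

open Topology Set Filter

/-- the exterior of the Borromean rings has taut foliations with all real slopes at the three ends
outside of the two octants `all slopes ≥ 1` and `all slopes ≤ -1` -/
theorem detected (x y : Fin 3 → ℝ) (hy : ∀ i, y i ≠ 0) (h1 : ¬ ∀ i, 1 ≤ x i / y i)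
    (h2 : ¬ ∀ i, x i / y i ≤ -1) : ∃ k : Fin 3 → ℝ, (∀ i, k i = 1 ∨ k i = -1) ∧
      G.Detected T0 (fun i => k i * x i) (fun i => k i * y i) :=
  detected_of T0 (fun i s h => U.br_neg T0 T0_tor i s h) (fun i _ h => br_small i h) x y hy h1 h2

end Pool.Agent.H.MP_1611f1_gt.BR
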