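import Pool.Agent.H.MP_1611f1_gt.BR.Ends
import Pool.Agent.H.MP_1611f1_gt.G.Glue

/-!
Filling the three ends.
-/

namespace Pool.Agent.H.MP_1611f1_gt.BR

open Topology Set Filter

/-- the pattern of the surgery: all ends are filled -/
def Fill_pat {al be ga de : Fin 3 → ℤ} (hdet : ∀ i, al i * de i - be i * ga i = 1) :
    G.Pattern (Σ _ : Unit, Fin 3) where
  τ := id
  al := fun e => al e.2
  be := fun e => be e.2
  ga := fun e => ga e.2
  de := fun e => de e.2
  invol := fun _ => rfl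
  det_fill := fun e _ => hdet e.2
  det_glue := fun e he => absurd rfl he
  mat := fun e he => absurd rfl he

theorem Fill_snd (M : Type*) [TopologicalSpace M] :
    IsOpenEmbedding (fun z : (Σ _ : Unit, M) => z.2) := by
  refine IsOpenEmbedding.of_continuous_injective_isOpenMap
    (continuous_sigma (fun _ => continuous_id)) ?_ (isOpenMap_sigma.2 (fun _ => IsOpenMap.id))
  rintro ⟨u, m⟩ ⟨u', m'⟩ h
  simp only at h
  subst h
  rfl

theorem Fill_smul (n : ℤ) (t : ℝ) : n • (t : AddCircle (1 : ℝ)) =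
    ((n * t : ℝ) : AddCircle (1 : ℝ)) := by
  rw [← AddCircle.coe_zsmul, zsmul_eq_mul]

theorem Fill_union {al be ga de : Fin 3 → ℤ} (hdet : ∀ i, al i * de i - be i * ga i = 1)
    {Y : Type} [TopologicalSpace Y] (Su : Surgery3 al be ga de Y) :
    Nonempty (G.Union (fun _ : Unit => T0) (Fill_pat hdet) Y) := by
  refine ⟨{
    p := fun z => Su.p z.2
    q := fun e => Su.q e.1.2
    p_loc := (Su.p_emb.comp (Fill_snd _)).isLocalHomeomorph
    p_eq := ?_
    q_emb := fun e => Su.q_emb e.1.2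
    q_disj := ?_
    glue := ?_
    overlap := ?_
    cover := ?_ }⟩
  · intro z z'
    constructor
    · intro h
      exact Or.inl ((Su.p_emb.comp (Fill_snd _)).injective h)
    · rintro (h | ⟨e, -, -, -, -, hne, -⟩)
      · rw [h]
      · exact absurd rfl hne
  · rintro ⟨⟨u, i⟩, he⟩ ⟨⟨u', j⟩, he'⟩ z w h
    have hij : i = j := Su.q_disj i j z w h
    subst hij
    rfl
  · rintro ⟨⟨u, i⟩, he⟩ θ t r
    obtain ⟨θ, rfl⟩ := QuotientAddGroup.mk_surjective θ
    have h := Su.glue (T0.tor i ((θ : AddCircle (1 : ℝ)), r, t)) i θ r t (T0_tor i θ r t)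
    rw [← Fill_smul, ← Fill_smul] at h
    exact h
  · rintro ⟨u', m⟩ ⟨⟨u, i⟩, he⟩ w h
    obtain ⟨θ, r, t, h1⟩ := Su.overlap m i w h
    refine ⟨((θ : AddCircle (1 : ℝ)), r, t), ?_⟩
    have h2 : m = T0.tor i ((θ : AddCircle (1 : ℝ)), r, t) :=
      Subtype.ext (h1.trans (T0_tor i θ r t).symm)
    rw [h2]
  · intro y
    rcases Su.cover y with ⟨m, hm⟩ | ⟨i, z, hz⟩
    · exact Or.inl ⟨⟨(), m⟩, hm⟩
    · exact Or.inr ⟨⟨⟨(), i⟩, rfl⟩, z, hz⟩

/-- a foliation of the exterior with the right slopes at the ends gives a foliation of the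
surgered manifold -/
theorem fill3 {al be ga de : Fin 3 → ℤ} (hdet : ∀ i, al i * de i - be i * ga i = 1)
    {Y : Type} [TopologicalSpace Y] (Su : Surgery3 al be ga de Y) {x y : Fin 3 → ℝ}
    (hD : G.Detected T0 x y) (hfill : ∀ i, ∃ c : ℝ, c ≠ 0 ∧ x i = c * ga i ∧ y i = c * de i) :
    ∃ F : Foliation Y, F.Taut := by
  obtain ⟨U⟩ := Fill_union hdet Su
  refine G.glue_taut (fun _ : Unit => T0) (Fill_pat hdet) U (fun e => x e.2) (fun e => y e.2)
    (fun _ => hD) ?_ ?_
  · intro e he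
    exact absurd rfl he
  · rintro ⟨u, i⟩ -
    exact hfill i

end Pool.Agent.H.MP_1611f1_gt.BR
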