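import Pool.Agent.H.MP_1611f1_gt.BR.SrfE
import Pool.Agent.H.MP_1611f1_gt.G.BChA

/-!
The `3`-torus minus one tube as a product.
-/

namespace Pool.Agent.H.MP_1611f1_gt.BR

open Topology Set Filter

/-- the `3`-torus minus one tube -/
abbrev Mi (i : Fin 3) := {x : T3 // x ∉ Tube i}

theorem tor_mem (i : Fin 3) (t : AddCircle (1 : ℝ)) (x : SS) : ax i (t, x.1) ∉ Tube i := by
  intro h
  have h1 : ‖ax i (t, x.1) (i + 1)‖ ^ 2 +
      ‖ax i (t, x.1) (i + 2) - ((1 / 2 : ℝ) : AddCircle (1 : ℝ))‖ ^ 2 ≤ (1 / 32) ^ 2 := h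
  rw [ax_1, ax_2] at h1
  exact absurd x.2 (not_lt.mpr h1)

/-- the product structure as a homeomorphism -/
noncomputable def Tor_H (i : Fin 3) : SS × AddCircle (1 : ℝ) ≃ₜ Mi i where
  toFun z := ⟨ax i (z.2, z.1.1), tor_mem i _ z.1⟩
  invFun y := (⟨(y.1 (i + 1), y.1 (i + 2)), lt_of_not_ge y.2⟩, y.1 i)
  left_inv := by
    rintro ⟨x, t⟩
    refine Prod.ext (Subtype.ext (Prod.ext ?_ ?_)) ?_
    · exact ax_1 i _
    · exact ax_2 i _
    · exact ax_0 i _
  right_inv := by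
    rintro ⟨y, hy⟩
    exact Subtype.ext (ax_surj i y).symm
  continuous_toFun := by
    refine Continuous.subtype_mk ?_ _
    exact (ax i).continuous.comp
      (continuous_snd.prodMk (continuous_subtype_val.comp continuous_fst))
  continuous_invFun := by
    refine Continuous.prodMk (Continuous.subtype_mk ?_ _) ?_
    · exact ((continuous_apply (i + 1)).comp continuous_subtype_val).prodMk
        ((continuous_apply (i + 2)).comp continuous_subtype_val)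
    · exact (continuous_apply i).comp continuous_subtype_val

theorem Tor_loc : IsLocalHomeomorph
    (fun z : SS × ℝ => ((z.1, (((z.2 + 1 / 8 : ℝ)) : AddCircle (1 : ℝ))) :
      SS × AddCircle (1 : ℝ))) := by
  have h1 : IsLocalHomeomorph (fun t : ℝ => (((t + 1 / 8 : ℝ)) : AddCircle (1 : ℝ))) :=
    (AddCircle.isLocalHomeomorph_coe (1 : ℝ)).comp
      (Homeomorph.addRight (1 / 8 : ℝ)).isLocalHomeomorph
  intro z
  obtain ⟨e, he, hf⟩ := h1 z.2
  refine ⟨(OpenPartialHomeomorph.refl SS).prod e, ⟨trivial, he⟩, ?_⟩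
  funext w
  have := congrFun hf w.2
  exact Prod.ext rfl this

theorem Tor_one_zpow (k : ℤ) (x : SS) : ((Homeomorph.refl SS) ^ k) x = x := by
  have h : (Homeomorph.refl SS) ^ k = 1 := one_zpow k
  rw [h]
  rfl

/-- the product structure -/
noncomputable def FS (i : Fin 3) : G.B.MTB ES (Homeomorph.refl SS) (Mi i) where
  p z := ⟨ax i (((z.2 + 1 / 8 : ℝ) : AddCircle (1 : ℝ)), z.1.1), tor_mem i _ z.1⟩
  p_loc := (Tor_H i).isLocalHomeomorph.comp Tor_loc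
  p_eq := by
    intro x t x' t'
    have hA : (⟨ax i (((t + 1 / 8 : ℝ) : AddCircle (1 : ℝ)), x.1), tor_mem i _ x⟩ : Mi i) =
        Tor_H i (x, ((t + 1 / 8 : ℝ) : AddCircle (1 : ℝ))) := rfl
    have hB : (⟨ax i (((t' + 1 / 8 : ℝ) : AddCircle (1 : ℝ)), x'.1), tor_mem i _ x'⟩ : Mi i) =
        Tor_H i (x', ((t' + 1 / 8 : ℝ) : AddCircle (1 : ℝ))) := rfl
    show (⟨ax i (((t + 1 / 8 : ℝ) : AddCircle (1 : ℝ)), x.1), tor_mem i _ x⟩ : Mi i) =
      ⟨ax i (((t' + 1 / 8 : ℝ) : AddCircle (1 : ℝ)), x'.1), tor_mem i _ x'⟩ ↔ _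
    rw [hA, hB, (Tor_H i).injective.eq_iff, Prod.mk.injEq]
    constructor
    · rintro ⟨h1, h2⟩
      rw [QuotientAddGroup.eq, AddSubgroup.mem_zmultiples_iff] at h2
      obtain ⟨k, hk⟩ := h2
      refine ⟨k, ?_, ?_⟩
      · rw [zsmul_eq_mul, mul_one] at hk
        linarith
      · rw [Tor_one_zpow]
        exact h1
    · rintro ⟨k, h1, h2⟩
      rw [Tor_one_zpow] at h2
      refine ⟨h2, ?_⟩
      rw [QuotientAddGroup.eq, AddSubgroup.mem_zmultiples_iff]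
      refine ⟨k, ?_⟩
      rw [zsmul_eq_mul, mul_one, h1]
      ring
  p_surj := by
    intro y
    obtain ⟨⟨x, t⟩, rfl⟩ := (Tor_H i).surjective y
    obtain ⟨u, rfl⟩ := QuotientAddGroup.mk_surjective t
    refine ⟨(x, u - 1 / 8), ?_⟩
    show Tor_H i (x, (((u - 1 / 8 + 1 / 8 : ℝ)) : AddCircle (1 : ℝ))) = _
    rw [sub_add_cancel]

theorem FS_p (i : Fin 3) (x : SS) (t : ℝ) :
    ((FS i).p (x, t)).1 = ax i (((t + 1 / 8 : ℝ) : AddCircle (1 : ℝ)), x.1) := rfl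

/-- the end of the `3`-torus minus one tube -/
theorem exists_TS (i : Fin 3) : ∃ T : G.Ended (Mi i) Unit, ∀ w : ℝ × Ioo (1 : ℝ) 2 × ℝ,
    T.cov () w = (FS i).p (ES.collar () ((w.1 : AddCircle (1 : ℝ)), w.2.1), w.2.2) := by
  have h1 : IsOpenEmbedding (fun z : AddCircle (1 : ℝ) × Ioo (1 : ℝ) 2 × AddCircle (1 : ℝ) =>
      Tor_H i (ES.collar () (z.1, z.2.1), z.2.2 + ((1 / 8 : ℝ) : AddCircle (1 : ℝ)))) := by
    have h2 : IsOpenEmbedding (Prod.map (ES.collar ())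
        (Homeomorph.addRight ((1 / 8 : ℝ) : AddCircle (1 : ℝ)))) :=
      (ES.emb ()).prodMap (Homeomorph.addRight _).isOpenEmbedding
    exact (Tor_H i).isOpenEmbedding.comp
      (h2.comp (Homeomorph.prodAssoc (AddCircle (1 : ℝ)) (Ioo (1 : ℝ) 2)
        (AddCircle (1 : ℝ))).symm.isOpenEmbedding)
  refine ⟨{ tor := fun _ z =>
              Tor_H i (ES.collar () (z.1, z.2.1), z.2.2 + ((1 / 8 : ℝ) : AddCircle (1 : ℝ)))
            emb := fun _ => h1
            disj := fun _ _ _ _ _ => rfl }, ?_⟩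
  intro w
  show Tor_H i (ES.collar () ((w.1 : AddCircle (1 : ℝ)), w.2.1),
    (w.2.2 : AddCircle (1 : ℝ)) + ((1 / 8 : ℝ) : AddCircle (1 : ℝ))) =
    Tor_H i (ES.collar () ((w.1 : AddCircle (1 : ℝ)), w.2.1),
      ((w.2.2 + 1 / 8 : ℝ) : AddCircle (1 : ℝ)))
  rw [AddCircle.coe_add]

end Pool.Agent.H.MP_1611f1_gt.BR
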