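import Pool.Agent.H.MP_1611f1_gt.BR.Arc
import Pool.Agent.H.MP_1611f1_gt.BR.Tor
import Pool.Agent.H.MP_1611f1_gt.G.Bun

/-!
The foliation of the `3`-torus minus one tube.
-/

namespace Pool.Agent.H.MP_1611f1_gt.BR

open Topology Set Filter

/-- the trivial chain -/
theorem exists_chainS : ∃ C : Chain AS 1 (Homeomorph.refl SS), ∀ i x, C.ψ i x = x :=
  ⟨⟨fun _ => Homeomorph.refl SS, fun _ => rfl, fun _ _ _ => rfl, fun _ _ _ _ => rfl,
    fun _ _ _ _ => rfl⟩, fun _ _ => rfl⟩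

theorem Fol_pt_cont : Continuous fun z : ℝ × ℝ => pt z.1 z.2 :=
  (coe_cont.comp (by fun_prop : Continuous fun z : ℝ × ℝ => z.1 / 32)).prodMk
    (coe_cont.comp (by fun_prop : Continuous fun z : ℝ × ℝ => 1 / 2 + z.2 / 32))

/-- every point can be joined to the collar -/
theorem Fol_join (x : SS) : ∃ θ : ℝ, Joined x
    (ES.collar () ((θ : AddCircle (1 : ℝ)), ⟨3 / 2, by norm_num, by norm_num⟩)) := by
  obtain ⟨x, hx⟩ := x
  obtain ⟨v, h, hv, hh, rfl⟩ := pt_surj x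
  have hr := (pt_mem hv hh).1 hx
  set ρ := Real.sqrt (v ^ 2 + h ^ 2) with hρ
  have hρ2 : ρ ^ 2 = v ^ 2 + h ^ 2 := Real.sq_sqrt (by positivity)
  have hρ1 : 1 < ρ := by
    rw [hρ, Real.lt_sqrt (by norm_num)]
    linarith
  have hρ0 : 0 < ρ := by linarith
  obtain ⟨θ, h1, h2⟩ := polar_exists (v := v) (h := h) hρ0 hρ2.symm
  refine ⟨θ - 1 / 8, ⟨?_⟩⟩
  -- the radial path
  let ra : ℝ → ℝ := fun s => (1 - s) * ρ + s * (3 / 2)
  have hra : ∀ s ∈ Icc (0 : ℝ) 1, 1 < ra s ∧ ra s ≤ max ρ (3 / 2) := by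
    intro s hs
    constructor
    · show 1 < (1 - s) * ρ + s * (3 / 2)
      nlinarith [hs.1, hs.2]
    · show (1 - s) * ρ + s * (3 / 2) ≤ _
      nlinarith [hs.1, hs.2, le_max_left ρ (3 / 2), le_max_right ρ (3 / 2)]
  have hmem : ∀ s ∈ Icc (0 : ℝ) 1, (1 / 32 : ℝ) ^ 2 <
      ‖(pt (ra s * Real.cos (2 * Real.pi * θ)) (ra s * Real.sin (2 * Real.pi * θ))).1‖ ^ 2 +
        ‖(pt (ra s * Real.cos (2 * Real.pi * θ)) (ra s * Real.sin (2 * Real.pi * θ))).2 -
          ((1 / 2 : ℝ) : AddCircle (1 : ℝ))‖ ^ 2 := by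
    intro s hs
    obtain ⟨h3, h4⟩ := hra s hs
    have hc : |ra s * Real.cos (2 * Real.pi * θ)| ≤ 16 := by
      rw [abs_mul, abs_of_pos (by linarith : 0 < ra s)]
      have h5 : ρ * |Real.cos (2 * Real.pi * θ)| ≤ 16 := by
        calc ρ * |Real.cos (2 * Real.pi * θ)| = |ρ * Real.cos (2 * Real.pi * θ)| := by
              rw [abs_mul, abs_of_pos hρ0]
          _ = |v| := by rw [← h1]
          _ ≤ 16 := hv
      have h6 := Real.abs_cos_le_one (2 * Real.pi * θ)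
      have h7 := abs_nonneg (Real.cos (2 * Real.pi * θ))
      rcases le_total ρ (3 / 2) with h8 | h8
      · rw [max_eq_right h8] at h4
        nlinarith
      · rw [max_eq_left h8] at h4
        nlinarith
    have hs' : |ra s * Real.sin (2 * Real.pi * θ)| ≤ 16 := by
      rw [abs_mul, abs_of_pos (by linarith : 0 < ra s)]
      have h5 : ρ * |Real.sin (2 * Real.pi * θ)| ≤ 16 := by
        calc ρ * |Real.sin (2 * Real.pi * θ)| = |ρ * Real.sin (2 * Real.pi * θ)| := by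
              rw [abs_mul, abs_of_pos hρ0]
          _ = |h| := by rw [← h2]
          _ ≤ 16 := hh
      have h6 := Real.abs_sin_le_one (2 * Real.pi * θ)
      have h7 := abs_nonneg (Real.sin (2 * Real.pi * θ))
      rcases le_total ρ (3 / 2) with h8 | h8
      · rw [max_eq_right h8] at h4
        nlinarith
      · rw [max_eq_left h8] at h4
        nlinarith
    rw [pt_mem hc hs']
    have h9 := Real.cos_sq_add_sin_sq (2 * Real.pi * θ)
    rw [mul_pow, mul_pow, ← mul_add, h9]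
    nlinarith
  have hra_c : Continuous ra := by
    show Continuous fun s : ℝ => (1 - s) * ρ + s * (3 / 2)
    fun_prop
  have hpc : Continuous fun s : unitInterval => ((ra s * Real.cos (2 * Real.pi * θ),
      ra s * Real.sin (2 * Real.pi * θ)) : ℝ × ℝ) :=
    ((hra_c.comp continuous_subtype_val).mul continuous_const).prodMk
      ((hra_c.comp continuous_subtype_val).mul continuous_const)
  have hγ : Continuous fun s : unitInterval => (⟨pt (ra s * Real.cos (2 * Real.pi * θ))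
      (ra s * Real.sin (2 * Real.pi * θ)), hmem s s.2⟩ : SS) :=
    (Fol_pt_cont.comp hpc).subtype_mk _
  refine ⟨⟨_, hγ⟩, ?_, ?_⟩
  · apply Subtype.ext
    show pt (((1 - ((0 : unitInterval) : ℝ)) * ρ + ((0 : unitInterval) : ℝ) * (3 / 2)) *
      Real.cos (2 * Real.pi * θ)) (((1 - ((0 : unitInterval) : ℝ)) * ρ +
      ((0 : unitInterval) : ℝ) * (3 / 2)) * Real.sin (2 * Real.pi * θ)) = pt v h
    rw [h1, h2]
    simp
  · apply Subtype.ext
    rw [ES_collar]
    show pt (((1 - ((1 : unitInterval) : ℝ)) * ρ + ((1 : unitInterval) : ℝ) * (3 / 2)) *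
      Real.cos (2 * Real.pi * θ)) (((1 - ((1 : unitInterval) : ℝ)) * ρ +
      ((1 : unitInterval) : ℝ) * (3 / 2)) * Real.sin (2 * Real.pi * θ)) = _
    simp

theorem SS_conn : ConnectedSpace SS := by
  have hp : PathConnectedSpace SS := by
    refine ⟨⟨ES.collar () (((0 : ℝ) : AddCircle (1 : ℝ)), ⟨3 / 2, by norm_num, by norm_num⟩)⟩,
      fun x y => ?_⟩
    have key : ∀ x : SS, Joined x
        (ES.collar () (((0 : ℝ) : AddCircle (1 : ℝ)), ⟨3 / 2, by norm_num, by norm_num⟩)) := by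
      intro x
      obtain ⟨θ, h⟩ := Fol_join x
      refine h.trans ⟨⟨⟨fun s => ES.collar () ((((1 - (s : ℝ)) * θ : ℝ) : AddCircle (1 : ℝ)),
        ⟨3 / 2, by norm_num, by norm_num⟩), ?_⟩, ?_, ?_⟩⟩
      · refine (ES.emb ()).continuous.comp (Continuous.prodMk (coe_cont.comp ?_) continuous_const)
        fun_prop
      · simp
      · simp
    exact (key x).trans (key y).symm
  infer_instance

/-- the foliation with the slope `σ` at the end -/
theorem exists_folS (i : Fin 3) {σ : ℝ} (H : Hol (-σ)) {T : G.Ended (Mi i) Unit}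
    (hT : ∀ w : ℝ × Ioo (1 : ℝ) 2 × ℝ,
      T.cov () w = (FS i).p (ES.collar () ((w.1 : AddCircle (1 : ℝ)), w.2.1), w.2.2))
    (C : Chain AS 1 (Homeomorph.refl SS)) :
    ∃ F : Foliation (Mi i), F.Taut ∧ G.Linear T F (fun _ => 4 * σ) (fun _ => 4) ∧
      F.charts = G.B.AllCharts (FS i) AS (fun _ => H) C := by
  have hconn := SS_conn
  have hL : ∀ j : Unit, 0 < (fun _ : Unit => 1) j := fun _ => Nat.one_pos
  obtain ⟨F, hF⟩ := G.B.exists_foliation (FS i) AS (fun _ => H) C Nat.one_pos hL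
  refine ⟨F, G.B.taut (FS i) AS (fun _ => H) C F Nat.one_pos hL hF, ?_, hF⟩
  intro j z hz c hc hs
  rw [hF] at hc
  have hcov : ∀ w, T.cov j w = G.B.QQ (FS i) (fun _ : Unit => 1) 1 ()
      (4 * w.1, w.2.1, 4 * w.2.2) := by
    intro w
    have h1 : T.cov j w = T.cov () w := rfl
    rw [h1, hT]
    show _ = (FS i).p (ES.collar () (((4 * w.1 / (4 * ((1 : ℕ) : ℝ)) : ℝ) : AddCircle (1 : ℝ)),
      w.2.1), 4 * w.2.2 / (4 * ((1 : ℕ) : ℝ)))
    have h2 : 4 * w.1 / (4 * ((1 : ℕ) : ℝ)) = w.1 := by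
      push_cast
      ring
    have h3 : 4 * w.2.2 / (4 * ((1 : ℕ) : ℝ)) = w.2.2 := by
      push_cast
      ring
    rw [h2, h3]
  let R : ℝ × Ioo (1 : ℝ) 2 × ℝ → ℝ × Ioo (1 : ℝ) 2 × ℝ := fun w => (4 * w.1, w.2.1, 4 * w.2.2)
  have hR : Continuous R := by
    show Continuous fun w : ℝ × Ioo (1 : ℝ) 2 × ℝ => (4 * w.1, w.2.1, 4 * w.2.2)
    fun_prop
  rw [hcov] at hs
  have h2 := G.B.collar_all (FS i) AS (fun _ => H) C Nat.one_pos hL hc () hs
  have h3 := OrdEq.comp_cont (R := R) (z₀ := z) hR.continuousAt h2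
  have hev : ∀ᶠ w : ℝ × Ioo (1 : ℝ) 2 × ℝ in 𝓝 z, (w.2.1 : ℝ) < 4 / 3 := by
    have h4 : Continuous fun w : ℝ × Ioo (1 : ℝ) 2 × ℝ => (w.2.1 : ℝ) := by fun_prop
    exact h4.continuousAt.eventually_lt_const hz
  refine h3.congr (Eventually.of_forall fun w => ?_) (hev.mono fun w hw => ?_)
  · show (c (T.cov j w)).2 = (c (G.B.QQ (FS i) (fun _ : Unit => 1) 1 () (R w))).2
    rw [hcov]
  · show 4 * σ * w.1 + 4 * w.2.2 = MR H (4 * w.1) w.2.1 (4 * w.2.2)
    rw [MR_inner _ _ _ hw.le]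
    ring

end Pool.Agent.H.MP_1611f1_gt.BR
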