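import Pool.Agent.H.MP_1611f1_gt.BR.NDefs

/-!
The angle.
-/

namespace Pool.Agent.H.MP_1611f1_gt.BR.U

open Topology Set Filter

theorem NAng_cont : Continuous (fun z : ℝ × ℝ => (⟨z.1, z.2⟩ : ℂ)) :=
  Complex.equivRealProdCLM.symm.continuous

/-- `-(x + i y)` is in the slit plane (`Complex.continuousAt_arg`) -/
theorem ang_contAt {x y : ℝ} (h : y ≠ 0 ∨ x < 0) :
    ContinuousAt (fun z : ℝ × ℝ => ang z.1 z.2) (x, y) := by
  have h1 : (-(⟨x, y⟩ : ℂ)) ∈ Complex.slitPlane := by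
    rw [Complex.mem_slitPlane_iff]
    rcases h with h | h
    · right
      show -y ≠ 0
      exact neg_ne_zero.2 h
    · left
      show 0 < -x
      linarith
  have h2 : ContinuousAt (fun z : ℝ × ℝ => Complex.arg (-(⟨z.1, z.2⟩ : ℂ))) (x, y) :=
    ContinuousAt.comp (g := Complex.arg) (f := fun z : ℝ × ℝ => -(⟨z.1, z.2⟩ : ℂ))
      (Complex.continuousAt_arg h1) NAng_cont.neg.continuousAt
  exact h2.div_const _

/-- the angle measured from the positive axis is continuous on the positive axis -/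
theorem arg_contAt {x : ℝ} (h : 0 < x) :
    ContinuousAt (fun z : ℝ × ℝ => Complex.arg (⟨z.1, z.2⟩ : ℂ) / (2 * Real.pi)) (x, 0) := by
  have h1 : (⟨x, 0⟩ : ℂ) ∈ Complex.slitPlane := by
    rw [Complex.mem_slitPlane_iff]
    exact Or.inl h
  have h2 : ContinuousAt (fun z : ℝ × ℝ => Complex.arg (⟨z.1, z.2⟩ : ℂ)) (x, 0) :=
    ContinuousAt.comp (g := Complex.arg) (f := fun z : ℝ × ℝ => (⟨z.1, z.2⟩ : ℂ))
      (Complex.continuousAt_arg h1) NAng_cont.continuousAt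
  exact h2.div_const _

/-- (`Complex.arg_neg_eq_arg_sub_pi_of_im_pos`) -/
theorem ang_pos {x y : ℝ} (h : 0 < y) :
    ang x y = Complex.arg (⟨x, y⟩ : ℂ) / (2 * Real.pi) - 1 / 2 := by
  unfold ang
  rw [Complex.arg_neg_eq_arg_sub_pi_of_im_pos (x := (⟨x, y⟩ : ℂ)) h]
  have := Real.pi_pos
  field_simp

/-- (`Complex.arg_neg_eq_arg_add_pi_of_im_neg`; for `y = 0` both sides are `1/2`) -/
theorem ang_nonpos {x y : ℝ} (hx : 0 < x) (h : y ≤ 0) :
    ang x y = Complex.arg (⟨x, y⟩ : ℂ) / (2 * Real.pi) + 1 / 2 := by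
  unfold ang
  have hpi := Real.pi_pos
  rcases h.lt_or_eq with h | h
  · rw [Complex.arg_neg_eq_arg_add_pi_of_im_neg (x := (⟨x, y⟩ : ℂ)) h]
    field_simp
  · subst h
    have h1 : (⟨x, 0⟩ : ℂ) = ((x : ℝ) : ℂ) := rfl
    have h2 : -((x : ℝ) : ℂ) = ((-x : ℝ) : ℂ) := by push_cast; rfl
    rw [h1, h2, Complex.arg_ofReal_of_neg (by linarith), Complex.arg_ofReal_of_nonneg hx.le]
    field_simp
    ring

theorem ang_bound (x y : ℝ) : |ang x y| ≤ 1 / 2 := by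
  unfold ang
  have hpi := Real.pi_pos
  rw [abs_div, abs_of_pos (by positivity : 0 < 2 * Real.pi), div_le_iff₀ (by positivity)]
  have := Complex.abs_arg_le_pi (-(⟨x, y⟩ : ℂ))
  linarith

/-- (`Complex.arg_mul_cos_add_sin_mul_I_coe_angle` or `Complex.arg_exp_mul_I`:
`-(r e^{2πiθ}) = r e^{2πi(θ + 1/2)}`, and the argument is `2π(θ + 1/2)` modulo `2π`) -/
theorem ang_polar {r : ℝ} (hr : 0 < r) (θ : ℝ) :
    ((ang (r * Real.cos (2 * Real.pi * θ)) (r * Real.sin (2 * Real.pi * θ)) : ℝ) : Ci) =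
      ((θ + 1 / 2 : ℝ) : Ci) := by
  have hpi := Real.pi_pos
  have h1 : (-(⟨r * Real.cos (2 * Real.pi * θ), r * Real.sin (2 * Real.pi * θ)⟩ : ℂ)) =
      (r : ℂ) * (Real.Angle.cos ((2 * Real.pi * (θ + 1 / 2) : ℝ) : Real.Angle) +
        Real.Angle.sin ((2 * Real.pi * (θ + 1 / 2) : ℝ) : Real.Angle) * Complex.I) := by
    rw [Real.Angle.cos_coe, Real.Angle.sin_coe]
    have h2 : 2 * Real.pi * (θ + 1 / 2) = 2 * Real.pi * θ + Real.pi := by ring
    rw [h2, Real.cos_add_pi, Real.sin_add_pi]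
    generalize Real.cos (2 * Real.pi * θ) = C
    generalize Real.sin (2 * Real.pi * θ) = S
    apply Complex.ext
    · simp
    · simp
  have h3 := Complex.arg_mul_cos_add_sin_mul_I_coe_angle hr
    ((2 * Real.pi * (θ + 1 / 2) : ℝ) : Real.Angle)
  rw [← h1] at h3
  obtain ⟨k, hk⟩ := Real.Angle.angle_eq_iff_two_pi_dvd_sub.1 h3
  have h4 : ang (r * Real.cos (2 * Real.pi * θ)) (r * Real.sin (2 * Real.pi * θ)) =
      (θ + 1 / 2) + (k : ℝ) := by
    unfold ang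
    rw [div_eq_iff (by positivity)]
    linarith [hk]
  have h5 : (((k : ℤ) : ℝ) : Ci) = 0 := (AddCircle.coe_eq_zero_iff (1 : ℝ)).2 ⟨k, by simp⟩
  rw [h4, AddCircle.coe_add, h5, add_zero]

/-- (`ang_polar` for `1/4 - θ`) -/
theorem ang_polar' {r : ℝ} (hr : 0 < r) (θ : ℝ) :
    ((ang (r * Real.sin (2 * Real.pi * θ)) (r * Real.cos (2 * Real.pi * θ)) : ℝ) : Ci) =
      ((3 / 4 - θ : ℝ) : Ci) := by
  have h1 : 2 * Real.pi * (1 / 4 - θ) = Real.pi / 2 - 2 * Real.pi * θ := by ring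
  have h2 := ang_polar hr (1 / 4 - θ)
  rw [h1, Real.cos_pi_div_two_sub, Real.sin_pi_div_two_sub] at h2
  rw [h2]
  congr 1
  ring

end Pool.Agent.H.MP_1611f1_gt.BR.U
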