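import Pool.Agent.H.MP_1611f1_gt.TypA

/-!
Real lifts of points of the circle.
-/

namespace Pool.Agent.H.MP_1611f1_gt.BR.U

open Topology Set Filter

/-- the circle `ℝ/ℤ` -/
abbrev Ci := AddCircle (1 : ℝ)

/-- half of the circle -/
noncomputable def hlf : Ci := ((1 / 2 : ℝ) : Ci)

/-- the centred lift, in `[-1/2, 1/2)` -/
noncomputable def cl (u : Ci) : ℝ := lft (u + hlf) - 1 / 2

/-- the lift in `(-1, 0]` -/
noncomputable def yt (u : Ci) : ℝ := -lft (-u)

theorem coe_cl (u : Ci) : ((cl u : ℝ) : Ci) = u := by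
  unfold cl
  rw [AddCircle.coe_sub, coe_lft, hlf]
  abel

theorem cl_mem (u : Ci) : cl u ∈ Ico (-1 / 2 : ℝ) (1 / 2) := by
  have h := lft_mem (u + hlf)
  unfold cl
  constructor <;> linarith [h.1, h.2]

theorem cl_coe {x : ℝ} (hx : x ∈ Ico (-1 / 2 : ℝ) (1 / 2)) : cl (x : Ci) = x := by
  unfold cl hlf
  rw [← AddCircle.coe_add, lft_coe ⟨by linarith [hx.1], by linarith [hx.2]⟩]
  ring

theorem cl_zero : cl 0 = 0 := by
  have h := cl_coe (x := 0) ⟨by norm_num, by norm_num⟩
  exact h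

/-- (`coe_cl`, `cl_coe`) -/
theorem cl_add {u v : Ci} (h : |cl u + cl v| < 1 / 2) : cl (u + v) = cl u + cl v := by
  have h1 := abs_lt.1 h
  conv_lhs => rw [← coe_cl u, ← coe_cl v, ← AddCircle.coe_add]
  exact cl_coe ⟨by linarith [h1.1], by linarith [h1.2]⟩

theorem cl_sub {u v : Ci} (h : |cl u - cl v| < 1 / 2) : cl (u - v) = cl u - cl v := by
  have h1 := abs_lt.1 h
  conv_lhs => rw [← coe_cl u, ← coe_cl v, ← AddCircle.coe_sub]
  exact cl_coe ⟨by linarith [h1.1], by linarith [h1.2]⟩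

theorem cl_contAt {u : Ci} (h : u ≠ hlf) : ContinuousAt cl u := by
  have h1 : u + hlf ≠ 0 := by
    intro h2
    apply h
    have h3 : (hlf : Ci) + hlf = 0 := by
      unfold hlf
      rw [← AddCircle.coe_add]
      norm_num
    exact add_right_cancel (h2.trans h3.symm)
  have h2 : ContinuousAt (fun w : Ci => lft (w + hlf)) u :=
    ContinuousAt.comp (g := lft) (f := fun w : Ci => w + hlf) (lft_contAt h1)
      (Continuous.continuousAt (by fun_prop))
  exact h2.sub continuousAt_const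

/-- the norm is the absolute value of the centred lift -/
theorem norm_cl (u : Ci) : ‖u‖ = |cl u| := by
  have h := cl_mem u
  conv_lhs => rw [← coe_cl u]
  rw [UnitAddCircle.norm_eq]
  have hr : round (cl u) = 0 := by
    rw [round_eq, Int.floor_eq_iff]
    push_cast
    constructor <;> linarith [h.1, h.2]
  rw [hr, Int.cast_zero, sub_zero]

theorem cl_contAt' {u : Ci} (h : |cl u| < 1 / 2) : ContinuousAt cl u := by
  refine cl_contAt fun h1 => ?_
  have h2 : hlf = ((-1 / 2 : ℝ) : Ci) := by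
    have h3 : ((-1 / 2 : ℝ) : Ci) = ((1 / 2 - 1 : ℝ) : Ci) := by norm_num
    have h4 : ((1 : ℝ) : Ci) = 0 := AddCircle.coe_period (1 : ℝ)
    rw [h3, AddCircle.coe_sub, h4, sub_zero]
    rfl
  rw [h1, h2, cl_coe ⟨le_rfl, by norm_num⟩] at h
  norm_num at h

theorem coe_yt (u : Ci) : ((yt u : ℝ) : Ci) = u := by
  unfold yt
  rw [AddCircle.coe_neg, coe_lft, neg_neg]

theorem yt_mem (u : Ci) : yt u ∈ Ioc (-1 : ℝ) 0 := by
  have h := lft_mem (-u)
  unfold yt
  constructor <;> linarith [h.1, h.2]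

theorem yt_coe {x : ℝ} (hx : x ∈ Ioc (-1 : ℝ) 0) : yt (x : Ci) = x := by
  unfold yt
  rw [← AddCircle.coe_neg, lft_coe ⟨by linarith [hx.2], by linarith [hx.1]⟩]
  ring

theorem yt_contAt {u : Ci} (h : u ≠ 0) : ContinuousAt yt u := by
  have h1 : -u ≠ 0 := neg_ne_zero.2 h
  exact (ContinuousAt.comp (g := lft) (f := fun w : Ci => -w) (lft_contAt h1)
      (Continuous.continuousAt (by fun_prop))).neg

/-- `yt` in terms of `cl` -/
theorem yt_of_nonpos {u : Ci} (h : cl u ≤ 0) : yt u = cl u := by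
  conv_lhs => rw [← coe_cl u]
  exact yt_coe ⟨by linarith [(cl_mem u).1], h⟩

theorem yt_of_pos {u : Ci} (h : 0 < cl u) : yt u = cl u - 1 := by
  have h1 : ((cl u - 1 : ℝ) : Ci) = u := by
    rw [AddCircle.coe_sub, coe_cl]
    have : ((1 : ℝ) : Ci) = 0 := AddCircle.coe_period (1 : ℝ)
    rw [this, sub_zero]
  conv_lhs => rw [← h1]
  exact yt_coe ⟨by linarith, by linarith [(cl_mem u).2]⟩

/-- a small neighbourhood of a point of the circle -/
theorem small_nhds (u : Ci) {ε : ℝ} (hε : 0 < ε) : ∀ᶠ w in 𝓝 u, |cl (w - u)| < ε := by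
  have h : ContinuousAt (fun w : Ci => cl (w - u)) u := by
    refine ContinuousAt.comp (g := cl) (f := fun w : Ci => w - u) (cl_contAt' ?_)
      (Continuous.continuousAt (by fun_prop))
    rw [sub_self, cl_zero]
    norm_num
  have h2 : Tendsto (fun w : Ci => |cl (w - u)|) (𝓝 u) (𝓝 |cl (u - u)|) := h.abs
  rw [sub_self, cl_zero, abs_zero] at h2
  exact h2.eventually (gt_mem_nhds hε)

/-- differences of points near a base point -/
theorem cl_base {u w w' : Ci} (h : |cl (w - u)| < 1 / 4) (h' : |cl (w' - u)| < 1 / 4) :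
    cl (w' - w) = cl (w' - u) - cl (w - u) := by
  have h1 := abs_lt.1 h
  have h2 := abs_lt.1 h'
  have h3 : w' - w = (w' - u) - (w - u) := by abel
  rw [h3]
  exact cl_sub (abs_lt.2 ⟨by linarith [h1.1, h2.1, h1.2, h2.2], by linarith [h1.1, h2.1, h1.2, h2.2]⟩)

end Pool.Agent.H.MP_1611f1_gt.BR.U
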