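import Pool.Agent.H.MP_1611f1_gt.BR.NDefs
import Pool.Agent.H.MP_1611f1_gt.Fib

/-!
Charts of the torus from functions which are monotone in one direction.
-/

namespace Pool.Agent.H.MP_1611f1_gt.BR.U

open Topology Set Filter

/-- the covering of the torus, `((a, b), t) ↦ (a, (b, t))` -/
noncomputable def covT (z : (ℝ × ℝ) × ℝ) : To := ((z.1.1 : Ci), ((z.1.2 : Ci), (z.2 : Ci)))

/-- the covering `((a, t), s) ↦ (a, (e s, t))`, `e = ± 1` -/
noncomputable def covB (e : ℝ) (z : (ℝ × ℝ) × ℝ) : To :=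
  ((z.1.1 : Ci), (((e * z.2 : ℝ) : Ci), (z.1.2 : Ci)))

theorem NCov_prodMap {X Y Z W : Type*} [TopologicalSpace X] [TopologicalSpace Y]
    [TopologicalSpace Z] [TopologicalSpace W] {f : X → Y} {g : Z → W} (hf : IsLocalHomeomorph f)
    (hg : IsLocalHomeomorph g) : IsLocalHomeomorph (Prod.map f g) := by
  intro x
  obtain ⟨e, he, hfe⟩ := hf x.1
  obtain ⟨e', he', hge⟩ := hg x.2
  refine ⟨e.prod e', ⟨he, he'⟩, ?_⟩
  rw [hfe, hge]
  rfl

theorem NCov_coe_loc : IsLocalHomeomorph (fun x : ℝ => (x : Ci)) :=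
  AddCircle.isLocalHomeomorph_coe (1 : ℝ)

theorem NCov_coe {a a' : ℝ} (h : (a : Ci) = (a' : Ci)) (h1 : |a' - a| < 1) : a = a' := by
  have h2 : ((a' - a : ℝ) : Ci) = 0 := by
    rw [AddCircle.coe_sub, h, sub_self]
  obtain ⟨n, hn⟩ := (AddCircle.coe_eq_zero_iff (1 : ℝ)).1 h2
  rw [zsmul_eq_mul, mul_one] at hn
  rw [← hn] at h1
  have h3 : |n| < 1 := by
    have : ((|n| : ℤ) : ℝ) < 1 := by rwa [Int.cast_abs]
    exact_mod_cast this
  have h4 : n = 0 := Int.abs_lt_one_iff.1 h3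
  rw [h4, Int.cast_zero] at hn
  linarith

/-- (product of covering maps `ℝ → ℝ/ℤ`, composed with homeomorphisms;
`AddCircle.isCoveringMap_coe`, `IsCoveringMap.isLocalHomeomorph`, or directly) -/
theorem covT_loc : IsLocalHomeomorph covT := by
  have h := (NCov_prodMap NCov_coe_loc (NCov_prodMap NCov_coe_loc NCov_coe_loc)).comp
    (Homeomorph.prodAssoc ℝ ℝ ℝ).isLocalHomeomorph
  exact h

/-- the homeomorphism `((a, t), s) ↦ (a, (e s, t))` -/
noncomputable def NCov_homeo {e : ℝ} (he : e * e = 1) : (ℝ × ℝ) × ℝ ≃ₜ ℝ × (ℝ × ℝ) where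
  toFun z := (z.1.1, (e * z.2, z.1.2))
  invFun w := ((w.1, w.2.2), e * w.2.1)
  left_inv z := by
    obtain ⟨⟨a, t⟩, s⟩ := z
    have : e * (e * s) = s := by rw [← mul_assoc, he, one_mul]
    simp only [this]
  right_inv w := by
    obtain ⟨a, b, t⟩ := w
    have : e * (e * b) = b := by rw [← mul_assoc, he, one_mul]
    simp only [this]
  continuous_toFun := by fun_prop
  continuous_invFun := by fun_prop

theorem NCov_sq {e : ℝ} (he : e = 1 ∨ e = -1) : e * e = 1 := by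
  rcases he with rfl | rfl <;> norm_num

theorem covB_loc {e : ℝ} (he : e = 1 ∨ e = -1) : IsLocalHomeomorph (covB e) := by
  have h := (NCov_prodMap NCov_coe_loc (NCov_prodMap NCov_coe_loc NCov_coe_loc)).comp
    (NCov_homeo (NCov_sq he)).isLocalHomeomorph
  exact h

theorem covT_surj : Function.Surjective covT := by
  rintro ⟨a, b, t⟩
  refine ⟨((cl a, cl b), cl t), ?_⟩
  simp only [covT, coe_cl]

theorem covB_surj {e : ℝ} (he : e = 1 ∨ e = -1) : Function.Surjective (covB e) := by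
  rintro ⟨a, b, t⟩
  refine ⟨((cl a, cl t), e * cl b), ?_⟩
  simp only [covB]
  rw [← mul_assoc, NCov_sq he, one_mul, coe_cl, coe_cl, coe_cl]

theorem NCov_chart {P : (ℝ × ℝ) × ℝ → To} (hP : IsLocalHomeomorph P)
    (hinj : ∀ z z' : (ℝ × ℝ) × ℝ, |z'.1.1 - z.1.1| < 1 → |z'.1.2 - z.1.2| < 1 →
      |z'.2 - z.2| < 1 → P z = P z' → z = z')
    {f : To → ℝ} {N : Set To} (hN : IsOpen N) {z₀ : (ℝ × ℝ) × ℝ} (hz : P z₀ ∈ N)
    (hf : ContinuousOn f N) {δ₀ : ℝ} (hδ : 0 < δ₀)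
    (hm : ∀ (x : ℝ × ℝ) (s s' : ℝ), P (x, s) ∈ N → P (x, s') ∈ N → s < s' → s' < s + δ₀ →
      f (P (x, s)) < f (P (x, s'))) :
    ∃ c : OpenPartialHomeomorph To ((ℝ × ℝ) × ℝ), P z₀ ∈ c.source ∧ c.source ⊆ N ∧
      ∀ w ∈ c.source, (c w).2 = f w := by
  have h1 : P ⁻¹' N ∈ 𝓝 z₀ := (hN.preimage hP.continuous).mem_nhds hz
  obtain ⟨ε, hε, hεN⟩ := Metric.mem_nhds_iff.1 h1
  have hr0 : 0 < min ε (min (1 / 2) (δ₀ / 2)) := lt_min hε (lt_min (by norm_num) (by linarith))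
  obtain ⟨r, hr, hr1, hr2, hr3⟩ : ∃ r : ℝ, 0 < r ∧ r ≤ ε ∧ r ≤ 1 / 2 ∧ r ≤ δ₀ / 2 :=
    ⟨_, hr0, min_le_left _ _, (min_le_right _ _).trans (min_le_left _ _),
      (min_le_right _ _).trans (min_le_right _ _)⟩
  have hbox : ∀ z ∈ Metric.ball z₀.1 r ×ˢ Ioo (z₀.2 - r) (z₀.2 + r), P z ∈ N := by
    rintro z ⟨hz1, hz2⟩
    apply hεN
    rw [Metric.mem_ball, Prod.dist_eq, max_lt_iff]
    refine ⟨lt_of_lt_of_le hz1 hr1, ?_⟩
    rw [Real.dist_eq, abs_lt]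
    constructor <;> linarith [hz2.1, hz2.2]
  have hcoord : ∀ z ∈ Metric.ball z₀.1 r ×ˢ Ioo (z₀.2 - r) (z₀.2 + r),
      |z.1.1 - z₀.1.1| < r ∧ |z.1.2 - z₀.1.2| < r ∧ |z.2 - z₀.2| < r := by
    rintro z ⟨hz1, hz2⟩
    rw [Metric.mem_ball, Prod.dist_eq, max_lt_iff, Real.dist_eq, Real.dist_eq] at hz1
    refine ⟨hz1.1, hz1.2, ?_⟩
    rw [abs_lt]
    constructor <;> linarith [hz2.1, hz2.2]
  have hinj' : InjOn P (Metric.ball z₀.1 r ×ˢ Ioo (z₀.2 - r) (z₀.2 + r)) := by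
    intro z hz z' hz' hzz
    obtain ⟨a1, a2, a3⟩ := hcoord z hz
    obtain ⟨b1, b2, b3⟩ := hcoord z' hz'
    rw [abs_lt] at a1 a2 a3 b1 b2 b3
    refine hinj z z' ?_ ?_ ?_ hzz <;> rw [abs_lt] <;> constructor <;> linarith
  obtain ⟨C, hC1, hC2⟩ := exists_chart hP (OpenPartialHomeomorph.refl (ℝ × ℝ))
    (U := Metric.ball z₀.1 r) Metric.isOpen_ball (fun _ _ => mem_univ _) hinj'
    (fun z => f (P z)) (hf.comp hP.continuous.continuousOn (fun z hz => hbox z hz))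
    (fun x hx s hs s' hs' hss => hm x s s' (hbox _ ⟨hx, hs⟩) (hbox _ ⟨hx, hs'⟩) hss
      (by linarith [hs.1, hs'.2]))
  refine ⟨C, ?_, ?_, ?_⟩
  · rw [hC1]
    exact ⟨z₀, ⟨Metric.mem_ball_self hr, by linarith, by linarith⟩, rfl⟩
  · rw [hC1]
    rintro _ ⟨z, hz, rfl⟩
    exact hbox z hz
  · rw [hC1]
    rintro _ ⟨z, hz, rfl⟩
    rw [hC2 z hz]

/-- A chart near `y` whose last coordinate is the function `f`, continuous on the open set `N` and
strictly increasing in the direction of `t`. (`exists_chart` with `covT`, `ξ` the identity, on a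
small box around a preimage of `y`, of size less than `1`, contained in the preimage of `N`.) -/
theorem chartT {f : To → ℝ} {N : Set To} (hN : IsOpen N) {y : To} (hy : y ∈ N)
    (hf : ContinuousOn f N) {δ₀ : ℝ} (hδ : 0 < δ₀)
    (hm : ∀ w ∈ N, ∀ w' ∈ N, ∀ δ : ℝ, 0 < δ → δ < δ₀ → w'.1 = w.1 → w'.2.1 = w.2.1 →
      w'.2.2 = w.2.2 + (δ : Ci) → f w < f w') :
    ∃ c : OpenPartialHomeomorph To ((ℝ × ℝ) × ℝ), y ∈ c.source ∧ c.source ⊆ N ∧
      ∀ w ∈ c.source, (c w).2 = f w := by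
  obtain ⟨z₀, rfl⟩ := covT_surj y
  refine NCov_chart covT_loc ?_ hN hy hf hδ ?_
  · rintro ⟨⟨a, b⟩, t⟩ ⟨⟨a', b'⟩, t'⟩ h1 h2 h3 h
    simp only [covT, Prod.mk.injEq] at h h1 h2 h3
    rw [NCov_coe h.1 h1, NCov_coe h.2.1 h2, NCov_coe h.2.2 h3]
  · intro x s s' h h' hs hs'
    refine hm _ h _ h' (s' - s) (by linarith) (by linarith) rfl rfl ?_
    simp only [covT]
    rw [← AddCircle.coe_add]
    congr 1
    ring

/-- the same in the direction of `e * b` -/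
theorem chartB {e : ℝ} (he : e = 1 ∨ e = -1) {f : To → ℝ} {N : Set To} (hN : IsOpen N) {y : To}
    (hy : y ∈ N) (hf : ContinuousOn f N) {δ₀ : ℝ} (hδ : 0 < δ₀)
    (hm : ∀ w ∈ N, ∀ w' ∈ N, ∀ δ : ℝ, 0 < δ → δ < δ₀ → w'.1 = w.1 → w'.2.2 = w.2.2 →
      w'.2.1 = w.2.1 + ((e * δ : ℝ) : Ci) → f w < f w') :
    ∃ c : OpenPartialHomeomorph To ((ℝ × ℝ) × ℝ), y ∈ c.source ∧ c.source ⊆ N ∧
      ∀ w ∈ c.source, (c w).2 = f w := by
  obtain ⟨z₀, rfl⟩ := covB_surj he y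
  refine NCov_chart (covB_loc he) ?_ hN hy hf hδ ?_
  · rintro ⟨⟨a, b⟩, t⟩ ⟨⟨a', b'⟩, t'⟩ h1 h2 h3 h
    simp only [covB, Prod.mk.injEq] at h h1 h2 h3
    have h4 : e * t = e * t' := by
      apply NCov_coe h.2.1
      rw [← mul_sub, abs_mul]
      have : |e| = 1 := by rcases he with rfl | rfl <;> norm_num
      rw [this, one_mul]
      exact h3
    have h5 : t = t' := by
      have h6 : e ≠ 0 := by rcases he with rfl | rfl <;> norm_num
      exact mul_left_cancel₀ h6 h4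
    rw [NCov_coe h.1 h1, NCov_coe h.2.2 h2, h5]
  · intro x s s' h h' hs hs'
    refine hm _ h _ h' (s' - s) (by linarith) (by linarith) rfl rfl ?_
    simp only [covB]
    rw [← AddCircle.coe_add]
    congr 1
    ring

end Pool.Agent.H.MP_1611f1_gt.BR.U
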