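import Pool.Agent.H.MP_1611f1_gt.BR.NCl
import Pool.Agent.H.MP_1611f1_gt.LS.Base

/-!
Definitions: a foliation of the `3`-torus minus two circles.

Coordinates `(a, (b, t))`. The circles (the tubes around them have the radius `1/32`) are
`{a = 0, b = 1/2}` and `{a = 1/2, t = 0}`. The foliation is given by local functions: near a point
`y` with `|a| < 3/8` by the function `D1 P y`, near a point `y` with `|a - 1/2| < 3/8` by `D3 P y`.
-/

namespace Pool.Agent.H.MP_1611f1_gt.BR.U

open Topology Set Filter

/-- the ramp from `0` (for `x ≤ -1/32`) to `1` (for `1/32 ≤ x`) -/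
noncomputable def rmp (x : ℝ) : ℝ := max 0 (min 1 (16 * x + 1 / 2))

/-- the cut-off: `0` if the distance from the origin is at most `4/96`, `1` if it is at
least `5/96` -/
noncomputable def cu (x y : ℝ) : ℝ := max 0 (min 1 (1024 * (x ^ 2 + y ^ 2) - 16 / 9))

/-- the angle (in full turns), measured from the negative axis; not continuous on the positive
axis -/
noncomputable def ang (x y : ℝ) : ℝ := Complex.arg (-(⟨x, y⟩ : ℂ)) / (2 * Real.pi)

/-- a real lift of the function `psi` -/
noncomputable def gg (v x : ℝ) (y : Ci) : ℝ :=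
  cu x (cl y) * (rmp x * (yt y + v)) + (1 - cu x (cl y)) * ang x (cl y)

/-- the circle valued function on `ℝ × (ℝ/ℤ)` minus a disc around `(0, 0)`: it is `0` for
`x ≤ -1/8`, `y + v` for `1/8 ≤ x`, and the angle near the disc -/
noncomputable def psi (v x : ℝ) (y : Ci) : Ci := ((gg v x y : ℝ) : Ci)

/-- the function `x` for `|x| ≤ 3/16`, which goes back to `0` at `±3/8` -/
noncomputable def KK (x : ℝ) : ℝ := max (min x (3 / 8 - x)) (min 0 (max x (-3 / 8 - x)))

/-- the same function on the circle -/
noncomputable def kap (b : Ci) : ℝ := KK (cl b)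

/-- the parameters: the holonomy `lam`, and the slope `sig` at the first circle -/
structure Par where
  lam : ℝ
  sig : ℝ
  h1 : 1 < lam
  h2 : sig ≠ 0

/-- a small number -/
noncomputable def Par.ep (P : Par) : ℝ := (P.lam - 1) / (P.lam * (|P.sig| + 1))

/-- the amount of flattening: `1` near `t = 3/4` -/
noncomputable def mm (P : Par) (t : Ci) : ℝ :=
  1 - P.ep * max 0 (‖t - ((3 / 4 : ℝ) : Ci)‖ - 1 / 16)

/-- the `3`-torus, with the coordinates `(a, (b, t))` -/
abbrev To := Ci × (Ci × Ci)

/-- the circle valued function in the first region -/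
noncomputable def ps1 (w : To) : Ci := psi (1 / 2) (cl w.1) (w.2.1 - hlf)

/-- the exact term in the first region -/
noncomputable def g1 (P : Par) (w : To) : ℝ :=
  -(1 - cu (cl w.1) (cl (w.2.1 - hlf))) * (P.sig * cl (w.2.1 - hlf)) -
    (P.sig + (P.lam - 1) * P.sig * rmp (cl w.1)) * (mm P w.2.2 * kap w.2.1)

/-- the transverse coordinate of `w'` minus the transverse coordinate of `w` (first region) -/
noncomputable def D1 (P : Par) (w w' : To) : ℝ :=
  P.sig * cl (w'.2.1 - w.2.1) + (P.lam - 1) * cl (w'.2.2 - w.2.2) +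
    (P.lam - 1) * P.sig * cl (ps1 w' - ps1 w) + (g1 P w' - g1 P w)

/-- the first region, outside of the tube around `{a = 0, b = 1/2}` -/
def X1 : Set To := {w | |cl w.1| < 3 / 8 ∧ 1 / 1024 < cl w.1 ^ 2 + cl (w.2.1 - hlf) ^ 2}

/-- the circle valued function in the second region -/
noncomputable def ps3 (w : To) : Ci := psi (1 / 4) (cl (w.1 - hlf)) w.2.2

/-- the exact term in the second region -/
noncomputable def g3 (P : Par) (w : To) : ℝ :=
  -(1 - cu (cl (w.1 - hlf)) (cl w.2.2)) * ((P.lam - 1) * cl w.2.2) -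
    P.lam * P.sig * (cu (cl (w.1 - hlf)) (cl w.2.2) * mm P w.2.2 * kap w.2.1)

/-- the transverse coordinate of `w'` minus the transverse coordinate of `w` (second region) -/
noncomputable def D3 (P : Par) (w w' : To) : ℝ :=
  P.lam * P.sig * cl (w'.2.1 - w.2.1) + (P.lam - 1) * cl (w'.2.2 - w.2.2) +
    (P.lam - 1) ^ 2 * cl (ps3 w' - ps3 w) + (g3 P w' - g3 P w)

/-- the second region, outside of the tube around `{a = 1/2, t = 0}` -/
def X3 : Set To := {w | |cl (w.1 - hlf)| < 3 / 8 ∧ 1 / 1024 < cl (w.1 - hlf) ^ 2 + cl w.2.2 ^ 2}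

/-- `f` is a transverse function of the foliation near `y` -/
structure Adp (P : Par) (y : To) (f : To → ℝ) : Prop where
  one : y ∈ X1 → OrdEq y f (D1 P y)
  three : y ∈ X3 → OrdEq y f (D3 P y)

/-- the charts of the foliation -/
def AdCh (P : Par) : Set (OpenPartialHomeomorph To ((ℝ × ℝ) × ℝ)) :=
  {c | c.source ⊆ X1 ∪ X3 ∧ ∀ y ∈ c.source, Adp P y (fun z => (c z).2)}

/-- the foliation of the open set `X1 ∪ X3` -/
def fol (P : Par) : LS.PreFol To where
  charts := AdCh P
  compat c hc c' hc' y hy hy' := by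
    rcases hc.1 hy with h | h
    · exact ((hc.2 y hy).one h).trans ((hc'.2 y hy').one h).symm
    · exact ((hc.2 y hy).three h).trans ((hc'.2 y hy').three h).symm

end Pool.Agent.H.MP_1611f1_gt.BR.U
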