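import Pool.Agent.H.MP_1611f1_gt.BR.NDefs

/-!
The functions `kap` and `mm`.
-/

namespace Pool.Agent.H.MP_1611f1_gt.BR.U

open Topology Set Filter

theorem KK_id {x : ℝ} (h : |x| ≤ 3 / 16) : KK x = x := by
  obtain ⟨h1, h2⟩ := abs_le.1 h
  unfold KK
  rw [min_eq_left (by linarith : x ≤ 3 / 8 - x), max_eq_left (by linarith : -3 / 8 - x ≤ x)]
  rcases le_total x 0 with h3 | h3
  · rw [min_eq_right h3, max_self]
  · rw [min_eq_left h3, max_eq_left h3]

theorem KK_zero {x : ℝ} (h : 3 / 8 ≤ |x|) : KK x = 0 := by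
  unfold KK
  rcases le_abs.1 h with h1 | h1
  · rw [min_eq_right (by linarith : 3 / 8 - x ≤ x), max_eq_left (by linarith : -3 / 8 - x ≤ x),
      min_eq_left (by linarith : (0 : ℝ) ≤ x), max_eq_right (by linarith)]
  · rw [min_eq_left (by linarith : x ≤ 3 / 8 - x), max_eq_right (by linarith : x ≤ -3 / 8 - x),
      min_eq_left (by linarith : (0 : ℝ) ≤ -3 / 8 - x), max_eq_right (by linarith)]

theorem NKap_lip : LipschitzWith 1 KK := by
  have h1 : LipschitzWith 1 (fun x : ℝ => x) := LipschitzWith.id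
  have h2 : LipschitzWith 1 (fun x : ℝ => 3 / 8 - x) := by
    apply LipschitzWith.of_dist_le_mul
    intro x y
    rw [Real.dist_eq, Real.dist_eq, NNReal.coe_one, one_mul]
    have : 3 / 8 - x - (3 / 8 - y) = -(x - y) := by ring
    rw [this, abs_neg]
  have h3 : LipschitzWith 1 (fun x : ℝ => -3 / 8 - x) := by
    apply LipschitzWith.of_dist_le_mul
    intro x y
    rw [Real.dist_eq, Real.dist_eq, NNReal.coe_one, one_mul]
    have : -3 / 8 - x - (-3 / 8 - y) = -(x - y) := by ring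
    rw [this, abs_neg]
  have h4 : LipschitzWith 0 (fun _ : ℝ => (0 : ℝ)) := LipschitzWith.const 0
  have h5 := (h1.min h2).max (h4.min (h1.max h3))
  have h6 : max (max 1 1) (max 0 (max 1 1)) = (1 : NNReal) := by simp
  rw [h6] at h5
  exact h5

/-- (maxima and minima of `1`-Lipschitz functions: `abs_max_sub_max_le_max`) -/
theorem KK_lip (x y : ℝ) : |KK x - KK y| ≤ |x - y| := by
  have h := NKap_lip.dist_le_mul x y
  rwa [Real.dist_eq, Real.dist_eq, NNReal.coe_one, one_mul] at h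

theorem KK_abs (x : ℝ) : |KK x| ≤ 3 / 16 := by
  rw [abs_le]
  unfold KK
  constructor
  · refine le_trans ?_ (le_max_right _ _)
    apply le_min (by norm_num)
    rcases le_total (-3 / 16) x with h | h
    · exact le_trans (by linarith) (le_max_left _ _)
    · exact le_trans (by linarith) (le_max_right _ _)
  · apply max_le
    · rcases le_total x (3 / 16) with h | h
      · exact le_trans (min_le_left _ _) h
      · exact le_trans (min_le_right _ _) (by linarith)
    · exact le_trans (min_le_left _ _) (by norm_num)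

theorem kap_id {b : Ci} (h : |cl b| ≤ 3 / 16) : kap b = cl b := KK_id h

theorem kap_zero {b : Ci} (h : 3 / 8 ≤ |cl b|) : kap b = 0 := KK_zero h

theorem kap_abs (b : Ci) : |kap b| ≤ 3 / 16 := KK_abs _

/-- at `1/2` the function is locally `0` -/
theorem kap_cont : Continuous kap := by
  rw [continuous_iff_continuousAt]
  intro b
  by_cases hb : b = hlf
  · subst hb
    have h0 : ‖(hlf : Ci)‖ = 1 / 2 := by
      have h2 : hlf = ((-1 / 2 : ℝ) : Ci) := by
        have h3 : ((-1 / 2 : ℝ) : Ci) = ((1 / 2 - 1 : ℝ) : Ci) := by norm_num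
        have h4 : ((1 : ℝ) : Ci) = 0 := AddCircle.coe_period (1 : ℝ)
        rw [h3, AddCircle.coe_sub, h4, sub_zero]
        rfl
      rw [norm_cl, h2, cl_coe ⟨le_rfl, by norm_num⟩]
      norm_num [abs_of_nonpos, abs_of_nonneg]
    have hev : ∀ᶠ w : Ci in 𝓝 hlf, 3 / 8 < ‖w‖ := by
      have hc : Continuous (fun w : Ci => ‖w‖) := continuous_norm
      refine (hc.isOpen_preimage _ isOpen_Ioi).mem_nhds ?_
      show 3 / 8 < ‖(hlf : Ci)‖
      rw [h0]
      norm_num
    refine (continuousAt_const (y := (0 : ℝ))).congr ?_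
    filter_upwards [hev] with w hw
    rw [norm_cl] at hw
    exact (kap_zero hw.le).symm
  · have h1 : ContinuousAt KK (cl b) := NKap_lip.continuous.continuousAt
    exact ContinuousAt.comp (g := KK) (f := cl) h1 (cl_contAt hb)

/-- let `b' = b + δ`, `δ = cl (b' - b)`: either `|cl b + δ| < 1/2`, then `cl b' = cl b + δ`
(`cl_add`) and `KK_lip`; or `|cl b|`, `|cl b'| ≥ 3/8`, and both values are `0` -/
theorem kap_lip {b b' : Ci} (h : |cl (b' - b)| < 1 / 8) :
    |kap b' - kap b| ≤ |cl (b' - b)| := by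
  by_cases h1 : |cl b + cl (b' - b)| < 1 / 2
  · have h2 := cl_add h1
    have h3 : b + (b' - b) = b' := by abel
    rw [h3] at h2
    have h4 := KK_lip (cl b') (cl b)
    have h5 : cl b' - cl b = cl (b' - b) := by rw [h2]; ring
    rw [h5] at h4
    exact h4
  · have h2 : 3 / 8 ≤ |cl b| := by
      by_contra h3
      push Not at h1 h3
      have := abs_add_le (cl b) (cl (b' - b))
      linarith
    have h3 : 3 / 8 ≤ |cl b'| := by
      by_contra h4
      push Not at h1 h4
      have h5 : |cl b' - cl (b' - b)| < 1 / 2 := by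
        have := abs_sub (cl b') (cl (b' - b))
        linarith
      have h6 := cl_sub h5
      have h7 : b' - (b' - b) = b := by abel
      rw [h7] at h6
      have h8 : cl b + cl (b' - b) = cl b' := by rw [h6]; ring
      rw [h8] at h1
      linarith
    rw [kap_zero h2, kap_zero h3, sub_self, abs_zero]
    exact abs_nonneg _

theorem Par.ep_pos (P : Par) : 0 < P.ep := by
  unfold Par.ep
  have h1 := P.h1
  have h2 := abs_nonneg P.sig
  apply div_pos (by linarith)
  apply mul_pos (by linarith) (by linarith)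

theorem Par.ep_lt (P : Par) : P.ep < 1 := by
  unfold Par.ep
  have h1 := P.h1
  have h2 := abs_nonneg P.sig
  rw [div_lt_one (mul_pos (by linarith) (by linarith))]
  nlinarith

theorem Par.ep_bound (P : Par) : P.lam * |P.sig| * P.ep < P.lam - 1 := by
  unfold Par.ep
  have h1 := P.h1
  have h2 := abs_nonneg P.sig
  have h3 : 0 < P.lam * (|P.sig| + 1) := mul_pos (by linarith) (by linarith)
  rw [mul_div_assoc', div_lt_iff₀ h3]
  have h4 : 0 < P.lam - 1 := by linarith
  have h5 : 0 < P.lam := by linarith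
  nlinarith [mul_pos h4 h5]

theorem mm_cont (P : Par) : Continuous (mm P) := by
  unfold mm
  fun_prop

theorem mm_lip (P : Par) (t t' : Ci) : |mm P t' - mm P t| ≤ P.ep * ‖t' - t‖ := by
  unfold mm
  have h1 : (1 - P.ep * max 0 (‖t' - ((3 / 4 : ℝ) : Ci)‖ - 1 / 16)) -
      (1 - P.ep * max 0 (‖t - ((3 / 4 : ℝ) : Ci)‖ - 1 / 16)) =
      -(P.ep * (max 0 (‖t' - ((3 / 4 : ℝ) : Ci)‖ - 1 / 16) -
        max 0 (‖t - ((3 / 4 : ℝ) : Ci)‖ - 1 / 16))) := by ring
  rw [h1, abs_neg, abs_mul, abs_of_pos P.ep_pos]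
  apply mul_le_mul_of_nonneg_left _ P.ep_pos.le
  refine (abs_max_sub_max_le_max _ _ _ _).trans ?_
  apply max_le
  · rw [sub_self, abs_zero]
    exact norm_nonneg _
  · have h2 : ‖t' - ((3 / 4 : ℝ) : Ci)‖ - 1 / 16 - (‖t - ((3 / 4 : ℝ) : Ci)‖ - 1 / 16) =
        ‖t' - ((3 / 4 : ℝ) : Ci)‖ - ‖t - ((3 / 4 : ℝ) : Ci)‖ := by ring
    rw [h2]
    refine (abs_norm_sub_norm_le _ _).trans ?_
    have h3 : t' - ((3 / 4 : ℝ) : Ci) - (t - ((3 / 4 : ℝ) : Ci)) = t' - t := by abel
    rw [h3]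

theorem mm_le (P : Par) (t : Ci) : mm P t ≤ 1 := by
  unfold mm
  have h1 := P.ep_pos
  have h2 := le_max_left 0 (‖t - ((3 / 4 : ℝ) : Ci)‖ - 1 / 16)
  have := mul_nonneg h1.le h2
  linarith

/-- (the norm on the circle is at most `1/2`) -/
theorem mm_pos (P : Par) (t : Ci) : 0 < mm P t := by
  have h1 := P.ep_pos
  have h2 := P.ep_lt
  have h3 : ‖t - ((3 / 4 : ℝ) : Ci)‖ ≤ 1 / 2 := by
    rw [norm_cl, abs_le]
    have := cl_mem (t - ((3 / 4 : ℝ) : Ci))
    exact ⟨by linarith [this.1], this.2.le⟩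
  have h4 : max 0 (‖t - ((3 / 4 : ℝ) : Ci)‖ - 1 / 16) ≤ 7 / 16 :=
    max_le (by norm_num) (by linarith)
  have h5 := le_max_left 0 (‖t - ((3 / 4 : ℝ) : Ci)‖ - 1 / 16)
  unfold mm
  nlinarith

theorem mm_lt (P : Par) {t : Ci} (h : 1 / 16 < ‖t - ((3 / 4 : ℝ) : Ci)‖) : mm P t < 1 := by
  unfold mm
  have h1 := P.ep_pos
  have h2 : 0 < max 0 (‖t - ((3 / 4 : ℝ) : Ci)‖ - 1 / 16) :=
    lt_max_of_lt_right (by linarith)
  have := mul_pos h1 h2
  linarith

theorem mm_one (P : Par) {t : Ci} (h : ‖t - ((3 / 4 : ℝ) : Ci)‖ ≤ 1 / 16) : mm P t = 1 := by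
  unfold mm
  rw [max_eq_left (by linarith)]
  ring

end Pool.Agent.H.MP_1611f1_gt.BR.U
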