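import Pool.Agent.H.MP_1611f1_gt.BR.NPsiB
import Pool.Agent.H.MP_1611f1_gt.BR.NKap

/-!
Monotonicity of the functions D1 and D3; comparison on the overlap.
-/

namespace Pool.Agent.H.MP_1611f1_gt.BR.U

open Topology Set Filter

theorem NMono_cl_shift {u u' : Ci} {δ : ℝ} (h : |δ| < 1 / 2) (e : u' = u + (δ : Ci)) :
    cl (u' - u) = δ := by
  rw [e, add_sub_cancel_left]
  have h1 := abs_lt.1 h
  exact cl_coe ⟨by linarith [h1.1], h1.2⟩

theorem NMono_cl_sub_hlf_right {a : Ci} (h : cl a ∈ Ioo (1 / 8 : ℝ) (3 / 8)) :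
    cl (a - hlf) = cl a - 1 / 2 := by
  have h1 : a - hlf = ((cl a - 1 / 2 : ℝ) : Ci) := by
    rw [AddCircle.coe_sub, coe_cl, hlf]
  rw [h1]
  exact cl_coe ⟨by linarith [h.1], by linarith [h.2]⟩

theorem NMono_cl_sub_hlf_left {a : Ci} (h : cl a ∈ Ioo (-3 / 8 : ℝ) (-1 / 8)) :
    cl (a - hlf) = cl a + 1 / 2 := by
  have h0 : ((1 : ℝ) : Ci) = 0 := AddCircle.coe_period (1 : ℝ)
  have h1 : a - hlf = ((cl a + 1 / 2 : ℝ) : Ci) := by
    have h2 : (cl a + 1 / 2 : ℝ) = cl a - 1 / 2 + 1 := by ring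
    rw [h2, AddCircle.coe_add, AddCircle.coe_sub, coe_cl, h0, add_zero, hlf]
  rw [h1]
  exact cl_coe ⟨by linarith [h.1], by linarith [h.2]⟩

/-- the estimate of the exact term -/
theorem NMono_est (P : Par) {u u' : Ci} {δ : ℝ} (h0 : 0 < δ) (h1 : δ < 1 / 2)
    (ht : u' = u + (δ : Ci)) (b : Ci) :
    P.lam * |P.sig| * |(mm P u' * kap b - mm P u * kap b)| < (P.lam - 1) * δ := by
  have hlam := P.h1
  have hs : (0 : ℝ) < |P.sig| := abs_pos.2 P.h2
  have e1 : mm P u' * kap b - mm P u * kap b = (mm P u' - mm P u) * kap b := by ring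
  have e2 : ‖u' - u‖ = δ := by
    rw [norm_cl, NMono_cl_shift (by rw [abs_of_pos h0]; exact h1) ht, abs_of_pos h0]
  have h2 := mm_lip P u u'
  rw [e2] at h2
  have h3 := kap_abs b
  have h4 := P.ep_pos
  have h5 := P.ep_bound
  rw [e1, abs_mul]
  have h6 : |mm P u' - mm P u| * |kap b| ≤ P.ep * δ * (3 / 16) :=
    mul_le_mul h2 h3 (abs_nonneg _) (by positivity)
  have h7 : (0 : ℝ) < P.lam * |P.sig| := by positivity
  calc P.lam * |P.sig| * (|mm P u' - mm P u| * |kap b|)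
      ≤ P.lam * |P.sig| * (P.ep * δ * (3 / 16)) := mul_le_mul_of_nonneg_left h6 h7.le
    _ = (P.lam * |P.sig| * P.ep) * (δ * (3 / 16)) := by ring
    _ < (P.lam - 1) * (δ * (3 / 16)) := mul_lt_mul_of_pos_right h5 (by positivity)
    _ ≤ (P.lam - 1) * δ := by
        apply mul_le_mul_of_nonneg_left _ (by linarith)
        linarith

/-- the `t`-circles are transverse in the first region: `D1 = (lam - 1) δ - (..) kap (mm t' - mm t)`
and `|sig + (lam - 1) sig rmp| ≤ lam |sig|`, `|kap| ≤ 3/16`, `mm_lip`, `ep_bound` -/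
theorem D1_t (P : Par) {w w' : To} {δ : ℝ} (h0 : 0 < δ) (h1 : δ < 1 / 2) (ha : w'.1 = w.1)
    (hb : w'.2.1 = w.2.1) (ht : w'.2.2 = w.2.2 + (δ : Ci)) : 0 < D1 P w w' := by
  have hlam := P.h1
  have e1 : cl (w'.2.1 - w.2.1) = 0 := by rw [hb, sub_self, cl_zero]
  have e2 : cl (w'.2.2 - w.2.2) = δ := NMono_cl_shift (by rw [abs_of_pos h0]; exact h1) ht
  have e3 : ps1 w' = ps1 w := by unfold ps1; rw [ha, hb]
  have e4 : cl (ps1 w' - ps1 w) = 0 := by rw [e3, sub_self, cl_zero]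
  have hr := rmp_mem (cl w.1)
  have e5 : g1 P w' - g1 P w = -((1 + (P.lam - 1) * rmp (cl w.1)) * (P.sig *
      (mm P w'.2.2 * kap w.2.1 - mm P w.2.2 * kap w.2.1))) := by
    unfold g1
    rw [ha, hb]
    ring
  have h3 := NMono_est P h0 h1 ht w.2.1
  have h4 : |(1 + (P.lam - 1) * rmp (cl w.1)) * (P.sig *
      (mm P w'.2.2 * kap w.2.1 - mm P w.2.2 * kap w.2.1))| < (P.lam - 1) * δ := by
    refine lt_of_le_of_lt ?_ h3
    rw [abs_mul, abs_mul, mul_assoc P.lam]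
    apply mul_le_mul_of_nonneg_right _ (by positivity)
    rw [abs_of_nonneg (by nlinarith [hr.1, hr.2])]
    nlinarith [hr.1, hr.2]
  have h5 := (abs_lt.1 h4).2
  unfold D1
  rw [e1, e2, e4, e5]
  linarith

theorem NMono_cu_one {x y : ℝ} (h : 5 / 96 ≤ |x| ∨ 5 / 96 ≤ |y|) : cu x y = 1 := by
  apply cu_far
  rcases h with h | h
  · have h1 : (5 / 96 : ℝ) ^ 2 ≤ |x| ^ 2 := by gcongr
    rw [sq_abs] at h1
    nlinarith [sq_nonneg y]
  · have h1 : (5 / 96 : ℝ) ^ 2 ≤ |y| ^ 2 := by gcongr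
    rw [sq_abs] at h1
    nlinarith [sq_nonneg x]

theorem NMono_yt_cl {u : Ci} (h1 : -43 / 48 < yt u) (h2 : yt u < -5 / 48) :
    5 / 48 < |cl u| := by
  rcases le_or_gt (cl u) 0 with h | h
  · rw [yt_of_nonpos h] at h2
    rw [abs_of_nonpos h]
    linarith
  · rw [yt_of_pos h] at h1
    rw [abs_of_pos h]
    linarith

/-- the `t`-direction is transverse in the second region, away from the level `t = 0` of the tube:
there `cu = 1`, `ps3 w' - ps3 w = rmp x * δ` (`psi_mid`) -/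
theorem D3_t (P : Par) {w w' : To} {δ : ℝ} (h0 : 0 < δ) (h1 : δ < 1 / 2) (ha : w'.1 = w.1)
    (hb : w'.2.1 = w.2.1) (ht : w'.2.2 = w.2.2 + (δ : Ci)) (h2 : -43 / 48 < yt w.2.2)
    (h3 : yt w.2.2 + δ < -5 / 48) : 0 < D3 P w w' := by
  have hlam := P.h1
  have ey : yt w'.2.2 = yt w.2.2 + δ := by
    have h4 : w'.2.2 = ((yt w.2.2 + δ : ℝ) : Ci) := by
      rw [AddCircle.coe_add, coe_yt]
      exact ht
    rw [h4]
    exact yt_coe ⟨by linarith, by linarith⟩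
  have c1 : 5 / 48 < |cl w.2.2| := NMono_yt_cl h2 (by linarith)
  have c2 : 5 / 48 < |cl w'.2.2| := NMono_yt_cl (by rw [ey]; linarith) (by rw [ey]; exact h3)
  have u1 : cu (cl (w.1 - hlf)) (cl w.2.2) = 1 := NMono_cu_one (Or.inr (by linarith))
  have u2 : cu (cl (w.1 - hlf)) (cl w'.2.2) = 1 := NMono_cu_one (Or.inr (by linarith))
  have e1 : cl (w'.2.1 - w.2.1) = 0 := by rw [hb, sub_self, cl_zero]
  have e2 : cl (w'.2.2 - w.2.2) = δ := NMono_cl_shift (by rw [abs_of_pos h0]; exact h1) ht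
  have hr := rmp_mem (cl (w.1 - hlf))
  have e3 : cl (ps3 w' - ps3 w) = rmp (cl (w.1 - hlf)) * δ := by
    apply NMono_cl_shift
    · rw [abs_of_nonneg (mul_nonneg hr.1 h0.le)]
      nlinarith [hr.1, hr.2]
    · unfold ps3
      rw [ha, psi_mid (by linarith), psi_mid (by linarith), ey, ← AddCircle.coe_add]
      congr 1
      ring
  have e5 : g3 P w' - g3 P w = -(P.lam * (P.sig *
      (mm P w'.2.2 * kap w.2.1 - mm P w.2.2 * kap w.2.1))) := by
    unfold g3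
    rw [ha, hb, u1, u2]
    ring
  have h6 := NMono_est P h0 h1 ht w.2.1
  have h7 : |P.lam * (P.sig * (mm P w'.2.2 * kap w.2.1 - mm P w.2.2 * kap w.2.1))| <
      (P.lam - 1) * δ := by
    rw [abs_mul, abs_mul, abs_of_pos (show (0 : ℝ) < P.lam by linarith), ← mul_assoc]
    exact h6
  have h8 := (abs_lt.1 h7).2
  have h9 : 0 ≤ (P.lam - 1) ^ 2 * (rmp (cl (w.1 - hlf)) * δ) :=
    mul_nonneg (sq_nonneg _) (mul_nonneg hr.1 h0.le)
  unfold D3
  rw [e1, e2, e3, e5]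
  linarith

/-- the `b`-circles are transverse in the second region away from `t = 3/4`:
`D3 = lam sig (δ - cu mm (kap b' - kap b))`, `|kap b' - kap b| ≤ |δ|`, `0 ≤ cu mm < 1` -/
theorem D3_b (P : Par) {w w' : To} {δ : ℝ} (h0 : 0 < P.sig * δ) (h1 : |δ| < 1 / 8)
    (ha : w'.1 = w.1) (hb : w'.2.1 = w.2.1 + (δ : Ci)) (ht : w'.2.2 = w.2.2)
    (h2 : 1 / 16 < ‖w.2.2 - ((3 / 4 : ℝ) : Ci)‖) : 0 < D3 P w w' := by
  have hlam := P.h1
  have e1 : cl (w'.2.1 - w.2.1) = δ := NMono_cl_shift (by linarith) hb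
  have e2 : cl (w'.2.2 - w.2.2) = 0 := by rw [ht, sub_self, cl_zero]
  have e3 : ps3 w' = ps3 w := by unfold ps3; rw [ha, ht]
  have e4 : cl (ps3 w' - ps3 w) = 0 := by rw [e3, sub_self, cl_zero]
  have hk : |kap w'.2.1 - kap w.2.1| ≤ |δ| := by
    have h3 := kap_lip (b := w.2.1) (b' := w'.2.1) (by rw [e1]; exact h1)
    rwa [e1] at h3
  have hc := cu_mem (cl (w.1 - hlf)) (cl w.2.2)
  have hm1 := mm_lt P h2
  have hm0 := mm_pos P w.2.2
  have e5 : g3 P w' - g3 P w = -(P.lam * (P.sig * (cu (cl (w.1 - hlf)) (cl w.2.2) * mm P w.2.2 *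
      (kap w'.2.1 - kap w.2.1)))) := by
    unfold g3
    rw [ha, ht]
    ring
  have hs : (0 : ℝ) < |P.sig| := abs_pos.2 P.h2
  have hd : (0 : ℝ) < |δ| := by
    apply abs_pos.2
    rintro rfl
    simp at h0
  have h5 : |P.sig * (cu (cl (w.1 - hlf)) (cl w.2.2) * mm P w.2.2 *
      (kap w'.2.1 - kap w.2.1))| < P.sig * δ := by
    have e6 : P.sig * δ = |P.sig| * |δ| := by rw [← abs_mul, abs_of_pos h0]
    rw [e6, abs_mul]
    apply mul_lt_mul_of_pos_left _ hs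
    rw [abs_mul]
    have h6 : |cu (cl (w.1 - hlf)) (cl w.2.2) * mm P w.2.2| < 1 := by
      rw [abs_of_nonneg (mul_nonneg hc.1 hm0.le)]
      nlinarith [hc.1, hc.2]
    calc |cu (cl (w.1 - hlf)) (cl w.2.2) * mm P w.2.2| * |kap w'.2.1 - kap w.2.1|
        ≤ |cu (cl (w.1 - hlf)) (cl w.2.2) * mm P w.2.2| * |δ| :=
          mul_le_mul_of_nonneg_left hk (abs_nonneg _)
      _ < 1 * |δ| := mul_lt_mul_of_pos_right h6 hd
      _ = |δ| := one_mul _
  have h7 := (abs_lt.1 h5).2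
  unfold D3
  rw [e1, e2, e4, e5]
  have h8 : 0 < P.lam * (P.sig * δ - P.sig * (cu (cl (w.1 - hlf)) (cl w.2.2) * mm P w.2.2 *
      (kap w'.2.1 - kap w.2.1))) := mul_pos (by linarith) (by linarith)
  linarith

/-- if `cl a` and `cl a'` are in `(1/8, 3/8)`, then `D1 = D3`: `cu = 1` in both, `rmp (cl a) = 1`,
`ps1 w = b` (`psi_right`), `rmp (cl (a - 1/2)) = 0`, `ps3 w = 0` (`psi_left`) -/
theorem over_right (P : Par) {w w' : To} (h : cl w.1 ∈ Ioo (1 / 8 : ℝ) (3 / 8))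
    (h' : cl w'.1 ∈ Ioo (1 / 8 : ℝ) (3 / 8)) : D3 P w w' = D1 P w w' := by
  have key : ∀ z : To, cl z.1 ∈ Ioo (1 / 8 : ℝ) (3 / 8) → ps1 z = z.2.1 ∧ ps3 z = 0 ∧
      g1 P z = -(P.lam * P.sig * (mm P z.2.2 * kap z.2.1)) ∧
      g3 P z = -(P.lam * P.sig * (mm P z.2.2 * kap z.2.1)) := by
    intro z hz
    have e := NMono_cl_sub_hlf_right hz
    refine ⟨?_, ?_, ?_, ?_⟩
    · unfold ps1
      rw [psi_right hz.1.le]
      exact sub_add_cancel _ _
    · unfold ps3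
      rw [psi_left (by rw [e]; linarith [hz.2])]
    · unfold g1
      rw [NMono_cu_one (Or.inl (le_trans (by linarith [hz.1]) (le_abs_self _))),
        rmp_right (by linarith [hz.1])]
      ring
    · unfold g3
      rw [NMono_cu_one (Or.inl (le_trans (by rw [e]; linarith [hz.2]) (neg_le_abs _)))]
      ring
  obtain ⟨a1, a2, a3, a4⟩ := key w h
  obtain ⟨b1, b2, b3, b4⟩ := key w' h'
  unfold D3 D1
  rw [a1, a2, a3, a4, b1, b2, b3, b4, sub_self, cl_zero]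
  ring

/-- if `cl a` and `cl a'` are in `(-3/8, -1/8)`, then `D3 = lam * D1`: `ps1 w = 0`,
`cl (a - 1/2) = cl a + 1/2`, `ps3 w = t + 1/4`, `rmp (cl a) = 0` -/
theorem over_left (P : Par) {w w' : To} (h : cl w.1 ∈ Ioo (-3 / 8 : ℝ) (-1 / 8))
    (h' : cl w'.1 ∈ Ioo (-3 / 8 : ℝ) (-1 / 8)) : D3 P w w' = P.lam * D1 P w w' := by
  have key : ∀ z : To, cl z.1 ∈ Ioo (-3 / 8 : ℝ) (-1 / 8) → ps1 z = 0 ∧
      ps3 z = z.2.2 + ((1 / 4 : ℝ) : Ci) ∧
      g1 P z = -(P.sig * (mm P z.2.2 * kap z.2.1)) ∧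
      g3 P z = -(P.lam * P.sig * (mm P z.2.2 * kap z.2.1)) := by
    intro z hz
    have e := NMono_cl_sub_hlf_left hz
    refine ⟨?_, ?_, ?_, ?_⟩
    · unfold ps1
      rw [psi_left (by linarith [hz.2])]
    · unfold ps3
      rw [psi_right (by rw [e]; linarith [hz.1])]
    · unfold g1
      rw [NMono_cu_one (Or.inl (le_trans (by linarith [hz.2]) (neg_le_abs _))),
        rmp_left (by linarith [hz.2])]
      ring
    · unfold g3
      rw [NMono_cu_one (Or.inl (le_trans (by rw [e]; linarith [hz.1]) (le_abs_self _)))]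
      ring
  obtain ⟨a1, a2, a3, a4⟩ := key w h
  obtain ⟨b1, b2, b3, b4⟩ := key w' h'
  unfold D3 D1
  rw [a1, a2, a3, a4, b1, b2, b3, b4, sub_self, cl_zero, add_sub_add_right_eq_sub]
  ring

/-- `|cl a| < 3/8` and `|cl (a - 1/2)| < 3/8` imply `1/8 < |cl a| < 3/8`; `cl` is continuous at
`a` -/
theorem overlap (P : Par) {y : To} (h1 : y ∈ X1) (h3 : y ∈ X3) :
    OrdEq y (D1 P y) (D3 P y) := by
  have hlam := P.h1
  have q1 := abs_lt.1 h1.1
  have q3 := abs_lt.1 h3.1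
  have hc : ContinuousAt (fun w : To => cl w.1) y :=
    ContinuousAt.comp (g := cl) (f := fun w : To => w.1) (cl_contAt' (by linarith [h1.1]))
      continuous_fst.continuousAt
  rcases le_or_gt (cl y.1) (1 / 8) with ha | ha
  · rcases lt_or_ge (cl y.1) (-1 / 8) with hb | hb
    · have hy : cl y.1 ∈ Ioo (-3 / 8 : ℝ) (-1 / 8) := ⟨by linarith [q1.1], hb⟩
      have hN : ∀ᶠ w in 𝓝 y, cl w.1 ∈ Ioo (-3 / 8 : ℝ) (-1 / 8) :=
        hc.eventually (isOpen_Ioo.mem_nhds hy)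
      exact OrdEq.of_comp (fun s => P.lam * s)
        (fun u v huv => mul_lt_mul_of_pos_left huv (by linarith))
        (hN.mono fun w hw => over_left P hy hw)
    · exfalso
      rcases le_or_gt 0 (cl y.1) with h0 | h0
      · have e : cl (y.1 - hlf) = cl y.1 - 1 / 2 := by
          have e1 : y.1 - hlf = ((cl y.1 - 1 / 2 : ℝ) : Ci) := by
            rw [AddCircle.coe_sub, coe_cl, hlf]
          rw [e1]
          exact cl_coe ⟨by linarith, by linarith⟩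
        rw [e] at q3
        linarith [q3.1]
      · have e : cl (y.1 - hlf) = cl y.1 + 1 / 2 := by
          have e0 : ((1 : ℝ) : Ci) = 0 := AddCircle.coe_period (1 : ℝ)
          have e1 : y.1 - hlf = ((cl y.1 + 1 / 2 : ℝ) : Ci) := by
            have e2 : (cl y.1 + 1 / 2 : ℝ) = cl y.1 - 1 / 2 + 1 := by ring
            rw [e2, AddCircle.coe_add, AddCircle.coe_sub, coe_cl, e0, add_zero, hlf]
          rw [e1]
          exact cl_coe ⟨by linarith, by linarith⟩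
        rw [e] at q3
        linarith [q3.2]
  · have hy : cl y.1 ∈ Ioo (1 / 8 : ℝ) (3 / 8) := ⟨ha, q1.2⟩
    have hN : ∀ᶠ w in 𝓝 y, cl w.1 ∈ Ioo (1 / 8 : ℝ) (3 / 8) :=
      hc.eventually (isOpen_Ioo.mem_nhds hy)
    exact OrdEq.of_comp id strictMono_id (hN.mono fun w hw => over_right P hy hw)

end Pool.Agent.H.MP_1611f1_gt.BR.U
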