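import Pool.Agent.H.MP_1611f1_gt.BR.NNear
import Pool.Agent.H.MP_1611f1_gt.BR.NMono
import Pool.Agent.H.MP_1611f1_gt.BR.NCov
import Pool.Agent.H.MP_1611f1_gt.LS.UpE

/-!
The foliation of the torus minus two tubes.
-/

namespace Pool.Agent.H.MP_1611f1_gt.BR.U

open Topology Set Filter

/-- the torus minus two tubes -/
abbrev Mu := {y : To // y ∈ X1 ∪ X3}

/-- a chart whose last coordinate is `D1 P y` near `y` is adapted on a neighbourhood: if `y'` is in
the neighbourhood `N` of `D1_near`, then `D1 P y w = D1 P y y' + D1 P y' w` near `y'`; for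
`y' ∈ X3` use `overlap` -/
theorem adp_one (P : Par) {y : To} {N : Set To} (hN : IsOpen N) (hN1 : N ⊆ X1)
    (hadd : ∀ w ∈ N, ∀ w' ∈ N, D1 P w w' = D1 P y w' - D1 P y w)
    {c : OpenPartialHomeomorph To ((ℝ × ℝ) × ℝ)} (hc : c.source ⊆ N)
    (hcv : ∀ w ∈ c.source, (c w).2 = D1 P y w) : c ∈ (fol P).charts := by
  refine ⟨fun w hw => Or.inl (hN1 (hc hw)), fun y' hy' => ?_⟩
  have h1 : OrdEq y' (fun z => (c z).2) (D1 P y') := by
    refine ⟨c.source, c.open_source.mem_nhds hy', fun z hz z' hz' => ?_⟩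
    show (c z).2 < (c z').2 ↔ _
    rw [hcv z hz, hcv z' hz', hadd y' (hc hy') z (hc hz), hadd y' (hc hy') z' (hc hz'),
      sub_lt_sub_iff_right]
  exact ⟨fun _ => h1, fun h3 => h1.trans (overlap P (hN1 (hc hy')) h3)⟩

theorem adp_three (P : Par) {y : To} {N : Set To} (hN : IsOpen N) (hN1 : N ⊆ X3)
    (hadd : ∀ w ∈ N, ∀ w' ∈ N, D3 P w w' = D3 P y w' - D3 P y w)
    {c : OpenPartialHomeomorph To ((ℝ × ℝ) × ℝ)} (hc : c.source ⊆ N)
    (hcv : ∀ w ∈ c.source, (c w).2 = D3 P y w) : c ∈ (fol P).charts := by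
  refine ⟨fun w hw => Or.inr (hN1 (hc hw)), fun y' hy' => ?_⟩
  have h1 : OrdEq y' (fun z => (c z).2) (D3 P y') := by
    refine ⟨c.source, c.open_source.mem_nhds hy', fun z hz z' hz' => ?_⟩
    show (c z).2 < (c z').2 ↔ _
    rw [hcv z hz, hcv z' hz', hadd y' (hc hy') z (hc hz), hadd y' (hc hy') z' (hc hz'),
      sub_lt_sub_iff_right]
  exact ⟨fun h3 => h1.trans (overlap P h3 (hN1 (hc hy'))).symm, fun _ => h1⟩

/-- the lift `yt` near `3/4` -/
theorem NFol_yt {u : Ci} (h : ‖u - ((3 / 4 : ℝ) : Ci)‖ < 1 / 8) :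
    yt u ∈ Ioo (-3 / 8 : ℝ) (-1 / 8) := by
  rw [norm_cl] at h
  have h1 := abs_lt.1 h
  have h2 : u = ((-1 / 4 + cl (u - ((3 / 4 : ℝ) : Ci)) : ℝ) : Ci) := by
    have h3 : ((-1 / 4 : ℝ) : Ci) = ((3 / 4 : ℝ) : Ci) := by
      have h4 : ((-1 / 4 : ℝ) : Ci) = ((3 / 4 - 1 : ℝ) : Ci) := by norm_num
      have h5 : ((1 : ℝ) : Ci) = 0 := AddCircle.coe_period (1 : ℝ)
      rw [h4, AddCircle.coe_sub, h5, sub_zero]
    rw [AddCircle.coe_add, coe_cl, h3]
    abel
  have h3 : yt u = -1 / 4 + cl (u - ((3 / 4 : ℝ) : Ci)) := by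
    conv_lhs => rw [h2]
    exact yt_coe ⟨by linarith [h1.1], by linarith [h1.2]⟩
  rw [h3]
  constructor <;> linarith [h1.1, h1.2]

/-- (`chartT` and `D1_t`) -/
theorem fol_one (P : Par) {y : To} (h : y ∈ X1) : ∃ c ∈ (fol P).charts, y ∈ c.source := by
  obtain ⟨N, hN, hyN, hN1, hadd, hcont⟩ := D1_near P h
  obtain ⟨c, hy, hcN, hcv⟩ := chartT hN hyN hcont (δ₀ := 1 / 2) (by norm_num) (by
    intro w hw w' hw' δ h0 h1 ha hb ht
    have h2 := D1_t P h0 h1 ha hb ht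
    rw [hadd w hw w' hw'] at h2
    linarith)
  exact ⟨c, adp_one P hN hN1 hadd hcN hcv, hy⟩

/-- either `1/16 < ‖t - 3/4‖`: `chartB` with `e = ` the sign of `sig`, and `D3_b`; or
`-43/48 < yt t < -5/48` (then the same holds near `y`): `chartT` and `D3_t` -/
theorem fol_three (P : Par) {y : To} (h : y ∈ X3) : ∃ c ∈ (fol P).charts, y ∈ c.source := by
  obtain ⟨N, hN, hyN, hN1, hadd, hcont⟩ := D3_near P h
  have hnc : Continuous fun w : To => ‖w.2.2 - ((3 / 4 : ℝ) : Ci)‖ :=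
    (continuous_snd.snd.sub continuous_const).norm
  by_cases hcase : 1 / 16 < ‖y.2.2 - ((3 / 4 : ℝ) : Ci)‖
  · -- the direction of `b`
    set N' : Set To := N ∩ {w | 1 / 16 < ‖w.2.2 - ((3 / 4 : ℝ) : Ci)‖} with hN'
    have hN'o : IsOpen N' := hN.inter (isOpen_lt continuous_const hnc)
    have hadd' : ∀ w ∈ N', ∀ w' ∈ N', D3 P w w' = D3 P y w' - D3 P y w :=
      fun w hw w' hw' => hadd w hw.1 w' hw'.1
    obtain ⟨e, he, hes⟩ : ∃ e : ℝ, (e = 1 ∨ e = -1) ∧ 0 < P.sig * e := by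
      rcases lt_or_gt_of_ne P.h2 with h1 | h1
      · exact ⟨-1, Or.inr rfl, by linarith⟩
      · exact ⟨1, Or.inl rfl, by linarith⟩
    have hea : |e| = 1 := by
      rcases he with rfl | rfl
      · exact abs_one
      · rw [abs_neg, abs_one]
    obtain ⟨c, hy, hcN, hcv⟩ := chartB he hN'o (y := y) ⟨hyN, hcase⟩
      (hcont.mono inter_subset_left) (δ₀ := 1 / 8) (by norm_num) (by
      intro w hw w' hw' δ h0 h1 ha ht hb
      have h3 : 0 < P.sig * (e * δ) := by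
        rw [← mul_assoc]
        exact mul_pos hes h0
      have h4 : |e * δ| < 1 / 8 := by
        rw [abs_mul, hea, one_mul, abs_of_pos h0]
        exact h1
      have h2 := D3_b P h3 h4 ha hb ht hw.2
      rw [hadd' w hw w' hw'] at h2
      linarith)
    exact ⟨c, adp_three P hN'o (inter_subset_left.trans hN1) hadd' hcN hcv, hy⟩
  · -- the direction of `t`
    set N' : Set To := N ∩ {w | ‖w.2.2 - ((3 / 4 : ℝ) : Ci)‖ < 1 / 8} with hN'
    have hN'o : IsOpen N' := hN.inter (isOpen_lt hnc continuous_const)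
    have hadd' : ∀ w ∈ N', ∀ w' ∈ N', D3 P w w' = D3 P y w' - D3 P y w :=
      fun w hw w' hw' => hadd w hw.1 w' hw'.1
    have hyN' : y ∈ N' := ⟨hyN, by
      show ‖y.2.2 - ((3 / 4 : ℝ) : Ci)‖ < 1 / 8
      have := not_lt.1 hcase
      linarith⟩
    obtain ⟨c, hy, hcN, hcv⟩ := chartT hN'o hyN'
      (hcont.mono inter_subset_left) (δ₀ := 1 / 48) (by norm_num) (by
      intro w hw w' hw' δ h0 h1 ha hb ht
      have h3 := NFol_yt hw.2
      have h2 := D3_t P h0 (by linarith) ha hb ht (by linarith [h3.1]) (by linarith [h3.2])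
      rw [hadd' w hw w' hw'] at h2
      linarith)
    exact ⟨c, adp_three P hN'o (inter_subset_left.trans hN1) hadd' hcN hcv, hy⟩

theorem fol_dom (P : Par) : (fol P).dom = X1 ∪ X3 := by
  ext y
  constructor
  · rintro ⟨c, hc, hy⟩
    exact hc.1 hy
  · rintro (h | h)
    · exact fol_one P h
    · exact fol_three P h

theorem Mu_emb : IsOpenEmbedding (Subtype.val : Mu → To) :=
  (X1_open.union X3_open).isOpenEmbedding_subtypeVal

theorem exists_F (P : Par) :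
    ∃ F : Foliation Mu, F.charts = LS.pullCharts (Subtype.val : Mu → To) (fol P) :=
  LS.exists_pull Mu_emb (fol P) fun x => by
    rw [fol_dom]
    exact x.2

variable {P : Par} {F : Foliation Mu}
  (hF : F.charts = LS.pullCharts (Subtype.val : Mu → To) (fol P))

include hF in
/-- (unfold `pullCharts`, `OrdEq.comp_cont`, `OrdEq.congr`) -/
theorem F_one {c : OpenPartialHomeomorph Mu ((ℝ × ℝ) × ℝ)} (hc : c ∈ F.charts) {z : Mu}
    (hz : z ∈ c.source) (h : z.1 ∈ X1) :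
    OrdEq z (fun w => (c w).2) (fun w => D1 P z.1 w.1) := by
  rw [hF] at hc
  obtain ⟨c0, hc0, hs, hv⟩ := hc
  have hz0 : z.1 ∈ c0.source := by
    have := hz
    rw [hs] at this
    exact this
  have h1 := OrdEq.comp_cont (R := (Subtype.val : Mu → To)) (z₀ := z)
    continuous_subtype_val.continuousAt ((hc0.2 z.1 hz0).one h)
  refine OrdEq.congr h1 ?_ (Eventually.of_forall fun _ => rfl)
  filter_upwards [c.open_source.mem_nhds hz] with w hw
  exact hv w hw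

include hF in
theorem F_three {c : OpenPartialHomeomorph Mu ((ℝ × ℝ) × ℝ)} (hc : c ∈ F.charts) {z : Mu}
    (hz : z ∈ c.source) (h : z.1 ∈ X3) :
    OrdEq z (fun w => (c w).2) (fun w => D3 P z.1 w.1) := by
  rw [hF] at hc
  obtain ⟨c0, hc0, hs, hv⟩ := hc
  have hz0 : z.1 ∈ c0.source := by
    have := hz
    rw [hs] at this
    exact this
  have h1 := OrdEq.comp_cont (R := (Subtype.val : Mu → To)) (z₀ := z)
    continuous_subtype_val.continuousAt ((hc0.2 z.1 hz0).three h)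
  refine OrdEq.congr h1 ?_ (Eventually.of_forall fun _ => rfl)
  filter_upwards [c.open_source.mem_nhds hz] with w hw
  exact hv w hw

include hF in
/-- the same for pairs of points (from `F_one` and `D1_near`) -/
theorem F_one' {c : OpenPartialHomeomorph Mu ((ℝ × ℝ) × ℝ)} (hc : c ∈ F.charts) {z : Mu}
    (hz : z ∈ c.source) (h : z.1 ∈ X1) :
    ∃ V ∈ 𝓝 z, ∀ w ∈ V, ∀ w' ∈ V, (c w).2 < (c w').2 ↔ 0 < D1 P w.1 w'.1 := by
  obtain ⟨V, hV, h1⟩ := F_one hF hc hz h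
  obtain ⟨N, hN, hyN, -, hadd, -⟩ := D1_near P h
  refine ⟨V ∩ Subtype.val ⁻¹' N, inter_mem hV
    ((hN.preimage continuous_subtype_val).mem_nhds hyN), fun w hw w' hw' => ?_⟩
  rw [hadd w.1 hw.2 w'.1 hw'.2, sub_pos]
  exact h1 w hw.1 w' hw'.1

include hF in
theorem F_three' {c : OpenPartialHomeomorph Mu ((ℝ × ℝ) × ℝ)} (hc : c ∈ F.charts) {z : Mu}
    (hz : z ∈ c.source) (h : z.1 ∈ X3) :
    ∃ V ∈ 𝓝 z, ∀ w ∈ V, ∀ w' ∈ V, (c w).2 < (c w').2 ↔ 0 < D3 P w.1 w'.1 := by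
  obtain ⟨V, hV, h1⟩ := F_three hF hc hz h
  obtain ⟨N, hN, hyN, -, hadd, -⟩ := D3_near P h
  refine ⟨V ∩ Subtype.val ⁻¹' N, inter_mem hV
    ((hN.preimage continuous_subtype_val).mem_nhds hyN), fun w hw w' hw' => ?_⟩
  rw [hadd w.1 hw.2 w'.1 hw'.2, sub_pos]
  exact h1 w hw.1 w' hw'.1

end Pool.Agent.H.MP_1611f1_gt.BR.U
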