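import Pool.Agent.H.MP_1611f1_gt.BR.NTub

/-!
The local functions near the leaf curve.
-/

namespace Pool.Agent.H.MP_1611f1_gt.BR.U

open Topology Set Filter

/-- the lift of the second coordinate -/
theorem NNb_b (x : ℝ) : |BR.sq x / 32| < 3 / 32 := by
  have h := abs_lt.1 (BR.sq_lt x)
  exact abs_lt.2 ⟨by linarith [h.1], by linarith [h.2]⟩

theorem NNb_clb (x : ℝ) : cl ((BR.sq x / 32 : ℝ) : Ci) = BR.sq x / 32 := by
  have h := abs_lt.1 (NNb_b x)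
  exact cl_coe ⟨by linarith [h.1], by linarith [h.2]⟩

theorem NNb_ytb (x : ℝ) : yt (((BR.sq x / 32 : ℝ) : Ci) - hlf) = BR.sq x / 32 - 1 / 2 := by
  have h := abs_lt.1 (NNb_b x)
  unfold hlf
  rw [← AddCircle.coe_sub]
  exact yt_coe ⟨by linarith [h.1], by linarith [h.2]⟩

theorem NNb_cldiff {x y : ℝ} (h : |y - x| < 1 / 2) : cl ((y : Ci) - (x : Ci)) = y - x := by
  have h1 := abs_lt.1 h
  rw [← AddCircle.coe_sub]
  exact cl_coe ⟨by linarith [h1.1], by linarith [h1.2]⟩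

/-- the product of a number of `[0,1]` and a small number -/
theorem NNb_mul {r x c : ℝ} (h0 : 0 ≤ r) (h1 : r ≤ 1) (hx : |x| < c) : |r * x| < c := by
  rw [abs_mul, abs_of_nonneg h0]
  have h2 := mul_nonneg (sub_nonneg.2 h1) (abs_nonneg x)
  have h3 : (1 - r) * |x| = |x| - r * |x| := by ring
  linarith

theorem NNb_diff {x y c : ℝ} (hx : |x| < c) (hy : |y| < c) : |y - x| < 2 * c := by
  have h1 := abs_lt.1 hx
  have h2 := abs_lt.1 hy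
  exact abs_lt.2 ⟨by linarith [h1.1, h1.2, h2.1, h2.2], by linarith [h1.1, h1.2, h2.1, h2.2]⟩

/-- far from the disc the cut-off is `1` -/
theorem NNb_cu {x y c : ℝ} (h : c < |y|) (hc : 5 / 96 ≤ c) : cu x y = 1 := by
  apply cu_far
  have h1 : |y| ^ 2 = y ^ 2 := sq_abs y
  have h2 : 0 ≤ x ^ 2 := sq_nonneg x
  nlinarith

theorem NNb_mm (P : Par) {s : ℝ} (hs : s ∈ Ioo (-1 / 2 : ℝ) 1) :
    mm P ((3 / 4 + hgt s : ℝ) : Ci) = 1 := by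
  apply mm_one
  have h := hgt_small hs
  have h1 := abs_lt.1 h
  have h2 : ((3 / 4 + hgt s : ℝ) : Ci) - ((3 / 4 : ℝ) : Ci) = ((hgt s : ℝ) : Ci) := by
    rw [← AddCircle.coe_sub]
    congr 1
    ring
  rw [h2, norm_cl, cl_coe ⟨by linarith [h1.1], by linarith [h1.2]⟩]
  exact h.le

/-- the function `ps1` near the leaf curve -/
theorem NNb_ps1 (w : LS.Cov) : ps1 (nb ((w.1 : Ci), w.2)) =
    ((rmp (cl (w.1 : Ci)) * (BR.sq w.2.1 / 32) : ℝ) : Ci) := by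
  have h := nb_b' ((w.1 : Ci), w.2)
  have h1 : ps1 (nb ((w.1 : Ci), w.2)) =
      psi (1 / 2) (cl (w.1 : Ci)) (((BR.sq w.2.1 / 32 : ℝ) : Ci) - hlf) := rfl
  have h2 : (nb ((w.1 : Ci), w.2)).2.1 = ((BR.sq w.2.1 / 32 : ℝ) : Ci) := rfl
  rw [h2] at h
  rw [h1, psi_mid (by linarith), NNb_ytb]
  congr 2
  ring

/-- the function `g1` near the leaf curve -/
theorem NNb_g1 (P : Par) (w : LS.Cov) (hs : w.2.2 ∈ Ioo (-1 / 2 : ℝ) 1) :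
    g1 P (nb ((w.1 : Ci), w.2)) =
      -((P.sig + (P.lam - 1) * P.sig * rmp (cl (w.1 : Ci))) * (BR.sq w.2.1 / 32)) := by
  have h := nb_b' ((w.1 : Ci), w.2)
  have h1 : g1 P (nb ((w.1 : Ci), w.2)) =
      -(1 - cu (cl (w.1 : Ci)) (cl (((BR.sq w.2.1 / 32 : ℝ) : Ci) - hlf))) *
        (P.sig * cl (((BR.sq w.2.1 / 32 : ℝ) : Ci) - hlf)) -
      (P.sig + (P.lam - 1) * P.sig * rmp (cl (w.1 : Ci))) *
        (mm P ((3 / 4 + hgt w.2.2 : ℝ) : Ci) * kap ((BR.sq w.2.1 / 32 : ℝ) : Ci)) := rfl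
  have h2 : (nb ((w.1 : Ci), w.2)).2.1 = ((BR.sq w.2.1 / 32 : ℝ) : Ci) := rfl
  rw [h2] at h
  have h3 := NNb_b w.2.1
  rw [h1, NNb_cu h (by norm_num), NNb_mm P hs, kap_id (by rw [NNb_clb]; linarith), NNb_clb]
  ring

/-- the function `ps3` near the leaf curve -/
theorem NNb_ps3 (w : LS.Cov) : ps3 (nb ((w.1 : Ci), w.2)) =
    ((rmp (cl ((w.1 : Ci) - hlf)) * hgt w.2.2 : ℝ) : Ci) := by
  have h := nb_t' ((w.1 : Ci), w.2)
  have h0 := nb_t ((w.1 : Ci), w.2)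
  have h1 : ps3 (nb ((w.1 : Ci), w.2)) =
      psi (1 / 4) (cl ((w.1 : Ci) - hlf)) (nb ((w.1 : Ci), w.2)).2.2 := rfl
  rw [h1, psi_mid (by linarith), h0]
  congr 2
  ring

/-- the function `g3` near the leaf curve -/
theorem NNb_g3 (P : Par) (w : LS.Cov) (hs : w.2.2 ∈ Ioo (-1 / 2 : ℝ) 1) :
    g3 P (nb ((w.1 : Ci), w.2)) = -(P.lam * P.sig * (BR.sq w.2.1 / 32)) := by
  have h := nb_t' ((w.1 : Ci), w.2)
  have h1 : g3 P (nb ((w.1 : Ci), w.2)) =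
      -(1 - cu (cl ((w.1 : Ci) - hlf)) (cl (nb ((w.1 : Ci), w.2)).2.2)) *
        ((P.lam - 1) * cl (nb ((w.1 : Ci), w.2)).2.2) -
      P.lam * P.sig * (cu (cl ((w.1 : Ci) - hlf)) (cl (nb ((w.1 : Ci), w.2)).2.2) *
        mm P ((3 / 4 + hgt w.2.2 : ℝ) : Ci) * kap ((BR.sq w.2.1 / 32 : ℝ) : Ci)) := rfl
  have h3 := NNb_b w.2.1
  rw [h1, NNb_cu h (by norm_num), NNb_mm P hs, kap_id (by rw [NNb_clb]; linarith), NNb_clb]
  ring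

/-- the difference of the second coordinates -/
theorem NNb_db (w w' : LS.Cov) :
    cl ((nb ((w'.1 : Ci), w'.2)).2.1 - (nb ((w.1 : Ci), w.2)).2.1) =
      BR.sq w'.2.1 / 32 - BR.sq w.2.1 / 32 := by
  have h := NNb_diff (NNb_b w.2.1) (NNb_b w'.2.1)
  exact NNb_cldiff (by linarith)

/-- the difference of the third coordinates -/
theorem NNb_dt {w w' : LS.Cov} (hs : w.2.2 ∈ Ioo (-1 / 2 : ℝ) 1)
    (hs' : w'.2.2 ∈ Ioo (-1 / 2 : ℝ) 1) :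
    cl ((nb ((w'.1 : Ci), w'.2)).2.2 - (nb ((w.1 : Ci), w.2)).2.2) =
      hgt w'.2.2 - hgt w.2.2 := by
  have h := NNb_diff (hgt_small hs) (hgt_small hs')
  have h1 : (3 / 4 + hgt w'.2.2) - (3 / 4 + hgt w.2.2) = hgt w'.2.2 - hgt w.2.2 := by ring
  rw [← h1]
  exact NNb_cldiff (by rw [h1]; linarith)

theorem NNb_V {z : LS.Cov} (hs : z.2.2 ∈ Ioo (-1 / 2 : ℝ) 1) :
    {w : LS.Cov | w.2.2 ∈ Ioo (-1 / 2 : ℝ) 1} ∈ 𝓝 z := by
  have h : IsOpen {w : LS.Cov | w.2.2 ∈ Ioo (-1 / 2 : ℝ) 1} :=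
    isOpen_Ioo.preimage (continuous_snd.comp continuous_snd)
  exact h.mem_nhds hs

/-- in the neighbourhood of the leaf curve, in the first region: `cu = 1`
(`|cl (b - 1/2)| > 13/32`), `ps1 = rmp (cl a) * b` (`psi_mid`: `yt (b - 1/2) + 1/2 = b`), `mm = 1`,
`kap b = b` -/
theorem D1_nb (P : Par) {z : LS.Cov} (h : |cl (z.1 : Ci)| < 3 / 8)
    (hs : z.2.2 ∈ Ioo (-1 / 2 : ℝ) 1) :
    ∃ V ∈ 𝓝 z, ∀ w ∈ V, ∀ w' ∈ V, D1 P (nb ((w.1 : Ci), w.2)) (nb ((w'.1 : Ci), w'.2)) =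
      (P.lam - 1) * (hgt w'.2.2 - hgt w.2.2) := by
  refine ⟨_, NNb_V hs, fun w hw w' hw' => ?_⟩
  have m := rmp_mem (cl (w.1 : Ci))
  have m' := rmp_mem (cl (w'.1 : Ci))
  have d := NNb_diff (NNb_mul m.1 m.2 (NNb_b w.2.1)) (NNb_mul m'.1 m'.2 (NNb_b w'.2.1))
  unfold D1
  rw [NNb_db, NNb_dt hw hw', NNb_ps1, NNb_ps1, NNb_cldiff (by linarith), NNb_g1 P w hw,
    NNb_g1 P w' hw']
  ring

/-- in the second region: `cu = 1` (`|cl t| > 7/32`), `ps3 = rmp (cl (a - 1/2)) * hgt s` (`psi_mid`,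
`nb_t`), `mm = 1`, `kap b = b` -/
theorem D3_nb (P : Par) {z : LS.Cov} (h : |cl ((z.1 : Ci) - hlf)| < 3 / 8)
    (hs : z.2.2 ∈ Ioo (-1 / 2 : ℝ) 1) :
    ∃ V ∈ 𝓝 z, ∀ w ∈ V, ∀ w' ∈ V, D3 P (nb ((w.1 : Ci), w.2)) (nb ((w'.1 : Ci), w'.2)) =
      (P.lam - 1) * ((1 + (P.lam - 1) * rmp (cl ((w'.1 : Ci) - hlf))) * hgt w'.2.2 -
        (1 + (P.lam - 1) * rmp (cl ((w.1 : Ci) - hlf))) * hgt w.2.2) := by
  refine ⟨_, NNb_V hs, fun w hw w' hw' => ?_⟩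
  have m := rmp_mem (cl ((w.1 : Ci) - hlf))
  have m' := rmp_mem (cl ((w'.1 : Ci) - hlf))
  have d := NNb_diff (NNb_mul m.1 m.2 (hgt_small hw)) (NNb_mul m'.1 m'.2 (hgt_small hw'))
  unfold D3
  rw [NNb_db, NNb_dt hw hw', NNb_ps3, NNb_ps3, NNb_cldiff (by linarith), NNb_g3 P w hw,
    NNb_g3 P w' hw']
  ring

end Pool.Agent.H.MP_1611f1_gt.BR.U
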