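import Pool.Agent.H.MP_1611f1_gt.BR.NPsiB
import Pool.Agent.H.MP_1611f1_gt.BR.NKap

/-!
The local functions: change of the base point, continuity.
-/

namespace Pool.Agent.H.MP_1611f1_gt.BR.U

open Topology Set Filter

theorem NNear_cl {T : Type*} [TopologicalSpace T] {θ : T → Ci} {y : T} (hθ : ContinuousAt θ y)
    (h : |cl (θ y)| < 1 / 2) : ContinuousAt (fun w => cl (θ w)) y :=
  ContinuousAt.comp (g := cl) (f := θ) (cl_contAt' h) hθ

theorem NNear_far {T : Type*} [TopologicalSpace T] {x : T → ℝ} {θ : T → Ci} {y : T}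
    (hθ : ContinuousAt θ y) (h : 1 / 4 < |cl (θ y)|) :
    ∀ᶠ w in 𝓝 y, cu (x w) (cl (θ w)) = 1 := by
  have h1 : ContinuousAt (fun w => ‖θ w‖) y := hθ.norm
  have h2 : (1 / 4 : ℝ) < ‖θ y‖ := by rw [norm_cl]; exact h
  filter_upwards [h1.eventually (lt_mem_nhds h2)] with w hw
  rw [norm_cl] at hw
  refine cu_far ?_
  have h3 : |cl (θ w)| ^ 2 = cl (θ w) ^ 2 := sq_abs _
  nlinarith [sq_nonneg (x w)]

theorem NNear_cu {T : Type*} [TopologicalSpace T] {x : T → ℝ} {θ : T → Ci} {y : T}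
    (hx : ContinuousAt x y) (hθ : ContinuousAt θ y) :
    ContinuousAt (fun w => cu (x w) (cl (θ w))) y := by
  rcases lt_or_ge |cl (θ y)| (1 / 2) with h | h
  · exact ContinuousAt.comp (g := fun z : ℝ × ℝ => cu z.1 z.2) (f := fun w => (x w, cl (θ w)))
      cu_cont.continuousAt (hx.prodMk (NNear_cl hθ h))
  · have h1 : (fun w => cu (x w) (cl (θ w))) =ᶠ[𝓝 y] fun _ => (1 : ℝ) :=
      NNear_far hθ (by linarith)
    exact continuousAt_const.congr h1.symm

theorem NNear_cucl {T : Type*} [TopologicalSpace T] {x : T → ℝ} {θ : T → Ci} {y : T} (c : ℝ)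
    (hx : ContinuousAt x y) (hθ : ContinuousAt θ y) :
    ContinuousAt (fun w => -(1 - cu (x w) (cl (θ w))) * (c * cl (θ w))) y := by
  rcases lt_or_ge |cl (θ y)| (1 / 2) with h | h
  · have h1 := NNear_cu hx hθ
    have h2 := NNear_cl hθ h
    exact (continuousAt_const.sub h1).neg.mul (continuousAt_const.mul h2)
  · have h1 : (fun w => -(1 - cu (x w) (cl (θ w))) * (c * cl (θ w))) =ᶠ[𝓝 y] fun _ => (0 : ℝ) := by
      filter_upwards [NNear_far (x := x) hθ (by linarith)] with w hw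
      rw [hw]
      ring
    exact continuousAt_const.congr h1.symm

theorem NNear_a (y : To) : ContinuousAt (fun w : To => w.1) y := continuousAt_fst

theorem NNear_b (y : To) : ContinuousAt (fun w : To => w.2.1) y :=
  (continuous_fst.comp continuous_snd).continuousAt

theorem NNear_t (y : To) : ContinuousAt (fun w : To => w.2.2) y :=
  (continuous_snd.comp continuous_snd).continuousAt

theorem NNear_x1 {y : To} (h : y ∈ X1) : ContinuousAt (fun w : To => cl w.1) y :=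
  NNear_cl (NNear_a y) (by have := h.1; linarith)

theorem NNear_x3 {y : To} (h : y ∈ X3) : ContinuousAt (fun w : To => cl (w.1 - hlf)) y :=
  NNear_cl ((NNear_a y).sub continuousAt_const) (by have := h.1; linarith)

/-- on `X1`, `cl w.1` is continuous since `|cl w.1| < 3/8` -/
theorem ps1_contAt {y : To} (h : y ∈ X1) : ContinuousAt ps1 y :=
  ContinuousAt.comp (g := fun z : ℝ × Ci => psi (1 / 2) z.1 z.2)
    (f := fun w : To => (cl w.1, w.2.1 - hlf)) (psi_contAt (1 / 2) h.2)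
    ((NNear_x1 h).prodMk ((NNear_b y).sub continuousAt_const))

theorem ps3_contAt {y : To} (h : y ∈ X3) : ContinuousAt ps3 y :=
  ContinuousAt.comp (g := fun z : ℝ × Ci => psi (1 / 4) z.1 z.2)
    (f := fun w : To => (cl (w.1 - hlf), w.2.2)) (psi_contAt (1 / 4) h.2)
    ((NNear_x3 h).prodMk (NNear_t y))

/-- `cl (b - 1/2)` is continuous except at `b = 0`, and there `cu = 1` near the point -/
theorem g1_contAt (P : Par) {y : To} (h : y ∈ X1) : ContinuousAt (g1 P) y := by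
  have h1 := NNear_x1 h
  have h2 : ContinuousAt (fun w : To => w.2.1 - hlf) y := (NNear_b y).sub continuousAt_const
  have h3 := NNear_cucl P.sig h1 h2
  have h4 : ContinuousAt (fun w : To => rmp (cl w.1)) y :=
    ContinuousAt.comp (g := rmp) (f := fun w : To => cl w.1) rmp_cont.continuousAt h1
  have h5 : ContinuousAt (fun w : To => mm P w.2.2) y :=
    ContinuousAt.comp (g := mm P) (f := fun w : To => w.2.2) (mm_cont P).continuousAt (NNear_t y)
  have h6 : ContinuousAt (fun w : To => kap w.2.1) y :=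
    ContinuousAt.comp (g := kap) (f := fun w : To => w.2.1) kap_cont.continuousAt (NNear_b y)
  exact h3.sub ((continuousAt_const.add (continuousAt_const.mul h4)).mul (h5.mul h6))

theorem g3_contAt (P : Par) {y : To} (h : y ∈ X3) : ContinuousAt (g3 P) y := by
  have h1 := NNear_x3 h
  have h3 := NNear_cucl (P.lam - 1) h1 (NNear_t y)
  have h4 := NNear_cu h1 (NNear_t y)
  have h5 : ContinuousAt (fun w : To => mm P w.2.2) y :=
    ContinuousAt.comp (g := mm P) (f := fun w : To => w.2.2) (mm_cont P).continuousAt (NNear_t y)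
  have h6 : ContinuousAt (fun w : To => kap w.2.1) y :=
    ContinuousAt.comp (g := kap) (f := fun w : To => w.2.1) kap_cont.continuousAt (NNear_b y)
  exact h3.sub (continuousAt_const.mul ((h4.mul h5).mul h6))

theorem NNear_X1 : X1 = {w : To | ‖w.1‖ < 3 / 8 ∧ 1 / 1024 < ‖w.1‖ ^ 2 + ‖w.2.1 - hlf‖ ^ 2} := by
  ext w
  show (|cl w.1| < 3 / 8 ∧ 1 / 1024 < cl w.1 ^ 2 + cl (w.2.1 - hlf) ^ 2) ↔
    (‖w.1‖ < 3 / 8 ∧ 1 / 1024 < ‖w.1‖ ^ 2 + ‖w.2.1 - hlf‖ ^ 2)
  rw [norm_cl, norm_cl, sq_abs, sq_abs]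

theorem NNear_X3 : X3 = {w : To | ‖w.1 - hlf‖ < 3 / 8 ∧ 1 / 1024 < ‖w.1 - hlf‖ ^ 2 + ‖w.2.2‖ ^ 2} := by
  ext w
  show (|cl (w.1 - hlf)| < 3 / 8 ∧ 1 / 1024 < cl (w.1 - hlf) ^ 2 + cl w.2.2 ^ 2) ↔
    (‖w.1 - hlf‖ < 3 / 8 ∧ 1 / 1024 < ‖w.1 - hlf‖ ^ 2 + ‖w.2.2‖ ^ 2)
  rw [norm_cl, norm_cl, sq_abs, sq_abs]

/-- (`|cl w.1| < 3/8` is an open condition; at the points with `b = 0`, where `cl (b - 1/2)` is not
continuous, we have `1/1024 < cl (b - 1/2) ^ 2` near the point; or: write the square as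
`‖b - 1/2‖ ^ 2`, see `norm_cl`) -/
theorem X1_open : IsOpen X1 := by
  rw [NNear_X1]
  have h1 : IsOpen {w : To | ‖w.1‖ < 3 / 8} := isOpen_lt (by fun_prop) continuous_const
  have h2 : IsOpen {w : To | 1 / 1024 < ‖w.1‖ ^ 2 + ‖w.2.1 - hlf‖ ^ 2} :=
    isOpen_lt continuous_const (by fun_prop)
  exact h1.and h2

theorem X3_open : IsOpen X3 := by
  rw [NNear_X3]
  have h1 : IsOpen {w : To | ‖w.1 - hlf‖ < 3 / 8} := isOpen_lt (by fun_prop) continuous_const
  have h2 : IsOpen {w : To | 1 / 1024 < ‖w.1 - hlf‖ ^ 2 + ‖w.2.2‖ ^ 2} :=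
    isOpen_lt continuous_const (by fun_prop)
  exact h1.and h2

/-- the general form -/
theorem NNear_gen {X : Set To} (hX : IsOpen X) {ps : To → Ci} (hps : ∀ y ∈ X, ContinuousAt ps y)
    {g : To → ℝ} (hg : ∀ y ∈ X, ContinuousAt g y) (α β γ : ℝ) {D : To → To → ℝ}
    (hD : ∀ w w', D w w' = α * cl (w'.2.1 - w.2.1) + β * cl (w'.2.2 - w.2.2) +
      γ * cl (ps w' - ps w) + (g w' - g w)) {y : To} (h : y ∈ X) :
    ∃ N : Set To, IsOpen N ∧ y ∈ N ∧ N ⊆ X ∧
      (∀ w ∈ N, ∀ w' ∈ N, D w w' = D y w' - D y w) ∧ ContinuousOn (D y) N := by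
  have hf : ContinuousOn (fun w : To => ((w.2.1 - y.2.1, w.2.2 - y.2.2), ps w - ps y)) X := by
    intro w hw
    refine ContinuousAt.continuousWithinAt ?_
    exact (((NNear_b w).sub continuousAt_const).prodMk ((NNear_t w).sub continuousAt_const)).prodMk
      ((hps w hw).sub continuousAt_const)
  have u1 : IsOpen {u : (Ci × Ci) × Ci | ‖u.1.1‖ < 1 / 4} :=
    isOpen_lt (by fun_prop) continuous_const
  have u2 : IsOpen {u : (Ci × Ci) × Ci | ‖u.1.2‖ < 1 / 4} :=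
    isOpen_lt (by fun_prop) continuous_const
  have u3 : IsOpen {u : (Ci × Ci) × Ci | ‖u.2‖ < 1 / 4} :=
    isOpen_lt (by fun_prop) continuous_const
  have hU : IsOpen {u : (Ci × Ci) × Ci | (‖u.1.1‖ < 1 / 4 ∧ ‖u.1.2‖ < 1 / 4) ∧ ‖u.2‖ < 1 / 4} :=
    (u1.and u2).and u3
  have hN := hf.isOpen_inter_preimage hX hU
  refine ⟨_, hN, ⟨h, ?_⟩, inter_subset_left, ?_, ?_⟩
  · show (‖y.2.1 - y.2.1‖ < 1 / 4 ∧ ‖y.2.2 - y.2.2‖ < 1 / 4) ∧ ‖ps y - ps y‖ < 1 / 4
    rw [sub_self, sub_self, sub_self, norm_zero]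
    norm_num
  · rintro w ⟨-, ⟨h1, h2⟩, h3⟩ w' ⟨-, ⟨h1', h2'⟩, h3'⟩
    have h1 : ‖w.2.1 - y.2.1‖ < 1 / 4 := h1
    have h2 : ‖w.2.2 - y.2.2‖ < 1 / 4 := h2
    have h3 : ‖ps w - ps y‖ < 1 / 4 := h3
    have h1' : ‖w'.2.1 - y.2.1‖ < 1 / 4 := h1'
    have h2' : ‖w'.2.2 - y.2.2‖ < 1 / 4 := h2'
    have h3' : ‖ps w' - ps y‖ < 1 / 4 := h3'
    rw [norm_cl] at h1 h2 h3 h1' h2' h3'
    rw [hD, hD, hD, cl_base h1 h1', cl_base h2 h2', cl_base h3 h3']
    ring
  · rintro w ⟨hw, ⟨h1, h2⟩, h3⟩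
    have h1 : ‖w.2.1 - y.2.1‖ < 1 / 4 := h1
    have h2 : ‖w.2.2 - y.2.2‖ < 1 / 4 := h2
    have h3 : ‖ps w - ps y‖ < 1 / 4 := h3
    rw [norm_cl] at h1 h2 h3
    have e1 : ContinuousAt (fun w : To => cl (w.2.1 - y.2.1)) w :=
      NNear_cl ((NNear_b w).sub continuousAt_const) (by linarith)
    have e2 : ContinuousAt (fun w : To => cl (w.2.2 - y.2.2)) w :=
      NNear_cl ((NNear_t w).sub continuousAt_const) (by linarith)
    have e3 : ContinuousAt (fun w : To => cl (ps w - ps y)) w :=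
      NNear_cl ((hps w hw).sub continuousAt_const) (by linarith)
    refine ContinuousAt.continuousWithinAt ?_
    have e4 : D y = fun w' => α * cl (w'.2.1 - y.2.1) + β * cl (w'.2.2 - y.2.2) +
      γ * cl (ps w' - ps y) + (g w' - g y) := funext fun w' => hD y w'
    rw [e4]
    exact (((continuousAt_const.mul e1).add (continuousAt_const.mul e2)).add
      (continuousAt_const.mul e3)).add ((hg w hw).sub continuousAt_const)

/-- `N` = the interior of the set of the points of `X1` where the centred lifts of the differences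
`b - b(y)`, `t - t(y)`, `ps1 - ps1 y` are `< 1/4` in absolute value; for the cocycle identity use
`cl_base` -/
theorem D1_near (P : Par) {y : To} (h : y ∈ X1) : ∃ N : Set To, IsOpen N ∧ y ∈ N ∧ N ⊆ X1 ∧
    (∀ w ∈ N, ∀ w' ∈ N, D1 P w w' = D1 P y w' - D1 P y w) ∧ ContinuousOn (D1 P y) N :=
  NNear_gen X1_open (fun _ hy => ps1_contAt hy) (fun _ hy => g1_contAt P hy) P.sig (P.lam - 1)
    ((P.lam - 1) * P.sig) (fun _ _ => rfl) h

theorem D3_near (P : Par) {y : To} (h : y ∈ X3) : ∃ N : Set To, IsOpen N ∧ y ∈ N ∧ N ⊆ X3 ∧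
    (∀ w ∈ N, ∀ w' ∈ N, D3 P w w' = D3 P y w' - D3 P y w) ∧ ContinuousOn (D3 P y) N :=
  NNear_gen X3_open (fun _ hy => ps3_contAt hy) (fun _ hy => g3_contAt P hy) (P.lam * P.sig)
    (P.lam - 1) ((P.lam - 1) ^ 2) (fun _ _ => rfl) h

end Pool.Agent.H.MP_1611f1_gt.BR.U
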