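import Pool.Agent.H.MP_1611f1_gt.BR.NFol

/-!
Leaf paths in the flat part of the second region.
-/

namespace Pool.Agent.H.MP_1611f1_gt.BR.U

open Topology Set Filter

variable {P : Par} {F : Foliation Mu}
  (hF : F.charts = LS.pullCharts (Subtype.val : Mu → To) (fol P))

/-- the point `3/4 + τ` of the circle, `|τ| ≤ 1/16`: its lifts -/
theorem NPath_cl {t : Ci} {τ : ℝ} (ht : t = ((3 / 4 + τ : ℝ) : Ci)) (h : |τ| ≤ 1 / 16) :
    cl t = -1 / 4 + τ := by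
  have h1 := abs_le.1 h
  have h2 : t = ((-1 / 4 + τ : ℝ) : Ci) := by
    have h3 : ((3 / 4 + τ : ℝ) : Ci) = ((-1 / 4 + τ : ℝ) : Ci) + ((1 : ℝ) : Ci) := by
      rw [← AddCircle.coe_add]
      congr 1
      ring
    have h4 : ((1 : ℝ) : Ci) = 0 := AddCircle.coe_period (1 : ℝ)
    rw [ht, h3, h4, add_zero]
  rw [h2]
  exact cl_coe ⟨by linarith [h1.1], by linarith [h1.2]⟩

theorem NPath_norm {t : Ci} {τ : ℝ} (ht : t = ((3 / 4 + τ : ℝ) : Ci)) (h : |τ| ≤ 1 / 16) :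
    ‖t - ((3 / 4 : ℝ) : Ci)‖ ≤ 1 / 16 := by
  have h1 := abs_le.1 h
  have h2 : t - ((3 / 4 : ℝ) : Ci) = ((τ : ℝ) : Ci) := by
    rw [ht, AddCircle.coe_add]
    abel
  rw [h2, norm_cl, cl_coe ⟨by linarith [h1.1], by linarith [h1.2]⟩]
  exact h

theorem NPath_far {t : Ci} {τ : ℝ} (ht : t = ((3 / 4 + τ : ℝ) : Ci)) (h : |τ| ≤ 1 / 16) :
    3 / 16 ≤ |cl t| := by
  have h1 := abs_le.1 h
  rw [NPath_cl ht h]
  have h2 : -(-1 / 4 + τ) ≤ |(-1 / 4 + τ)| := neg_le_abs _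
  linarith [h1.2]

theorem NPath_sq {t : Ci} {τ : ℝ} (ht : t = ((3 / 4 + τ : ℝ) : Ci)) (h : |τ| ≤ 1 / 16) :
    9 / 256 ≤ cl t ^ 2 := by
  have h1 := NPath_far ht h
  have h2 : |cl t| ^ 2 = cl t ^ 2 := sq_abs _
  nlinarith

theorem NPath_cu {x : ℝ} {t : Ci} {τ : ℝ} (ht : t = ((3 / 4 + τ : ℝ) : Ci)) (h : |τ| ≤ 1 / 16) :
    cu x (cl t) = 1 := by
  refine cu_far ?_
  have h1 := NPath_sq ht h
  nlinarith [sq_nonneg x]

theorem NPath_ps3 {w : To} {τ : ℝ} (ht : w.2.2 = ((3 / 4 + τ : ℝ) : Ci)) (h : |τ| ≤ 1 / 16) :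
    ps3 w = ((rmp (cl (w.1 - hlf)) * τ : ℝ) : Ci) := by
  have h1 := NPath_far ht h
  have h2 := abs_le.1 h
  have h3 : yt w.2.2 = -1 / 4 + τ := by
    rw [yt_of_nonpos, NPath_cl ht h]
    rw [NPath_cl ht h]
    linarith [h2.2]
  unfold ps3
  rw [psi_mid (by linarith), h3]
  congr 1
  ring

theorem NPath_g3 (P : Par) {w : To} {τ : ℝ} (ht : w.2.2 = ((3 / 4 + τ : ℝ) : Ci))
    (h : |τ| ≤ 1 / 16) : g3 P w = -(P.lam * P.sig * kap w.2.1) := by
  unfold g3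
  rw [NPath_cu ht h, mm_one P (NPath_norm ht h)]
  ring

/-- in the second region, for `‖t - 3/4‖ ≤ 1/16`: with `x = cl (a - 1/2)`,
`t = 3/4 + τ`, the transverse function is
`lam sig (b - kap b) + (lam - 1 + (lam - 1)^2 rmp x) τ`, so for equal `b` the difference is as
follows (`cu = 1`, `mm = 1`, `psi_mid`) -/
theorem D3_flat (P : Par) {w w' : To} {τ τ' : ℝ} (hb : w'.2.1 = w.2.1)
    (ht : w.2.2 = ((3 / 4 + τ : ℝ) : Ci)) (ht' : w'.2.2 = ((3 / 4 + τ' : ℝ) : Ci))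
    (h : |τ| ≤ 1 / 16) (h' : |τ'| ≤ 1 / 16)
    (hs : |rmp (cl (w'.1 - hlf)) * τ' - rmp (cl (w.1 - hlf)) * τ| < 1 / 2) :
    D3 P w w' = (P.lam - 1 + (P.lam - 1) ^ 2 * rmp (cl (w'.1 - hlf))) * τ' -
      (P.lam - 1 + (P.lam - 1) ^ 2 * rmp (cl (w.1 - hlf))) * τ := by
  have h1 := abs_le.1 h
  have h2 := abs_le.1 h'
  unfold D3
  have e1 : cl (w'.2.1 - w.2.1) = 0 := by rw [hb, sub_self, cl_zero]
  have e2 : cl (w'.2.2 - w.2.2) = τ' - τ := by
    have h3 : w'.2.2 - w.2.2 = ((τ' - τ : ℝ) : Ci) := by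
      rw [ht, ht', ← AddCircle.coe_sub]
      congr 1
      ring
    rw [h3]
    exact cl_coe ⟨by linarith [h1.2, h2.1], by linarith [h1.1, h2.2]⟩
  have e3 : cl (ps3 w' - ps3 w) =
      rmp (cl (w'.1 - hlf)) * τ' - rmp (cl (w.1 - hlf)) * τ := by
    have h3 := abs_lt.1 hs
    rw [NPath_ps3 ht h, NPath_ps3 ht' h', ← AddCircle.coe_sub]
    exact cl_coe ⟨by linarith [h3.1], by linarith [h3.2]⟩
  rw [e1, e2, e3, NPath_g3 P ht h, NPath_g3 P ht' h', hb]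
  ring

include hF in
/-- the leaf path from a point of the second region with `‖t - 3/4‖ ≤ 1/16`, `|cl (a - 1/2)| ≤ 1/8`
to the point with the same `b` and `a = 3/4`: `a = 1/2 + x`, `x` from `x₀` to `1/4`,
`t = 3/4 + τ`, `τ = B(x₀) τ₀ / B(x)`, `B(x) = lam - 1 + (lam - 1)^2 rmp x` (increasing, so
`|τ| ≤ |τ₀|`) -/
theorem path_three {y : Mu} (h : y.1 ∈ X3) (h1 : |cl (y.1.1 - hlf)| ≤ 1 / 8)
    (h2 : ‖y.1.2.2 - ((3 / 4 : ℝ) : Ci)‖ ≤ 1 / 16) : ∃ y' : Mu, y'.1 ∈ X1 ∧ F.SameLeaf y y' := by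
  obtain ⟨x₀, hx₀⟩ : ∃ x₀ : ℝ, x₀ = cl (y.1.1 - hlf) := ⟨_, rfl⟩
  obtain ⟨τ₀, hτ₀⟩ : ∃ τ₀ : ℝ, τ₀ = cl (y.1.2.2 - ((3 / 4 : ℝ) : Ci)) := ⟨_, rfl⟩
  have hx1 := abs_le.1 h1
  rw [← hx₀] at hx1
  have hτ1 : |τ₀| ≤ 1 / 16 := by
    rw [hτ₀, ← norm_cl]
    exact h2
  have hl : 0 < P.lam - 1 := by linarith [P.h1]
  -- the function `B`
  obtain ⟨B, hB⟩ : ∃ B : ℝ → ℝ, ∀ x, B x = P.lam - 1 + (P.lam - 1) ^ 2 * rmp x := ⟨_, fun _ => rfl⟩
  have hBc : Continuous B := by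
    have h3 : B = fun x => P.lam - 1 + (P.lam - 1) ^ 2 * rmp x := funext hB
    rw [h3]
    exact continuous_const.add (continuous_const.mul rmp_cont)
  have hBp : ∀ x, 0 < B x := by
    intro x
    rw [hB]
    have h3 := (rmp_mem x).1
    positivity
  have hBm : ∀ x, x₀ ≤ x → B x₀ ≤ B x := by
    intro x hx
    rw [hB, hB]
    have h3 := rmp_mono hx
    have h4 : 0 ≤ (P.lam - 1) ^ 2 := sq_nonneg _
    nlinarith
  -- the coordinates of the path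
  obtain ⟨x, hx⟩ : ∃ x : unitInterval → ℝ, ∀ s, x s = x₀ + (s : ℝ) * (1 / 4 - x₀) :=
    ⟨_, fun _ => rfl⟩
  have hxc : Continuous x := by
    have h3 : x = fun s : unitInterval => x₀ + (s : ℝ) * (1 / 4 - x₀) := funext hx
    rw [h3]
    exact continuous_const.add (continuous_subtype_val.mul continuous_const)
  have hxm : ∀ s, x₀ ≤ x s ∧ x s ≤ 1 / 4 := by
    intro s
    rw [hx]
    have h3 := s.2.1
    have h4 := s.2.2
    have h5 : 0 ≤ 1 / 4 - x₀ := by linarith [hx1.2]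
    constructor
    · nlinarith [mul_nonneg h3 h5]
    · nlinarith [mul_nonneg (sub_nonneg.2 h4) h5]
  obtain ⟨τ, hτ⟩ : ∃ τ : unitInterval → ℝ, ∀ s, τ s = B x₀ * τ₀ / B (x s) := ⟨_, fun _ => rfl⟩
  have hτc : Continuous τ := by
    have h3 : τ = fun s : unitInterval => B x₀ * τ₀ / B (x s) := funext hτ
    rw [h3]
    exact continuous_const.div (hBc.comp hxc) fun s => (hBp _).ne'
  have hτm : ∀ s, |τ s| ≤ 1 / 16 := by
    intro s
    rw [hτ, abs_div, abs_mul, abs_of_pos (hBp x₀), abs_of_pos (hBp (x s)), div_le_iff₀ (hBp _)]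
    have h3 := hBm (x s) (hxm s).1
    have h4 := hBp x₀
    nlinarith [abs_nonneg τ₀, mul_le_mul_of_nonneg_left hτ1 h4.le]
  have hτB : ∀ s, B (x s) * τ s = B x₀ * τ₀ := by
    intro s
    rw [hτ]
    field_simp [(hBp (x s)).ne']
  -- the path in the torus
  obtain ⟨g, hg⟩ : ∃ g : unitInterval → To, ∀ s, g s =
      (hlf + ((x s : ℝ) : Ci), (y.1.2.1, ((3 / 4 + τ s : ℝ) : Ci))) := ⟨_, fun _ => rfl⟩
  have hgc : Continuous g := by
    have h3 : g = fun s : unitInterval =>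
      (hlf + ((x s : ℝ) : Ci), (y.1.2.1, ((3 / 4 + τ s : ℝ) : Ci))) := funext hg
    rw [h3]
    refine (continuous_const.add ((AddCircle.continuous_mk' (1 : ℝ)).comp hxc)).prodMk
      (continuous_const.prodMk ((AddCircle.continuous_mk' (1 : ℝ)).comp
        (continuous_const.add hτc)))
  have hcl : ∀ s, cl ((g s).1 - hlf) = x s := by
    intro s
    have h3 : (g s).1 - hlf = ((x s : ℝ) : Ci) := by
      rw [hg]
      change hlf + ((x s : ℝ) : Ci) - hlf = _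
      abel
    rw [h3]
    exact cl_coe ⟨by linarith [(hxm s).1, hx1.1], by linarith [(hxm s).2]⟩
  have ht : ∀ s, (g s).2.2 = ((3 / 4 + τ s : ℝ) : Ci) := by
    intro s
    rw [hg]
  have hb : ∀ s, (g s).2.1 = y.1.2.1 := by
    intro s
    rw [hg]
  have hg3 : ∀ s, g s ∈ X3 := by
    intro s
    refine ⟨?_, ?_⟩
    · rw [hcl, abs_lt]
      exact ⟨by linarith [(hxm s).1, hx1.1], by linarith [(hxm s).2]⟩
    · have h3 := NPath_sq (ht s) (hτm s)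
      nlinarith [sq_nonneg (cl ((g s).1 - hlf))]
  have hD : ∀ s s', D3 P (g s) (g s') = 0 := by
    intro s s'
    have h3 := D3_flat P (w := g s) (w' := g s') (by rw [hb, hb]) (ht s) (ht s') (hτm s) (hτm s') ?_
    · rw [h3, hcl, hcl, ← hB, ← hB, hτB, hτB, sub_self]
    · have h4 := abs_le.1 (hτm s)
      have h5 := abs_le.1 (hτm s')
      have h6 := rmp_mem (cl ((g s).1 - hlf))
      have h7 := rmp_mem (cl ((g s').1 - hlf))
      rw [abs_lt]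
      constructor <;> nlinarith
  obtain ⟨G, hG⟩ : ∃ G : unitInterval → Mu, ∀ s, (G s).1 = g s :=
    ⟨fun s => ⟨g s, Or.inr (hg3 s)⟩, fun _ => rfl⟩
  have hGc : Continuous G := by
    rw [continuous_induced_rng]
    exact hgc.congr fun s => (hG s).symm
  have key : F.SameLeaf (G 0) (G 1) := by
    refine F.sameLeaf_of G hGc fun s => ?_
    obtain ⟨c, hc, hs⟩ := F.cover (G s)
    refine ⟨c, hc, hs, ?_⟩
    have hG3 : (G s).1 ∈ X3 := by
      rw [hG]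
      exact hg3 s
    obtain ⟨V, hV, hVc⟩ := F_three' hF hc hs hG3
    filter_upwards [(hGc.continuousAt (x := s)) hV] with s' hs'
    have hsV : G s ∈ V := mem_of_mem_nhds hV
    have h3 := hVc _ hs' _ hsV
    have h4 := hVc _ hsV _ hs'
    rw [hG, hG, hD] at h3 h4
    have h5 : ¬ (c (G s')).2 < (c (G s)).2 := fun h6 => lt_irrefl _ (h3.1 h6)
    have h6 : ¬ (c (G s)).2 < (c (G s')).2 := fun h6 => lt_irrefl _ (h4.1 h6)
    exact le_antisymm (not_lt.1 h6) (not_lt.1 h5)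
  have hG0 : G 0 = y := by
    refine Subtype.ext ?_
    rw [hG, hg]
    have h3 : x 0 = x₀ := by
      rw [hx]
      change x₀ + (0 : ℝ) * _ = x₀
      ring
    have h4 : τ 0 = τ₀ := by
      have h5 := hτB 0
      rw [h3] at h5
      exact mul_left_cancel₀ (hBp x₀).ne' h5
    rw [h3, h4, hx₀, coe_cl, AddCircle.coe_add, hτ₀, coe_cl]
    refine Prod.ext ?_ (Prod.ext rfl ?_)
    · change hlf + (y.1.1 - hlf) = y.1.1
      abel
    · change ((3 / 4 : ℝ) : Ci) + (y.1.2.2 - ((3 / 4 : ℝ) : Ci)) = y.1.2.2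
      abel
  refine ⟨G 1, ?_, ?_⟩
  · rw [hG]
    have h3 : x 1 = 1 / 4 := by
      rw [hx]
      change x₀ + (1 : ℝ) * _ = 1 / 4
      ring
    have h4 : (g 1).1 = ((-1 / 4 : ℝ) : Ci) := by
      rw [hg, h3]
      change hlf + (((1 / 4 : ℝ)) : Ci) = _
      have h5 : ((-1 / 4 : ℝ) : Ci) + ((1 : ℝ) : Ci) = ((1 / 2 : ℝ) : Ci) + ((1 / 4 : ℝ) : Ci) := by
        rw [← AddCircle.coe_add, ← AddCircle.coe_add]
        congr 1
        norm_num
      have h6 : ((1 : ℝ) : Ci) = 0 := AddCircle.coe_period (1 : ℝ)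
      rw [h6, add_zero] at h5
      exact h5.symm
    have h5 : cl (g 1).1 = -1 / 4 := by
      rw [h4]
      exact cl_coe ⟨by norm_num, by norm_num⟩
    refine ⟨?_, ?_⟩
    · rw [h5, abs_lt]
      constructor <;> norm_num
    · rw [h5]
      nlinarith [sq_nonneg (cl ((g 1).2.1 - hlf))]
  · rw [hG0] at key
    exact key

end Pool.Agent.H.MP_1611f1_gt.BR.U
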