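import Pool.Agent.H.MP_1611f1_gt.BR.NDefs

/-!
The functions `rmp`, `cu`.
-/

namespace Pool.Agent.H.MP_1611f1_gt.BR.U

open Topology Set Filter

theorem rmp_mem (x : ℝ) : 0 ≤ rmp x ∧ rmp x ≤ 1 := by
  unfold rmp
  exact ⟨le_max_left _ _, max_le zero_le_one (min_le_left _ _)⟩

theorem rmp_cont : Continuous rmp := by
  unfold rmp
  fun_prop

theorem rmp_mono : Monotone rmp := by
  intro x y h
  unfold rmp
  exact max_le_max le_rfl (min_le_min le_rfl (by linarith))

theorem rmp_left {x : ℝ} (h : x ≤ -1 / 32) : rmp x = 0 := by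
  unfold rmp
  rw [max_eq_left]
  exact (min_le_right _ _).trans (by linarith)

theorem rmp_right {x : ℝ} (h : 1 / 32 ≤ x) : rmp x = 1 := by
  unfold rmp
  rw [min_eq_left (by linarith)]
  exact max_eq_right zero_le_one

theorem cu_mem (x y : ℝ) : 0 ≤ cu x y ∧ cu x y ≤ 1 := by
  unfold cu
  exact ⟨le_max_left _ _, max_le zero_le_one (min_le_left _ _)⟩

theorem cu_cont : Continuous (fun z : ℝ × ℝ => cu z.1 z.2) := by
  unfold cu
  fun_prop

theorem cu_far {x y : ℝ} (h : 25 / 9216 ≤ x ^ 2 + y ^ 2) : cu x y = 1 := by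
  unfold cu
  rw [min_eq_left (by linarith)]
  exact max_eq_right zero_le_one

theorem cu_near {x y : ℝ} (h : x ^ 2 + y ^ 2 ≤ 1 / 576) : cu x y = 0 := by
  unfold cu
  rw [max_eq_left]
  exact (min_le_right _ _).trans (by linarith)

end Pool.Agent.H.MP_1611f1_gt.BR.U
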