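import Pool.Agent.H.MP_1611f1_gt.BR.NPsiA
import Pool.Agent.H.MP_1611f1_gt.BR.NAng

/-!
The circle valued function `psi`.
-/

namespace Pool.Agent.H.MP_1611f1_gt.BR.U

open Topology Set Filter

theorem psi_left {v x : ℝ} (h : x ≤ -1 / 8) (y : Ci) : psi v x y = 0 := by
  have h1 : rmp x = 0 := rmp_left (by linarith)
  have h2 : cu x (cl y) = 1 := cu_far (by nlinarith [sq_nonneg (cl y)])
  unfold psi gg
  rw [h1, h2]
  have h3 : (1 : ℝ) * (0 * (yt y + v)) + (1 - 1) * ang x (cl y) = 0 := by ring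
  rw [h3]
  rfl

theorem psi_right {v x : ℝ} (h : 1 / 8 ≤ x) (y : Ci) : psi v x y = y + (v : Ci) := by
  have h1 : rmp x = 1 := rmp_right (by linarith)
  have h2 : cu x (cl y) = 1 := cu_far (by nlinarith [sq_nonneg (cl y)])
  unfold psi gg
  rw [h1, h2]
  have h3 : (1 : ℝ) * (1 * (yt y + v)) + (1 - 1) * ang x (cl y) = yt y + v := by ring
  rw [h3, AddCircle.coe_add, coe_yt]

/-- away from the level of the disc -/
theorem psi_mid {v x : ℝ} {y : Ci} (h : 5 / 96 ≤ |cl y|) :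
    psi v x y = ((rmp x * (yt y + v) : ℝ) : Ci) := by
  have h2 : cu x (cl y) = 1 := by
    refine cu_far ?_
    have h3 : |cl y| ^ 2 = cl y ^ 2 := sq_abs _
    nlinarith [sq_nonneg x]
  unfold psi gg
  rw [h2]
  have h3 : (1 : ℝ) * (rmp x * (yt y + v)) + (1 - 1) * ang x (cl y) = rmp x * (yt y + v) := by
    ring
  rw [h3]

theorem psi_collar {v x : ℝ} {y : Ci} (h : x ^ 2 + cl y ^ 2 ≤ 1 / 576) :
    psi v x y = ((ang x (cl y) : ℝ) : Ci) := by
  unfold psi gg
  rw [cu_near h]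
  have h3 : (0 : ℝ) * (rmp x * (yt y + v)) + (1 - 0) * ang x (cl y) = ang x (cl y) := by
    ring
  rw [h3]

theorem NPsiB_coe {f : ℝ × Ci → Ci} {g : ℝ × Ci → ℝ} {p : ℝ × Ci} (hg : ContinuousAt g p)
    (h : ∀ᶠ z in 𝓝 p, f z = ((g z : ℝ) : Ci)) : ContinuousAt f p := by
  have h1 : ContinuousAt (fun z => ((g z : ℝ) : Ci)) p :=
    ContinuousAt.comp (g := fun r : ℝ => (r : Ci)) (f := g)
      (AddCircle.continuous_mk' (1 : ℝ)).continuousAt hg
  exact h1.congr (h.mono fun z hz => hz.symm)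

/-- case `y ≠ 0`, `1/4 < |cl y|`: near `(x, y)` we have `cu = 1` and
`gg v x' y' = rmp x' * (yt y' + v)` -/
theorem psi_cont_far (v x : ℝ) {y : Ci} (h : 1 / 4 < |cl y|) :
    ContinuousAt (fun z : ℝ × Ci => psi v z.1 z.2) (x, y) := by
  have hy : y ≠ 0 := by
    intro h1
    rw [h1, cl_zero, abs_zero] at h
    norm_num at h
  have h1 : ContinuousAt (fun z : ℝ × Ci => rmp z.1 * (yt z.2 + v)) (x, y) := by
    have h2 : ContinuousAt (fun z : ℝ × Ci => yt z.2) (x, y) :=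
      ContinuousAt.comp (g := yt) (f := fun z : ℝ × Ci => z.2) (yt_contAt hy)
        continuous_snd.continuousAt
    exact (rmp_cont.comp continuous_fst).continuousAt.mul (h2.add continuousAt_const)
  refine NPsiB_coe h1 ?_
  have h3 : Continuous (fun z : ℝ × Ci => ‖z.2‖) := continuous_snd.norm
  have h4 : (1 / 4 : ℝ) < ‖((x, y) : ℝ × Ci).2‖ := by
    rw [norm_cl]
    exact h
  filter_upwards [h3.continuousAt.eventually (lt_mem_nhds h4)] with z hz
  refine psi_mid ?_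
  rw [norm_cl] at hz
  linarith

theorem NPsiB_cl {x : ℝ} {y : Ci} (h : |cl y| < 1 / 2) :
    ContinuousAt (fun z : ℝ × Ci => cl z.2) (x, y) :=
  ContinuousAt.comp (g := cl) (f := fun z : ℝ × Ci => z.2) (cl_contAt' h)
    continuous_snd.continuousAt

theorem NPsiB_cu {x : ℝ} {y : Ci} (h : |cl y| < 1 / 2) :
    ContinuousAt (fun z : ℝ × Ci => cu z.1 (cl z.2)) (x, y) :=
  ContinuousAt.comp (g := fun w : ℝ × ℝ => cu w.1 w.2) (f := fun z : ℝ × Ci => (z.1, cl z.2))
    cu_cont.continuousAt (continuous_fst.continuousAt.prodMk (NPsiB_cl h))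

theorem NPsiB_ang {x : ℝ} {y : Ci} (h : |cl y| < 1 / 2) (h1 : cl y ≠ 0 ∨ x < 0) :
    ContinuousAt (fun z : ℝ × Ci => ang z.1 (cl z.2)) (x, y) :=
  ContinuousAt.comp (g := fun w : ℝ × ℝ => ang w.1 w.2) (f := fun z : ℝ × Ci => (z.1, cl z.2))
    (ang_contAt h1) (continuous_fst.continuousAt.prodMk (NPsiB_cl h))

/-- case `y ≠ 0`, `|cl y| < 1/2`: `gg` is continuous -/
theorem psi_cont_off (v x : ℝ) {y : Ci} (h0 : y ≠ 0) (h : |cl y| < 1 / 2) :
    ContinuousAt (fun z : ℝ × Ci => psi v z.1 z.2) (x, y) := by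
  have hc : cl y ≠ 0 := by
    intro h1
    apply h0
    rw [← coe_cl y, h1]
    rfl
  have h2 : ContinuousAt (fun z : ℝ × Ci => yt z.2) (x, y) :=
    ContinuousAt.comp (g := yt) (f := fun z : ℝ × Ci => z.2) (yt_contAt h0)
      continuous_snd.continuousAt
  have h3 : ContinuousAt (fun z : ℝ × Ci => rmp z.1 * (yt z.2 + v)) (x, y) :=
    (rmp_cont.comp continuous_fst).continuousAt.mul (h2.add continuousAt_const)
  have h4 : ContinuousAt (fun z : ℝ × Ci => gg v z.1 z.2) (x, y) := by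
    unfold gg
    exact ((NPsiB_cu h).mul h3).add ((continuousAt_const.sub (NPsiB_cu h)).mul
      (NPsiB_ang h (Or.inl hc)))
  exact NPsiB_coe h4 (Eventually.of_forall fun z => rfl)

theorem NPsiB_zero : |cl (0 : Ci)| < 1 / 2 := by
  rw [cl_zero, abs_zero]
  norm_num

/-- on the negative axis: `rmp = 0` near the point, `gg = (1 - cu) * ang` -/
theorem psi_cont_neg (v : ℝ) {x : ℝ} (h : x < -1 / 32) :
    ContinuousAt (fun z : ℝ × Ci => psi v z.1 z.2) (x, 0) := by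
  have h4 : ContinuousAt (fun z : ℝ × Ci => (1 - cu z.1 (cl z.2)) * ang z.1 (cl z.2))
      (x, 0) :=
    (continuousAt_const.sub (NPsiB_cu NPsiB_zero)).mul
      (NPsiB_ang NPsiB_zero (Or.inr (by linarith)))
  refine NPsiB_coe h4 ?_
  have h5 : ContinuousAt (fun z : ℝ × Ci => z.1) (x, 0) := continuous_fst.continuousAt
  filter_upwards [h5.eventually (gt_mem_nhds h)] with z hz
  have h6 : rmp z.1 = 0 := rmp_left (le_of_lt hz)
  unfold psi gg
  rw [h6]
  have h7 : cu z.1 (cl z.2) * (0 * (yt z.2 + v)) + (1 - cu z.1 (cl z.2)) * ang z.1 (cl z.2) =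
      (1 - cu z.1 (cl z.2)) * ang z.1 (cl z.2) := by ring
  rw [h7]

/-- on the positive axis: near the point `rmp = 1`, and `gg v x y` is equal, modulo `1`, to the
continuous function
`cu x (cl y) * (cl y + v) + (1 - cu x (cl y)) * (Complex.arg ⟨x, cl y⟩ / (2 π) + 1 / 2)`
(equal for `cl y ≤ 0`, equal up to `-1` for `0 < cl y`) -/
theorem psi_cont_pos (v : ℝ) {x : ℝ} (h : 1 / 32 < x) :
    ContinuousAt (fun z : ℝ × Ci => psi v z.1 z.2) (x, 0) := by
  have h0 : ContinuousAt (fun z : ℝ × Ci => Complex.arg (⟨z.1, cl z.2⟩ : ℂ) / (2 * Real.pi))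
      (x, 0) := by
    refine ContinuousAt.comp
      (g := fun w : ℝ × ℝ => Complex.arg (⟨w.1, w.2⟩ : ℂ) / (2 * Real.pi))
      (f := fun z : ℝ × Ci => (z.1, cl z.2)) ?_
      (continuous_fst.continuousAt.prodMk (NPsiB_cl NPsiB_zero))
    show ContinuousAt (fun w : ℝ × ℝ => Complex.arg (⟨w.1, w.2⟩ : ℂ) / (2 * Real.pi))
      (x, cl 0)
    rw [cl_zero]
    exact arg_contAt (by linarith)
  have h4 : ContinuousAt (fun z : ℝ × Ci => cu z.1 (cl z.2) * (cl z.2 + v) +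
      (1 - cu z.1 (cl z.2)) * (Complex.arg (⟨z.1, cl z.2⟩ : ℂ) / (2 * Real.pi) + 1 / 2))
      (x, 0) :=
    ((NPsiB_cu NPsiB_zero).mul ((NPsiB_cl NPsiB_zero).add continuousAt_const)).add
      ((continuousAt_const.sub (NPsiB_cu NPsiB_zero)).mul (h0.add continuousAt_const))
  refine NPsiB_coe h4 ?_
  have h5 : ContinuousAt (fun z : ℝ × Ci => z.1) (x, 0) := continuous_fst.continuousAt
  filter_upwards [h5.eventually (lt_mem_nhds h)] with z hz
  have h6 : rmp z.1 = 1 := rmp_right (le_of_lt hz)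
  have hz0 : 0 < z.1 := by linarith
  unfold psi gg
  rw [h6]
  rcases le_or_gt (cl z.2) 0 with h7 | h7
  · rw [yt_of_nonpos h7, ang_nonpos hz0 h7, one_mul]
  · rw [yt_of_pos h7, ang_pos h7]
    have h8 : cu z.1 (cl z.2) * (1 * (cl z.2 - 1 + v)) + (1 - cu z.1 (cl z.2)) *
        (Complex.arg (⟨z.1, cl z.2⟩ : ℂ) / (2 * Real.pi) - 1 / 2) =
        (cu z.1 (cl z.2) * (cl z.2 + v) + (1 - cu z.1 (cl z.2)) *
        (Complex.arg (⟨z.1, cl z.2⟩ : ℂ) / (2 * Real.pi) + 1 / 2)) - 1 := by ring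
    have h9 : ((1 : ℝ) : Ci) = 0 := AddCircle.coe_period (1 : ℝ)
    rw [h8, AddCircle.coe_sub, h9, sub_zero]

/-- `psi` is continuous outside of the closed disc of radius `1/32` -/
theorem psi_contAt (v : ℝ) {x : ℝ} {y : Ci} (h : 1 / 1024 < x ^ 2 + cl y ^ 2) :
    ContinuousAt (fun z : ℝ × Ci => psi v z.1 z.2) (x, y) := by
  by_cases h0 : y = 0
  · subst h0
    rw [cl_zero] at h
    have h2 : 1 / 32 < |x| := by
      by_contra h1
      rw [not_lt] at h1
      have h3 := abs_nonneg x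
      have h4 : |x| ^ 2 = x ^ 2 := sq_abs x
      nlinarith
    rcases lt_abs.1 h2 with h3 | h3
    · exact psi_cont_pos v h3
    · exact psi_cont_neg v (by linarith)
  · rcases lt_or_ge |cl y| (1 / 2) with h1 | h1
    · exact psi_cont_off v x h0 h1
    · exact psi_cont_far v x (by linarith)

end Pool.Agent.H.MP_1611f1_gt.BR.U
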