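import Pool.Agent.H.MP_1611f1_gt.BR.NFol
import Pool.Agent.H.MP_1611f1_gt.BR.NPath

/-!
The foliation is taut.
-/

namespace Pool.Agent.H.MP_1611f1_gt.BR.U

open Topology Set Filter

variable {P : Par} {F : Foliation Mu}
  (hF : F.charts = LS.pullCharts (Subtype.val : Mu → To) (fol P))

theorem NTaut_one : ((1 : ℝ) : Ci) = 0 := AddCircle.coe_period (1 : ℝ)

theorem NTaut_half (u : Ci) : |cl (u - hlf)| = 1 / 2 - |cl u| := by
  have hm := cl_mem u
  rcases le_or_gt 0 (cl u) with h | h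
  · have e : u - hlf = ((cl u - 1 / 2 : ℝ) : Ci) := by
      rw [AddCircle.coe_sub, coe_cl]
      rfl
    rw [e, cl_coe ⟨by linarith, by linarith [hm.2]⟩, abs_of_nonneg h, abs_of_nonpos (by linarith [hm.2])]
    ring
  · have e : u - hlf = ((cl u + 1 / 2 : ℝ) : Ci) := by
      have e1 : ((cl u + 1 / 2 : ℝ) : Ci) = ((cl u - 1 / 2 : ℝ) : Ci) + ((1 : ℝ) : Ci) := by
        rw [← AddCircle.coe_add]
        congr 1
        ring
      rw [e1, NTaut_one, add_zero, AddCircle.coe_sub, coe_cl]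
      rfl
    rw [e, cl_coe ⟨by linarith [hm.1], by linarith⟩, abs_of_neg h, abs_of_nonneg (by linarith [hm.1])]
    ring

include hF in
/-- a circle along which the chart functions are monotone is a closed transversal -/
theorem NTaut_circ (l : ℝ → Mu) (hl : Continuous l) (hp : ∀ s, l (s + 1) = l s)
    (h : ∀ s, ∀ c ∈ F.charts, l s ∈ c.source → ∃ V ∈ 𝓝 (l s), ∃ ε : ℝ, 0 < ε ∧
      ∀ s1 s2, s1 < s2 → s2 - s1 < ε → l s1 ∈ V → l s2 ∈ V → (c (l s1)).2 < (c (l s2)).2) :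
    F.ClosedTransversal l := by
  refine F.transversal_of l hl hp fun s => ?_
  obtain ⟨c, hc, hs⟩ := F.cover (l s)
  obtain ⟨V, hV, ε, hε, hmono⟩ := h s c hc hs
  obtain ⟨δ, hδ, hball⟩ := Metric.mem_nhds_iff.1 (hl.continuousAt (x := s) hV)
  refine ⟨c, hc, hs, min (ε / 2) δ, lt_min (by linarith) hδ, ?_⟩
  intro a ha b hb hab
  have h1 : min (ε / 2) δ ≤ ε / 2 := min_le_left _ _
  have h2 : min (ε / 2) δ ≤ δ := min_le_right _ _
  have hV' : ∀ x ∈ Ioo (s - min (ε / 2) δ) (s + min (ε / 2) δ), l x ∈ V := by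
    intro x hx
    have h3 : x ∈ Metric.ball s δ := by
      rw [Metric.mem_ball, Real.dist_eq, abs_lt]
      exact ⟨by linarith [hx.1], by linarith [hx.2]⟩
    exact hball h3
  exact hmono a b hab (by linarith [ha.1, hb.2]) (hV' a ha) (hV' b hb)

include hF in
/-- the `t`-circle through a point of the first region (`F_one'`, `D1_t`) -/
theorem circ_one {y : Mu} (h : y.1 ∈ X1) : ∃ l : ℝ → Mu, F.ClosedTransversal l ∧ l 0 = y := by
  obtain ⟨⟨a, b, t⟩, hy⟩ := y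
  have hmem : ∀ s : ℝ, ((a, (b, t + (s : Ci))) : To) ∈ X1 := fun s => h
  have hp : ∀ s : ℝ, (⟨(a, (b, t + ((s + 1 : ℝ) : Ci))), Or.inl (hmem (s + 1))⟩ : Mu) =
      ⟨(a, (b, t + (s : Ci))), Or.inl (hmem s)⟩ := by
    intro s
    apply Subtype.ext
    show ((a, (b, t + ((s + 1 : ℝ) : Ci))) : To) = (a, (b, t + (s : Ci)))
    rw [AddCircle.coe_add, NTaut_one, add_zero]
  have hc : Continuous (fun s : ℝ => (⟨(a, (b, t + (s : Ci))), Or.inl (hmem s)⟩ : Mu)) := by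
    refine Continuous.subtype_mk ?_ _
    exact continuous_const.prodMk (continuous_const.prodMk
      (continuous_const.add (AddCircle.continuous_mk' (1 : ℝ))))
  refine ⟨fun s => ⟨(a, (b, t + (s : Ci))), Or.inl (hmem s)⟩, ?_, ?_⟩
  · refine NTaut_circ hF _ hc hp fun s c hc hs => ?_
    obtain ⟨V, hV, hcmp⟩ := F_one' hF hc hs (hmem s)
    refine ⟨V, hV, 1 / 2, by norm_num, fun s1 s2 h12 h12' h1 h2 => ?_⟩
    refine (hcmp _ h1 _ h2).2 ?_
    refine D1_t P (δ := s2 - s1) (by linarith) h12' rfl rfl ?_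
    show t + (s2 : Ci) = t + (s1 : Ci) + ((s2 - s1 : ℝ) : Ci)
    rw [AddCircle.coe_sub]
    abel
  · apply Subtype.ext
    show ((a, (b, t + ((0 : ℝ) : Ci))) : To) = (a, (b, t))
    rw [AddCircle.coe_zero, add_zero]

include hF in
/-- the `b`-circle (in the direction of the sign of `sig`) through a point of the second region
with `1/16 < ‖t - 3/4‖` (`F_three'`, `D3_b`) -/
theorem circ_three {y : Mu} (h : y.1 ∈ X3) (h2 : 1 / 16 < ‖y.1.2.2 - ((3 / 4 : ℝ) : Ci)‖) :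
    ∃ l : ℝ → Mu, F.ClosedTransversal l ∧ l 0 = y := by
  obtain ⟨⟨a, b, t⟩, hy⟩ := y
  obtain ⟨σ, hσ, hσ1, hσ0⟩ : ∃ σ : ℝ, 0 < P.sig * σ ∧ |σ| = 1 ∧ ((σ : ℝ) : Ci) = 0 := by
    rcases lt_or_gt_of_ne P.h2 with h0 | h0
    · refine ⟨-1, by linarith, by norm_num, ?_⟩
      rw [AddCircle.coe_neg, NTaut_one, neg_zero]
    · exact ⟨1, by linarith, by norm_num, NTaut_one⟩
  have hmem : ∀ s : ℝ, ((a, (b + ((σ * s : ℝ) : Ci), t)) : To) ∈ X3 := fun s => h
  have hp : ∀ s : ℝ, (⟨(a, (b + ((σ * (s + 1) : ℝ) : Ci), t)), Or.inr (hmem (s + 1))⟩ : Mu) =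
      ⟨(a, (b + ((σ * s : ℝ) : Ci), t)), Or.inr (hmem s)⟩ := by
    intro s
    apply Subtype.ext
    show ((a, (b + ((σ * (s + 1) : ℝ) : Ci), t)) : To) = (a, (b + ((σ * s : ℝ) : Ci), t))
    rw [mul_add, mul_one, AddCircle.coe_add, hσ0, add_zero]
  have hc : Continuous (fun s : ℝ =>
      (⟨(a, (b + ((σ * s : ℝ) : Ci), t)), Or.inr (hmem s)⟩ : Mu)) := by
    refine Continuous.subtype_mk ?_ _
    have h1 : Continuous (fun s : ℝ => ((σ * s : ℝ) : Ci)) :=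
      (AddCircle.continuous_mk' (1 : ℝ)).comp (continuous_const.mul continuous_id)
    exact continuous_const.prodMk ((continuous_const.add h1).prodMk continuous_const)
  refine ⟨fun s => ⟨(a, (b + ((σ * s : ℝ) : Ci), t)), Or.inr (hmem s)⟩, ?_, ?_⟩
  · refine NTaut_circ hF _ hc hp fun s c hc hs => ?_
    obtain ⟨V, hV, hcmp⟩ := F_three' hF hc hs (hmem s)
    refine ⟨V, hV, 1 / 8, by norm_num, fun s1 s2 h12 h12' h1 h2' => ?_⟩
    refine (hcmp _ h1 _ h2').2 ?_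
    refine D3_b P (δ := σ * (s2 - s1)) ?_ ?_ rfl ?_ rfl h2
    · rw [← mul_assoc]
      exact mul_pos hσ (by linarith)
    · rw [abs_mul, hσ1, one_mul, abs_of_pos (by linarith)]
      exact h12'
    · show b + ((σ * s2 : ℝ) : Ci) = b + ((σ * s1 : ℝ) : Ci) + ((σ * (s2 - s1) : ℝ) : Ci)
      rw [mul_sub, AddCircle.coe_sub]
      abel
  · apply Subtype.ext
    show ((a, (b + ((σ * 0 : ℝ) : Ci), t)) : To) = (a, (b, t))
    rw [mul_zero, AddCircle.coe_zero, add_zero]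

include hF in
theorem F_taut : F.Taut := by
  intro y
  by_cases h1 : y.1 ∈ X1
  · obtain ⟨l, hl, h0⟩ := circ_one hF h1
    exact ⟨l, 0, hl, by rw [h0]; exact Foliation.SameLeaf.refl F y⟩
  have h3 : y.1 ∈ X3 := y.2.resolve_left h1
  rcases lt_or_ge (1 / 16) ‖y.1.2.2 - ((3 / 4 : ℝ) : Ci)‖ with h2 | h2
  · obtain ⟨l, hl, h0⟩ := circ_three hF h3 h2
    exact ⟨l, 0, hl, by rw [h0]; exact Foliation.SameLeaf.refl F y⟩
  · have h4 : |cl (y.1.1 - hlf)| ≤ 1 / 8 := by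
      have h5 : 1 / 2 - |cl y.1.1| < 3 / 8 := by
        rw [← NTaut_half]
        exact h3.1
      rw [NTaut_half]
      by_contra h6
      apply h1
      have h7 : |cl y.1.1| < 3 / 8 := by linarith
      refine ⟨h7, ?_⟩
      have h8 : 1 / 8 < |cl y.1.1| := by linarith
      have h9 : cl y.1.1 ^ 2 = |cl y.1.1| ^ 2 := (sq_abs _).symm
      have h10 := sq_nonneg (cl (y.1.2.1 - hlf))
      nlinarith
    obtain ⟨y', hy', hs⟩ := path_three hF h3 h4 h2
    obtain ⟨l, hl, h0⟩ := circ_one hF hy'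
    exact ⟨l, 0, hl, by rw [h0]; exact hs⟩

end Pool.Agent.H.MP_1611f1_gt.BR.U
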