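import Pool.Agent.H.MP_1611f1_gt.BR.NLin
import Pool.Agent.H.MP_1611f1_gt.BR.Emb

/-!
The neighbourhood of the leaf curve.
-/

namespace Pool.Agent.H.MP_1611f1_gt.BR.U

open Topology Set Filter

/-- the height above the leaf, as a function of `s` -/
noncomputable def hgt (s : ℝ) : ℝ := (BR.psi 8 s - 8) / 32

theorem hgt_zero : hgt 0 = 0 := by
  unfold hgt
  rw [BR.psi_zero]
  norm_num

theorem hgt_cont : Continuous hgt := ((BR.psi_cont 8).sub continuous_const).div_const 32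

theorem hgt_mono : StrictMono hgt := by
  intro s t h
  have := BR.psi_mono (a := 8) (by norm_num) h
  unfold hgt
  linarith

/-- (`BR.psi_lt`) -/
theorem hgt_mem (s : ℝ) : hgt s ∈ Ioo (-11 / 32 : ℝ) (1 / 32) := by
  have h := BR.psi_lt (a := 8) (by norm_num) s
  unfold hgt
  constructor <;> linarith [h.1, h.2]

/-- `BR.psi 8 s = 8 + 3 s` for `-2 ≤ s ≤ 0` (unfold `BR.psi`, `BR.gg_zero`, `BR.cl_id`,
`BR.cl_top`) -/
theorem hgt_small {s : ℝ} (h : s ∈ Ioo (-1 / 2 : ℝ) 1) : |hgt s| < 1 / 16 := by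
  obtain ⟨h1, h2⟩ := h
  rcases le_or_gt s 0 with h3 | h3
  · have h4 : BR.psi 8 s = 8 + 3 * s := by
      unfold BR.psi
      rw [BR.gg_zero (show -6 - s ≤ 0 by linarith), BR.gg_zero h3,
        BR.cl_top (by norm_num) (show (4 : ℝ) ≤ s + 6 by linarith),
        BR.cl_id (show 0 ≤ s + 2 by linarith) (by linarith)]
      ring
    unfold hgt
    rw [h4, abs_lt]
    constructor <;> linarith
  · have h4 := BR.psi_mono (a := 8) (by norm_num) h3
    rw [BR.psi_zero] at h4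
    have h5 := BR.psi_lt (a := 8) (by norm_num) s
    unfold hgt
    rw [abs_lt]
    constructor <;> linarith [h5.2]

/-- the map `(θ, (u, s)) ↦ (a, (b, t)) = (θ, (u / 32, 3/4 + hgt s))` (for `|u| ≤ 2`), in the
coordinates `(a, (b, t))`; we have `|b| < 3/32` and `13/32 < t < 25/32` -/
noncomputable def nb (z : LS.Cyl) : To :=
  (z.1, (((BR.sq z.2.1 / 32 : ℝ) : Ci), ((3 / 4 + hgt z.2.2 : ℝ) : Ci)))

/-- this is the standard neighbourhood of the `i`-th circle -/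
theorem nb_cyl (i : Fin 3) (z : LS.Cyl) : BR.cyl i (BR.hh 8) z = BR.ax i (nb z) := by
  unfold BR.cyl nb BR.hh hgt
  have h : (1 / 2 + BR.psi 8 z.2.2 / 32 : ℝ) = 3 / 4 + (BR.psi 8 z.2.2 - 8) / 32 := by ring
  simp only [h]

/-- (`BR.cyl_emb`, and `BR.ax i` is a homeomorphism) -/
theorem nb_emb : IsOpenEmbedding nb := by
  have h1 : IsOpenEmbedding (BR.cyl 0 (BR.hh 8)) :=
    BR.cyl_emb 0 (BR.hh_emb (by norm_num)) (BR.hh_lt (by norm_num) (by norm_num))
  have h2 : nb = (BR.ax 0).symm ∘ BR.cyl 0 (BR.hh 8) := by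
    funext z
    rw [Function.comp_apply, nb_cyl, Homeomorph.symm_apply_apply]
  rw [h2]
  exact (BR.ax 0).symm.isOpenEmbedding.comp h1

theorem NTub_hlf : ‖hlf‖ = 1 / 2 := by
  unfold hlf
  rw [BR.norm_coe (by norm_num [abs_of_pos])]
  norm_num [abs_of_pos]

/-- (`BR.sq_lt`) -/
theorem nb_b (z : LS.Cyl) : |cl (nb z).2.1| < 3 / 32 := by
  have h1 := abs_lt.1 (BR.sq_lt z.2.1)
  show |cl ((BR.sq z.2.1 / 32 : ℝ) : Ci)| < 3 / 32
  rw [cl_coe ⟨by linarith [h1.1], by linarith [h1.2]⟩, abs_lt]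
  constructor <;> linarith [h1.1, h1.2]

/-- `yt t = t - 1` for `13/32 < t < 25/32` -/
theorem nb_t (z : LS.Cyl) : yt (nb z).2.2 = -1 / 4 + hgt z.2.2 := by
  have h1 := hgt_mem z.2.2
  show yt ((3 / 4 + hgt z.2.2 : ℝ) : Ci) = _
  have h2 : ((3 / 4 + hgt z.2.2 : ℝ) : Ci) = ((-1 / 4 + hgt z.2.2 : ℝ) : Ci) := by
    have h3 : (3 / 4 + hgt z.2.2 : ℝ) = (-1 / 4 + hgt z.2.2) + 1 := by ring
    have h4 : ((1 : ℝ) : Ci) = 0 := AddCircle.coe_period (1 : ℝ)
    rw [h3, AddCircle.coe_add, h4, add_zero]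
  rw [h2, yt_coe ⟨by linarith [h1.1], by linarith [h1.2]⟩]

/-- `|cl (b - 1/2)| > 13/32` -/
theorem nb_b' (z : LS.Cyl) : 13 / 32 < |cl ((nb z).2.1 - hlf)| := by
  have h1 := nb_b z
  rw [← norm_cl] at h1 ⊢
  have h2 := norm_sub_norm_le hlf (nb z).2.1
  rw [NTub_hlf, norm_sub_rev] at h2
  linarith

/-- `|cl t| > 7/32` -/
theorem nb_t' (z : LS.Cyl) : 7 / 32 < |cl (nb z).2.2| := by
  have h1 := hgt_mem z.2.2
  rw [← norm_cl]
  have h2 := norm_sub_norm_le hlf (hlf - (nb z).2.2)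
  rw [NTub_hlf, sub_sub_cancel] at h2
  have h3 : hlf - (nb z).2.2 = ((-1 / 4 - hgt z.2.2 : ℝ) : Ci) := by
    show ((1 / 2 : ℝ) : Ci) - ((3 / 4 + hgt z.2.2 : ℝ) : Ci) = _
    rw [← AddCircle.coe_sub]
    congr 1
    ring
  have h4 : |-1 / 4 - hgt z.2.2| < 9 / 32 := by
    rw [abs_lt]
    constructor <;> linarith [h1.1, h1.2]
  rw [h3, BR.norm_coe (by linarith)] at h2
  linarith

/-- the tubes are avoided: one of `|cl a| < 3/8`, `|cl (a - 1/2)| < 3/8` holds -/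
theorem nb_mem (z : LS.Cyl) : nb z ∈ X1 ∪ X3 := by
  have hb := nb_b' z
  have ht := nb_t' z
  rcases lt_or_ge |cl (nb z).1| (3 / 8) with h | h
  · left
    refine ⟨h, ?_⟩
    have h1 : (13 / 32 : ℝ) ^ 2 < cl ((nb z).2.1 - hlf) ^ 2 := by
      rw [← sq_abs (cl _)]
      exact pow_lt_pow_left₀ hb (by norm_num) (by norm_num)
    have h2 := sq_nonneg (cl (nb z).1)
    norm_num at h1
    linarith
  · right
    refine ⟨?_, ?_⟩
    · have h1 := cl_mem (nb z).1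
      have h2 : ((cl (nb z).1 : ℝ) : Ci) = (nb z).1 := coe_cl _
      rcases le_abs.1 h with h3 | h3
      · have h4 : (nb z).1 - hlf = ((cl (nb z).1 - 1 / 2 : ℝ) : Ci) := by
          rw [AddCircle.coe_sub, h2]; rfl
        rw [h4, cl_coe ⟨by linarith, by linarith [h1.2]⟩, abs_lt]
        constructor <;> linarith [h1.2]
      · have h5 : ((1 : ℝ) : Ci) = 0 := AddCircle.coe_period (1 : ℝ)
        have h4 : (nb z).1 - hlf = ((cl (nb z).1 + 1 / 2 : ℝ) : Ci) := by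
          have h6 : (cl (nb z).1 + 1 / 2 : ℝ) = (cl (nb z).1 - 1 / 2) + 1 := by ring
          rw [h6, AddCircle.coe_add, h5, add_zero, AddCircle.coe_sub, h2]; rfl
        rw [h4, cl_coe ⟨by linarith [h1.1], by linarith⟩, abs_lt]
        constructor <;> linarith [h1.1]
    · have h1 : (7 / 32 : ℝ) ^ 2 < cl (nb z).2.2 ^ 2 := by
        rw [← sq_abs (cl _)]
        exact pow_lt_pow_left₀ ht (by norm_num) (by norm_num)
      have h2 := sq_nonneg (cl ((nb z).1 - hlf))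
      norm_num at h1
      linarith

theorem NTub_small {r c : ℝ} (hr : r ∈ Ioo (1 : ℝ) 2) (hc : |c| ≤ 1) : |r / 32 * c| ≤ 1 / 16 := by
  rw [abs_mul, abs_of_pos (by linarith [hr.1])]
  have h0 := abs_nonneg c
  nlinarith [hr.1, hr.2]

/-- the collars are avoided: `|cl (b - 1/2)| < 1/16` in the collar `A` -/
theorem nb_colA (z : LS.Cyl) (w : ℝ × Ioo (1 : ℝ) 2 × ℝ) : nb z ≠ colA w := by
  intro h
  have hb := nb_b' z
  have hs := NTub_small w.2.1.2 (Real.abs_sin_le_one (2 * Real.pi * w.1))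
  have h1 : (nb z).2.1 - hlf =
      ((w.2.1 / 32 * Real.sin (2 * Real.pi * w.1) : ℝ) : Ci) := by
    rw [h]
    show ((1 / 2 + w.2.1 / 32 * Real.sin (2 * Real.pi * w.1) : ℝ) : Ci) - ((1 / 2 : ℝ) : Ci) = _
    rw [← AddCircle.coe_sub]
    congr 1
    ring
  rw [← norm_cl, h1, BR.norm_coe (by linarith)] at hb
  linarith

/-- `|cl t| < 1/16` in the collar `B` -/
theorem nb_colB (z : LS.Cyl) (w : ℝ × Ioo (1 : ℝ) 2 × ℝ) : nb z ≠ colB w := by
  intro h
  have hb := nb_t' z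
  have hs := NTub_small w.2.1.2 (Real.abs_cos_le_one (2 * Real.pi * w.1))
  have h1 : (nb z).2.2 = ((w.2.1 / 32 * Real.cos (2 * Real.pi * w.1) : ℝ) : Ci) := by
    rw [h]
    rfl
  rw [← norm_cl, h1, BR.norm_coe (by linarith)] at hb
  linarith

/-- the neighbourhood of the leaf curve -/
noncomputable def NN (z : LS.Cyl) : Mu := ⟨nb z, nb_mem z⟩

theorem NN_emb : IsOpenEmbedding NN := IsOpenEmbedding.of_comp _ Mu_emb nb_emb

end Pool.Agent.H.MP_1611f1_gt.BR.U
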