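import Pool.Agent.H.MP_1611f1_gt.G.Forest

/-!
The choice of slopes on a forest whose gluings are twisted interchanges of longitudes and
meridians.
-/

namespace Pool.Agent.H.MP_1611f1_gt.BR

open Topology Set Filter G

/-- the slopes are not all `≥ 1` and not all `≤ -1` -/
def Region {J : Type*} (r : J → ℝ) : Prop := (¬ ∀ j, 1 ≤ r j) ∧ ¬ ∀ j, r j ≤ -1

/-- the sign of an integer -/
noncomputable def sgZ (k : ℤ) : ℝ := if 0 < k then 1 else -1

theorem sgZ_cases (k : ℤ) : sgZ k = 1 ∨ sgZ k = -1 := by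
  unfold sgZ
  by_cases h : 0 < k
  · exact Or.inl (if_pos h)
  · exact Or.inr (if_neg h)

theorem sgZ_sq (k : ℤ) : sgZ k * sgZ k = 1 := by
  rcases sgZ_cases k with h | h <;> rw [h] <;> norm_num

theorem sgZ_mul {k : ℤ} (hk : k ≠ 0) : 1 ≤ sgZ k * k := by
  unfold sgZ
  by_cases h : 0 < k
  · rw [if_pos h]
    have h4 : (1 : ℝ) ≤ k := by exact_mod_cast h
    linarith
  · rw [if_neg h]
    have h4 : (k : ℝ) ≤ -1 := by
      have : k ≤ -1 := by
        have h5 : k < 0 := lt_of_le_of_ne (not_lt.1 h) hk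
        linarith
      exact_mod_cast this
    linarith

/-- a number of the sign of the integer `k ≠ 0`, plus `k` -/
theorem sgZ_add {k : ℤ} (hk : k ≠ 0) {s : ℝ} (hs : 0 < s / sgZ k) : 1 < |s + k| := by
  have h1 := sgZ_mul hk
  have h2 : s / sgZ k = sgZ k * s := by
    rcases sgZ_cases k with h | h <;> rw [h] <;> ring
  rw [h2] at hs
  have h3 : |s + k| = |sgZ k * (s + k)| := by
    rw [abs_mul]
    rcases sgZ_cases k with h | h <;> rw [h] <;> norm_num
  rw [h3]
  refine lt_of_lt_of_le ?_ (le_abs_self _)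
  rw [mul_add]
  linarith

/-- **The choice of the slopes.** `B`: the pieces (with at least two ends) for which the slopes
must be in the region; for the other pieces there are allowed slopes (`P`) between `0` and
any given numbers; they are glued to pieces in `B` only. All gluings satisfy `al * de = 0`. -/
theorem exists_slopes {V : Type*} {J : V → Type*} (G : Pattern (Σ v, J v)) (hF : G.Forest)
    (B : Set V) (hB : ∀ v ∈ B, ∀ j : J v, ∃ j', j' ≠ j)
    (htw : ∀ e, G.τ e ≠ e → G.al e * G.de e = 0) (r₀ : (Σ v, J v) → ℝ)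
    (hreg : ∀ v ∈ B, (∀ j, G.τ ⟨v, j⟩ = ⟨v, j⟩) → Region fun j => r₀ ⟨v, j⟩)
    (P : ∀ v, (J v → ℝ) → Prop)
    (hN : ∀ v ∉ B, (∀ j, G.τ ⟨v, j⟩ ≠ ⟨v, j⟩ ∧ (G.τ ⟨v, j⟩).1 ∈ B) ∧
      ∀ δ : J v → ℝ, (∀ j, δ j ≠ 0) →
        ∃ s : J v → ℝ, (∀ j, 0 < s j / δ j ∧ s j / δ j < 1) ∧ P v s) :
    ∃ r : (Σ v, J v) → ℝ, (∀ e, G.τ e = e → r e = r₀ e) ∧
      (∀ e, G.τ e ≠ e →
        r e * (G.be e * r (G.τ e) + G.de e) = G.al e * r (G.τ e) + G.ga e) ∧
      (∀ v ∈ B, Region fun j => r ⟨v, j⟩) ∧ ∀ v ∉ B, P v fun j => r ⟨v, j⟩ := by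
  classical
  obtain ⟨ρ, hρ1, hρ2⟩ := hF
  -- the distinguished glued end of a piece, and another end of the piece
  let o : ∀ v, J v → J v := fun v j => if h : ∃ j', j' ≠ j then h.choose else j
  have ho : ∀ v ∈ B, ∀ j : J v, o v j ≠ j := by
    intro v hv j
    have h := hB v hv j
    have h1 : o v j = h.choose := dif_pos h
    rw [h1]
    exact h.choose_spec
  let K : (Σ v, J v) → Prop := fun e =>
    ∃ h : ∃ j, G.τ ⟨e.1, j⟩ ≠ ⟨e.1, j⟩, e.2 = h.choose
  let q : V → ℝ := fun v => if h : ∃ j, G.τ ⟨v, j⟩ ≠ ⟨v, j⟩ then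
    (if G.τ ⟨v, o v h.choose⟩ = ⟨v, o v h.choose⟩ then r₀ ⟨v, o v h.choose⟩ else 1) else 0
  let S : (Σ v, J v) → ℝ := fun e => if K e ∧ 0 < q e.1 then -1 else 1
  have hS : ∀ e, S e = 1 ∨ S e = -1 := by
    intro e
    by_cases h : K e ∧ 0 < q e.1
    · exact Or.inr (if_pos h)
    · exact Or.inl (if_neg h)
  have hSS : ∀ e, S e * S e = 1 := by
    intro e
    rcases hS e with h | h <;> rw [h] <;> norm_num
  -- the slopes at the ends of the pieces outside of `B`
  let δ : (Σ v, J v) → ℝ := fun f => if G.de (G.τ f) ≠ 0 then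
    sgZ (G.be (G.τ f) * G.de (G.τ f)) else S (G.τ f) / (|(G.al (G.τ f) : ℝ)| + 2)
  have hδ0 : ∀ f, δ f ≠ 0 := by
    intro f
    by_cases h : G.de (G.τ f) ≠ 0
    · simp only [δ, if_pos h]
      rcases sgZ_cases (G.be (G.τ f) * G.de (G.τ f)) with h1 | h1 <;> rw [h1] <;> norm_num
    · simp only [δ, if_neg h]
      refine div_ne_zero ?_ (by positivity)
      rcases hS (G.τ f) with h1 | h1 <;> rw [h1] <;> norm_num
  have hsN : ∀ v, v ∉ B → ∃ s : J v → ℝ,
      (∀ j, 0 < s j / δ ⟨v, j⟩ ∧ s j / δ ⟨v, j⟩ < 1) ∧ P v s := fun v hv =>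
    (hN v hv).2 (fun j => δ ⟨v, j⟩) fun j => hδ0 _
  choose sN hs1 hs2 using hsN
  let rN : (Σ v, J v) → ℝ := fun f => if h : f.1 ∈ B then 0 else sN f.1 h f.2
  have hrN : ∀ f, f.1 ∉ B → 0 < rN f / δ f ∧ rN f / δ f < 1 := by
    rintro ⟨v, j⟩ hf
    have h1 : rN ⟨v, j⟩ = sN v hf j := dif_neg hf
    rw [h1]
    exact hs1 v hf j
  let rB : (Σ v, J v) → ℝ := fun e =>
    if G.de e ≠ 0 then 1 / (sgZ (G.be e * G.de e) / 2 + (G.be e * G.de e : ℤ)) else
    if G.al e ≠ 0 then sgZ (- (G.be e * G.al e)) / 2 else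
    if ρ (G.τ e).1 < ρ e.1 then S (G.τ e) / 2 else 2 * S e
  let r : (Σ v, J v) → ℝ := fun e => if G.τ e = e then r₀ e else
    if e.1 ∈ B then (if (G.τ e).1 ∈ B then rB e else
      (G.al e * rN (G.τ e) + G.ga e) / (G.be e * rN (G.τ e) + G.de e)) else rN e
  have hr0 : ∀ e, G.τ e = e → r e = r₀ e := fun e he => by simp only [r, if_pos he]
  have hrBB : ∀ e, G.τ e ≠ e → e.1 ∈ B → (G.τ e).1 ∈ B → r e = rB e := fun e he h1 h2 => by
    simp only [r, if_neg he, if_pos h1, if_pos h2]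
  have hrBN : ∀ e, G.τ e ≠ e → e.1 ∈ B → (G.τ e).1 ∉ B →
      r e = (G.al e * rN (G.τ e) + G.ga e) / (G.be e * rN (G.τ e) + G.de e) :=
    fun e he h1 h2 => by simp only [r, if_neg he, if_pos h1, if_neg h2]
  have hrNN : ∀ e, G.τ e ≠ e → e.1 ∉ B → r e = rN e := fun e he h1 => by
    simp only [r, if_neg he, if_neg h1]
  have hτ : ∀ e, G.τ e ≠ e → G.τ (G.τ e) ≠ G.τ e := by
    intro e he
    rw [G.invol]
    exact fun h => he h.symm
  -- `be = ga = ± 1`
  have hbg : ∀ e, G.τ e ≠ e → G.be e = G.ga e ∧ (G.be e = 1 ∨ G.be e = -1) := by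
    intro e he
    have h4 := G.det_glue e he
    rw [htw e he] at h4
    have h5 : G.be e * G.ga e = 1 := by linarith
    rcases Int.eq_one_or_neg_one_of_mul_eq_one h5 with h | h <;> rw [h] at h5 ⊢ <;>
      constructor <;> first | linarith | norm_num
  have hb2 : ∀ e, G.τ e ≠ e → (G.be e : ℝ) * G.be e = 1 := by
    intro e he
    rcases (hbg e he).2 with h | h <;> rw [h] <;> norm_num
  have hbne : ∀ e, G.τ e ≠ e → G.be e ≠ 0 := by
    intro e he
    rcases (hbg e he).2 with h | h <;> rw [h] <;> norm_num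
  -- the equation at one end of a pair gives the equation at the other end
  have hflip : ∀ e, G.τ e ≠ e →
      r e * (G.be e * r (G.τ e) + G.de e) = G.al e * r (G.τ e) + G.ga e →
      r (G.τ e) * (G.be (G.τ e) * r (G.τ (G.τ e)) + G.de (G.τ e)) =
        G.al (G.τ e) * r (G.τ (G.τ e)) + G.ga (G.τ e) := by
    intro e he h
    obtain ⟨c1, c2, c3, c4⟩ := G.mat e he
    rw [G.invol, c1, c2, c3, c4]
    push_cast
    linear_combination h
  -- pairs with both pieces in `B`
  have hBB1 : ∀ e, G.τ e ≠ e → e.1 ∈ B → (G.τ e).1 ∈ B → G.de e ≠ 0 →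
      r e * (G.be e * r (G.τ e) + G.de e) = G.al e * r (G.τ e) + G.ga e ∧ |r e| < 1 ∧
        |r (G.τ e)| < 1 := by
    intro e he h1 h2 hd
    have ha : G.al e = 0 := (mul_eq_zero.1 (htw e he)).resolve_right hd
    obtain ⟨c1, c2, c3, c4⟩ := G.mat e he
    have hk : G.be e * G.de e ≠ 0 := mul_ne_zero (hbne e he) hd
    obtain ⟨k, hkd⟩ : ∃ k : ℤ, k = G.be e * G.de e := ⟨_, rfl⟩
    have e1 : r e = 1 / (sgZ k / 2 + (k : ℝ)) := by
      rw [hrBB e he h1 h2, hkd]
      simp only [rB, if_pos hd]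
    have e2 : r (G.τ e) = sgZ k / 2 := by
      rw [hrBB (G.τ e) (hτ e he) h2 (by rw [G.invol]; exact h1)]
      have h4 : ¬ G.de (G.τ e) ≠ 0 := by rw [c4, ha]; simp
      have h5 : G.al (G.τ e) ≠ 0 := by rw [c1]; exact neg_ne_zero.2 hd
      simp only [rB, if_neg h4, if_pos h5]
      rw [c1, c2, hkd]
      congr 2
      ring
    rw [← hkd] at hk
    have h6 : 1 < |sgZ k / 2 + (k : ℝ)| := by
      refine sgZ_add hk ?_
      rcases sgZ_cases k with h | h <;> rw [h] <;> norm_num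
    have h7 : sgZ k / 2 + (k : ℝ) ≠ 0 := by
      intro h
      rw [h, abs_zero] at h6
      linarith
    refine ⟨?_, ?_, ?_⟩
    · rw [e1, e2, ha, ← (hbg e he).1]
      have h8 : (G.be e : ℝ) * k = G.de e := by
        rw [hkd]
        push_cast
        rw [← mul_assoc, hb2 e he, one_mul]
      push_cast
      rw [one_div, inv_mul_eq_iff_eq_mul₀ h7]
      linear_combination (-1 : ℝ) * h8
    · rw [e1, abs_div, abs_one, div_lt_one (by linarith)]
      exact h6
    · rw [e2]
      rcases sgZ_cases k with h | h <;> rw [h] <;> norm_num [abs_lt]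
  have hBB2 : ∀ e, G.τ e ≠ e → e.1 ∈ B → (G.τ e).1 ∈ B → G.de e = 0 → G.al e = 0 →
      ρ (G.τ e).1 < ρ e.1 →
      r e * (G.be e * r (G.τ e) + G.de e) = G.al e * r (G.τ e) + G.ga e ∧ |r e| < 1 ∧
        1 < S (G.τ e) * r (G.τ e) := by
    intro e he h1 h2 hd ha hlt
    obtain ⟨c1, c2, c3, c4⟩ := G.mat e he
    have e1 : r e = S (G.τ e) / 2 := by
      rw [hrBB e he h1 h2]
      simp only [rB, if_neg (not_not.2 hd), if_neg (not_not.2 ha), if_pos hlt]
    have e2 : r (G.τ e) = 2 * S (G.τ e) := by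
      rw [hrBB (G.τ e) (hτ e he) h2 (by rw [G.invol]; exact h1)]
      have h4 : ¬ G.de (G.τ e) ≠ 0 := by rw [c4, ha]; simp
      have h5 : ¬ G.al (G.τ e) ≠ 0 := by rw [c1, hd]; simp
      have h6 : ¬ ρ (G.τ (G.τ e)).1 < ρ (G.τ e).1 := by rw [G.invol]; exact not_lt.2 hlt.le
      simp only [rB, if_neg h4, if_neg h5, if_neg h6]
    refine ⟨?_, ?_, ?_⟩
    · rw [e1, e2, hd, ha, ← (hbg e he).1]
      push_cast
      linear_combination (G.be e : ℝ) * hSS (G.τ e)
    · rw [e1]
      rcases hS (G.τ e) with h | h <;> rw [h] <;> norm_num [abs_lt]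
    · rw [e2]
      have := hSS (G.τ e)
      linarith
  -- pairs with one piece in `B`
  have hBN : ∀ e, G.τ e ≠ e → e.1 ∈ B → (G.τ e).1 ∉ B →
      r e * (G.be e * r (G.τ e) + G.de e) = G.al e * r (G.τ e) + G.ga e ∧
        (|r e| < 1 ∨ 1 < S e * r e) := by
    intro e he h1 h2
    have e2 : r (G.τ e) = rN (G.τ e) := hrNN (G.τ e) (hτ e he) h2
    have e1 := hrBN e he h1 h2
    obtain ⟨h3, h4⟩ := hrN (G.τ e) h2
    obtain ⟨s, hs⟩ : ∃ s, s = rN (G.τ e) := ⟨_, rfl⟩
    rw [← hs] at e1 e2 h3 h4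
    by_cases hd : G.de e ≠ 0
    · have ha : G.al e = 0 := (mul_eq_zero.1 (htw e he)).resolve_right hd
      have hk : G.be e * G.de e ≠ 0 := mul_ne_zero (hbne e he) hd
      obtain ⟨k, hkd⟩ : ∃ k : ℤ, k = G.be e * G.de e := ⟨_, rfl⟩
      have h5 : δ (G.τ e) = sgZ k := by
        simp only [δ, G.invol, if_pos hd, hkd]
      rw [h5] at h3
      rw [← hkd] at hk
      have h6 := sgZ_add hk h3
      have h7 : (G.be e : ℝ) * s + G.de e = G.be e * (s + k) := by
        rw [hkd]
        push_cast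
        linear_combination (-(G.de e : ℝ)) * hb2 e he
      have h8 : |(G.be e : ℝ) * s + G.de e| = |s + k| := by
        rw [h7, abs_mul]
        rcases (hbg e he).2 with h | h <;> rw [h] <;> norm_num
      have h9 : (G.be e : ℝ) * s + G.de e ≠ 0 := by
        intro h
        rw [h, abs_zero] at h8
        linarith
      refine ⟨?_, Or.inl ?_⟩
      · rw [e1, e2]
        exact div_mul_cancel₀ _ h9
      · rw [e1, ha, abs_div, h8, div_lt_one (by linarith)]
        have h10 : |((0 : ℤ) : ℝ) * s + (G.ga e : ℝ)| = 1 := by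
          rw [← (hbg e he).1]
          rcases (hbg e he).2 with h | h <;> rw [h] <;> norm_num
        rw [h10]
        exact h6
    · have hd' : G.de e = 0 := not_not.1 hd
      have h5 : δ (G.τ e) = S e / (|(G.al e : ℝ)| + 2) := by
        simp only [δ, G.invol, if_neg hd]
      have hA : 0 < |(G.al e : ℝ)| + 2 := by positivity
      have h6 : s / δ (G.τ e) = S e * s * (|(G.al e : ℝ)| + 2) := by
        rw [h5]
        rcases hS e with h | h <;> rw [h] <;> field_simp
      rw [h6] at h3 h4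
      have h7 : 0 < S e * s := (mul_pos_iff_of_pos_right hA).1 h3
      have hs0 : s ≠ 0 := by
        rintro rfl
        simp at h7
      have h9 : (G.be e : ℝ) * s + G.de e ≠ 0 := by
        rw [hd']
        push_cast
        rw [add_zero]
        refine mul_ne_zero ?_ hs0
        exact_mod_cast hbne e he
      refine ⟨?_, Or.inr ?_⟩
      · rw [e1, e2]
        exact div_mul_cancel₀ _ h9
      · have h10 : r e = G.be e * G.al e + 1 / s := by
          rw [e1, hd', ← (hbg e he).1]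
          push_cast
          rw [add_zero, div_eq_iff (mul_ne_zero (by exact_mod_cast hbne e he) hs0)]
          have hb := hb2 e he
          field_simp
          linear_combination (-(G.al e : ℝ) * s) * hb
        have h11 : S e * (1 / s) = 1 / (S e * s) := by
          rcases hS e with h | h <;> rw [h] <;> field_simp
        have h12 : |(G.al e : ℝ)| + 2 < 1 / (S e * s) := by
          rw [lt_div_iff₀ h7]
          linarith
        have h13 : -|(G.al e : ℝ)| ≤ S e * (G.be e * G.al e) := by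
          have h14 : |S e * (G.be e * G.al e)| = |(G.al e : ℝ)| := by
            rw [abs_mul, abs_mul]
            rcases hS e with h | h <;> rcases (hbg e he).2 with h' | h' <;> rw [h, h'] <;> norm_num
          rw [← h14]
          exact neg_abs_le _
        rw [h10, mul_add, h11]
        linarith
  -- all glued ends of pieces in `B`
  have hall : ∀ e, G.τ e ≠ e → e.1 ∈ B →
      r e * (G.be e * r (G.τ e) + G.de e) = G.al e * r (G.τ e) + G.ga e ∧
        (|r e| < 1 ∨ 1 < S e * r e) := by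
    intro e he h1
    by_cases h2 : (G.τ e).1 ∈ B
    · obtain ⟨c1, c2, c3, c4⟩ := G.mat e he
      by_cases hd : G.de e ≠ 0
      · obtain ⟨a1, a2, -⟩ := hBB1 e he h1 h2 hd
        exact ⟨a1, Or.inl a2⟩
      · have hd' : G.de e = 0 := not_not.1 hd
        by_cases ha : G.al e ≠ 0
        · obtain ⟨a1, a2, a3⟩ := hBB1 (G.τ e) (hτ e he) h2 (by rw [G.invol]; exact h1)
            (by rw [c4]; exact neg_ne_zero.2 ha)
          have a4 := hflip (G.τ e) (hτ e he) a1
          rw [G.invol] at a4 a3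
          exact ⟨a4, Or.inl a3⟩
        · have ha' : G.al e = 0 := not_not.1 ha
          rcases lt_or_gt_of_ne (hρ1 e he) with hlt | hlt
          · obtain ⟨a1, a2, -⟩ := hBB2 e he h1 h2 hd' ha' hlt
            exact ⟨a1, Or.inl a2⟩
          · obtain ⟨a1, a2, a3⟩ := hBB2 (G.τ e) (hτ e he) h2 (by rw [G.invol]; exact h1)
              (by rw [c4, ha', neg_zero]) (by rw [c1, hd', neg_zero])
              (by rw [G.invol]; exact hlt)
            have a4 := hflip (G.τ e) (hτ e he) a1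
            rw [G.invol] at a4 a3
            exact ⟨a4, Or.inr a3⟩
    · exact hBN e he h1 h2
  refine ⟨r, hr0, fun e he => ?_, fun v hv => ?_, fun v hv => ?_⟩
  · by_cases h1 : e.1 ∈ B
    · exact (hall e he h1).1
    · -- then the other piece is in `B`
      have h2 : (G.τ e).1 ∈ B := by
        obtain ⟨v, j⟩ := e
        exact ((hN v h1).1 j).2
      have h3 := hflip (G.τ e) (hτ e he) (hall (G.τ e) (hτ e he) h2).1
      rw [G.invol] at h3
      exact h3
  · -- the region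
    by_cases hsm : ∃ j, G.τ ⟨v, j⟩ ≠ ⟨v, j⟩ ∧ |r ⟨v, j⟩| < 1
    · obtain ⟨j, -, hj⟩ := hsm
      have h4 := abs_lt.1 hj
      refine ⟨fun h => ?_, fun h => ?_⟩
      · have h5 : 1 ≤ r ⟨v, j⟩ := h j
        linarith
      · have h5 : r ⟨v, j⟩ ≤ -1 := h j
        linarith
    · have hbig : ∀ j, G.τ ⟨v, j⟩ ≠ ⟨v, j⟩ → 1 < S ⟨v, j⟩ * r ⟨v, j⟩ := fun j hj =>
        (hall ⟨v, j⟩ hj hv).2.resolve_left fun h => hsm ⟨j, hj, h⟩
      by_cases hg : ∃ j, G.τ ⟨v, j⟩ ≠ ⟨v, j⟩
      · have hK : K ⟨v, hg.choose⟩ := ⟨hg, rfl⟩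
        have h1 := hbig hg.choose hg.choose_spec
        have hne := ho v hv hg.choose
        have hq : q v = if G.τ ⟨v, o v hg.choose⟩ = ⟨v, o v hg.choose⟩ then
            r₀ ⟨v, o v hg.choose⟩ else 1 := dif_pos hg
        have h2 : (G.τ ⟨v, o v hg.choose⟩ = ⟨v, o v hg.choose⟩ → r ⟨v, o v hg.choose⟩ = q v) ∧
            (G.τ ⟨v, o v hg.choose⟩ ≠ ⟨v, o v hg.choose⟩ →
              1 < r ⟨v, o v hg.choose⟩ ∧ q v = 1) := by
          refine ⟨fun h => ?_, fun h => ?_⟩
          · rw [hr0 _ h, hq, if_pos h]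
          · have h3 := hbig _ h
            have h4 : ¬ K ⟨v, o v hg.choose⟩ := by
              rintro ⟨h', h5⟩
              exact hne h5
            have h5 : S ⟨v, o v hg.choose⟩ = 1 := if_neg fun h' => h4 h'.1
            rw [h5, one_mul] at h3
            exact ⟨h3, by rw [hq, if_neg h]⟩
        by_cases hq0 : 0 < q v
        · have h3 : S ⟨v, hg.choose⟩ = -1 := if_pos ⟨hK, hq0⟩
          rw [h3] at h1
          refine ⟨fun h => ?_, fun h => ?_⟩
          · have h4 : 1 ≤ r ⟨v, hg.choose⟩ := h _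
            linarith
          · have h4 : r ⟨v, o v hg.choose⟩ ≤ -1 := h _
            by_cases h5 : G.τ ⟨v, o v hg.choose⟩ = ⟨v, o v hg.choose⟩
            · rw [h2.1 h5] at h4
              linarith
            · linarith [(h2.2 h5).1]
        · have h3 : S ⟨v, hg.choose⟩ = 1 := if_neg fun h => hq0 h.2
          rw [h3, one_mul] at h1
          refine ⟨fun h => ?_, fun h => ?_⟩
          · have h4 : 1 ≤ r ⟨v, o v hg.choose⟩ := h _
            by_cases h5 : G.τ ⟨v, o v hg.choose⟩ = ⟨v, o v hg.choose⟩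
            · rw [h2.1 h5] at h4
              linarith
            · have h6 := (h2.2 h5).2
              exact hq0 (by rw [h6]; exact one_pos)
          · have h4 : r ⟨v, hg.choose⟩ ≤ -1 := h _
            linarith
      · have h3 : ∀ j, G.τ ⟨v, j⟩ = ⟨v, j⟩ := by
          intro j
          by_contra h5
          exact hg ⟨j, h5⟩
        have h4 : ∀ j, r ⟨v, j⟩ = r₀ ⟨v, j⟩ := fun j => hr0 _ (h3 j)
        simp only [h4]
        exact hreg v hv h3
  · have h1 : (fun j => r ⟨v, j⟩) = sN v hv := by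
      funext j
      rw [hrNN ⟨v, j⟩ ((hN v hv).1 j).1 hv]
      exact dif_neg hv
    rw [h1]
    exact hs2 v hv

end Pool.Agent.H.MP_1611f1_gt.BR
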