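import Pool.Agent.H.MP_1611f1_gt.BR.Det
import Pool.Agent.H.MP_1611f1_gt.BR.Sel
import Pool.Agent.H.MP_1611f1_gt.G.Pull

/-!
Slopes; copies of the exterior of the Borromean rings.
-/

namespace Pool.Agent.H.MP_1611f1_gt.BR

open Topology Set Filter G

/-- There is a taut foliation which is near the end `j` the foliation `r j * θ + t = const`, for
all ends `j` of `T` (up to the co-orientations). -/
def Slopes {M : Type*} [TopologicalSpace M] {J : Type*} (T : Ended M J) (r : J → ℝ) : Prop :=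
  ∃ κ : J → ℝ, (∀ j, κ j = 1 ∨ κ j = -1) ∧ Detected T (fun j => κ j * r j) κ

/-- `M` with the ends `T` is a copy of the exterior `M0` of the Borromean rings with its standard
ends `tub i`. -/
structure IsB {M : Type*} [TopologicalSpace M] {J : Type*} (T : Ended M J) where
  h : M ≃ₜ M0
  ι : Fin 3 ≃ J
  tor : ∀ (i : Fin 3) (θ : ℝ) (r : Ioo (1 : ℝ) 2) (t : AddCircle (1 : ℝ)),
    (h (T.tor (ι i) ((θ : AddCircle (1 : ℝ)), r, t))).1 = tub i θ r t

theorem IsB.tor_eq {M : Type*} [TopologicalSpace M] {J : Type*} {T : Ended M J} (c : IsB T)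
    (i : Fin 3) (z : AddCircle (1 : ℝ) × Ioo (1 : ℝ) 2 × AddCircle (1 : ℝ)) :
    c.h (T.tor (c.ι i) z) = T0.tor i z := by
  obtain ⟨a, r, t⟩ := z
  obtain ⟨θ, rfl⟩ := QuotientAddGroup.mk_surjective a
  apply Subtype.ext
  have h1 := c.tor i θ r t
  have h2 := T0_tor i θ r t
  exact h1.trans h2.symm

/-- a copy of the exterior of the Borromean rings has taut foliations with all slopes in the
region -/
theorem IsB.slopes {M : Type*} [TopologicalSpace M] {J : Type*} {T : Ended M J} (c : IsB T)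
    {r : J → ℝ} (hr : Region r) : Slopes T r := by
  have hr1 : ¬ ∀ i, 1 ≤ r (c.ι i) / 1 := by
    intro h
    refine hr.1 fun j => ?_
    have h1 := h (c.ι.symm j)
    rwa [c.ι.apply_symm_apply, div_one] at h1
  have hr2 : ¬ ∀ i, r (c.ι i) / 1 ≤ -1 := by
    intro h
    refine hr.2 fun j => ?_
    have h1 := h (c.ι.symm j)
    rwa [c.ι.apply_symm_apply, div_one] at h1
  obtain ⟨k, hk, hd⟩ := detected (fun i => r (c.ι i)) (fun _ => 1) (fun _ => one_ne_zero) hr1 hr2
  refine ⟨fun j => k (c.ι.symm j), fun j => hk _, ?_⟩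
  refine Detected.pull c.h c.ι (fun i z => c.tor_eq i z) ?_
  simp only [Equiv.symm_apply_apply]
  simp only [mul_one] at hd
  exact hd

theorem IsB.nontrivial {M : Type*} [TopologicalSpace M] {J : Type*} {T : Ended M J} (c : IsB T)
    (j : J) : ∃ j', j' ≠ j := by
  refine ⟨c.ι (c.ι.symm j + 1), fun h => ?_⟩
  have h1 := congrArg c.ι.symm h
  rw [Equiv.symm_apply_apply] at h1
  exact (fin3 (c.ι.symm j)).1 h1

/-- `T0` itself -/
noncomputable def isB_T0 : IsB T0 where
  h := Homeomorph.refl M0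
  ι := Equiv.refl _
  tor := fun i θ r t => T0_tor i θ r t

end Pool.Agent.H.MP_1611f1_gt.BR
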