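import Pool.Agent.H.MP_1611f1_gt.BR.Emb

/-!
The torus minus a disc.
-/

namespace Pool.Agent.H.MP_1611f1_gt.BR

open Topology Set Filter

/-- the torus minus the closed disc of radius `1 / 32` around `(0, 1 / 2)` -/
abbrev SS := {x : AddCircle (1 : ℝ) × AddCircle (1 : ℝ) //
  (1 / 32 : ℝ) ^ 2 < ‖x.1‖ ^ 2 + ‖x.2 - ((1 / 2 : ℝ) : AddCircle (1 : ℝ))‖ ^ 2}

/-- the point with the coordinates `v`, `h` relative to `(0, 1 / 2)`, in units of `1 / 32` -/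
noncomputable def pt (v h : ℝ) : AddCircle (1 : ℝ) × AddCircle (1 : ℝ) :=
  (((v / 32 : ℝ) : AddCircle (1 : ℝ)), ((1 / 2 + h / 32 : ℝ) : AddCircle (1 : ℝ)))

theorem pt_surj (x : AddCircle (1 : ℝ) × AddCircle (1 : ℝ)) :
    ∃ v h : ℝ, |v| ≤ 16 ∧ |h| ≤ 16 ∧ x = pt v h := by
  obtain ⟨a, ha, ha1, -⟩ := coe_surj x.1
  obtain ⟨b, hb, hb1, -⟩ := coe_surj (x.2 - ((1 / 2 : ℝ) : AddCircle (1 : ℝ)))
  refine ⟨32 * a, 32 * b, ?_, ?_, ?_⟩
  · rw [abs_mul, abs_of_pos (by norm_num : (0 : ℝ) < 32)]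
    linarith
  · rw [abs_mul, abs_of_pos (by norm_num : (0 : ℝ) < 32)]
    linarith
  · unfold pt
    have h1 : 32 * a / 32 = a := by ring
    have h2 : 1 / 2 + 32 * b / 32 = 1 / 2 + b := by ring
    rw [h1, h2, ha1, AddCircle.coe_add, hb1, add_sub_cancel]

theorem pt_inj {v h v' h' : ℝ} (h1 : |v - v'| < 32) (h2 : |h - h'| < 32)
    (h3 : pt v h = pt v' h') : v = v' ∧ h = h' := by
  unfold pt at h3
  simp only [Prod.mk.injEq] at h3
  rw [abs_lt] at h1 h2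
  have e1 := coe_inj (abs_lt.2 ⟨by linarith, by linarith⟩) h3.1
  have e2 := coe_inj (abs_lt.2 ⟨by linarith, by linarith⟩) h3.2
  constructor <;> linarith

theorem pt_mem {v h : ℝ} (h1 : |v| ≤ 16) (h2 : |h| ≤ 16) :
    (1 / 32 : ℝ) ^ 2 < ‖(pt v h).1‖ ^ 2 + ‖(pt v h).2 - ((1 / 2 : ℝ) : AddCircle (1 : ℝ))‖ ^ 2 ↔
      1 < v ^ 2 + h ^ 2 := by
  have e1 : ‖(pt v h).1‖ = |v / 32| := by
    refine norm_coe ?_
    rw [abs_le] at h1 ⊢
    constructor <;> linarith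
  have e2 : ‖(pt v h).2 - ((1 / 2 : ℝ) : AddCircle (1 : ℝ))‖ = |h / 32| := by
    have h3 : (pt v h).2 - ((1 / 2 : ℝ) : AddCircle (1 : ℝ)) =
        ((h / 32 : ℝ) : AddCircle (1 : ℝ)) := by
      unfold pt
      rw [← AddCircle.coe_sub, add_sub_cancel_left]
    rw [h3]
    refine norm_coe ?_
    rw [abs_le] at h2 ⊢
    constructor <;> linarith
  rw [e1, e2, sq_abs, sq_abs]
  constructor <;> intro h3 <;> nlinarith

/-- polar coordinates -/
theorem polar_exists {v h r : ℝ} (hr : 0 < r) (hvh : v ^ 2 + h ^ 2 = r ^ 2) :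
    ∃ θ : ℝ, v = r * Real.cos (2 * Real.pi * θ) ∧ h = r * Real.sin (2 * Real.pi * θ) := by
  have hn : ‖((v : ℂ) + h * Complex.I)‖ = r := by
    rw [Complex.norm_add_mul_I, hvh, Real.sqrt_sq hr.le]
  have hpi : 2 * Real.pi * (Complex.arg ((v : ℂ) + h * Complex.I) / (2 * Real.pi)) =
      Complex.arg ((v : ℂ) + h * Complex.I) := by
    field_simp
  refine ⟨Complex.arg ((v : ℂ) + h * Complex.I) / (2 * Real.pi), ?_, ?_⟩
  · rw [hpi, ← hn, Complex.norm_mul_cos_arg]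
    simp
  · rw [hpi, ← hn, Complex.norm_mul_sin_arg]
    simp

theorem polar_inj {r r' θ θ' : ℝ} (hr : 0 < r) (hr' : 0 < r')
    (h1 : r * Real.cos (2 * Real.pi * θ) = r' * Real.cos (2 * Real.pi * θ'))
    (h2 : r * Real.sin (2 * Real.pi * θ) = r' * Real.sin (2 * Real.pi * θ')) :
    r = r' ∧ (θ : AddCircle (1 : ℝ)) = θ' := by
  have hsq : r ^ 2 = r' ^ 2 := by
    have h3 := Real.cos_sq_add_sin_sq (2 * Real.pi * θ)
    have h4 := Real.cos_sq_add_sin_sq (2 * Real.pi * θ')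
    calc r ^ 2 = (r * Real.cos (2 * Real.pi * θ)) ^ 2 + (r * Real.sin (2 * Real.pi * θ)) ^ 2 := by
          rw [mul_pow, mul_pow, ← mul_add, h3, mul_one]
      _ = (r' * Real.cos (2 * Real.pi * θ')) ^ 2 + (r' * Real.sin (2 * Real.pi * θ')) ^ 2 := by
          rw [h1, h2]
      _ = r' ^ 2 := by rw [mul_pow, mul_pow, ← mul_add, h4, mul_one]
  have hrr : r = r' := by
    have h3 : (r - r') * (r + r') = 0 := by ring_nf; linarith
    rcases mul_eq_zero.1 h3 with h4 | h4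
    · linarith
    · linarith
  refine ⟨hrr, ?_⟩
  subst hrr
  have h3 := mul_left_cancel₀ hr.ne' h1
  have h4 := mul_left_cancel₀ hr.ne' h2
  have h5 : ((2 * Real.pi * θ : ℝ) : Real.Angle) = ((2 * Real.pi * θ' : ℝ) : Real.Angle) :=
    Real.Angle.cos_sin_inj h3 h4
  rw [Real.Angle.angle_eq_iff_two_pi_dvd_sub] at h5
  obtain ⟨k, hk⟩ := h5
  have h6 : θ = θ' + k := by
    have h7 : 2 * Real.pi * (θ - θ' - k) = 0 := by linarith
    rcases mul_eq_zero.1 h7 with h8 | h8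
    · exact absurd h8 (by positivity)
    · linarith
  rw [h6, AddCircle.coe_add]
  have h7 : ((k : ℝ) : AddCircle (1 : ℝ)) = 0 := by
    rw [AddCircle.coe_eq_zero_iff]
    exact ⟨k, by simp⟩
  rw [h7, add_zero]

end Pool.Agent.H.MP_1611f1_gt.BR
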