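import Pool.Agent.H.MP_1611f1_gt.BR.Srf

/-!
The torus minus a disc as a surface with one end.
-/

namespace Pool.Agent.H.MP_1611f1_gt.BR

open Topology Set Filter

theorem SrfE_norm {v h : ℝ} (h1 : |v| ≤ 16) (h2 : |h| ≤ 16) :
    ‖(pt v h).1‖ ^ 2 + ‖(pt v h).2 - ((1 / 2 : ℝ) : AddCircle (1 : ℝ))‖ ^ 2 =
      (v ^ 2 + h ^ 2) * (1 / 32) ^ 2 := by
  have e1 : ‖(pt v h).1‖ = |v / 32| := by
    refine norm_coe ?_
    rw [abs_le] at h1 ⊢
    constructor <;> linarith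
  have e2 : ‖(pt v h).2 - ((1 / 2 : ℝ) : AddCircle (1 : ℝ))‖ = |h / 32| := by
    have h3 : (pt v h).2 - ((1 / 2 : ℝ) : AddCircle (1 : ℝ)) =
        ((h / 32 : ℝ) : AddCircle (1 : ℝ)) := by
      unfold pt
      rw [← AddCircle.coe_sub, add_sub_cancel_left]
    rw [h3]
    refine norm_coe ?_
    rw [abs_le] at h2 ⊢
    constructor <;> linarith
  rw [e1, e2, sq_abs, sq_abs]
  ring

theorem SrfE_pt_cont : Continuous (fun z : ℝ × ℝ => pt z.1 z.2) := by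
  unfold pt
  exact (coe_cont.comp (continuous_fst.div_const 32)).prodMk
    (coe_cont.comp (continuous_const.add (continuous_snd.div_const 32)))

theorem SrfE_pt_open : IsOpenMap (fun z : ℝ × ℝ => pt z.1 z.2) := by
  have h32 : IsOpenMap (fun x : ℝ => x / 32) := by
    have h := (Homeomorph.mulRight₀ (32 : ℝ)⁻¹ (by norm_num)).isOpenMap
    have e : (fun x : ℝ => x / 32) = fun x : ℝ => x * (32 : ℝ)⁻¹ := by
      funext x
      exact div_eq_mul_inv x 32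
    rw [e]
    exact h
  have h1 : IsOpenMap (Prod.map (fun x : ℝ => ((x / 32 : ℝ) : AddCircle (1 : ℝ)))
      (fun x : ℝ => ((1 / 2 + x / 32 : ℝ) : AddCircle (1 : ℝ)))) :=
    (coe_open.comp h32).prodMap
      (coe_open.comp ((Homeomorph.addLeft (1 / 2 : ℝ)).isOpenMap.comp h32))
  exact h1

/-- a point of the collar of angle `a` and radius `r` has radius `r` -/
theorem SrfE_sq (a : AddCircle (1 : ℝ)) (r : Ioo (1 : ℝ) 2) :
    ((r : ℝ) * (AddCircle.toCircle a : ℂ).re) ^ 2 + ((r : ℝ) * (AddCircle.toCircle a : ℂ).im) ^ 2 =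
      (r : ℝ) ^ 2 := by
  have h := Complex.normSq_eq_norm_sq (AddCircle.toCircle a : ℂ)
  rw [Circle.norm_coe, Complex.normSq_apply] at h
  nlinarith

theorem SrfE_abs (a : AddCircle (1 : ℝ)) (r : Ioo (1 : ℝ) 2) :
    |(r : ℝ) * (AddCircle.toCircle a : ℂ).re| ≤ 2 ∧
      |(r : ℝ) * (AddCircle.toCircle a : ℂ).im| ≤ 2 := by
  have h := SrfE_sq a r
  have h1 : (1 : ℝ) < r := r.2.1
  have h2 : (r : ℝ) < 2 := r.2.2
  constructor
  · refine abs_le_of_sq_le_sq ?_ (by norm_num)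
    nlinarith [sq_nonneg ((r : ℝ) * (AddCircle.toCircle a : ℂ).im)]
  · refine abs_le_of_sq_le_sq ?_ (by norm_num)
    nlinarith [sq_nonneg ((r : ℝ) * (AddCircle.toCircle a : ℂ).re)]

/-- the collar, in the torus -/
noncomputable def SrfE_f (z : AddCircle (1 : ℝ) × Ioo (1 : ℝ) 2) :
    AddCircle (1 : ℝ) × AddCircle (1 : ℝ) :=
  pt ((z.2 : ℝ) * (AddCircle.toCircle (z.1 + ((1 / 8 : ℝ) : AddCircle (1 : ℝ))) : ℂ).re)
    ((z.2 : ℝ) * (AddCircle.toCircle (z.1 + ((1 / 8 : ℝ) : AddCircle (1 : ℝ))) : ℂ).im)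

theorem SrfE_f_coe (θ : ℝ) (r : Ioo (1 : ℝ) 2) :
    SrfE_f ((θ : AddCircle (1 : ℝ)), r) =
      pt (r * Real.cos (2 * Real.pi * (θ + 1 / 8))) (r * Real.sin (2 * Real.pi * (θ + 1 / 8))) := by
  unfold SrfE_f
  simp only
  rw [← AddCircle.coe_add, (LS.SurgA_circle _).1, (LS.SurgA_circle _).2]

theorem SrfE_f_cont : Continuous SrfE_f := by
  have h1 : Continuous fun z : AddCircle (1 : ℝ) × Ioo (1 : ℝ) 2 =>
      (AddCircle.toCircle (z.1 + ((1 / 8 : ℝ) : AddCircle (1 : ℝ))) : ℂ) :=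
    continuous_subtype_val.comp (AddCircle.continuous_toCircle.comp
      (continuous_fst.add continuous_const))
  have h2 : Continuous fun z : AddCircle (1 : ℝ) × Ioo (1 : ℝ) 2 => (z.2 : ℝ) :=
    continuous_subtype_val.comp continuous_snd
  exact SrfE_pt_cont.comp ((h2.mul (Complex.continuous_re.comp h1)).prodMk
    (h2.mul (Complex.continuous_im.comp h1)))

theorem SrfE_f_inj : Function.Injective SrfE_f := by
  rintro ⟨a, r⟩ ⟨a', r'⟩ h
  obtain ⟨θ, rfl⟩ := QuotientAddGroup.mk_surjective a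
  obtain ⟨θ', rfl⟩ := QuotientAddGroup.mk_surjective a'
  have h0 : SrfE_f ((θ : AddCircle (1 : ℝ)), r) = SrfE_f ((θ' : AddCircle (1 : ℝ)), r') := h
  rw [SrfE_f_coe, SrfE_f_coe] at h0
  have hr1 : (1 : ℝ) < r := r.2.1
  have hr2 : (r : ℝ) < 2 := r.2.2
  have hr1' : (1 : ℝ) < r' := r'.2.1
  have hr2' : (r' : ℝ) < 2 := r'.2.2
  have b1 : ∀ (s x : ℝ), 1 < s → s < 2 → |x| ≤ 1 → |s * x| < 2 := by
    intro s x hs1 hs2 hx
    rw [abs_mul, abs_of_pos (by linarith : (0 : ℝ) < s)]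
    nlinarith [abs_nonneg x]
  have c1 := b1 r _ hr1 hr2 (Real.abs_cos_le_one (2 * Real.pi * (θ + 1 / 8)))
  have c2 := b1 r' _ hr1' hr2' (Real.abs_cos_le_one (2 * Real.pi * (θ' + 1 / 8)))
  have c3 := b1 r _ hr1 hr2 (Real.abs_sin_le_one (2 * Real.pi * (θ + 1 / 8)))
  have c4 := b1 r' _ hr1' hr2' (Real.abs_sin_le_one (2 * Real.pi * (θ' + 1 / 8)))
  rw [abs_lt] at c1 c2 c3 c4
  obtain ⟨e1, e2⟩ := pt_inj (abs_lt.2 ⟨by linarith, by linarith⟩)
    (abs_lt.2 ⟨by linarith, by linarith⟩) h0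
  obtain ⟨e3, e4⟩ := polar_inj (by linarith) (by linarith) e1 e2
  rw [AddCircle.coe_add, AddCircle.coe_add] at e4
  have e5 : (θ : AddCircle (1 : ℝ)) = θ' := add_right_cancel e4
  exact Prod.ext e5 (Subtype.ext e3)

theorem SrfE_f_open : IsOpenMap SrfE_f := by
  intro U hU
  have hc : Continuous (fun z : Ioo (1 : ℝ) 2 × ℝ =>
      (((z.2 - 1 / 8 : ℝ) : AddCircle (1 : ℝ)), z.1)) :=
    (coe_cont.comp (continuous_snd.sub continuous_const)).prodMk continuous_fst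
  have h1 : SrfE_f '' U = (fun z : ℝ × ℝ => pt z.1 z.2) '' ((fun z : ℝ × ℝ => (0, (4 : ℝ)) + z) ''
      ((fun z : Ioo (1 : ℝ) 2 × ℝ => (((z.1 : ℝ) * Real.cos (2 * Real.pi * z.2),
        -4 + (z.1 : ℝ) * Real.sin (2 * Real.pi * z.2)) : ℝ × ℝ)) ''
        ((fun z : Ioo (1 : ℝ) 2 × ℝ => (((z.2 - 1 / 8 : ℝ) : AddCircle (1 : ℝ)), z.1)) ⁻¹' U))) := by
    rw [image_image, image_image]
    have key : ∀ z : Ioo (1 : ℝ) 2 × ℝ,
        SrfE_f (((z.2 - 1 / 8 : ℝ) : AddCircle (1 : ℝ)), z.1) =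
        pt ((0, (4 : ℝ)) + (((z.1 : ℝ) * Real.cos (2 * Real.pi * z.2),
          -4 + (z.1 : ℝ) * Real.sin (2 * Real.pi * z.2)) : ℝ × ℝ)).1
          ((0, (4 : ℝ)) + (((z.1 : ℝ) * Real.cos (2 * Real.pi * z.2),
          -4 + (z.1 : ℝ) * Real.sin (2 * Real.pi * z.2)) : ℝ × ℝ)).2 := by
      intro z
      rw [SrfE_f_coe, sub_add_cancel]
      simp
    ext y
    constructor
    · rintro ⟨⟨a, r⟩, ha, rfl⟩
      obtain ⟨θ, rfl⟩ := QuotientAddGroup.mk_surjective a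
      refine ⟨(r, θ + 1 / 8), ?_, ?_⟩
      · show (((θ + 1 / 8 - 1 / 8 : ℝ) : AddCircle (1 : ℝ)), r) ∈ U
        rw [add_sub_cancel_right]
        exact ha
      · refine (key (r, θ + 1 / 8)).symm.trans ?_
        simp only
        rw [add_sub_cancel_right]
    · rintro ⟨z, hz, rfl⟩
      exact ⟨_, hz, key z⟩
  rw [h1]
  exact SrfE_pt_open _ ((Homeomorph.addLeft ((0, 4) : ℝ × ℝ)).isOpenMap _
    (LS.RcB_planar _ (hU.preimage hc)))

theorem SrfE_f_mem (z : AddCircle (1 : ℝ) × Ioo (1 : ℝ) 2) :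
    (1 / 32 : ℝ) ^ 2 < ‖(SrfE_f z).1‖ ^ 2 +
      ‖(SrfE_f z).2 - ((1 / 2 : ℝ) : AddCircle (1 : ℝ))‖ ^ 2 := by
  obtain ⟨h1, h2⟩ := SrfE_abs (z.1 + ((1 / 8 : ℝ) : AddCircle (1 : ℝ))) z.2
  refine (pt_mem (by linarith) (by linarith)).2 ?_
  rw [SrfE_sq]
  have h3 : (1 : ℝ) < z.2 := z.2.2.1
  nlinarith

theorem SrfE_f_norm (z : AddCircle (1 : ℝ) × Ioo (1 : ℝ) 2) :
    ‖(SrfE_f z).1‖ ^ 2 + ‖(SrfE_f z).2 - ((1 / 2 : ℝ) : AddCircle (1 : ℝ))‖ ^ 2 =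
      (z.2 : ℝ) ^ 2 * (1 / 32) ^ 2 := by
  obtain ⟨h1, h2⟩ := SrfE_abs (z.1 + ((1 / 8 : ℝ) : AddCircle (1 : ℝ))) z.2
  unfold SrfE_f
  rw [SrfE_norm (by linarith) (by linarith), SrfE_sq]

theorem SrfE_ncont : Continuous (fun x : AddCircle (1 : ℝ) × AddCircle (1 : ℝ) =>
    ‖x.1‖ ^ 2 + ‖x.2 - ((1 / 2 : ℝ) : AddCircle (1 : ℝ))‖ ^ 2) :=
  ((continuous_norm.comp continuous_fst).pow 2).add
    ((continuous_norm.comp (continuous_snd.sub continuous_const)).pow 2)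

theorem SrfE_val : IsOpenEmbedding (fun x : SS => x.1) :=
  (isOpen_lt continuous_const SrfE_ncont).isOpenEmbedding_subtypeVal

/-- the collar -/
noncomputable def SrfE_col (z : AddCircle (1 : ℝ) × Ioo (1 : ℝ) 2) : SS := ⟨SrfE_f z, SrfE_f_mem z⟩

theorem SrfE_col_emb : IsOpenEmbedding SrfE_col := by
  refine IsOpenEmbedding.of_comp SrfE_col SrfE_val ?_
  exact IsOpenEmbedding.of_continuous_injective_isOpenMap SrfE_f_cont SrfE_f_inj SrfE_f_open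

/-- the square around a point -/
theorem SrfE_flat (x : SS) : ∃ c : OpenPartialHomeomorph SS (ℝ × ℝ), x ∈ c.source := by
  obtain ⟨v, h, -, -, hx⟩ := pt_surj x.1
  let B : Set (ℝ × ℝ) := Ioo (v - 1) (v + 1) ×ˢ Ioo (h - 1) (h + 1)
  have hB : IsOpen B := isOpen_Ioo.prod isOpen_Ioo
  have hvB : (v, h) ∈ B := ⟨⟨by simp, by simp⟩, ⟨by simp, by simp⟩⟩
  have hval : IsOpenEmbedding (fun z : B => z.1) := hB.isOpenEmbedding_subtypeVal
  have hemb : IsOpenEmbedding (fun z : B => pt z.1.1 z.1.2) := by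
    refine IsOpenEmbedding.of_continuous_injective_isOpenMap
      (SrfE_pt_cont.comp continuous_subtype_val) ?_ (SrfE_pt_open.comp hval.isOpenMap)
    rintro ⟨⟨a, b⟩, ⟨ha1, ha2⟩, ⟨hb1, hb2⟩⟩ ⟨⟨a', b'⟩, ⟨ha1', ha2'⟩, ⟨hb1', hb2'⟩⟩ e
    simp only at ha1 ha2 hb1 hb2 ha1' ha2' hb1' hb2' e
    obtain ⟨e1, e2⟩ := pt_inj (abs_lt.2 ⟨by linarith, by linarith⟩)
      (abs_lt.2 ⟨by linarith, by linarith⟩) e
    apply Subtype.ext
    exact Prod.ext e1 e2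
  have : Nonempty SS := ⟨x⟩
  have : Nonempty B := ⟨⟨(v, h), hvB⟩⟩
  refine ⟨(SrfE_val.toOpenPartialHomeomorph _).trans
    ((hemb.toOpenPartialHomeomorph _).symm.trans (hval.toOpenPartialHomeomorph _)), ?_⟩
  simp only [OpenPartialHomeomorph.trans_source, IsOpenEmbedding.toOpenPartialHomeomorph_source,
    OpenPartialHomeomorph.symm_source, IsOpenEmbedding.toOpenPartialHomeomorph_target,
    preimage_univ, inter_univ, univ_inter, mem_preimage,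
    IsOpenEmbedding.toOpenPartialHomeomorph_apply]
  exact ⟨⟨(v, h), hvB⟩, hx.symm⟩

theorem SrfE_closed (r : ℝ) (_hr : r < 2) : IsClosed (SrfE_col '' {z | (z.2 : ℝ) ≤ r}) := by
  rcases le_or_gt r 1 with h | h
  · have h1 : {z : AddCircle (1 : ℝ) × Ioo (1 : ℝ) 2 | (z.2 : ℝ) ≤ r} = ∅ := by
      ext z
      simp only [mem_empty_iff_false, iff_false]
      exact not_le.2 (lt_of_le_of_lt h z.2.2.1)
    rw [h1, image_empty]
    exact isClosed_empty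
  · have h1 : SrfE_col '' {z | (z.2 : ℝ) ≤ r} = {x : SS | ‖x.1.1‖ ^ 2 +
        ‖x.1.2 - ((1 / 2 : ℝ) : AddCircle (1 : ℝ))‖ ^ 2 ≤ r ^ 2 * (1 / 32) ^ 2} := by
      ext x
      constructor
      · rintro ⟨z, hz, rfl⟩
        show ‖(SrfE_f z).1‖ ^ 2 + ‖(SrfE_f z).2 - ((1 / 2 : ℝ) : AddCircle (1 : ℝ))‖ ^ 2 ≤ _
        rw [SrfE_f_norm]
        have h2 : (1 : ℝ) < z.2 := z.2.2.1
        have h3 : (z.2 : ℝ) ≤ r := hz
        have h4 : (z.2 : ℝ) ^ 2 ≤ r ^ 2 := pow_le_pow_left₀ (by linarith) h3 2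
        nlinarith
      · intro hx
        obtain ⟨v, w, hv, hw, hxv⟩ := pt_surj x.1
        have hx1 := x.2
        have hx2 : ‖x.1.1‖ ^ 2 + ‖x.1.2 - ((1 / 2 : ℝ) : AddCircle (1 : ℝ))‖ ^ 2 ≤
          r ^ 2 * (1 / 32) ^ 2 := hx
        rw [hxv] at hx1 hx2
        rw [pt_mem hv hw] at hx1
        rw [SrfE_norm hv hw] at hx2
        have h3 : v ^ 2 + w ^ 2 ≤ r ^ 2 := by nlinarith
        set ρ := Real.sqrt (v ^ 2 + w ^ 2) with hρ
        have hρ2 : ρ ^ 2 = v ^ 2 + w ^ 2 := Real.sq_sqrt (by positivity)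
        have hρ0 : 0 ≤ ρ := Real.sqrt_nonneg _
        have hρ1 : 1 < ρ := by nlinarith
        have hρr : ρ ≤ r := by
          by_contra hcon
          push Not at hcon
          nlinarith
        obtain ⟨θ, e1, e2⟩ := polar_exists (by linarith : 0 < ρ) hρ2.symm
        refine ⟨(((θ - 1 / 8 : ℝ) : AddCircle (1 : ℝ)), ⟨ρ, hρ1, by linarith⟩), hρr, ?_⟩
        apply Subtype.ext
        show SrfE_f _ = _
        rw [SrfE_f_coe, sub_add_cancel, hxv]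
        simp only
        rw [← e1, ← e2]
    rw [h1]
    exact isClosed_le (SrfE_ncont.comp continuous_subtype_val) continuous_const

/-- the surface with its end; the angle is rotated by `1 / 8` -/
theorem exists_E : ∃ E : Surf SS Unit, ∀ (θ : ℝ) (r : Ioo (1 : ℝ) 2),
    (E.collar () ((θ : AddCircle (1 : ℝ)), r)).1 =
      pt (r * Real.cos (2 * Real.pi * (θ + 1 / 8))) (r * Real.sin (2 * Real.pi * (θ + 1 / 8))) :=
  ⟨{  flat := SrfE_flat
      collar := fun _ => SrfE_col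
      emb := fun _ => SrfE_col_emb
      disj := fun _ _ _ _ _ => rfl
      closed := fun _ r hr => SrfE_closed r hr }, fun θ r => SrfE_f_coe θ r⟩

/-- the surface with its end -/
noncomputable def ES : Surf SS Unit := exists_E.choose

theorem ES_collar (θ : ℝ) (r : Ioo (1 : ℝ) 2) :
    (ES.collar () ((θ : AddCircle (1 : ℝ)), r)).1 =
      pt (r * Real.cos (2 * Real.pi * (θ + 1 / 8))) (r * Real.sin (2 * Real.pi * (θ + 1 / 8))) :=
  exists_E.choose_spec θ r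

end Pool.Agent.H.MP_1611f1_gt.BR
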