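import Pool.Agent.H.MP_1611f1_gt.BR.TreeMain
import Pool.Agent.H.MP_1611f1_gt.BR.Srf
import Pool.Agent.H.MP_1611f1_gt.G.Ex

/-!
Non-vacuity: the manifolds glued from exteriors of the Borromean rings exist and are Hausdorff,
for all patterns.
-/

namespace Pool.Agent.H.MP_1611f1_gt.BR

open Topology Set Filter G

theorem TreeEx_compact (ρ : ℝ) : IsCompact {z : LS.Cyl | LS.rr z.2 ≤ ρ ^ 2} := by
  have h1 : {z : LS.Cyl | LS.rr z.2 ≤ ρ ^ 2} =
      (univ : Set (AddCircle (1 : ℝ))) ×ˢ {z : ℝ × ℝ | LS.rr z ≤ ρ ^ 2} := by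
    ext z
    simp
  rw [h1]
  refine isCompact_univ.prod ?_
  have hc : Continuous LS.rr := by
    unfold LS.rr
    fun_prop
  have hk : IsCompact (Icc (-|ρ|) |ρ| ×ˢ Icc (-4 - |ρ|) (-4 + |ρ|)) :=
    isCompact_Icc.prod isCompact_Icc
  refine hk.of_isClosed_subset (isClosed_le hc continuous_const) ?_
  rintro ⟨u, s⟩ h
  have h2 : u ^ 2 + (s + 4) ^ 2 ≤ ρ ^ 2 := h
  have h3 : |u| ≤ |ρ| := by
    rw [← sq_le_sq]
    nlinarith [sq_nonneg (s + 4)]
  have h4 : |s + 4| ≤ |ρ| := by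
    rw [← sq_le_sq]
    nlinarith [sq_nonneg u]
  rw [abs_le] at h3 h4
  exact ⟨h3, ⟨by simp only; linarith [h4.1], by simp only; linarith [h4.2]⟩⟩

theorem TreeEx_val (i : Fin 3) (θ : ℝ) (r : Ioo (1 : ℝ) 2) (t : AddCircle (1 : ℝ)) :
    (T0.tor i ((θ : AddCircle (1 : ℝ)), r, t)).1 = cyl i (hh 4) (t, ((r : ℝ) * Real.cos (2 * Real.pi * θ),
      -4 + (r : ℝ) * Real.sin (2 * Real.pi * θ))) := by
  rw [T0_tor, ← Ends_val]
  obtain ⟨h1, h2⟩ := LS.SurgA_circle θ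
  unfold LS.SurgA_end
  simp only
  rw [h1, h2]

/-- the closed collars of the standard ends are closed -/
theorem T0_closed (j : Fin 3) (ρ : ℝ) (hρ : ρ < 2) :
    IsClosed (T0.tor j '' {w | (w.2.1 : ℝ) ≤ ρ}) := by
  rcases le_or_gt ρ 1 with h1 | h1
  · have : T0.tor j '' {w | (w.2.1 : ℝ) ≤ ρ} = ∅ := by
      rw [image_eq_empty, eq_empty_iff_forall_notMem]
      intro w hw
      have h2 : (w.2.1 : ℝ) ≤ ρ := hw
      linarith [w.2.1.2.1]
    rw [this]
    exact isClosed_empty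
  have key : T0.tor j '' {w | (w.2.1 : ℝ) ≤ ρ} =
      Subtype.val ⁻¹' (cyl j (hh 4) '' {z : LS.Cyl | LS.rr z.2 ≤ ρ ^ 2}) := by
    ext x
    constructor
    · rintro ⟨⟨a, r, t⟩, hw, rfl⟩
      obtain ⟨θ, rfl⟩ := QuotientAddGroup.mk_surjective a
      refine ⟨_, ?_, (TreeEx_val j θ r t).symm⟩
      have h2 : (r : ℝ) ≤ ρ := hw
      have h3 := Real.cos_sq_add_sin_sq (2 * Real.pi * θ)
      have h4 := r.2.1
      show ((r : ℝ) * Real.cos (2 * Real.pi * θ)) ^ 2 +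
        (-4 + (r : ℝ) * Real.sin (2 * Real.pi * θ) + 4) ^ 2 ≤ ρ ^ 2
      have h5 : ((r : ℝ) * Real.cos (2 * Real.pi * θ)) ^ 2 +
        (-4 + (r : ℝ) * Real.sin (2 * Real.pi * θ) + 4) ^ 2 = (r : ℝ) ^ 2 := by
        linear_combination (r : ℝ) ^ 2 * h3
      rw [h5]
      nlinarith
    · rintro ⟨⟨t, u, s⟩, hz, hx⟩
      have h2 : u ^ 2 + (s + 4) ^ 2 ≤ ρ ^ 2 := hz
      have h3 : 1 < u ^ 2 + (s + 4) ^ 2 := by
        by_contra h
        refine x.2 j ?_
        rw [← hh_KK j 4]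
        exact ⟨(t, u, s), not_lt.1 h, hx⟩
      have h4 : 1 < Real.sqrt (u ^ 2 + (s + 4) ^ 2) := by
        rw [Real.lt_sqrt (by norm_num)]
        linarith
      have h5 : Real.sqrt (u ^ 2 + (s + 4) ^ 2) ≤ ρ := by
        rw [Real.sqrt_le_left (by linarith)]
        exact h2
      obtain ⟨θ, e1, e2⟩ := polar_exists (v := u) (h := s + 4)
        (r := Real.sqrt (u ^ 2 + (s + 4) ^ 2)) (by linarith)
        (Real.sq_sqrt (by positivity)).symm
      refine ⟨((θ : AddCircle (1 : ℝ)), ⟨_, h4, by linarith⟩, t), h5, ?_⟩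
      apply Subtype.ext
      rw [TreeEx_val, ← hx]
      simp only
      rw [← e1, ← e2]
      congr 3
      ring
  rw [key]
  have h3 : IsCompact (cyl j (hh 4) '' {z : LS.Cyl | LS.rr z.2 ≤ ρ ^ 2}) :=
    (TreeEx_compact ρ).image (Ends_hN j).continuous
  exact h3.isClosed.preimage continuous_subtype_val

/-- all patterns of exteriors of the Borromean rings are realized by Hausdorff spaces -/
theorem exists_trees {V : Type} (G : Pattern (Σ _ : V, Fin 3)) :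
    ∃ (Y : Type) (_ : TopologicalSpace Y) (_ : T2Space Y),
      Nonempty (Union (fun _ : V => T0) G Y) :=
  exists_union_t2 (fun _ : V => T0) G fun _ j ρ hρ => T0_closed j ρ hρ

end Pool.Agent.H.MP_1611f1_gt.BR
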