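import Pool.Agent.H.MP_1611f1_gt.BR.Slo

/-!
Manifolds glued along a forest from exteriors of the Borromean rings and other manifolds with
toral ends.
-/

namespace Pool.Agent.H.MP_1611f1_gt.BR

open Topology Set Filter G

/-- gluing along a forest, in terms of slopes -/
theorem slopes_taut {V : Type*} {M : V → Type*} [∀ v, TopologicalSpace (M v)] {J : V → Type*}
    (T : ∀ v, Ended (M v) (J v)) (G : Pattern (Σ v, J v)) (hF : G.Forest)
    {Y : Type*} [TopologicalSpace Y] (U : Union T G Y) (r : (Σ v, J v) → ℝ)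
    (hfill : ∀ e, G.τ e = e → G.de e ≠ 0 ∧ r e = G.ga e / G.de e)
    (hglue : ∀ e, G.τ e ≠ e →
      r e * (G.be e * r (G.τ e) + G.de e) = G.al e * r (G.τ e) + G.ga e)
    (hr : ∀ v, Slopes (T v) fun j => r ⟨v, j⟩) : ∃ F : Foliation Y, F.Taut := by
  refine glue_taut_forest T G hF U r (fun _ => 1) (fun e => Or.inr one_ne_zero)
    (fun v => ?_) (fun e he => ?_) (fun e he => ?_)
  · obtain ⟨κ, hκ, h⟩ := hr v
    refine ⟨κ, hκ, ?_⟩
    simp only [mul_one]
    exact h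
  · refine ⟨G.be e * r (G.τ e) + G.de e, ?_, ?_, by ring⟩
    · intro h0
      have h1 := hglue e he
      rw [h0, mul_zero] at h1
      have hd : (G.al e * G.de e - G.be e * G.ga e : ℝ) = -1 := by
        exact_mod_cast G.det_glue e he
      have : (G.al e * G.de e - G.be e * G.ga e : ℝ) = 0 := by
        linear_combination (G.al e : ℝ) * h0 + (G.be e : ℝ) * h1
      linarith
    · rw [mul_one, mul_comm]
      exact hglue e he
  · obtain ⟨h1, h2⟩ := hfill e he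
    have h1' : (G.de e : ℝ) ≠ 0 := by exact_mod_cast h1
    refine ⟨(G.de e : ℝ)⁻¹, inv_ne_zero h1', ?_, ?_⟩
    · rw [h2, div_eq_inv_mul]
    · rw [inv_mul_cancel₀ h1']

/-- **Borromean trees.** -/
theorem trees {V : Type*} {M : V → Type*} [∀ v, TopologicalSpace (M v)] {J : V → Type*}
    (T : ∀ v, Ended (M v) (J v)) (G : Pattern (Σ v, J v)) (hF : G.Forest)
    {Y : Type*} [TopologicalSpace Y] (U : Union T G Y) (B : Set V)
    (hB : ∀ v ∈ B, Nonempty (IsB (T v))) (hfill : ∀ e, G.τ e = e → G.de e ≠ 0) :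
    (∀ r : (Σ v, J v) → ℝ, (∀ e, G.τ e = e → r e = G.ga e / G.de e) →
      (∀ e, G.τ e ≠ e →
        r e * (G.be e * r (G.τ e) + G.de e) = G.al e * r (G.τ e) + G.ga e) →
      (∀ v ∈ B, Region fun j => r ⟨v, j⟩) → (∀ v ∉ B, Slopes (T v) fun j => r ⟨v, j⟩) →
      ∃ F : Foliation Y, F.Taut) ∧
    ((∀ e, G.τ e ≠ e → G.al e * G.de e = 0) →
      (∀ v ∈ B, (∀ j, G.τ ⟨v, j⟩ = ⟨v, j⟩) →
        Region fun j => (G.ga ⟨v, j⟩ / G.de ⟨v, j⟩ : ℝ)) →
      (∀ v ∉ B, (∀ j, G.τ ⟨v, j⟩ ≠ ⟨v, j⟩ ∧ (G.τ ⟨v, j⟩).1 ∈ B) ∧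
        ∀ δ : J v → ℝ, (∀ j, δ j ≠ 0) →
          ∃ s : J v → ℝ, (∀ j, 0 < s j / δ j ∧ s j / δ j < 1) ∧ Slopes (T v) s) →
      ∃ F : Foliation Y, F.Taut) := by
  constructor
  · intro r h1 h2 h3 h4
    refine slopes_taut T G hF U r (fun e he => ⟨hfill e he, h1 e he⟩) h2 fun v => ?_
    by_cases hv : v ∈ B
    · obtain ⟨c⟩ := hB v hv
      exact c.slopes (h3 v hv)
    · exact h4 v hv
  · intro h1 h2 h3
    obtain ⟨r, a1, a2, a3, a4⟩ := exists_slopes G hF B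
      (fun v hv j => by
        obtain ⟨c⟩ := hB v hv
        exact c.nontrivial j)
      h1 (fun e => (G.ga e / G.de e : ℝ)) h2 (fun v s => Slopes (T v) s) h3
    refine slopes_taut T G hF U r (fun e he => ⟨hfill e he, a1 e he⟩) a2 fun v => ?_
    by_cases hv : v ∈ B
    · obtain ⟨c⟩ := hB v hv
      exact c.slopes (a3 v hv)
    · exact a4 v hv

end Pool.Agent.H.MP_1611f1_gt.BR
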